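import Mathlib

set_option autoImplicit false

namespace Pool.Agent.Helper81K9.Bran

open Finset

/-- Generalised binomial coefficient. -/
noncomputable def bc (α : ℝ) (k : ℕ) : ℝ := (∏ j ∈ Finset.range k, (α - (j : ℝ))) / (k.factorial : ℝ)

/-- Partial sums of the binomial series. -/
noncomputable def bS (α : ℝ) (m : ℕ) (x : ℂ) : ℂ := ∑ k ∈ Finset.range (m + 1), (bc α k : ℂ) * x ^ k

/-- Partial sums at `1`. -/
noncomputable def bM (α : ℝ) (m : ℕ) : ℝ := ∑ k ∈ Finset.range (m + 1), bc α k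

lemma bc_zero (α : ℝ) : bc α 0 = 1 := by simp [bc]

lemma bc_one (α : ℝ) : bc α 1 = α := by simp [bc]

lemma bc_succ (α : ℝ) (k : ℕ) : bc α (k + 1) = bc α k * (α - k) / (k + 1) := by
  unfold bc
  rw [Finset.prod_range_succ, Nat.factorial_succ]
  have h1 : (k.factorial : ℝ) ≠ 0 := by positivity
  have h2 : ((k : ℝ) + 1) ≠ 0 := by positivity
  push_cast
  field_simp

lemma bc_succ' (α : ℝ) (k : ℕ) : (k + 1) * bc α (k + 1) = bc α k * (α - k) := by
  rw [bc_succ]
  have h2 : ((k : ℝ) + 1) ≠ 0 := by positivity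
  field_simp

lemma bc_shift (α : ℝ) (k : ℕ) : (k + 1) * bc α (k + 1) = α * bc (α - 1) k := by
  unfold bc
  rw [Finset.prod_range_succ', Nat.factorial_succ]
  have h1 : (k.factorial : ℝ) ≠ 0 := by positivity
  have h2 : ((k : ℝ) + 1) ≠ 0 := by positivity
  have h3 : ∏ j ∈ Finset.range k, (α - ((j + 1 : ℕ) : ℝ)) = ∏ j ∈ Finset.range k, (α - 1 - (j : ℝ)) := by
    apply Finset.prod_congr rfl
    intro j _
    push_cast
    ring
  rw [h3]
  push_cast
  field_simp
  ring

lemma bc_pascal (α : ℝ) (k : ℕ) : bc α (k + 1) = bc (α - 1) (k + 1) + bc (α - 1) k := by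
  have h2 : ((k : ℝ) + 1) ≠ 0 := by positivity
  have e1 := bc_shift α k
  have e2 := bc_succ' (α - 1) k
  have : ((k : ℝ) + 1) * bc α (k + 1) = (k + 1) * (bc (α - 1) (k + 1) + bc (α - 1) k) := by
    rw [mul_add, e1, e2]
    ring
  exact mul_left_cancel₀ h2 this

lemma bS_zero (α : ℝ) (x : ℂ) : bS α 0 x = 1 := by simp [bS, bc_zero]

lemma bM_zero (α : ℝ) : bM α 0 = 1 := by simp [bM, bc_zero]

lemma bS_succ (α : ℝ) (m : ℕ) (x : ℂ) : bS α (m + 1) x = bS α m x + (bc α (m + 1) : ℂ) * x ^ (m + 1) := by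
  unfold bS
  rw [Finset.sum_range_succ]

lemma bM_succ (α : ℝ) (m : ℕ) : bM α (m + 1) = bM α m + bc α (m + 1) := by
  unfold bM
  rw [Finset.sum_range_succ]

lemma bS_pascal (α : ℝ) (m : ℕ) (x : ℂ) : bS α (m + 1) x = bS (α - 1) (m + 1) x + x * bS (α - 1) m x := by
  induction m with
  | zero =>
    rw [bS_succ, bS_succ, bS_zero, bS_zero, bc_one, bc_one]
    push_cast
    ring
  | succ m ih =>
    rw [bS_succ, ih, bS_succ (α - 1) (m + 1), bS_succ (α - 1) m, bc_pascal α (m + 1)]
    push_cast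
    ring

lemma bM_pascal (α : ℝ) (m : ℕ) : bM α (m + 1) = bM (α - 1) (m + 1) + bM (α - 1) m := by
  induction m with
  | zero =>
    rw [bM_succ, bM_succ, bM_zero, bM_zero, bc_one, bc_one]
    ring
  | succ m ih =>
    rw [bM_succ, ih, bM_succ (α - 1) (m + 1), bM_succ (α - 1) m, bc_pascal α (m + 1)]
    ring

lemma norm_pow_one {x : ℂ} (hx : ‖x‖ = 1) (k : ℕ) : ‖x ^ k‖ = 1 := by
  rw [norm_pow, hx, one_pow]

/-- The step from `α - 1` to `α`. -/
lemma step (α : ℝ) (h : ∀ m : ℕ, ∀ x : ℂ, ‖x‖ = 1 → ‖bS (α - 1) m x‖ ≤ bM (α - 1) m) :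
    ∀ m : ℕ, ∀ x : ℂ, ‖x‖ = 1 → ‖bS α m x‖ ≤ bM α m := by
  intro m x hx
  cases m with
  | zero => rw [bS_zero, bM_zero]; simp
  | succ m =>
    rw [bS_pascal, bM_pascal]
    refine (norm_add_le _ _).trans ?_
    rw [norm_mul, hx, one_mul]
    exact add_le_add (h _ _ hx) (h _ _ hx)

/-! ### The case `1 ≤ α < 2` -/

section one

variable {α : ℝ} (h1 : 1 ≤ α) (h2 : α < 2)

include h1 h2

lemma sgn : ∀ k : ℕ, 0 ≤ (-1 : ℝ) ^ k * bc α (k + 2) := by
  intro k
  have hk0 : bc α 2 = α * (α - 1) / 2 := by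
    rw [bc_succ, bc_one]; norm_num
  induction k with
  | zero =>
    simp only [pow_zero, one_mul, zero_add]
    rw [hk0]
    have : 0 ≤ α - 1 := by linarith
    positivity
  | succ k ih =>
    have e := bc_succ' α (k + 2)
    have e' : (-1 : ℝ) ^ (k + 1) * bc α (k + 1 + 2) = ((-1 : ℝ) ^ k * bc α (k + 2)) * ((k + 2 - α) / (k + 3)) := by
      have h3 : ((k : ℝ) + 3) ≠ 0 := by positivity
      have : bc α (k + 1 + 2) = bc α (k + 2) * (α - (k + 2)) / (k + 3) := by
        rw [show k + 1 + 2 = (k + 2) + 1 by ring, bc_succ]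
        push_cast
        ring
      rw [this, pow_succ]
      field_simp
      ring
    rw [e']
    apply mul_nonneg ih
    apply div_nonneg _ (by positivity)
    have : (0 : ℝ) ≤ k := Nat.cast_nonneg k
    linarith

lemma abs_bc (k : ℕ) : |bc α (k + 2)| = (-1 : ℝ) ^ k * bc α (k + 2) := by
  have h := sgn h1 h2 k
  rcases neg_one_pow_eq_or ℝ k with hk | hk
  · rw [hk] at h ⊢
    rw [one_mul] at h ⊢
    exact abs_of_nonneg h
  · rw [hk] at h ⊢
    rw [abs_of_nonpos (by linarith)]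
    ring

lemma abs_bc_succ (k : ℕ) : |bc α (k + 3)| = |bc α (k + 2)| * ((k + 2 - α) / (k + 3)) := by
  have : bc α (k + 3) = bc α (k + 2) * ((α - (k + 2)) / (k + 3)) := by
    rw [show k + 3 = (k + 2) + 1 by ring, bc_succ]
    push_cast
    ring
  rw [this, abs_mul]
  congr 1
  rw [abs_div, abs_of_nonpos, abs_of_pos]
  · ring
  · positivity
  · have : (0 : ℝ) ≤ k := Nat.cast_nonneg k
    linarith

/-- `∑_{k ≤ m} |C_k| + (m+1) |C_{m+1}| / α = 2 α` for `m ≥ 1`. -/
lemma sum_abs (m : ℕ) : α * ∑ k ∈ Finset.range (m + 2), |bc α k| + (m + 2) * |bc α (m + 2)| = 2 * α ^ 2 := by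
  have hα : 0 < α := by linarith
  induction m with
  | zero =>
    have hk0 : bc α 2 = α * (α - 1) / 2 := by
      rw [bc_succ, bc_one]; norm_num
    rw [Finset.sum_range_succ, Finset.sum_range_one]
    simp only [zero_add]
    rw [bc_zero, bc_one, hk0, abs_one, abs_of_pos hα, abs_of_nonneg]
    · push_cast
      ring
    · have : 0 ≤ α - 1 := by linarith
      positivity
  | succ m ih =>
    rw [Finset.sum_range_succ, mul_add]
    have e := abs_bc_succ h1 h2 m
    have h3 : ((m : ℝ) + 3) ≠ 0 := by positivity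
    have e2 : ((m + 1 : ℕ) + 2 : ℝ) * |bc α (m + 1 + 2)| = |bc α (m + 2)| * (m + 2 - α) := by
      rw [show m + 1 + 2 = m + 3 by ring, e]
      push_cast
      field_simp
      ring
    rw [e2]
    linear_combination ih

lemma sum_abs_le (m : ℕ) : ∑ k ∈ Finset.range (m + 2), |bc α k| ≤ 2 * α := by
  have hα : 0 < α := by linarith
  have h := sum_abs h1 h2 m
  have h3 : 0 ≤ ((m : ℝ) + 2) * |bc α (m + 2)| := by positivity
  have : α * ∑ k ∈ Finset.range (m + 2), |bc α k| ≤ α * (2 * α) := by nlinarith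
  exact le_of_mul_le_mul_left this hα

/-- `(m+2) |C_{m+2}| (m + 3/2) ≤ (5/16) α` -/
lemma bc_bound (m : ℕ) : ((m : ℝ) + 3) * |bc α (m + 3)| * (m + 5 / 2) ≤ 5 / 16 * α := by
  have hα : 0 < α := by linarith
  have key : ∀ m : ℕ, ((m : ℝ) + 3) * |bc α (m + 3)| * (m + 2) ≤ α * (α - 1) * (2 - α) := by
    intro m
    induction m with
    | zero =>
      have hk0 : bc α 2 = α * (α - 1) / 2 := by
        rw [bc_succ, bc_one]; norm_num
      rw [abs_bc_succ h1 h2, hk0]
      rw [abs_of_nonneg]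
      · apply le_of_eq
        push_cast
        ring
      · have : 0 ≤ α - 1 := by linarith
        positivity
    | succ m ih =>
      refine le_trans ?_ ih
      rw [show m + 1 + 3 = (m + 1) + 3 by ring, abs_bc_succ h1 h2 (m + 1)]
      have h3 : ((m : ℝ) + 1 + 3) ≠ 0 := by positivity
      have e : (((m + 1 : ℕ) : ℝ) + 3) * (|bc α (m + 1 + 2)| * ((((m + 1 : ℕ) : ℝ) + 2 - α) / (((m + 1 : ℕ) : ℝ) + 3))) * (((m + 1 : ℕ) : ℝ) + 2)
          = |bc α (m + 3)| * ((m + 3 - α) * (m + 3)) := by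
        push_cast
        rw [show m + 1 + 2 = m + 3 by ring]
        field_simp
        ring
      rw [e]
      have hb : 0 ≤ |bc α (m + 3)| := abs_nonneg _
      have : (m + 3 - α) * (m + 3) ≤ ((m : ℝ) + 3) * (m + 2) := by nlinarith
      calc |bc α (m + 3)| * ((m + 3 - α) * (m + 3)) ≤ |bc α (m + 3)| * (((m : ℝ) + 3) * (m + 2)) :=
            mul_le_mul_of_nonneg_left this hb
        _ = _ := by ring
  have hk := key m
  have hq : α * (α - 1) * (2 - α) ≤ α * (1 / 4) := by
    have : (α - 1) * (2 - α) ≤ 1 / 4 := by nlinarith [sq_nonneg (α - 3 / 2)]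
    nlinarith
  have hb : 0 ≤ ((m : ℝ) + 3) * |bc α (m + 3)| := by positivity
  have hm : (m : ℝ) + 5 / 2 ≤ 5 / 4 * (m + 2) := by
    have : (0 : ℝ) ≤ m := Nat.cast_nonneg m
    linarith
  calc ((m : ℝ) + 3) * |bc α (m + 3)| * (m + 5 / 2) ≤ ((m : ℝ) + 3) * |bc α (m + 3)| * (5 / 4 * (m + 2)) :=
        mul_le_mul_of_nonneg_left hm hb
    _ = 5 / 4 * (((m : ℝ) + 3) * |bc α (m + 3)| * (m + 2)) := by ring
    _ ≤ 5 / 4 * (α * (1 / 4)) := by linarith
    _ = 5 / 16 * α := by ring

/-- lower bound for the value at `1`. -/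
lemma bM_lower (m : ℕ) : 1 + α ≤ bM α (m + 1) := by
  have hdec : ∀ k : ℕ, |bc α (k + 3)| ≤ |bc α (k + 2)| := by
    intro k
    rw [abs_bc_succ h1 h2]
    apply mul_le_of_le_one_right (abs_nonneg _)
    rw [div_le_one (by positivity)]
    linarith
  have key : ∀ m : ℕ, (Even m → 1 + α ≤ bM α (m + 1)) ∧ (Odd m → 1 + α + |bc α (m + 1)| ≤ bM α (m + 1)) := by
    intro m
    induction m with
    | zero =>
      refine ⟨fun _ => ?_, fun h => absurd h (by decide)⟩
      rw [bM_succ, bM_zero, bc_one]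
    | succ m ih =>
      constructor
      · intro he
        have hm : Odd m := by
          rcases Nat.even_or_odd m with h | h
          · exact absurd he (by rw [Nat.even_add_one]; simpa using h)
          · exact h
        have := ih.2 hm
        rw [bM_succ]
        obtain ⟨j, rfl⟩ := hm
        have h5 := hdec (2 * j)
        have h6 := neg_abs_le (bc α (2 * j + 1 + 1 + 1))
        have e1 : 2 * j + 1 + 1 + 1 = 2 * j + 3 := by ring
        have e2 : 2 * j + 1 + 1 = 2 * j + 2 := by ring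
        rw [e1] at h6 ⊢
        rw [e2] at this ⊢
        linarith
      · intro ho
        have hm : Even m := by
          rcases Nat.even_or_odd m with h | h
          · exact h
          · exact absurd ho (by rw [Nat.odd_add_one]; simpa using h)
        have := ih.1 hm
        rw [bM_succ]
        have h7 : |bc α (m + 1 + 1)| = bc α (m + 1 + 1) := by
          have := abs_bc h1 h2 m
          rw [hm.neg_one_pow, one_mul] at this
          exact this
        rw [h7]
        linarith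
  rcases Nat.even_or_odd m with h | h
  · exact (key m).1 h
  · have := (key m).2 h
    have h8 := abs_nonneg (bc α (m + 1))
    linarith

end one

end Pool.Agent.Helper81K9.Bran
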