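import Pool.Agent.Helper81K9.BranA

set_option autoImplicit false

namespace Pool.Agent.Helper81K9.Bran

open Finset Real

noncomputable def fA (α : ℝ) (m : ℕ) (φ : ℝ) : ℝ := ∑ k ∈ Finset.range (m + 1), bc α k * cos (2 * k * φ)
noncomputable def fB (α : ℝ) (m : ℕ) (φ : ℝ) : ℝ := ∑ k ∈ Finset.range (m + 1), bc α k * sin (2 * k * φ)
noncomputable def dA (α : ℝ) (m : ℕ) (φ : ℝ) : ℝ :=
  ∑ k ∈ Finset.range (m + 1), bc α k * (-(2 * k * sin (2 * k * φ)))
noncomputable def dB (α : ℝ) (m : ℕ) (φ : ℝ) : ℝ :=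
  ∑ k ∈ Finset.range (m + 1), bc α k * (2 * k * cos (2 * k * φ))

lemma fA_deriv (α : ℝ) (m : ℕ) (φ : ℝ) : HasDerivAt (fA α m) (dA α m φ) φ := by
  unfold fA dA
  apply HasDerivAt.fun_sum
  intro k _
  apply HasDerivAt.const_mul
  have h : HasDerivAt (fun y : ℝ => 2 * (k : ℝ) * y) (2 * k) φ := by
    simpa using (hasDerivAt_id φ).const_mul (2 * (k : ℝ))
  exact h.cos.congr_deriv (by ring)

lemma fB_deriv (α : ℝ) (m : ℕ) (φ : ℝ) : HasDerivAt (fB α m) (dB α m φ) φ := by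
  unfold fB dB
  apply HasDerivAt.fun_sum
  intro k _
  apply HasDerivAt.const_mul
  have h : HasDerivAt (fun y : ℝ => 2 * (k : ℝ) * y) (2 * k) φ := by
    simpa using (hasDerivAt_id φ).const_mul (2 * (k : ℝ))
  exact h.sin.congr_deriv (by ring)

lemma idA (α : ℝ) (m : ℕ) (φ : ℝ) :
    cos φ * dA α m φ = -α * (sin φ * fA α m φ + cos φ * fB α m φ)
      + (m + 1) * bc α (m + 1) * sin ((2 * m + 1) * φ) := by
  induction m with
  | zero =>
    simp [dA, fA, fB, bc_zero, bc_one]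
  | succ m ih =>
    have e1 : dA α (m + 1) φ = dA α m φ + bc α (m + 1) * (-(2 * ((m + 1 : ℕ) : ℝ) * sin (2 * ((m + 1 : ℕ) : ℝ) * φ))) := by
      unfold dA; rw [Finset.sum_range_succ]
    have e2 : fA α (m + 1) φ = fA α m φ + bc α (m + 1) * cos (2 * ((m + 1 : ℕ) : ℝ) * φ) := by
      unfold fA; rw [Finset.sum_range_succ]
    have e3 : fB α (m + 1) φ = fB α m φ + bc α (m + 1) * sin (2 * ((m + 1 : ℕ) : ℝ) * φ) := by
      unfold fB; rw [Finset.sum_range_succ]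
    have e4 := bc_succ' α (m + 1)
    rw [e1, e2, e3]
    push_cast at e4 ⊢
    have h1 : (2 * ((m : ℝ) + 1) + 1) * φ = 2 * (m + 1) * φ + φ := by ring
    have h2 : (2 * (m : ℝ) + 1) * φ = 2 * (m + 1) * φ - φ := by ring
    rw [h2] at ih
    rw [h1]
    rw [sin_sub] at ih
    rw [sin_add]
    linear_combination ih - (sin (2 * (m + 1) * φ) * cos φ + cos (2 * (m + 1) * φ) * sin φ) * e4

lemma idB (α : ℝ) (m : ℕ) (φ : ℝ) :
    cos φ * dB α m φ = α * (cos φ * fA α m φ - sin φ * fB α m φ)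
      - (m + 1) * bc α (m + 1) * cos ((2 * m + 1) * φ) := by
  induction m with
  | zero =>
    simp [dB, fA, fB, bc_zero, bc_one]
  | succ m ih =>
    have e1 : dB α (m + 1) φ = dB α m φ + bc α (m + 1) * (2 * ((m + 1 : ℕ) : ℝ) * cos (2 * ((m + 1 : ℕ) : ℝ) * φ)) := by
      unfold dB; rw [Finset.sum_range_succ]
    have e2 : fA α (m + 1) φ = fA α m φ + bc α (m + 1) * cos (2 * ((m + 1 : ℕ) : ℝ) * φ) := by
      unfold fA; rw [Finset.sum_range_succ]
    have e3 : fB α (m + 1) φ = fB α m φ + bc α (m + 1) * sin (2 * ((m + 1 : ℕ) : ℝ) * φ) := by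
      unfold fB; rw [Finset.sum_range_succ]
    have e4 := bc_succ' α (m + 1)
    rw [e1, e2, e3]
    push_cast at e4 ⊢
    have h1 : (2 * ((m : ℝ) + 1) + 1) * φ = 2 * (m + 1) * φ + φ := by ring
    have h2 : (2 * (m : ℝ) + 1) * φ = 2 * (m + 1) * φ - φ := by ring
    rw [h2] at ih
    rw [h1]
    rw [cos_sub] at ih
    rw [cos_add]
    linear_combination ih + (cos (2 * (m + 1) * φ) * cos φ - sin (2 * (m + 1) * φ) * sin φ) * e4

lemma gsum (α : ℝ) (m : ℕ) (φ : ℝ) :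
    fA α m φ * sin ((2 * m + 1) * φ) - fB α m φ * cos ((2 * m + 1) * φ)
      = ∑ k ∈ Finset.range (m + 1), bc α k * sin ((2 * m + 1 - 2 * k) * φ) := by
  unfold fA fB
  rw [Finset.sum_mul, Finset.sum_mul, ← Finset.sum_sub_distrib]
  apply Finset.sum_congr rfl
  intro k _
  have : (2 * (m : ℝ) + 1 - 2 * k) * φ = (2 * m + 1) * φ - 2 * k * φ := by ring
  rw [this, sin_sub]
  ring

lemma gbound {α : ℝ} (h1 : 1 ≤ α) (h2 : α < 2) (m : ℕ) (hm : 1 ≤ m) (φ : ℝ) (hφ : 0 ≤ φ) :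
    |fA α m φ * sin ((2 * m + 1) * φ) - fB α m φ * cos ((2 * m + 1) * φ)| ≤ (2 * m + 1) * φ * (2 * α) := by
  rw [gsum]
  obtain ⟨n, rfl⟩ : ∃ n, m = n + 1 := ⟨m - 1, by omega⟩
  calc |∑ k ∈ Finset.range (n + 1 + 1), bc α k * sin ((2 * ((n + 1 : ℕ) : ℝ) + 1 - 2 * k) * φ)|
      ≤ ∑ k ∈ Finset.range (n + 1 + 1), |bc α k * sin ((2 * ((n + 1 : ℕ) : ℝ) + 1 - 2 * k) * φ)| :=
        Finset.abs_sum_le_sum_abs _ _
    _ ≤ ∑ k ∈ Finset.range (n + 1 + 1), |bc α k| * ((2 * ((n + 1 : ℕ) : ℝ) + 1) * φ) := by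
        apply Finset.sum_le_sum
        intro k hk
        rw [abs_mul]
        apply mul_le_mul_of_nonneg_left _ (abs_nonneg _)
        rw [Finset.mem_range] at hk
        have hk' : (k : ℝ) ≤ ((n + 1 : ℕ) : ℝ) := by exact_mod_cast Nat.lt_succ_iff.mp hk
        have hk0 : (0 : ℝ) ≤ k := Nat.cast_nonneg k
        have hpos : 0 ≤ (2 * ((n + 1 : ℕ) : ℝ) + 1 - 2 * k) * φ := by
          apply mul_nonneg _ hφ
          linarith
        calc |sin ((2 * ((n + 1 : ℕ) : ℝ) + 1 - 2 * k) * φ)| ≤ |(2 * ((n + 1 : ℕ) : ℝ) + 1 - 2 * k) * φ| :=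
              abs_sin_le_abs
          _ = (2 * ((n + 1 : ℕ) : ℝ) + 1 - 2 * k) * φ := abs_of_nonneg hpos
          _ ≤ (2 * ((n + 1 : ℕ) : ℝ) + 1) * φ := by
              apply mul_le_mul_of_nonneg_right _ hφ
              linarith
    _ = (∑ k ∈ Finset.range (n + 2), |bc α k|) * ((2 * ((n + 1 : ℕ) : ℝ) + 1) * φ) := by
        rw [Finset.sum_mul]
    _ ≤ (2 * α) * ((2 * ((n + 1 : ℕ) : ℝ) + 1) * φ) := by
        apply mul_le_mul_of_nonneg_right (sum_abs_le h1 h2 n)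
        positivity
    _ = _ := by ring

/-- The square of the modulus at `e^{2iφ}`. -/
noncomputable def fF (α : ℝ) (m : ℕ) (φ : ℝ) : ℝ := fA α m φ ^ 2 + fB α m φ ^ 2

lemma fF_deriv (α : ℝ) (m : ℕ) (φ : ℝ) :
    HasDerivAt (fF α m) (2 * (fA α m φ * dA α m φ + fB α m φ * dB α m φ)) φ := by
  unfold fF
  have ha := (fA_deriv α m φ).fun_pow 2
  have hb := (fB_deriv α m φ).fun_pow 2
  exact (ha.fun_add hb).congr_deriv (by ring)

lemma fF_zero (α : ℝ) (m : ℕ) : fF α m 0 = bM α m ^ 2 := by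
  simp [fF, fA, fB, bM]

lemma fF_le {α : ℝ} (h1 : 1 ≤ α) (h2 : α < 2) (m : ℕ) (φ : ℝ) (hφ : φ ∈ Set.Icc 0 (π / 2)) :
    fF α (m + 2) φ ≤ bM α (m + 2) ^ 2 := by
  have hα : 0 < α := by linarith
  have hcont : ContinuousOn (fF α (m + 2)) (Set.Icc 0 (π / 2)) :=
    fun y _ => (fF_deriv α (m + 2) y).continuousAt.continuousWithinAt
  obtain ⟨p, hp, hmax⟩ := isCompact_Icc.exists_isMaxOn (⟨0, by constructor <;> [exact le_rfl; positivity]⟩ : (Set.Icc (0:ℝ) (π / 2)).Nonempty) hcont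
  rw [← fF_zero]
  by_contra hlt
  push Not at hlt
  have hle : fF α (m + 2) φ ≤ fF α (m + 2) p := hmax hφ
  have hgt : fF α (m + 2) 0 < fF α (m + 2) p := lt_of_lt_of_le hlt hle
  have hp0 : 0 < p := by
    rcases hp.1.eq_or_lt with h | h
    · rw [← h] at hgt; exact absurd hgt (lt_irrefl _)
    · exact h
  -- the critical point identity
  have hcrit : cos p * (2 * (fA α (m + 2) p * dA α (m + 2) p + fB α (m + 2) p * dB α (m + 2) p)) = 0 := by
    rcases hp.2.eq_or_lt with h | h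
    · rw [h, cos_pi_div_two, zero_mul]
    · have hloc : IsLocalMax (fF α (m + 2)) p := hmax.isLocalMax (Icc_mem_nhds hp0 h)
      have := hloc.hasDerivAt_eq_zero (fF_deriv α (m + 2) p)
      rw [this, mul_zero]
  have hA := idA α (m + 2) p
  have hB := idB α (m + 2) p
  set g := fA α (m + 2) p * sin ((2 * ((m + 2 : ℕ) : ℝ) + 1) * p) - fB α (m + 2) p * cos ((2 * ((m + 2 : ℕ) : ℝ) + 1) * p) with hg
  have hid : α * sin p * fF α (m + 2) p = (((m + 2 : ℕ) : ℝ) + 1) * bc α (m + 2 + 1) * g := by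
    rw [hg, fF]
    linear_combination fA α (m + 2) p * hA + fB α (m + 2) p * hB - hcrit / 2
  have hgb : |g| ≤ (2 * ((m + 2 : ℕ) : ℝ) + 1) * p * (2 * α) := gbound h1 h2 (m + 2) (by omega) p hp0.le
  have hbb := bc_bound h1 h2 m
  have hsin : 2 / π * p ≤ sin p := mul_le_sin hp0.le hp.2
  have hF0 : (1 + α) ^ 2 ≤ fF α (m + 2) 0 := by
    rw [fF_zero]
    have := bM_lower h1 h2 (m + 1)
    have h3 : 0 ≤ 1 + α := by linarith
    exact pow_le_pow_left₀ h3 this 2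
  have hFp : (1 + α) ^ 2 < fF α (m + 2) p := lt_of_le_of_lt hF0 hgt
  have hFpos : 0 < fF α (m + 2) p := lt_of_le_of_lt (sq_nonneg _) hFp
  have hpi : 0 < π := pi_pos
  have hup : α * sin p * fF α (m + 2) p ≤ 4 * α * p * (5 / 16 * α) := by
    rw [hid]
    calc (((m + 2 : ℕ) : ℝ) + 1) * bc α (m + 2 + 1) * g ≤ |(((m + 2 : ℕ) : ℝ) + 1) * bc α (m + 2 + 1) * g| := le_abs_self _
      _ = (((m + 2 : ℕ) : ℝ) + 1) * |bc α (m + 2 + 1)| * |g| := by
          rw [abs_mul, abs_mul, abs_of_pos (by positivity : (0 : ℝ) < ((m + 2 : ℕ) : ℝ) + 1)]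
      _ ≤ (((m + 2 : ℕ) : ℝ) + 1) * |bc α (m + 2 + 1)| * ((2 * ((m + 2 : ℕ) : ℝ) + 1) * p * (2 * α)) :=
          mul_le_mul_of_nonneg_left hgb (by positivity)
      _ = 4 * α * p * (((m : ℝ) + 3) * |bc α (m + 3)| * (m + 5 / 2)) := by
          push_cast
          rw [show m + 2 + 1 = m + 3 by ring]
          ring
      _ ≤ 4 * α * p * (5 / 16 * α) := mul_le_mul_of_nonneg_left hbb (by positivity)
  have hlow : α * (2 / π * p) * (1 + α) ^ 2 ≤ α * sin p * fF α (m + 2) p := by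
    apply mul_le_mul _ hFp.le (by positivity) (by
      apply mul_nonneg hα.le
      exact le_trans (by positivity) hsin)
    exact mul_le_mul_of_nonneg_left hsin hα.le
  have h6 : α * (2 / π * p) * (1 + α) ^ 2 ≤ 4 * α * p * (5 / 16 * α) := hlow.trans hup
  have h7 : 2 / π * (1 + α) ^ 2 ≤ 5 / 4 * α := by
    have h8 : 0 < α * p := by positivity
    have : (α * p) * (2 / π * (1 + α) ^ 2) ≤ (α * p) * (5 / 4 * α) := by
      calc _ = α * (2 / π * p) * (1 + α) ^ 2 := by ring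
        _ ≤ _ := h6
        _ = _ := by ring
    exact le_of_mul_le_mul_left this h8
  have h9 : 2 * (1 + α) ^ 2 ≤ 5 / 4 * α * π := by
    have := mul_le_mul_of_nonneg_right h7 hpi.le
    have h10 : 2 / π * (1 + α) ^ 2 * π = 2 * (1 + α) ^ 2 := by field_simp
    rw [h10] at this
    exact this
  have h11 : π < 3.2 := by
    have := pi_lt_d2
    linarith
  nlinarith [sq_nonneg (1 - α)]

lemma bS_exp (α : ℝ) (m : ℕ) (φ : ℝ) :
    ‖bS α m (Complex.exp ((2 * φ : ℝ) * Complex.I))‖ ^ 2 = fF α m φ := by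
  have h : bS α m (Complex.exp ((2 * φ : ℝ) * Complex.I)) = ((fA α m φ : ℝ) : ℂ) + (fB α m φ : ℝ) * Complex.I := by
    unfold bS fA fB
    push_cast
    rw [Finset.sum_mul, ← Finset.sum_add_distrib]
    apply Finset.sum_congr rfl
    intro k _
    rw [← Complex.exp_nat_mul, show (k : ℂ) * (2 * (φ : ℂ) * Complex.I) = (2 * k * φ : ℂ) * Complex.I by ring,
      Complex.exp_mul_I]
    ring
  rw [h, ← Complex.normSq_eq_norm_sq, Complex.normSq_add_mul_I, fF]

lemma bS_conj (α : ℝ) (m : ℕ) (x : ℂ) : ‖bS α m ((starRingEnd ℂ) x)‖ = ‖bS α m x‖ := by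
  have : bS α m ((starRingEnd ℂ) x) = (starRingEnd ℂ) (bS α m x) := by
    unfold bS
    rw [map_sum]
    apply Finset.sum_congr rfl
    intro k _
    rw [map_mul, map_pow, Complex.conj_ofReal]
  rw [this, RCLike.norm_conj]

lemma exists_phi {x : ℂ} (hx : ‖x‖ = 1) :
    ∃ φ ∈ Set.Icc (0 : ℝ) (π / 2), x = Complex.exp ((2 * φ : ℝ) * Complex.I) ∨
      x = (starRingEnd ℂ) (Complex.exp ((2 * φ : ℝ) * Complex.I)) := by
  have hxe : Complex.exp (Complex.arg x * Complex.I) = x := by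
    have := Complex.norm_mul_exp_arg_mul_I x
    rw [hx] at this
    simpa using this
  have h1 := Complex.neg_pi_lt_arg x
  have h2 := Complex.arg_le_pi x
  rcases le_total 0 (Complex.arg x) with h | h
  · refine ⟨Complex.arg x / 2, ⟨by linarith, by linarith⟩, Or.inl ?_⟩
    rw [show 2 * (Complex.arg x / 2) = Complex.arg x by ring, hxe]
  · refine ⟨-Complex.arg x / 2, ⟨by linarith, by linarith⟩, Or.inr ?_⟩
    rw [show 2 * (-Complex.arg x / 2) = -Complex.arg x by ring, ← Complex.exp_conj, map_mul,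
      Complex.conj_I, Complex.conj_ofReal]
    push_cast
    rw [show -(Complex.arg x : ℂ) * -Complex.I = Complex.arg x * Complex.I by ring, hxe]

/-- The case `1 ≤ α < 2`. -/
lemma case_one {α : ℝ} (h1 : 1 ≤ α) (h2 : α < 2) (m : ℕ) (x : ℂ) (hx : ‖x‖ = 1) :
    ‖bS α m x‖ ≤ bM α m := by
  match m with
  | 0 => rw [bS_zero, bM_zero]; simp
  | 1 =>
    rw [bS_succ, bM_succ, bS_zero, bM_zero, bc_one]
    refine (norm_add_le _ _).trans ?_
    simp only [norm_one, zero_add, pow_one, norm_mul, hx, mul_one, Complex.norm_real, norm_eq_abs]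
    rw [abs_of_pos (by linarith)]
  | (m + 2) =>
    have hM : 0 ≤ bM α (m + 2) := by
      have := bM_lower h1 h2 (m + 1)
      have h3 : 0 ≤ 1 + α := by linarith
      exact h3.trans this
    obtain ⟨φ, hφ, h⟩ := exists_phi hx
    have key : ‖bS α (m + 2) (Complex.exp ((2 * φ : ℝ) * Complex.I))‖ ≤ bM α (m + 2) := by
      apply le_of_sq_le_sq _ hM
      rw [bS_exp]
      exact fF_le h1 h2 m φ hφ
    rcases h with h | h
    · rw [h]; exact key
    · rw [h, bS_conj]; exact key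

/-- The case `1 ≤ α`. -/
lemma case_ge_one {α : ℝ} (h1 : 1 ≤ α) (m : ℕ) (x : ℂ) (hx : ‖x‖ = 1) :
    ‖bS α m x‖ ≤ bM α m := by
  have key : ∀ n : ℕ, ∀ α : ℝ, 1 ≤ α → α < n + 2 → ∀ m : ℕ, ∀ x : ℂ, ‖x‖ = 1 → ‖bS α m x‖ ≤ bM α m := by
    intro n
    induction n with
    | zero =>
      intro α h1 h2 m x hx
      exact case_one h1 (by simpa using h2) m x hx
    | succ n ih =>
      intro α h1 h2
      by_cases h : α < 2
      · exact fun m x hx => case_one h1 h m x hx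
      · push Not at h
        apply step
        apply ih (α - 1) (by linarith)
        push_cast at h2
        linarith
  obtain ⟨n, hn⟩ := exists_nat_gt α
  exact key n α h1 (by linarith) m x hx

end Pool.Agent.Helper81K9.Bran
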