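import Pool.Agent.Helper81K9.BranB

set_option autoImplicit false

namespace Pool.Agent.Helper81K9.Bran

open Finset Real Filter Topology

lemma choose_eq (α : ℝ) (n : ℕ) : Ring.choose (α : ℂ) n = (bc α n : ℂ) := by
  rw [Ring.choose_eq_smul]
  have : ∀ n : ℕ, (descPochhammer ℤ n).smeval (α : ℂ) = ∏ j ∈ Finset.range n, ((α : ℂ) - j) := by
    intro n
    induction n with
    | zero => simp
    | succ n ih =>
      rw [descPochhammer_succ_right, Polynomial.smeval_mul, ih, Finset.prod_range_succ,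
        Polynomial.smeval_sub, Polynomial.smeval_X, Polynomial.smeval_natCast]
      simp
  rw [this, bc]
  push_cast
  rw [smul_eq_mul]
  field_simp

lemma hasSum_ball (α : ℝ) {z : ℂ} (hz : ‖z‖ < 1) :
    HasSum (fun n : ℕ => (bc α n : ℂ) * z ^ n) ((1 + z) ^ (α : ℂ)) := by
  have h := (Complex.one_add_cpow_hasFPowerSeriesOnBall_zero (a := (α : ℂ))).hasSum (y := z) (by
    rw [← ENNReal.ofReal_one, Metric.eball_ofReal]
    simpa using hz)
  rw [zero_add] at h
  have e : (fun n : ℕ => (bc α n : ℂ) * z ^ n) = fun n => (binomialSeries ℂ (α : ℂ) n) fun _ => z := by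
    funext n
    rw [binomialSeries_apply, choose_eq]
    simp
  rw [e]
  exact h

section small

variable {α : ℝ} (h0 : 0 < α) (h1 : α < 1)

include h0 h1

lemma pos0 (k : ℕ) : 0 < (-1 : ℝ) ^ k * bc α (k + 1) := by
  induction k with
  | zero => simp [bc_one, h0]
  | succ k ih =>
    have : (-1 : ℝ) ^ (k + 1) * bc α (k + 1 + 1) = ((-1 : ℝ) ^ k * bc α (k + 1)) * ((k + 1 - α) / (k + 2)) := by
      rw [bc_succ α (k + 1), pow_succ]
      push_cast
      field_simp
      ring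
    rw [this]
    apply mul_pos ih
    apply div_pos _ (by positivity)
    have : (0 : ℝ) ≤ k := Nat.cast_nonneg k
    linarith

lemma abs_bc0 (k : ℕ) : |bc α (k + 1)| = (-1 : ℝ) ^ k * bc α (k + 1) := by
  have h := pos0 h0 h1 k
  rcases neg_one_pow_eq_or ℝ k with hk | hk
  · rw [hk] at h ⊢
    rw [one_mul] at h ⊢
    exact abs_of_pos h
  · rw [hk] at h ⊢
    rw [abs_of_neg (by linarith)]
    ring

lemma abs_bc_succ0 (k : ℕ) : |bc α (k + 2)| = |bc α (k + 1)| * ((k + 1 - α) / (k + 2)) := by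
  rw [show k + 2 = (k + 1) + 1 by ring, abs_bc0 h0 h1 (k + 1), abs_bc0 h0 h1 k, bc_succ α (k + 1), pow_succ]
  push_cast
  field_simp
  ring

lemma sum_abs0 (m : ℕ) : α * ∑ k ∈ Finset.range m, |bc α (k + 1)| + (m + 1) * |bc α (m + 1)| = α := by
  induction m with
  | zero => simp [bc_one, abs_of_pos h0]
  | succ m ih =>
    rw [Finset.sum_range_succ, mul_add]
    have e := abs_bc_succ0 h0 h1 m
    have e2 : ((m + 1 : ℕ) + 1 : ℝ) * |bc α (m + 1 + 1)| = |bc α (m + 1)| * (m + 1 - α) := by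
      rw [show m + 1 + 1 = m + 2 by ring, e]
      push_cast
      field_simp
      ring
    rw [e2]
    linear_combination ih

lemma sum_abs_le0 (m : ℕ) : ∑ k ∈ Finset.range m, |bc α (k + 1)| ≤ 1 := by
  have h := sum_abs0 h0 h1 m
  have h3 : 0 ≤ ((m : ℝ) + 1) * |bc α (m + 1)| := by positivity
  have : α * ∑ k ∈ Finset.range m, |bc α (k + 1)| ≤ α * 1 := by nlinarith
  exact le_of_mul_le_mul_left this h0

lemma summable_abs0 : Summable (fun k : ℕ => |bc α k|) := by
  rw [← summable_nat_add_iff 1]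
  exact summable_of_sum_range_le (fun _ => abs_nonneg _) (sum_abs_le0 h0 h1)

lemma tendsto_abs0 : Tendsto (fun k : ℕ => |bc α k|) atTop (𝓝 0) :=
  (summable_abs0 h0 h1).tendsto_atTop_zero

/-- The binomial series converges on the closed disc, except possibly at `-1`. -/
lemma hasSum_closed {x : ℂ} (hx : ‖x‖ = 1) (hx1 : x ≠ -1) :
    HasSum (fun n : ℕ => (bc α n : ℂ) * x ^ n) ((1 + x) ^ (α : ℂ)) := by
  have hbound : ∀ n : ℕ, ∀ z ∈ Metric.closedBall (0 : ℂ) 1, ‖(bc α n : ℂ) * z ^ n‖ ≤ |bc α n| := by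
    intro n z hz
    rw [mem_closedBall_zero_iff] at hz
    rw [norm_mul, norm_pow, Complex.norm_real, norm_eq_abs]
    exact mul_le_of_le_one_right (abs_nonneg _) (pow_le_one₀ (norm_nonneg _) hz)
  have hcont : ContinuousOn (fun z : ℂ => ∑' n : ℕ, (bc α n : ℂ) * z ^ n) (Metric.closedBall 0 1) :=
    continuousOn_tsum (fun n => by fun_prop) (summable_abs0 h0 h1) hbound
  have hsx : Summable (fun n : ℕ => (bc α n : ℂ) * x ^ n) :=
    Summable.of_norm_bounded (summable_abs0 h0 h1) (fun n => hbound n x (by simp [hx]))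
  have hmem : x ∈ Metric.closedBall (0 : ℂ) 1 := by simp [hx]
  -- approach along the radius
  have hr : Tendsto (fun n : ℕ => ((1 - 1 / ((n : ℝ) + 1) : ℝ) : ℂ) * x) atTop (𝓝 x) := by
    have h2 : Tendsto (fun n : ℕ => (1 - 1 / ((n : ℝ) + 1) : ℝ)) atTop (𝓝 (1 - 0)) :=
      tendsto_const_nhds.sub tendsto_one_div_add_atTop_nhds_zero_nat
    have h3 : Tendsto (fun n : ℕ => ((1 - 1 / ((n : ℝ) + 1) : ℝ) : ℂ)) atTop (𝓝 ((1 - 0 : ℝ) : ℂ)) :=
      (Complex.continuous_ofReal.tendsto _).comp h2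
    have h4 := h3.mul_const x
    simpa using h4
  have hrn : ∀ n : ℕ, ‖((1 - 1 / ((n : ℝ) + 1) : ℝ) : ℂ) * x‖ < 1 := by
    intro n
    rw [norm_mul, hx, mul_one, Complex.norm_real, norm_eq_abs, abs_of_nonneg]
    · have : 0 < 1 / ((n : ℝ) + 1) := by positivity
      linarith
    · have : 1 / ((n : ℝ) + 1) ≤ 1 := by
        rw [div_le_one (by positivity)]
        have : (0 : ℝ) ≤ n := Nat.cast_nonneg n
        linarith
      linarith
  have hl1 : Tendsto (fun n : ℕ => (∑' k : ℕ, (bc α k : ℂ) * (((1 - 1 / ((n : ℝ) + 1) : ℝ) : ℂ) * x) ^ k)) atTop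
      (𝓝 (∑' k : ℕ, (bc α k : ℂ) * x ^ k)) := by
    have h5 := (hcont x hmem).tendsto
    refine h5.comp (tendsto_nhdsWithin_iff.2 ⟨hr, Eventually.of_forall fun n => ?_⟩)
    rw [mem_closedBall_zero_iff]
    exact (hrn n).le
  have hslit : 1 + x ∈ Complex.slitPlane := by
    rw [Complex.mem_slitPlane_iff]
    left
    have hre : -1 ≤ x.re := by
      have := Complex.abs_re_le_norm x
      rw [hx, abs_le] at this
      exact this.1
    rcases hre.eq_or_lt with h | h
    · exfalso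
      apply hx1
      have h6 : x.re ^ 2 + x.im ^ 2 = 1 := by
        have := Complex.sq_norm x
        rw [hx, Complex.normSq_apply] at this
        nlinarith
      have h7 : x.im = 0 := by nlinarith
      apply Complex.ext
      · simp [← h]
      · simp [h7]
    · simp
      linarith
  have hl2 : Tendsto (fun n : ℕ => (1 + ((1 - 1 / ((n : ℝ) + 1) : ℝ) : ℂ) * x) ^ (α : ℂ)) atTop
      (𝓝 ((1 + x) ^ (α : ℂ))) := by
    have h8 : ContinuousAt (fun z : ℂ => (1 + z) ^ (α : ℂ)) x := by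
      apply ContinuousAt.cpow (by fun_prop) continuousAt_const hslit
    exact h8.tendsto.comp hr
  have heq : ∀ n : ℕ, (∑' k : ℕ, (bc α k : ℂ) * (((1 - 1 / ((n : ℝ) + 1) : ℝ) : ℂ) * x) ^ k)
      = (1 + ((1 - 1 / ((n : ℝ) + 1) : ℝ) : ℂ) * x) ^ (α : ℂ) := fun n => (hasSum_ball α (hrn n)).tsum_eq
  have : (∑' k : ℕ, (bc α k : ℂ) * x ^ k) = (1 + x) ^ (α : ℂ) := by
    refine tendsto_nhds_unique hl1 ?_
    exact hl2.congr (fun n => (heq n).symm)
  rw [← this]
  exact hsx.hasSum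

lemma tendsto_bS {x : ℂ} (hx : ‖x‖ = 1) (hx1 : x ≠ -1) :
    Tendsto (fun n : ℕ => bS α n x) atTop (𝓝 ((1 + x) ^ (α : ℂ))) := by
  have := (hasSum_closed h0 h1 hx hx1).tendsto_sum_nat
  exact (tendsto_add_atTop_iff_nat 1).2 this

/-! ### Beta integrals -/

/-- The normalising constant. -/
noncomputable def kap (α : ℝ) : ℝ := α / (Real.Gamma (1 - α) * Real.Gamma (1 + α))

omit h0 h1 in
lemma beta_real {u v : ℝ} (hu : 0 < u) (hv : 0 < v) :
    ∫ t in (0 : ℝ)..1, t ^ (u - 1) * (1 - t) ^ (v - 1) = Real.Gamma u * Real.Gamma v / Real.Gamma (u + v) := by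
  have h := Complex.betaIntegral_eq_Gamma_mul_div (u : ℂ) (v : ℂ) (by simpa) (by simpa)
  rw [Complex.betaIntegral] at h
  have h2 : ∫ x : ℝ in (0 : ℝ)..1, (x : ℂ) ^ ((u : ℂ) - 1) * (1 - (x : ℂ)) ^ ((v : ℂ) - 1)
      = ∫ x : ℝ in (0 : ℝ)..1, ((x ^ (u - 1) * (1 - x) ^ (v - 1) : ℝ) : ℂ) := by
    apply intervalIntegral.integral_congr
    intro x hx
    rw [Set.uIcc_of_le zero_le_one] at hx
    simp only
    rw [Complex.ofReal_mul, Complex.ofReal_cpow hx.1, Complex.ofReal_cpow (by linarith [hx.2])]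
    push_cast
    rfl
  rw [h2, intervalIntegral.integral_ofReal, Complex.Gamma_ofReal, Complex.Gamma_ofReal,
    show (u : ℂ) + v = ((u + v : ℝ) : ℂ) by push_cast; rfl, Complex.Gamma_ofReal] at h
  exact_mod_cast h

lemma kap_pos : 0 < kap α := by
  unfold kap
  have := Real.Gamma_pos_of_pos (show 0 < 1 - α by linarith)
  have := Real.Gamma_pos_of_pos (show 0 < 1 + α by linarith)
  positivity

lemma kap_le : kap α ≤ α := by
  unfold kap
  apply div_le_self h0.le
  have e1 : Real.Gamma (1 + α) = α * Real.Gamma α := by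
    rw [add_comm, Real.Gamma_add_one h0.ne']
  have e2 := Real.Gamma_mul_Gamma_one_sub α
  have hs : 0 < sin (π * α) := by
    apply sin_pos_of_pos_of_lt_pi
    · positivity
    · nlinarith [pi_pos]
  have e3 : Real.Gamma (1 - α) * Real.Gamma (1 + α) = α * (π / sin (π * α)) := by
    rw [e1, ← e2]; ring
  rw [e3, ← mul_div_assoc, le_div_iff₀ hs, one_mul]
  have := sin_le (show 0 ≤ π * α by positivity)
  linarith

lemma bc_gamma (k : ℕ) :
    |bc α (k + 1)| = kap α * (Real.Gamma (k + 1 - α) * Real.Gamma (1 + α) / Real.Gamma (k + 2)) := by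
  have hg1 := (Real.Gamma_pos_of_pos (show 0 < 1 - α by linarith)).ne'
  have hg2 := (Real.Gamma_pos_of_pos (show 0 < 1 + α by linarith)).ne'
  induction k with
  | zero =>
    have : Real.Gamma ((0 : ℕ) + 2) = 1 := by
      rw [show (((0 : ℕ) : ℝ) + 2) = 1 + 1 by norm_num, Real.Gamma_add_one one_ne_zero, Real.Gamma_one, mul_one]
    rw [this, bc_one, abs_of_pos h0, kap]
    push_cast
    rw [zero_add]
    field_simp
  | succ k ih =>
    rw [show k + 1 + 1 = k + 2 by ring, abs_bc_succ0 h0 h1, ih]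
    have hk : (0 : ℝ) ≤ k := Nat.cast_nonneg k
    have e1 : Real.Gamma (((k + 1 : ℕ) : ℝ) + 1 - α) = (k + 1 - α) * Real.Gamma (k + 1 - α) := by
      push_cast
      rw [show (k : ℝ) + 1 + 1 - α = (k + 1 - α) + 1 by ring, Real.Gamma_add_one (by linarith)]
    have e2 : Real.Gamma (((k + 1 : ℕ) : ℝ) + 2) = (k + 2) * Real.Gamma (k + 2) := by
      push_cast
      rw [show (k : ℝ) + 1 + 2 = (k + 2) + 1 by ring, Real.Gamma_add_one (by linarith)]
    rw [e1, e2]
    have hg3 := (Real.Gamma_pos_of_pos (show 0 < (k : ℝ) + 2 by linarith)).ne'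
    field_simp

/-- Moment formula. -/
lemma moment (k : ℕ) : |bc α (k + 1)| = kap α * ∫ t in (0 : ℝ)..1, t ^ ((k : ℝ) - α) * (1 - t) ^ α := by
  have hk : (0 : ℝ) ≤ k := Nat.cast_nonneg k
  rw [bc_gamma h0 h1]
  congr 1
  have h := beta_real (show 0 < (k : ℝ) + 1 - α by linarith) (show 0 < 1 + α by linarith)
  rw [show (k : ℝ) + 1 - α - 1 = k - α by ring, show (1 : ℝ) + α - 1 = α by ring,
    show (k : ℝ) + 1 - α + (1 + α) = k + 2 by ring] at h
  rw [h]

end small

end Pool.Agent.Helper81K9.Bran
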