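import Pool.Agent.Helper81K9.BranC

set_option autoImplicit false

namespace Pool.Agent.Helper81K9.Bran

open Finset Real Filter Topology MeasureTheory

/-- The weight. -/
noncomputable def gw (α : ℝ) (m : ℕ) (t : ℝ) : ℝ := t ^ ((m : ℝ) - α) * (1 - t) ^ α

noncomputable def dD (u t : ℝ) : ℝ := (1 - t) ^ 2 + t * u ^ 2

lemma dD_pos {u t : ℝ} (hu : 0 < u) (ht : t ∈ Set.Icc (0 : ℝ) 1) : 0 < dD u t := by
  unfold dD
  rcases ht.1.eq_or_lt with h | h
  · rw [← h]; norm_num
  · have : 0 < t * u ^ 2 := by positivity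
    nlinarith [sq_nonneg (1 - t)]

lemma dD_lower {u y t : ℝ} (hy : 0 < y) (hy1 : y ≤ 1) (hyu : y ≤ u) (ht : t ∈ Set.Icc (0 : ℝ) 1) :
    (y / 2) ^ 2 ≤ dD u t := by
  unfold dD
  have h1 : y ^ 2 ≤ u ^ 2 := pow_le_pow_left₀ hy.le hyu 2
  have h2 : y ^ 2 ≤ 1 := pow_le_one₀ hy.le hy1
  have h3 : t * y ^ 2 ≤ t * u ^ 2 := mul_le_mul_of_nonneg_left h1 ht.1
  have h4 : y ^ 2 * (1 - t) ^ 2 ≤ (1 - t) ^ 2 := mul_le_of_le_one_left (sq_nonneg _) h2
  have h5 : 0 ≤ y ^ 2 * ((1 - t) ^ 2 + t - 1 / 4) := by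
    apply mul_nonneg (sq_nonneg _)
    nlinarith [sq_nonneg (t - 1 / 2)]
  nlinarith

section small

variable {α : ℝ} (h0 : 0 < α) (h1 : α < 1) {m : ℕ} (hm : 2 ≤ m)

include h0 h1 hm

lemma expo_pos : 0 < (m : ℝ) - α := by
  have : (2 : ℝ) ≤ m := by exact_mod_cast hm
  linarith

lemma gw_cont : Continuous (gw α m) := by
  unfold gw
  have h2 := expo_pos h0 h1 hm
  apply Continuous.mul
  · exact continuous_id.rpow_const (fun x => Or.inr h2.le)
  · exact (continuous_const.sub continuous_id).rpow_const (fun x => Or.inr h0.le)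

lemma gw_nonneg {t : ℝ} (ht : t ∈ Set.Icc (0 : ℝ) 1) : 0 ≤ gw α m t := by
  unfold gw
  apply mul_nonneg (rpow_nonneg ht.1 _) (rpow_nonneg (by linarith [ht.2]) _)

lemma gw_le_one {t : ℝ} (ht : t ∈ Set.Icc (0 : ℝ) 1) : gw α m t ≤ 1 := by
  unfold gw
  apply mul_le_one₀ (rpow_le_one ht.1 ht.2 (expo_pos h0 h1 hm).le) (rpow_nonneg (by linarith [ht.2]) _)
    (rpow_le_one (by linarith [ht.2]) (by linarith [ht.1]) h0.le)

/-- Pointwise bound for the derivative integrand. -/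
lemma pointwise {u t : ℝ} (hu : 0 < u) (ht : t ∈ Set.Icc (0 : ℝ) 1) :
    gw α m t * (t * u) / (dD u t * √(dD u t)) ≤
      u ^ α * ((α * (1 - t) + (1 - α) * u) / (((1 - t) ^ 2 + u ^ 2) * √((1 - t) ^ 2 + u ^ 2))) := by
  have hD := dD_pos hu ht
  set E := (1 - t) ^ 2 + u ^ 2 with hE
  have hEpos : 0 < E := by positivity
  have hsE : 0 < √E := sqrt_pos.2 hEpos
  have hsD : 0 < √(dD u t) := sqrt_pos.2 hD
  have ht0 := ht.1
  have ht1 := ht.2
  have hDE : t * E ≤ dD u t := by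
    unfold dD
    rw [hE]
    nlinarith [mul_nonneg (sub_nonneg.2 ht1) (sq_nonneg (1 - t))]
  have hsq : t * √E ≤ √(dD u t) := by
    rw [show t * √E = √(t ^ 2 * E) by rw [sqrt_mul (sq_nonneg t), sqrt_sq ht0]]
    apply sqrt_le_sqrt
    refine le_trans ?_ hDE
    apply mul_le_mul_of_nonneg_right _ hEpos.le
    nlinarith
  -- the power
  have hpow : t ^ ((m : ℝ) - α) * t ≤ t ^ 2 := by
    have : t ^ ((m : ℝ) - α) ≤ t := by
      have h2 : (1 : ℝ) ≤ (m : ℝ) - α := by
        have : (2 : ℝ) ≤ m := by exact_mod_cast hm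
        linarith
      calc t ^ ((m : ℝ) - α) ≤ t ^ (1 : ℝ) := by
            rcases ht0.eq_or_lt with h | h
            · rw [← h, zero_rpow (by linarith), zero_rpow one_ne_zero]
            · exact rpow_le_rpow_of_exponent_ge h ht1 h2
        _ = t := rpow_one t
    nlinarith
  have hyoung : (1 - t) ^ α * u ≤ u ^ α * (α * (1 - t) + (1 - α) * u) := by
    have ha : 0 ≤ 1 - t := by linarith
    have := geom_mean_le_arith_mean2_weighted h0.le (show 0 ≤ 1 - α by linarith) ha hu.le (by ring)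
    have h3 : u = u ^ α * u ^ (1 - α) := by
      rw [← rpow_add hu]; simp
    calc (1 - t) ^ α * u = u ^ α * ((1 - t) ^ α * u ^ (1 - α)) := by
          nth_rewrite 1 [h3]; ring
      _ ≤ _ := mul_le_mul_of_nonneg_left this (rpow_nonneg hu.le _)
  have hDD : t ^ 2 * (E * √E) ≤ dD u t * √(dD u t) := by
    calc t ^ 2 * (E * √E) = (t * E) * (t * √E) := by ring
      _ ≤ dD u t * √(dD u t) := mul_le_mul hDE hsq (by positivity) hD.le
  rw [div_le_iff₀ (by positivity), mul_div_assoc', div_mul_eq_mul_div, le_div_iff₀ (by positivity)]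
  have hrn : 0 ≤ (1 - t) ^ α := rpow_nonneg (by linarith) _
  calc gw α m t * (t * u) * (E * √E) = (t ^ ((m : ℝ) - α) * t) * ((1 - t) ^ α * u) * (E * √E) := by
        unfold gw; ring
    _ ≤ t ^ 2 * (u ^ α * (α * (1 - t) + (1 - α) * u)) * (E * √E) := by
        apply mul_le_mul_of_nonneg_right _ (by positivity)
        apply mul_le_mul hpow hyoung (by positivity) (by positivity)
    _ = (u ^ α * (α * (1 - t) + (1 - α) * u)) * (t ^ 2 * (E * √E)) := by ring
    _ ≤ (u ^ α * (α * (1 - t) + (1 - α) * u)) * (dD u t * √(dD u t)) := by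
        apply mul_le_mul_of_nonneg_left hDD
        apply mul_nonneg (rpow_nonneg hu.le _)
        have : 0 ≤ α * (1 - t) := mul_nonneg h0.le (by linarith)
        have : 0 ≤ (1 - α) * u := mul_nonneg (by linarith) hu.le
        linarith

omit hm in
/-- The explicit integral. -/
lemma explicit {u : ℝ} (hu : 0 < u) :
    ∫ t in (0 : ℝ)..1, (α * (1 - t) + (1 - α) * u) / (((1 - t) ^ 2 + u ^ 2) * √((1 - t) ^ 2 + u ^ 2)) ≤ 1 / u := by
  have hE : ∀ t : ℝ, 0 < (1 - t) ^ 2 + u ^ 2 := fun t => by positivity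
  have hd : ∀ t ∈ Set.uIcc (0 : ℝ) 1, HasDerivAt
      (fun t : ℝ => (α - (1 - α) * (1 - t) / u) / √((1 - t) ^ 2 + u ^ 2))
      ((α * (1 - t) + (1 - α) * u) / (((1 - t) ^ 2 + u ^ 2) * √((1 - t) ^ 2 + u ^ 2))) t := by
    intro t _
    have hs : 0 < √((1 - t) ^ 2 + u ^ 2) := sqrt_pos.2 (hE t)
    have e1 : HasDerivAt (fun t : ℝ => (1 - t) ^ 2 + u ^ 2) (-(2 * (1 - t))) t := by
      have := (((hasDerivAt_id t).const_sub 1).fun_pow 2).add_const (u ^ 2)
      refine this.congr_deriv ?_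
      simp
    have e2 := e1.sqrt (hE t).ne'
    have e3 : HasDerivAt (fun t : ℝ => α - (1 - α) * (1 - t) / u) ((1 - α) / u) t := by
      have := ((((hasDerivAt_id t).const_sub 1).const_mul (1 - α)).div_const u).const_sub α
      refine this.congr_deriv ?_
      simp
      ring
    have e4 := e3.fun_div e2 hs.ne'
    refine e4.congr_deriv ?_
    have hss : √((1 - t) ^ 2 + u ^ 2) ^ 2 = (1 - t) ^ 2 + u ^ 2 := sq_sqrt (hE t).le
    set s := √((1 - t) ^ 2 + u ^ 2) with hs'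
    have hE' : (1 - t) ^ 2 + u ^ 2 = s ^ 2 := hss.symm
    rw [hE']
    field_simp
    rw [show s ^ 2 = (1 - t) ^ 2 + u ^ 2 from hss]
    ring
  have hcont : ContinuousOn (fun t : ℝ => (α * (1 - t) + (1 - α) * u) / (((1 - t) ^ 2 + u ^ 2) * √((1 - t) ^ 2 + u ^ 2)))
      (Set.uIcc (0 : ℝ) 1) := by
    apply Continuous.continuousOn
    apply Continuous.div (by fun_prop) (by fun_prop)
    intro t
    have := hE t
    positivity
  rw [intervalIntegral.integral_eq_sub_of_hasDerivAt hd hcont.intervalIntegrable]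
  have hs1 : √((1 - (1 : ℝ)) ^ 2 + u ^ 2) = u := by
    rw [show (1 - (1 : ℝ)) ^ 2 + u ^ 2 = u ^ 2 by ring, sqrt_sq hu.le]
  have hs0 : 0 < √((1 - (0 : ℝ)) ^ 2 + u ^ 2) := sqrt_pos.2 (hE 0)
  have hs2 : 1 ≤ √((1 - (0 : ℝ)) ^ 2 + u ^ 2) := by
    apply le_sqrt_of_sq_le
    nlinarith [sq_nonneg u]
  rw [hs1]
  simp only [sub_self, mul_zero, zero_div, sub_zero, mul_one] at hs0 hs2 ⊢
  have h3 : -((1 - α) / u) ≤ (α - (1 - α) / u) / √(1 ^ 2 + u ^ 2) := by
    have h7 := sub_div α ((1 - α) / u) (√(1 ^ 2 + u ^ 2))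
    rw [h7]
    have h4 : 0 ≤ α / √(1 ^ 2 + u ^ 2) := by positivity
    have h5 : (1 - α) / u / √(1 ^ 2 + u ^ 2) ≤ (1 - α) / u := by
      apply div_le_self _ hs2
      apply div_nonneg _ hu.le
      linarith
    linarith
  have h6 : 1 / u = α / u + (1 - α) / u := by
    rw [← add_div]; ring
  rw [h6]
  linarith

/-- The potential. -/
lemma potential_deriv {u : ℝ} (hu : 0 < u) (hu2 : u ≤ 2) :
    HasDerivAt (fun u : ℝ => ∫ t in (0 : ℝ)..1, gw α m t / √(dD u t))
      (∫ t in (0 : ℝ)..1, -(gw α m t * (t * u) / (dD u t * √(dD u t)))) u := by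
  have hG := gw_cont h0 h1 hm
  have hmeas : ∀ x : ℝ, Measurable (fun t : ℝ => gw α m t / √(dD x t)) := by
    intro x
    unfold dD
    exact hG.measurable.div (by fun_prop)
  have hmeas' : ∀ x : ℝ, Measurable (fun t : ℝ => -(gw α m t * (t * x) / (dD x t * √(dD x t)))) := by
    intro x
    unfold dD
    exact ((hG.measurable.mul (by fun_prop)).div (by fun_prop)).neg
  set y := u / 2 with hy
  have hy0 : 0 < y := by positivity
  have hy1 : y ≤ 1 := by rw [hy]; linarith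
  have hIoc : Set.uIoc (0 : ℝ) 1 = Set.Ioc 0 1 := Set.uIoc_of_le zero_le_one
  refine (intervalIntegral.hasDerivAt_integral_of_dominated_loc_of_deriv_le (F := fun u t => gw α m t / √(dD u t))
    (F' := fun u t => -(gw α m t * (t * u) / (dD u t * √(dD u t)))) (s := Set.Ioo y 3)
    (bound := fun _ => 3 / ((y / 2) ^ 2 * (y / 2))) (Ioo_mem_nhds (by rw [hy]; linarith) (by linarith)) ?_ ?_ ?_ ?_ ?_ ?_).2
  · exact Eventually.of_forall fun x => (hmeas x).aestronglyMeasurable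
  · apply ContinuousOn.intervalIntegrable
    rw [Set.uIcc_of_le zero_le_one]
    apply ContinuousOn.div hG.continuousOn
    · unfold dD; fun_prop
    · intro t ht
      exact (sqrt_pos.2 (dD_pos hu ht)).ne'
  · exact (hmeas' u).aestronglyMeasurable
  · refine Eventually.of_forall fun t ht x hx => ?_
    rw [hIoc] at ht
    have ht' : t ∈ Set.Icc (0 : ℝ) 1 := ⟨ht.1.le, ht.2⟩
    have hx0 : 0 < x := hy0.trans hx.1
    have hD := dD_lower hy0 hy1 hx.1.le ht'
    have hDp := dD_pos hx0 ht'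
    have hsD : y / 2 ≤ √(dD x t) := le_sqrt_of_sq_le hD
    have hg0 := gw_nonneg h0 h1 hm ht'
    have hg1 := gw_le_one h0 h1 hm ht'
    rw [norm_neg, norm_eq_abs, abs_of_nonneg (by have := ht'.1; positivity)]
    apply div_le_div₀ (by norm_num) _ (by positivity) _
    · calc gw α m t * (t * x) ≤ 1 * (1 * 3) := by
            apply mul_le_mul hg1 _ (mul_nonneg ht'.1 hx0.le) zero_le_one
            exact mul_le_mul ht'.2 hx.2.le hx0.le zero_le_one
        _ = 3 := by norm_num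
    · exact mul_le_mul hD hsD (by positivity) hDp.le
  · exact intervalIntegrable_const
  · refine Eventually.of_forall fun t ht x hx => ?_
    rw [hIoc] at ht
    have ht' : t ∈ Set.Icc (0 : ℝ) 1 := ⟨ht.1.le, ht.2⟩
    have hx0 : 0 < x := hy0.trans hx.1
    have hDp := dD_pos hx0 ht'
    have hs : 0 < √(dD x t) := sqrt_pos.2 hDp
    have e1 : HasDerivAt (fun x : ℝ => dD x t) (t * (2 * x)) x := by
      unfold dD
      have := ((((hasDerivAt_id x).fun_pow 2).const_mul t).const_add ((1 - t) ^ 2))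
      refine this.congr_deriv ?_
      simp
    have e2 := e1.sqrt hDp.ne'
    have e3 := (hasDerivAt_const x (gw α m t)).fun_div e2 hs.ne'
    refine e3.congr_deriv ?_
    have hss : √(dD x t) ^ 2 = dD x t := sq_sqrt hDp.le
    set s := √(dD x t) with hs'
    rw [← hss]
    field_simp
    ring

lemma deriv_bound {u : ℝ} (hu : 0 < u) :
    ∫ t in (0 : ℝ)..1, gw α m t * (t * u) / (dD u t * √(dD u t)) ≤ u ^ (α - 1) := by
  have hG := gw_cont h0 h1 hm
  have hE : ∀ t : ℝ, 0 < (1 - t) ^ 2 + u ^ 2 := fun t => by positivity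
  have hc1 : ContinuousOn (fun t : ℝ => gw α m t * (t * u) / (dD u t * √(dD u t))) (Set.uIcc 0 1) := by
    rw [Set.uIcc_of_le zero_le_one]
    apply ContinuousOn.div (hG.mul (by fun_prop)).continuousOn
    · unfold dD; fun_prop
    · intro t ht
      have := dD_pos hu ht
      positivity
  have hc2 : Continuous (fun t : ℝ => u ^ α * ((α * (1 - t) + (1 - α) * u) / (((1 - t) ^ 2 + u ^ 2) * √((1 - t) ^ 2 + u ^ 2)))) := by
    apply Continuous.mul continuous_const
    apply Continuous.div (by fun_prop) (by fun_prop)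
    intro t
    have := hE t
    positivity
  calc ∫ t in (0 : ℝ)..1, gw α m t * (t * u) / (dD u t * √(dD u t))
      ≤ ∫ t in (0 : ℝ)..1, u ^ α * ((α * (1 - t) + (1 - α) * u) / (((1 - t) ^ 2 + u ^ 2) * √((1 - t) ^ 2 + u ^ 2))) := by
        apply intervalIntegral.integral_mono_on zero_le_one hc1.intervalIntegrable (hc2.intervalIntegrable _ _)
        intro t ht
        exact pointwise h0 h1 hm hu ht
    _ = u ^ α * ∫ t in (0 : ℝ)..1, (α * (1 - t) + (1 - α) * u) / (((1 - t) ^ 2 + u ^ 2) * √((1 - t) ^ 2 + u ^ 2)) := by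
        rw [intervalIntegral.integral_const_mul]
    _ ≤ u ^ α * (1 / u) := mul_le_mul_of_nonneg_left (explicit h0 h1 hu) (rpow_nonneg hu.le _)
    _ = u ^ (α - 1) := by
        rw [rpow_sub_one hu.ne']; ring

lemma potential_mono : MonotoneOn (fun u : ℝ => u ^ α + kap α * ∫ t in (0 : ℝ)..1, gw α m t / √(dD u t)) (Set.Ioc 0 2) := by
  have hd : ∀ u ∈ Set.Ioc (0 : ℝ) 2, HasDerivAt (fun u : ℝ => u ^ α + kap α * ∫ t in (0 : ℝ)..1, gw α m t / √(dD u t))
      (α * u ^ (α - 1) + kap α * ∫ t in (0 : ℝ)..1, -(gw α m t * (t * u) / (dD u t * √(dD u t)))) u := by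
    intro u hu
    have e1 := Real.hasDerivAt_rpow_const (x := u) (p := α) (Or.inl hu.1.ne')
    exact e1.fun_add ((potential_deriv h0 h1 hm hu.1 hu.2).const_mul (kap α))
  apply monotoneOn_of_deriv_nonneg (convex_Ioc 0 2)
  · exact fun u hu => (hd u hu).continuousAt.continuousWithinAt
  · intro u hu
    rw [interior_Ioc] at hu
    exact (hd u ⟨hu.1, hu.2.le⟩).differentiableAt.differentiableWithinAt
  · intro u hu
    rw [interior_Ioc] at hu
    rw [(hd u ⟨hu.1, hu.2.le⟩).deriv, intervalIntegral.integral_neg]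
    have h2 := deriv_bound h0 h1 hm hu.1
    have hk := kap_le h0 h1
    have hk0 := kap_pos h0 h1
    have h3 : kap α * ∫ t in (0 : ℝ)..1, gw α m t * (t * u) / (dD u t * √(dD u t)) ≤ α * u ^ (α - 1) := by
      calc _ ≤ kap α * u ^ (α - 1) := mul_le_mul_of_nonneg_left h2 hk0.le
        _ ≤ _ := mul_le_mul_of_nonneg_right hk (rpow_nonneg hu.1.le _)
    linarith

/-- The main integral inequality. -/
lemma main_ineq {u : ℝ} (hu : 0 < u) (hu2 : u ≤ 2) :
    u ^ α + kap α * ∫ t in (0 : ℝ)..1, gw α m t / √(dD u t) ≤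
      2 ^ α + kap α * ∫ t in (0 : ℝ)..1, gw α m t / (1 + t) := by
  have h := potential_mono h0 h1 hm ⟨hu, hu2⟩ (⟨by norm_num, le_rfl⟩ : (2 : ℝ) ∈ Set.Ioc (0 : ℝ) 2) hu2
  have e : ∫ t in (0 : ℝ)..1, gw α m t / √(dD 2 t) = ∫ t in (0 : ℝ)..1, gw α m t / (1 + t) := by
    apply intervalIntegral.integral_congr
    intro t ht
    rw [Set.uIcc_of_le zero_le_one] at ht
    simp only
    have : √(dD 2 t) = 1 + t := by
      rw [show dD 2 t = (1 + t) ^ 2 by unfold dD; ring, sqrt_sq (by linarith [ht.1])]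
    rw [this]
  simp only at h
  rw [e] at h
  exact h

end small

end Pool.Agent.Helper81K9.Bran
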