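import Pool.Agent.Helper81K9.BranD

set_option autoImplicit false

namespace Pool.Agent.Helper81K9.Bran

open Finset Real Filter Topology MeasureTheory

section small

variable {α : ℝ} (h0 : 0 < α) (h1 : α < 1) {m : ℕ} (hm : 2 ≤ m)

include h0 h1 hm

lemma moment_gw (j : ℕ) : |bc α (m + j + 1)| = kap α * ∫ t in (0 : ℝ)..1, t ^ j * gw α m t := by
  rw [moment h0 h1 (m + j)]
  congr 1
  apply intervalIntegral.integral_congr
  intro t ht
  rw [Set.uIcc_of_le zero_le_one] at ht
  simp only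
  unfold gw
  rw [← mul_assoc]
  congr 1
  have h2 := expo_pos h0 h1 hm
  rcases ht.1.eq_or_lt with h | h
  · rw [← h, zero_rpow h2.ne', mul_zero, zero_rpow]
    push_cast
    have : (0 : ℝ) ≤ j := Nat.cast_nonneg j
    linarith
  · rw [← rpow_natCast t j, ← rpow_add h]
    congr 1
    push_cast
    ring

lemma bc_signed (hodd : Odd m) (j : ℕ) :
    bc α (m + j + 1) = -((-1) ^ j * (kap α * ∫ t in (0 : ℝ)..1, t ^ j * gw α m t)) := by
  rw [← moment_gw h0 h1 hm j, abs_bc0 h0 h1 (m + j), pow_add, hodd.neg_one_pow]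
  have : ((-1 : ℝ) ^ j) * ((-1 : ℝ) ^ j) = 1 := by
    rw [← mul_pow]; norm_num
  linear_combination (-bc α (m + j + 1)) * this

/-- Difference of partial sums. -/
lemma diff_formula (hodd : Odd m) (N : ℕ) (x : ℂ) :
    bS α (m + N) x = bS α m x - (kap α : ℂ) * x ^ (m + 1) *
      ∫ t in (0 : ℝ)..1, (gw α m t : ℂ) * ∑ j ∈ Finset.range N, (-((t : ℂ) * x)) ^ j := by
  have hG := gw_cont h0 h1 hm
  induction N with
  | zero => simp
  | succ N ih =>
    rw [show m + (N + 1) = (m + N) + 1 by ring, bS_succ, ih, bc_signed h0 h1 hm hodd N]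
    have e : ∫ t in (0 : ℝ)..1, (gw α m t : ℂ) * ∑ j ∈ Finset.range (N + 1), (-((t : ℂ) * x)) ^ j
        = (∫ t in (0 : ℝ)..1, (gw α m t : ℂ) * ∑ j ∈ Finset.range N, (-((t : ℂ) * x)) ^ j)
          + (-1) ^ N * x ^ N * ((∫ t in (0 : ℝ)..1, t ^ N * gw α m t : ℝ) : ℂ) := by
      rw [← intervalIntegral.integral_ofReal, ← intervalIntegral.integral_const_mul,
        ← intervalIntegral.integral_add]
      · apply intervalIntegral.integral_congr
        intro t _
        simp only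
        rw [Finset.sum_range_succ, mul_add, neg_pow ((t : ℂ) * x) N, mul_pow]
        push_cast
        ring
      · apply Continuous.intervalIntegrable
        have : Continuous (fun t : ℝ => (gw α m t : ℂ)) := Complex.continuous_ofReal.comp hG
        fun_prop
      · apply Continuous.intervalIntegrable
        have : Continuous (fun t : ℝ => ((t ^ N * gw α m t : ℝ) : ℂ)) :=
          Complex.continuous_ofReal.comp (by fun_prop)
        fun_prop
    rw [e]
    push_cast
    ring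

omit h0 h1 hm in
lemma norm_one_add {x : ℂ} (hx : ‖x‖ = 1) (t : ℝ) : ‖1 + (t : ℂ) * x‖ = √(dD ‖1 + x‖ t) := by
  have h6 : x.re ^ 2 + x.im ^ 2 = 1 := by
    have := Complex.sq_norm x
    rw [hx, Complex.normSq_apply] at this
    nlinarith
  have h7 : ‖1 + x‖ ^ 2 = 2 + 2 * x.re := by
    rw [Complex.sq_norm, Complex.normSq_apply]
    simp
    nlinarith
  have h8 : ‖1 + (t : ℂ) * x‖ ^ 2 = dD ‖1 + x‖ t := by
    rw [dD, h7, Complex.sq_norm, Complex.normSq_apply]
    simp
    linear_combination t ^ 2 * h6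
  rw [← h8, sqrt_sq (norm_nonneg _)]

lemma upper_step (hodd : Odd m) (N : ℕ) {x : ℂ} (hx : ‖x‖ = 1) (hx1 : x ≠ -1) :
    ‖bS α m x‖ ≤ ‖bS α (m + N) x‖ + kap α * (∫ t in (0 : ℝ)..1, gw α m t / √(dD ‖1 + x‖ t))
      + (2 / ‖1 + x‖) * |bc α (m + N + 1)| := by
  have hG := gw_cont h0 h1 hm
  have hk0 := kap_pos h0 h1
  set u := ‖1 + x‖ with hu
  have hu0 : 0 < u := by
    rw [hu, norm_pos_iff]
    intro h
    apply hx1
    linear_combination h
  have hu2 : u ≤ 2 := by
    calc u ≤ ‖(1 : ℂ)‖ + ‖x‖ := norm_add_le _ _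
      _ = 2 := by rw [hx]; norm_num
  have e : bS α m x = bS α (m + N) x + (kap α : ℂ) * x ^ (m + 1) *
      ∫ t in (0 : ℝ)..1, (gw α m t : ℂ) * ∑ j ∈ Finset.range N, (-((t : ℂ) * x)) ^ j := by
    rw [diff_formula h0 h1 hm hodd N x]; ring
  have hDc : Continuous (fun t : ℝ => √(dD u t)) := by unfold dD; fun_prop
  have hi1 : IntervalIntegrable (fun t : ℝ => gw α m t / √(dD u t)) volume 0 1 := by
    apply ContinuousOn.intervalIntegrable
    rw [Set.uIcc_of_le zero_le_one]
    apply ContinuousOn.div hG.continuousOn hDc.continuousOn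
    intro t ht
    exact (sqrt_pos.2 (dD_pos hu0 ht)).ne'
  have hi2 : IntervalIntegrable (fun t : ℝ => (2 / u) * (t ^ N * gw α m t)) volume 0 1 := by
    apply Continuous.intervalIntegrable
    fun_prop
  have hb : ‖∫ t in (0 : ℝ)..1, (gw α m t : ℂ) * ∑ j ∈ Finset.range N, (-((t : ℂ) * x)) ^ j‖
      ≤ ∫ t in (0 : ℝ)..1, (gw α m t / √(dD u t) + (2 / u) * (t ^ N * gw α m t)) := by
    apply intervalIntegral.norm_integral_le_of_norm_le zero_le_one _ (hi1.add hi2)
    refine Eventually.of_forall fun t ht => ?_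
    have ht' : t ∈ Set.Icc (0 : ℝ) 1 := ⟨ht.1.le, ht.2⟩
    have hg0 := gw_nonneg h0 h1 hm ht'
    have hDp := dD_pos hu0 ht'
    have hs : 0 < √(dD u t) := sqrt_pos.2 hDp
    have hn := norm_one_add hx t
    have hne : (1 : ℂ) + t * x ≠ 0 := by
      rw [← norm_pos_iff, hn]; exact hs
    have hgeo : ∑ j ∈ Finset.range N, (-((t : ℂ) * x)) ^ j = (1 - (-((t : ℂ) * x)) ^ N) / (1 + t * x) := by
      rw [eq_div_iff hne]
      have := mul_neg_geom_sum (-((t : ℂ) * x)) N
      rw [← this]; ring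
    rw [norm_mul, Complex.norm_real, norm_eq_abs, abs_of_nonneg hg0, hgeo, norm_div, hn]
    have hnum : ‖1 - (-((t : ℂ) * x)) ^ N‖ ≤ 1 + t ^ N := by
      calc ‖1 - (-((t : ℂ) * x)) ^ N‖ ≤ ‖(1 : ℂ)‖ + ‖(-((t : ℂ) * x)) ^ N‖ := norm_sub_le _ _
        _ = 1 + t ^ N := by
            rw [norm_pow, norm_neg, norm_mul, hx, Complex.norm_real, norm_eq_abs, abs_of_nonneg ht'.1]
            simp
    have hlow : u / 2 ≤ √(dD u t) := by
      apply le_sqrt_of_sq_le
      have : (u / 2) ^ 2 ≤ dD u t := by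
        unfold dD
        have h5 : 0 ≤ (4 - u ^ 2) * (1 - t) ^ 2 := mul_nonneg (by nlinarith) (sq_nonneg _)
        have h6 : 0 ≤ u ^ 2 * (t + t ^ 2 * 0) := mul_nonneg (sq_nonneg _) (by linarith [ht'.1])
        have h7 : 0 ≤ u ^ 2 * (2 * t + t ^ 2) := mul_nonneg (sq_nonneg _) (by nlinarith [ht'.1])
        nlinarith
      exact this
    have h8 : t ^ N / √(dD u t) ≤ (2 / u) * t ^ N := by
      rw [div_le_iff₀ hs]
      have h9 : 1 ≤ 2 / u * √(dD u t) := by
        rw [div_mul_eq_mul_div, le_div_iff₀ hu0]; linarith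
      have h10 : 0 ≤ t ^ N := pow_nonneg ht'.1 N
      nlinarith
    calc gw α m t * (‖1 - (-((t : ℂ) * x)) ^ N‖ / √(dD u t))
        ≤ gw α m t * ((1 + t ^ N) / √(dD u t)) := by
          apply mul_le_mul_of_nonneg_left _ hg0
          exact div_le_div_of_nonneg_right hnum hs.le
      _ = gw α m t / √(dD u t) + gw α m t * (t ^ N / √(dD u t)) := by ring
      _ ≤ gw α m t / √(dD u t) + gw α m t * ((2 / u) * t ^ N) := by
          gcongr
      _ = gw α m t / √(dD u t) + (2 / u) * (t ^ N * gw α m t) := by ring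
  rw [intervalIntegral.integral_add hi1 hi2, intervalIntegral.integral_const_mul] at hb
  calc ‖bS α m x‖ ≤ ‖bS α (m + N) x‖ + ‖(kap α : ℂ) * x ^ (m + 1) *
      ∫ t in (0 : ℝ)..1, (gw α m t : ℂ) * ∑ j ∈ Finset.range N, (-((t : ℂ) * x)) ^ j‖ := by
        rw [e]; exact norm_add_le _ _
    _ = ‖bS α (m + N) x‖ + kap α * ‖∫ t in (0 : ℝ)..1, (gw α m t : ℂ) * ∑ j ∈ Finset.range N, (-((t : ℂ) * x)) ^ j‖ := by
        rw [norm_mul, norm_mul, norm_pow, hx, one_pow, mul_one, Complex.norm_real, norm_eq_abs, abs_of_pos hk0]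
    _ ≤ ‖bS α (m + N) x‖ + kap α * ((∫ t in (0 : ℝ)..1, gw α m t / √(dD u t)) + (2 / u) * ∫ t in (0 : ℝ)..1, t ^ N * gw α m t) := by
        gcongr
    _ = _ := by
        rw [moment_gw h0 h1 hm N]; ring

lemma lower_step (hodd : Odd m) (N : ℕ) :
    bM α (m + N) + kap α * (∫ t in (0 : ℝ)..1, gw α m t / (1 + t)) - |bc α (m + N + 1)| ≤ bM α m := by
  have hG := gw_cont h0 h1 hm
  have hk0 := kap_pos h0 h1
  have hS : ∀ n : ℕ, bS α n 1 = (bM α n : ℂ) := by
    intro n; unfold bS bM; push_cast; simp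
  have e := diff_formula h0 h1 hm hodd N 1
  have e2 : bM α (m + N) = bM α m - kap α * ∫ t in (0 : ℝ)..1, gw α m t * ∑ j ∈ Finset.range N, (-t) ^ j := by
    rw [hS, hS] at e
    have e3 : ∫ t in (0 : ℝ)..1, (gw α m t : ℂ) * ∑ j ∈ Finset.range N, (-((t : ℂ) * 1)) ^ j
        = ((∫ t in (0 : ℝ)..1, gw α m t * ∑ j ∈ Finset.range N, (-t) ^ j : ℝ) : ℂ) := by
      rw [← intervalIntegral.integral_ofReal]
      apply intervalIntegral.integral_congr
      intro t _
      simp
    rw [e3, one_pow, mul_one] at e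
    exact_mod_cast e
  have hi1 : IntervalIntegrable (fun t : ℝ => gw α m t / (1 + t)) volume 0 1 := by
    apply ContinuousOn.intervalIntegrable
    rw [Set.uIcc_of_le zero_le_one]
    apply ContinuousOn.div hG.continuousOn (by fun_prop)
    intro t ht
    linarith [ht.1]
  have hi2 : IntervalIntegrable (fun t : ℝ => t ^ N * gw α m t) volume 0 1 := by
    apply Continuous.intervalIntegrable
    fun_prop
  have hi3 : IntervalIntegrable (fun t : ℝ => gw α m t * ∑ j ∈ Finset.range N, (-t) ^ j) volume 0 1 := by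
    apply Continuous.intervalIntegrable
    fun_prop
  have hb : ∫ t in (0 : ℝ)..1, (gw α m t / (1 + t) - t ^ N * gw α m t) ≤
      ∫ t in (0 : ℝ)..1, gw α m t * ∑ j ∈ Finset.range N, (-t) ^ j := by
    apply intervalIntegral.integral_mono_on zero_le_one (hi1.sub hi2) hi3
    intro t ht
    have hg0 := gw_nonneg h0 h1 hm ht
    have ht0 := ht.1
    have hp : 0 < 1 + t := by linarith
    have hgeo : ∑ j ∈ Finset.range N, (-t) ^ j = (1 - (-t) ^ N) / (1 + t) := by
      rw [eq_div_iff hp.ne']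
      have := mul_neg_geom_sum (-t) N
      rw [← this]; ring
    rw [hgeo]
    have h2 : (-t) ^ N ≤ t ^ N := by
      calc (-t) ^ N ≤ |(-t) ^ N| := le_abs_self _
        _ = t ^ N := by rw [abs_pow, abs_neg, abs_of_nonneg ht0]
    have h3 : t ^ N / (1 + t) ≤ t ^ N := div_le_self (pow_nonneg ht0 N) (by linarith)
    calc gw α m t / (1 + t) - t ^ N * gw α m t = gw α m t * (1 / (1 + t) - t ^ N) := by ring
      _ ≤ gw α m t * (1 / (1 + t) - t ^ N / (1 + t)) := by gcongr
      _ = gw α m t * ((1 - t ^ N) / (1 + t)) := by rw [sub_div]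
      _ ≤ gw α m t * ((1 - (-t) ^ N) / (1 + t)) := by gcongr
  rw [intervalIntegral.integral_sub hi1 hi2] at hb
  rw [moment_gw h0 h1 hm N, e2]
  nlinarith

/-- The case `0 < α < 1` away from `-1`. -/
lemma case_small (hodd : Odd m) {x : ℂ} (hx : ‖x‖ = 1) (hx1 : x ≠ -1) : ‖bS α m x‖ ≤ bM α m := by
  set u := ‖1 + x‖ with hu
  have hu0 : 0 < u := by
    rw [hu, norm_pos_iff]
    intro h
    apply hx1
    linear_combination h
  have hu2 : u ≤ 2 := by
    calc u ≤ ‖(1 : ℂ)‖ + ‖x‖ := norm_add_le _ _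
      _ = 2 := by rw [hx]; norm_num
  have hxne : 1 + x ≠ 0 := by rw [← norm_pos_iff]; exact hu0
  have htail : Tendsto (fun N : ℕ => |bc α (m + N + 1)|) atTop (𝓝 0) := by
    have := (tendsto_add_atTop_iff_nat (m + 1)).2 (tendsto_abs0 h0 h1)
    refine this.congr (fun n => ?_)
    congr 2
    ring
  have hnorm : ‖(1 + x) ^ (α : ℂ)‖ = u ^ α := Complex.norm_cpow_real _ _
  -- upper bound
  have hup : ‖bS α m x‖ ≤ u ^ α + kap α * (∫ t in (0 : ℝ)..1, gw α m t / √(dD u t)) := by
    have hl1 : Tendsto (fun N : ℕ => ‖bS α (m + N) x‖) atTop (𝓝 (u ^ α)) := by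
      rw [← hnorm]
      have := ((tendsto_add_atTop_iff_nat m).2 (tendsto_bS h0 h1 hx hx1)).norm
      refine this.congr (fun n => ?_)
      rw [add_comm]
    have hl2 : Tendsto (fun N : ℕ => ‖bS α (m + N) x‖ + kap α * (∫ t in (0 : ℝ)..1, gw α m t / √(dD u t))
        + (2 / u) * |bc α (m + N + 1)|) atTop
        (𝓝 (u ^ α + kap α * (∫ t in (0 : ℝ)..1, gw α m t / √(dD u t)) + (2 / u) * 0)) :=
      (hl1.add_const _).add (htail.const_mul _)
    rw [mul_zero, add_zero] at hl2
    exact ge_of_tendsto' hl2 (fun N => upper_step h0 h1 hm hodd N hx hx1)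
  -- lower bound at one
  have hlow : 2 ^ α + kap α * (∫ t in (0 : ℝ)..1, gw α m t / (1 + t)) ≤ bM α m := by
    have hS : ∀ n : ℕ, bS α n 1 = (bM α n : ℂ) := by
      intro n; unfold bS bM; push_cast; simp
    have hl0 : Tendsto (fun n : ℕ => bM α n) atTop (𝓝 ((2 : ℝ) ^ α)) := by
      have h2 := tendsto_bS h0 h1 (x := 1) (by simp) (by
        intro h
        have := congrArg Complex.re h
        norm_num at this)
      have h3 := (Complex.continuous_re.tendsto _).comp h2
      have h4 : ((1 + 1 : ℂ) ^ (α : ℂ)).re = (2 : ℝ) ^ α := by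
        rw [show (1 + 1 : ℂ) = ((2 : ℝ) : ℂ) by norm_num, ← Complex.ofReal_cpow (by norm_num), Complex.ofReal_re]
      rw [h4] at h3
      refine h3.congr (fun n => ?_)
      simp [hS]
    have hl1 : Tendsto (fun N : ℕ => bM α (m + N)) atTop (𝓝 ((2 : ℝ) ^ α)) := by
      have := (tendsto_add_atTop_iff_nat m).2 hl0
      refine this.congr (fun n => ?_)
      rw [add_comm]
    have hl2 : Tendsto (fun N : ℕ => bM α (m + N) + kap α * (∫ t in (0 : ℝ)..1, gw α m t / (1 + t))
        - |bc α (m + N + 1)|) atTop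
        (𝓝 (2 ^ α + kap α * (∫ t in (0 : ℝ)..1, gw α m t / (1 + t)) - 0)) :=
      (hl1.add_const _).sub htail
    rw [sub_zero] at hl2
    exact le_of_tendsto' hl2 (fun N => lower_step h0 h1 hm hodd N)
  exact hup.trans ((main_ineq h0 h1 hm hu0 hu2).trans hlow)

/-- The case `0 < α < 1`. -/
lemma case_lt_one (hodd : Odd m) (x : ℂ) (hx : ‖x‖ = 1) : ‖bS α m x‖ ≤ bM α m := by
  by_cases hx1 : x = -1
  · -- by continuity
    have hcont : Continuous (fun φ : ℝ => ‖bS α m (Complex.exp (φ * Complex.I))‖) := by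
      unfold bS; fun_prop
    have hl : Tendsto (fun n : ℕ => π - 1 / ((n : ℝ) + 1)) atTop (𝓝 (π - 0)) :=
      tendsto_const_nhds.sub tendsto_one_div_add_atTop_nhds_zero_nat
    rw [sub_zero] at hl
    have hl2 := (hcont.tendsto π).comp hl
    have e : Complex.exp ((π : ℝ) * Complex.I) = x := by rw [Complex.exp_pi_mul_I, hx1]
    rw [e] at hl2
    refine le_of_tendsto' hl2 (fun n => ?_)
    apply case_small h0 h1 hm hodd
    · rw [Complex.norm_exp_ofReal_mul_I]
    · intro h
      have hn : 0 < 1 / ((n : ℝ) + 1) := by positivity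
      have hn1 : 1 / ((n : ℝ) + 1) ≤ 1 := by
        rw [div_le_one (by positivity)]
        have : (0 : ℝ) ≤ n := Nat.cast_nonneg n
        linarith
      have him := congrArg Complex.im h
      rw [Complex.exp_ofReal_mul_I_im] at him
      simp only [Complex.neg_im, Complex.one_im, neg_zero] at him
      have : 0 < sin (π - 1 / ((n : ℝ) + 1)) := by
        apply sin_pos_of_pos_of_lt_pi
        · have := pi_gt_three
          linarith
        · linarith
      linarith
  · exact case_small h0 h1 hm hodd hx hx1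

end small

/-- Brannan's conjecture for `β = 1`. -/
theorem brannan (α : ℝ) (hα : 0 < α) (m : ℕ) (hodd : Odd m) (hm : 3 ≤ m) (x : ℂ) (hx : ‖x‖ = 1) :
    ‖bS α m x‖ ≤ bM α m := by
  rcases lt_or_ge α 1 with h | h
  · exact case_lt_one hα h (by omega) hodd x hx
  · exact case_ge_one h m x hx

end Pool.Agent.Helper81K9.Bran
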