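import Pool.Agent.H496R3.ZS.Stmt

/-!
Amenability (the Foelner condition) of extensions: if `C ≤ E` are subgroups of a group, `C` is
amenable and the action of `E` on `E/C` is amenable, then `E` is amenable.
-/

set_option autoImplicit false

namespace Pool.Agent.Helper81K9.PD

open scoped Pointwise symmDiff
open Pool.Agent.H496R3.ZS (IsAmenable)

variable {G : Type} [Group G]

open Classical in
/-- The Foelner condition for a subgroup, in terms of finite subsets of the ambient group. -/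
def Fol (C : Subgroup G) : Prop :=
  ∀ (S : Finset G) (ε : ℝ), 0 < ε → (∀ s ∈ S, s ∈ C) → ∃ F : Finset G, F.Nonempty ∧
    (∀ f ∈ F, f ∈ C) ∧ ∀ s ∈ S, ((F.filter (fun f => s * f ∉ F)).card : ℝ) ≤ ε * F.card

lemma smul_finset_diff_card [DecidableEq G] (F : Finset G) (s : G) :
    (((s • (F : Set G)) \ (F : Set G))).ncard = (F.filter (fun f => s * f ∉ F)).card := by
  have h : (s • (F : Set G)) \ (F : Set G) =
      (fun f => s * f) '' ((F.filter (fun f => s * f ∉ F) : Finset G) : Set G) := by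
    ext x
    constructor
    · rintro ⟨⟨f, hf, rfl⟩, hx⟩
      exact ⟨f, by
        rw [Finset.coe_filter]
        exact ⟨hf, hx⟩, rfl⟩
    · rintro ⟨f, hf, rfl⟩
      rw [Finset.coe_filter] at hf
      exact ⟨⟨f, hf.1, rfl⟩, hf.2⟩
  rw [h, Set.ncard_image_of_injective _ (mul_right_injective s), Set.ncard_coe_finset]

lemma diff_smul_card [DecidableEq G] (F : Finset G) (s : G) :
    (((F : Set G) \ (s • (F : Set G)))).ncard = (F.filter (fun f => s⁻¹ * f ∉ F)).card := by
  have h : (F : Set G) \ (s • (F : Set G)) =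
      ((F.filter (fun f => s⁻¹ * f ∉ F) : Finset G) : Set G) := by
    ext x
    rw [Finset.coe_filter]
    constructor
    · rintro ⟨hx, h2⟩
      refine ⟨hx, fun h3 => h2 ⟨s⁻¹ * x, h3, ?_⟩⟩
      simp
    · rintro ⟨hx, h2⟩
      refine ⟨hx, ?_⟩
      rintro ⟨y, hy, rfl⟩
      refine h2 ?_
      simpa using hy
  rw [h, Set.ncard_coe_finset]

theorem fol_of_isAmenable {C : Subgroup G} (hC : IsAmenable C) : Fol C := by
  classical
  intro S ε hε hS
  let S' : Finset C := S.attach.image fun s => (⟨s.1, hS s.1 s.2⟩ : C)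
  obtain ⟨F, hF, h⟩ := hC S' ε hε
  refine ⟨F.map ⟨Subtype.val, Subtype.val_injective⟩, hF.map, ?_, ?_⟩
  · intro f hf
    rw [Finset.mem_map] at hf
    obtain ⟨a, -, rfl⟩ := hf
    exact a.2
  · intro s hs
    have h1 := h ⟨s, hS s hs⟩ (Finset.mem_image.2 ⟨⟨s, hs⟩, Finset.mem_attach _ _, rfl⟩)
    rw [Finset.card_map]
    refine le_trans ?_ h1
    have h2 : (F.filter (fun f => (⟨s, hS s hs⟩ : C) * f ∉ F)).card ≤
        (((⟨s, hS s hs⟩ : C) • (F : Set C)) ∆ (F : Set C)).ncard := by
      rw [← smul_finset_diff_card]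
      refine Set.ncard_le_ncard (fun x hx => Or.inl hx) ?_
      exact Set.Finite.symmDiff (F.finite_toSet.smul_set) F.finite_toSet
    have h3 : ((F.map ⟨Subtype.val, Subtype.val_injective⟩).filter
        (fun f => s * f ∉ F.map ⟨Subtype.val, Subtype.val_injective⟩)).card ≤
        (F.filter (fun f => (⟨s, hS s hs⟩ : C) * f ∉ F)).card := by
      rw [Finset.filter_map, Finset.card_map]
      refine Finset.card_le_card fun x hx => ?_
      rw [Finset.mem_filter] at hx ⊢
      refine ⟨hx.1, fun h4 => hx.2 ?_⟩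
      exact Finset.mem_map.2 ⟨_, h4, rfl⟩
    exact_mod_cast h3.trans h2

theorem isAmenable_of_fol {C : Subgroup G} (hC : Fol C) : IsAmenable C := by
  classical
  intro S ε hε
  obtain ⟨F, hF, hFC, h⟩ := hC ((S.image Subtype.val) ∪ (S.image fun s => (s.1)⁻¹)) (ε / 2)
    (half_pos hε) (by
      intro s hs
      rw [Finset.mem_union, Finset.mem_image, Finset.mem_image] at hs
      rcases hs with ⟨a, -, rfl⟩ | ⟨a, -, rfl⟩
      · exact a.2
      · exact C.inv_mem a.2)
  let F' : Finset C := F.attach.image fun f => (⟨f.1, hFC f.1 f.2⟩ : C)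
  have hmem : ∀ x : C, x ∈ F' ↔ x.1 ∈ F := by
    intro x
    constructor
    · intro hx
      obtain ⟨a, -, rfl⟩ := Finset.mem_image.1 hx
      exact a.2
    · intro hx
      exact Finset.mem_image.2 ⟨⟨x.1, hx⟩, Finset.mem_attach _ _, rfl⟩
  have hmap : F'.map ⟨Subtype.val, Subtype.val_injective⟩ = F := by
    ext x
    rw [Finset.mem_map]
    constructor
    · rintro ⟨a, ha, rfl⟩
      exact (hmem a).1 ha
    · intro hx
      exact ⟨⟨x, hFC x hx⟩, (hmem _).2 hx, rfl⟩
  have hcard : F'.card = F.card := by rw [← hmap, Finset.card_map]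
  have key : ∀ s : C, (F'.filter (fun f => s * f ∉ F')).card =
      (F.filter (fun f => s.1 * f ∉ F)).card := by
    intro s
    rw [← Finset.card_map ⟨Subtype.val, Subtype.val_injective⟩]
    congr 1
    ext x
    rw [Finset.mem_map, Finset.mem_filter]
    constructor
    · rintro ⟨a, ha, rfl⟩
      rw [Finset.mem_filter] at ha
      refine ⟨(hmem a).1 ha.1, fun h4 => ha.2 ((hmem _).2 h4)⟩
    · rintro ⟨hx, h2⟩
      refine ⟨⟨x, hFC x hx⟩, ?_, rfl⟩
      rw [Finset.mem_filter]
      exact ⟨(hmem _).2 hx, fun h4 => h2 ((hmem _).1 h4)⟩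
  refine ⟨F', ?_, fun s hs => ?_⟩
  · rw [← Finset.card_pos, hcard, Finset.card_pos]
    exact hF
  · have h1 := h s.1 (Finset.mem_union_left _ (Finset.mem_image_of_mem _ hs))
    have h2 := h (s.1)⁻¹ (Finset.mem_union_right _ (Finset.mem_image.2 ⟨s, hs, rfl⟩))
    have h3 : (((s • (F' : Set C)) ∆ (F' : Set C))).ncard ≤
        (((s • (F' : Set C)) \ (F' : Set C))).ncard +
          (((F' : Set C) \ (s • (F' : Set C)))).ncard := Set.ncard_union_le _ _
    rw [smul_finset_diff_card, diff_smul_card, key, key] at h3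
    rw [hcard]
    have h4 : (((((s • (F' : Set C)) ∆ (F' : Set C))).ncard : ℕ) : ℝ) ≤
        ((F.filter (fun f => s.1 * f ∉ F)).card : ℝ) +
          ((F.filter (fun f => (s⁻¹ : C).1 * f ∉ F)).card : ℝ) := by exact_mod_cast h3
    have h5 : ((s⁻¹ : C) : G) = (s.1)⁻¹ := rfl
    rw [h5] at h4
    linarith

open Classical in
/-- extensions -/
theorem Fol.ext {C E : Subgroup G} (hC : Fol C) (hCE : C ≤ E)
    (hA : ∀ (S : Finset G) (ε : ℝ), 0 < ε → (∀ s ∈ S, s ∈ E) → ∃ A : Finset G, A.Nonempty ∧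
      (∀ a ∈ A, a ∈ E) ∧ (∀ a ∈ A, ∀ b ∈ A, a⁻¹ * b ∈ C → a = b) ∧
      ∀ s ∈ S, ((A.filter (fun a => ∀ b ∈ A, b⁻¹ * (s * a) ∉ C)).card : ℝ) ≤ ε * A.card) :
    Fol E := by
  intro S ε hε hS
  obtain ⟨A, hAn, hAE, hinj, hbad⟩ := hA S (ε / 2) (half_pos hε) hS
  let T : Finset G := ((S ×ˢ (A ×ˢ A)).image fun q => q.2.2⁻¹ * (q.1 * q.2.1)).filter (· ∈ C)
  obtain ⟨F', hF'n, hF'C, hF'⟩ := hC T (ε / 2) (half_pos hε) (by
    intro s hs
    exact (Finset.mem_filter.1 hs).2)
  have hpi : Set.InjOn (fun q : G × G => q.1 * q.2) ((A ×ˢ F' : Finset (G × G)) : Set (G × G)) := by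
    rintro ⟨a, f⟩ h1 ⟨b, f'⟩ h2 h3
    rw [Finset.mem_coe, Finset.mem_product] at h1 h2
    have h4 : a * f = b * f' := h3
    have h5 : a⁻¹ * b = f * f'⁻¹ := by
      rw [eq_mul_inv_iff_mul_eq, mul_assoc, ← h4]; simp
    have h6 : a = b := hinj a h1.1 b h2.1 (by
      rw [h5]
      exact C.mul_mem (hF'C _ h1.2) (C.inv_mem (hF'C _ h2.2)))
    subst h6
    have h7 := mul_left_cancel h4
    rw [h7]
  refine ⟨(A ×ˢ F').image fun q => q.1 * q.2, (hAn.product hF'n).image _, ?_, ?_⟩
  · intro f hf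
    rw [Finset.mem_image] at hf
    obtain ⟨q, hq, rfl⟩ := hf
    rw [Finset.mem_product] at hq
    exact E.mul_mem (hAE _ hq.1) (hCE (hF'C _ hq.2))
  · intro s hs
    rw [Finset.card_image_of_injOn hpi, Finset.card_product]
    set F := (A ×ˢ F').image fun q => q.1 * q.2 with hF
    have h1 : (F.filter (fun f => s * f ∉ F)).card ≤
        ((A ×ˢ F').filter (fun q => s * (q.1 * q.2) ∉ F)).card := by
      have : F.filter (fun f => s * f ∉ F) ⊆
          ((A ×ˢ F').filter (fun q => s * (q.1 * q.2) ∉ F)).image fun q => q.1 * q.2 := by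
        intro x hx
        rw [Finset.mem_filter] at hx
        obtain ⟨q, hq, rfl⟩ := Finset.mem_image.1 hx.1
        exact Finset.mem_image.2 ⟨q, Finset.mem_filter.2 ⟨hq, hx.2⟩, rfl⟩
      exact (Finset.card_le_card this).trans Finset.card_image_le
    have h2 : ((A ×ˢ F').filter (fun q => s * (q.1 * q.2) ∉ F)).card =
        ∑ a ∈ A, (F'.filter (fun f => s * (a * f) ∉ F)).card := by
      simp only [Finset.card_filter, Finset.sum_product]
    have h3 : ∀ a ∈ A, ((F'.filter (fun f => s * (a * f) ∉ F)).card : ℝ) ≤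
        (if ∀ b ∈ A, b⁻¹ * (s * a) ∉ C then (F'.card : ℝ) else 0) + ε / 2 * F'.card := by
      intro a ha
      by_cases hb : ∀ b ∈ A, b⁻¹ * (s * a) ∉ C
      · rw [if_pos hb]
        have h4 : ((F'.filter (fun f => s * (a * f) ∉ F)).card : ℝ) ≤ F'.card := by
          exact_mod_cast Finset.card_filter_le _ _
        have h5 : 0 ≤ ε / 2 * F'.card := by positivity
        linarith
      · rw [if_neg hb, zero_add]
        push Not at hb
        obtain ⟨b, hb, hbC⟩ := hb
        have hT : b⁻¹ * (s * a) ∈ T := by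
          refine Finset.mem_filter.2 ⟨Finset.mem_image.2 ⟨(s, (a, b)), ?_, rfl⟩, hbC⟩
          rw [Finset.mem_product, Finset.mem_product]
          exact ⟨hs, ha, hb⟩
        refine le_trans ?_ (hF' _ hT)
        have : F'.filter (fun f => s * (a * f) ∉ F) ⊆
            F'.filter (fun f => b⁻¹ * (s * a) * f ∉ F') := by
          intro f hf
          rw [Finset.mem_filter] at hf ⊢
          refine ⟨hf.1, fun h6 => hf.2 ?_⟩
          rw [hF]
          refine Finset.mem_image.2 ⟨(b, b⁻¹ * (s * a) * f), Finset.mem_product.2 ⟨hb, h6⟩, ?_⟩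
          simp [mul_assoc]
        exact_mod_cast Finset.card_le_card this
    have h4 : ((F.filter (fun f => s * f ∉ F)).card : ℝ) ≤
        ∑ a ∈ A, ((if ∀ b ∈ A, b⁻¹ * (s * a) ∉ C then (F'.card : ℝ) else 0) +
          ε / 2 * F'.card) := by
      refine le_trans ?_ (Finset.sum_le_sum h3)
      have := h1.trans h2.le
      exact_mod_cast this
    refine h4.trans ?_
    rw [Finset.sum_add_distrib, ← Finset.sum_filter, Finset.sum_const, Finset.sum_const,
      nsmul_eq_mul, nsmul_eq_mul]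
    have h5 := mul_le_mul_of_nonneg_right (hbad s hs) (Nat.cast_nonneg (α := ℝ) F'.card)
    push_cast
    nlinarith

theorem Fol.bot : Fol (⊥ : Subgroup G) := by
  classical
  intro S ε hε hS
  refine ⟨{1}, Finset.singleton_nonempty _, ?_, ?_⟩
  · intro f hf
    rw [Finset.mem_singleton] at hf
    rw [hf]
    exact Subgroup.one_mem _
  · intro s hs
    have h1 : s = 1 := Subgroup.mem_bot.1 (hS s hs)
    subst h1
    have : ({1} : Finset G).filter (fun f => 1 * f ∉ ({1} : Finset G)) = ∅ := by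
      ext x
      simp
    rw [this]
    simp
    exact hε.le

end Pool.Agent.Helper81K9.PD
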