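import Pool.Agent.Helper81K9.PdA

/-!
Poly-(infinite cyclic) subgroups.
-/

set_option autoImplicit false

namespace Pool.Agent.Helper81K9.PD

open Pool.Agent.H496R3.ZS (IsAmenable)

variable {G : Type} [Group G]

/-- `C` is a poly-(infinite cyclic) subgroup of `G` of Hirsch length `r`: `C` is trivial if `r = 0`,
and otherwise `C` is generated by a poly-(infinite cyclic) subgroup `B` of length `r - 1` and an
element `t` which normalizes `B` and has no nonzero power in `B` (so that `B` is normal in `C` and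
`C/B` is infinite cyclic). -/
def PolyZ : ℕ → Subgroup G → Prop
  | 0, C => C = ⊥
  | r + 1, C => ∃ (B : Subgroup G) (t : G), PolyZ r B ∧ (∀ g, g ∈ B ↔ t * g * t⁻¹ ∈ B) ∧
      (∀ k : ℤ, t ^ k ∈ B → k = 0) ∧ C = B ⊔ Subgroup.zpowers t

/-- `s` normalizes `C` -/
def Nor (C : Subgroup G) (s : G) : Prop := ∀ g, g ∈ C ↔ s * g * s⁻¹ ∈ C

lemma Nor.zpow {C : Subgroup G} {s : G} (h : Nor C s) (i : ℤ) : Nor C (s ^ i) := by
  have h1 : s ∈ Subgroup.normalizer (C : Set G) := Subgroup.mem_normalizer_iff.2 h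
  exact Subgroup.mem_normalizer_iff.1 (Subgroup.zpow_mem _ h1 i)

lemma Nor.conj {C : Subgroup G} {s : G} (h : Nor C s) (i : ℤ) {g : G} (hg : g ∈ C) :
    s ^ i * g * (s ^ i)⁻¹ ∈ C := (h.zpow i g).1 hg

/-- the subgroup generated by `C` and `s` -/
def adj (C : Subgroup G) (s : G) (h : Nor C s) : Subgroup G where
  carrier := {g | ∃ i : ℤ, s ^ i * g ∈ C}
  one_mem' := ⟨0, by simp [C.one_mem]⟩
  mul_mem' := by
    rintro a b ⟨i, hi⟩ ⟨j, hj⟩
    refine ⟨j + i, ?_⟩
    have h1 := C.mul_mem (h.conj j hi) hj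
    have h2 : s ^ (j + i) * (a * b) = s ^ j * (s ^ i * a) * (s ^ j)⁻¹ * (s ^ j * b) := by
      rw [zpow_add]; group
    rw [h2]
    exact h1
  inv_mem' := by
    rintro a ⟨i, hi⟩
    refine ⟨-i, ?_⟩
    have h1 := h.conj (-i) (C.inv_mem hi)
    have h2 : s ^ (-i) * a⁻¹ = s ^ (-i) * (s ^ i * a)⁻¹ * (s ^ (-i))⁻¹ := by
      rw [zpow_neg]; group
    rw [h2]
    exact h1

lemma mem_adj {C : Subgroup G} {s : G} {h : Nor C s} {g : G} :
    g ∈ adj C s h ↔ ∃ i : ℤ, s ^ i * g ∈ C := Iff.rfl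

lemma le_adj {C : Subgroup G} {s : G} (h : Nor C s) : C ≤ adj C s h := fun g hg =>
  ⟨0, by simpa using hg⟩

lemma self_mem_adj {C : Subgroup G} {s : G} (h : Nor C s) : s ∈ adj C s h :=
  ⟨-1, by simp [C.one_mem]⟩

lemma adj_eq {C : Subgroup G} {s : G} (h : Nor C s) : adj C s h = C ⊔ Subgroup.zpowers s := by
  apply le_antisymm
  · rintro g ⟨i, hi⟩
    have h1 : g = (s ^ i)⁻¹ * (s ^ i * g) := by group
    rw [h1]
    exact Subgroup.mul_mem _ (Subgroup.inv_mem _ (Subgroup.zpow_mem _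
      (le_sup_right (a := C) (Subgroup.mem_zpowers s)) i)) (le_sup_left (b := Subgroup.zpowers s) hi)
  · refine sup_le (le_adj h) ?_
    rw [Subgroup.zpowers_le]
    exact self_mem_adj h

lemma PolyZ.fg {r : ℕ} {C : Subgroup G} (h : PolyZ r C) : C.FG := by
  induction r generalizing C with
  | zero =>
    have h0 : C = ⊥ := h
    rw [h0]
    exact ⟨∅, by simp⟩
  | succ r ih =>
    obtain ⟨B, t, hB, -, -, rfl⟩ := h
    refine Subgroup.FG.sup (ih hB) ⟨{t}, ?_⟩
    rw [Finset.coe_singleton, Subgroup.zpowers_eq_closure]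

/-- `H` has finite index in `K` -/
def FI (H K : Subgroup G) : Prop := ∃ R : Finset G, ∀ g ∈ K, ∃ r ∈ R, r⁻¹ * g ∈ H

lemma FI.finite {H K : Subgroup G} (h : FI H K) (hHK : H ≤ K) :
    Finite (K ⧸ H.subgroupOf K) := by
  classical
  obtain ⟨R, hR⟩ := h
  let f : R → K ⧸ H.subgroupOf K := fun r =>
    if hr : r.1 ∈ K then QuotientGroup.mk ⟨r.1, hr⟩ else QuotientGroup.mk 1
  refine Finite.of_surjective f fun x => ?_
  induction x using QuotientGroup.induction_on with
  | H g =>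
    obtain ⟨r, hr, hg⟩ := hR g.1 g.2
    have hrK : r ∈ K := by
      have h1 : r = g.1 * (r⁻¹ * g.1)⁻¹ := by group
      rw [h1]
      exact K.mul_mem g.2 (K.inv_mem (hHK hg))
    refine ⟨⟨r, hr⟩, ?_⟩
    change (if hr : r ∈ K then (QuotientGroup.mk ⟨r, hr⟩ : K ⧸ H.subgroupOf K)
      else QuotientGroup.mk 1) = _
    rw [dif_pos hrK, QuotientGroup.eq, Subgroup.mem_subgroupOf]
    exact hg

/-- a power of `t` normalizes a subgroup of finite index -/
theorem exists_pow_nor {B B' : Subgroup G} {t : G} (hfg : B.FG) (ht : Nor B t) (hle : B' ≤ B)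
    (hfi : FI B' B) : ∃ k : ℕ, 0 < k ∧ Nor B' (t ^ k) := by
  classical
  have hfin := hfi.finite hle
  obtain ⟨T, hT⟩ := hfg
  let cj : ℕ → B →* B := fun k =>
    { toFun := fun g => ⟨(t ^ (-(k : ℤ))) * g.1 * (t ^ (-(k : ℤ)))⁻¹, ht.conj _ g.2⟩
      map_one' := by apply Subtype.ext; simp
      map_mul' := fun a b => by apply Subtype.ext; simp [mul_assoc] }
  let th : ℕ → B →* Equiv.Perm (B ⧸ B'.subgroupOf B) := fun k =>
    (MulAction.toPermHom B (B ⧸ B'.subgroupOf B)).comp (cj k)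
  let Th : ℕ → (T → Equiv.Perm (B ⧸ B'.subgroupOf B)) := fun k g =>
    th k ⟨g.1, by rw [← hT]; exact Subgroup.subset_closure g.2⟩
  obtain ⟨k, l, hkl, he⟩ := Finite.exists_ne_map_eq_of_infinite Th
  have hall : th k = th l := by
    have h1 : ∀ (g : G) (hg : g ∈ Subgroup.closure (T : Set G)),
        th k ⟨g, by rw [← hT]; exact hg⟩ = th l ⟨g, by rw [← hT]; exact hg⟩ := by
      intro g hg
      induction hg using Subgroup.closure_induction with
      | mem x hx => exact congrFun he ⟨x, hx⟩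
      | one =>
        exact (map_one (th k)).trans (map_one (th l)).symm
      | mul x y hx hy h1 h2 =>
        refine (map_mul (th k) ⟨x, by rw [← hT]; exact hx⟩ ⟨y, by rw [← hT]; exact hy⟩).trans ?_
        rw [h1, h2]
        exact (map_mul (th l) ⟨x, by rw [← hT]; exact hx⟩ ⟨y, by rw [← hT]; exact hy⟩).symm
      | inv x hx h1 =>
        refine (map_inv (th k) ⟨x, by rw [← hT]; exact hx⟩).trans ?_
        rw [h1]
        exact (map_inv (th l) ⟨x, by rw [← hT]; exact hx⟩).symm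
    refine MonoidHom.ext fun g => ?_
    exact h1 g.1 (by rw [hT]; exact g.2)
  have hstab : ∀ (m : ℕ) (g : B), t ^ (-(m : ℤ)) * g.1 * (t ^ (-(m : ℤ)))⁻¹ ∈ B' ↔
      th m g (QuotientGroup.mk 1) = QuotientGroup.mk 1 := by
    intro m g
    have h1 : th m g (QuotientGroup.mk 1) = QuotientGroup.mk (cj m g) := by
      change QuotientGroup.mk (cj m g * 1) = _
      rw [mul_one]
    rw [h1, eq_comm, QuotientGroup.eq, Subgroup.mem_subgroupOf]
    simp [cj]
  have hiff : ∀ g ∈ B, t ^ (-(k : ℤ)) * g * (t ^ (-(k : ℤ)))⁻¹ ∈ B' ↔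
      t ^ (-(l : ℤ)) * g * (t ^ (-(l : ℤ)))⁻¹ ∈ B' := by
    intro g hg
    rw [hstab k ⟨g, hg⟩, hstab l ⟨g, hg⟩, hall]
  have hn : Nor B' (t ^ ((k : ℤ) - l)) := by
    intro g
    constructor
    · intro hg
      have h1 := (hiff (t ^ (k : ℤ) * g * (t ^ (k : ℤ))⁻¹) (ht.conj _ (hle hg))).1 (by
        have : t ^ (-(k : ℤ)) * (t ^ (k : ℤ) * g * (t ^ (k : ℤ))⁻¹) * (t ^ (-(k : ℤ)))⁻¹ = g := by
          rw [zpow_neg]; group
        rw [this]
        exact hg)
      have h2 : t ^ (-(l : ℤ)) * (t ^ (k : ℤ) * g * (t ^ (k : ℤ))⁻¹) * (t ^ (-(l : ℤ)))⁻¹ =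
          t ^ ((k : ℤ) - l) * g * (t ^ ((k : ℤ) - l))⁻¹ := by
        group
      rw [h2] at h1
      exact h1
    · intro hg
      have hgB : g ∈ B := (ht.zpow _ g).2 (hle hg)
      have h1 := (hiff (t ^ (k : ℤ) * g * (t ^ (k : ℤ))⁻¹) (ht.conj _ hgB)).2 (by
        have h2 : t ^ (-(l : ℤ)) * (t ^ (k : ℤ) * g * (t ^ (k : ℤ))⁻¹) * (t ^ (-(l : ℤ)))⁻¹ =
            t ^ ((k : ℤ) - l) * g * (t ^ ((k : ℤ) - l))⁻¹ := by
          group
        rw [h2]
        exact hg)
      have : t ^ (-(k : ℤ)) * (t ^ (k : ℤ) * g * (t ^ (k : ℤ))⁻¹) * (t ^ (-(k : ℤ)))⁻¹ = g := by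
        rw [zpow_neg]; group
      rw [this] at h1
      exact h1
  rcases Nat.lt_or_gt_of_ne hkl with h | h
  · refine ⟨l - k, by omega, ?_⟩
    have h1 := hn.zpow (-1)
    rw [← zpow_mul] at h1
    have h2 : ((k : ℤ) - l) * (-1) = ((l - k : ℕ) : ℤ) := by
      rw [Nat.cast_sub h.le]; ring
    rw [h2, zpow_natCast] at h1
    exact h1
  · refine ⟨k - l, by omega, ?_⟩
    have h2 : ((k : ℤ) - l) = ((k - l : ℕ) : ℤ) := by
      rw [Nat.cast_sub h.le]
    rw [h2, zpow_natCast] at hn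
    exact hn

theorem FI.adj {B B' : Subgroup G} {t : G} {q : ℕ} (hq : 0 < q) (ht : Nor B t)
    (ht' : Nor B' (t ^ q)) (hfi : FI B' B) : FI (adj B' (t ^ q) ht') (adj B t ht) := by
  classical
  obtain ⟨R, hR⟩ := hfi
  refine ⟨Finset.image₂ (fun (r : ℕ) (ρ : G) => t ^ r * ρ) (Finset.range q) R, ?_⟩
  rintro g ⟨i, hi⟩
  set c := t ^ i * g with hc
  have hg : g = t ^ (-i) * c := by rw [hc, zpow_neg]; group
  have hq' : (0 : ℤ) < q := by exact_mod_cast hq
  set l := (-i) / (q : ℤ)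
  set r := (-i) % (q : ℤ)
  have hr0 : 0 ≤ r := Int.emod_nonneg _ hq'.ne'
  have hr1 : r < q := Int.emod_lt_of_pos _ hq'
  have hlr : -i = r + q * l := (Int.emod_add_mul_ediv (-i) (q : ℤ)).symm
  have hcB := ht.conj (q * l) hi
  obtain ⟨ρ, hρ, hρB⟩ := hR _ hcB
  refine ⟨t ^ r.toNat * ρ, Finset.mem_image₂.2 ⟨r.toNat, Finset.mem_range.2 (by omega), ρ, hρ, rfl⟩,
    ?_⟩
  have h1 : t ^ r.toNat = t ^ r := by
    rw [← zpow_natCast, Int.toNat_of_nonneg hr0]
  have h2 : (t ^ r.toNat * ρ)⁻¹ * g =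
      (ρ⁻¹ * (t ^ (q * l) * c * (t ^ (q * l))⁻¹)) * (t ^ q) ^ l := by
    rw [h1, hg, hlr, zpow_add, ← zpow_natCast, ← zpow_mul]
    group
  rw [h2]
  exact Subgroup.mul_mem _ (le_adj _ hρB) (Subgroup.zpow_mem _ (self_mem_adj _) l)

/-- an infinite cyclic extension of an amenable group is amenable -/
theorem Fol.adj {C : Subgroup G} (hC : Fol C) {s : G} (hs : Nor C s)
    (h0 : ∀ k : ℤ, s ^ k ∈ C → k = 0) : Fol (adj C s hs) := by
  classical
  refine hC.ext (le_adj hs) ?_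
  intro S ε hε hS
  choose! m hm using fun (σ : G) (hσ : σ ∈ S) => mem_adj.1 (hS σ hσ)
  obtain ⟨M, hM⟩ : ∃ M : ℕ, ∀ σ ∈ S, (m σ).natAbs ≤ M :=
    ⟨S.sup fun σ => (m σ).natAbs, fun σ hσ => Finset.le_sup (f := fun σ => (m σ).natAbs) hσ⟩
  obtain ⟨N, hN⟩ := exists_nat_gt (2 * M / ε)
  rw [div_lt_iff₀ hε] at hN
  have hN1 : 0 < N := by
    rcases Nat.eq_zero_or_pos N with h | h
    · exfalso
      rw [h] at hN
      have : (0 : ℝ) ≤ 2 * M := by positivity
      norm_num at hN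
      linarith
    · exact h
  have hinj : Function.Injective (fun i : ℕ => s ^ i) := by
    intro i j hij
    have h1 : s ^ i = s ^ j := hij
    have h2 : s ^ ((i : ℤ) - j) = 1 := by
      rw [zpow_sub, zpow_natCast, zpow_natCast, h1, mul_inv_cancel]
    have h3 := h0 _ (by rw [h2]; exact C.one_mem)
    omega
  refine ⟨(Finset.range N).image fun i : ℕ => s ^ i, ?_, ?_, ?_, ?_⟩
  · exact (Finset.nonempty_range_iff.2 hN1.ne').image _
  · intro a ha
    obtain ⟨i, -, rfl⟩ := Finset.mem_image.1 ha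
    exact Subgroup.pow_mem _ (self_mem_adj hs) i
  · intro a ha b hb hab
    obtain ⟨i, -, rfl⟩ := Finset.mem_image.1 ha
    obtain ⟨j, -, rfl⟩ := Finset.mem_image.1 hb
    have h2 : s ^ ((j : ℤ) - i) ∈ C := by
      have : s ^ ((j : ℤ) - i) = (s ^ i)⁻¹ * s ^ j := by
        rw [sub_eq_neg_add, zpow_add, zpow_neg, zpow_natCast, zpow_natCast]
      rw [this]
      exact hab
    have h3 := h0 _ h2
    have h4 : i = j := by omega
    rw [h4]
  · intro σ hσ
    rw [Finset.card_image_of_injective _ hinj, Finset.card_range]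
    have h1 : ((Finset.range N).image fun i : ℕ => s ^ i).filter
        (fun a => ∀ b ∈ (Finset.range N).image fun i : ℕ => s ^ i, b⁻¹ * (σ * a) ∉ C) ⊆
        (Finset.range M ∪ Finset.Ico (N - M) N).image fun i : ℕ => s ^ i := by
      intro a ha
      rw [Finset.mem_filter] at ha
      obtain ⟨i, hi, rfl⟩ := Finset.mem_image.1 ha.1
      refine Finset.mem_image_of_mem _ ?_
      rw [Finset.mem_range] at hi
      rw [Finset.mem_union, Finset.mem_range, Finset.mem_Ico]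
      by_contra hcon
      push Not at hcon
      have hMσ := hM σ hσ
      have h3 := hcon.1
      have h4 : i < N - M := by
        by_contra h5
        push Not at h5
        exact absurd (hcon.2 h5) (not_le.2 hi)
      have h5 : 0 ≤ (i : ℤ) - m σ := by omega
      have h6 : (i : ℤ) - m σ < N := by omega
      refine ha.2 (s ^ ((i : ℤ) - m σ).toNat) (Finset.mem_image.2 ⟨_, Finset.mem_range.2 (by omega),
        rfl⟩) ?_
      rw [← zpow_natCast, Int.toNat_of_nonneg h5]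
      have h7 := hs.conj (-(i : ℤ)) (hm σ hσ)
      have h8 : (s ^ ((i : ℤ) - m σ))⁻¹ * (σ * s ^ i) =
          s ^ (-(i : ℤ)) * (s ^ (m σ) * σ) * (s ^ (-(i : ℤ)))⁻¹ := by
        rw [← zpow_natCast]
        group
      rw [h8]
      exact h7
    have h2 : (((Finset.range N).image fun i : ℕ => s ^ i).filter
        (fun a => ∀ b ∈ (Finset.range N).image fun i : ℕ => s ^ i, b⁻¹ * (σ * a) ∉ C)).card ≤
        2 * M := by
      refine (Finset.card_le_card h1).trans (Finset.card_image_le.trans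
        ((Finset.card_union_le _ _).trans ?_))
      rw [Finset.card_range, Nat.card_Ico]
      omega
    calc _ ≤ ((2 * M : ℕ) : ℝ) := by exact_mod_cast h2
      _ ≤ ε * N := by
        push_cast
        linarith

/-- a finite extension of an amenable group is amenable -/
theorem Fol.top {C : Subgroup G} (hC : Fol C) [Finite (G ⧸ C)] : Fol (⊤ : Subgroup G) := by
  classical
  have : Fintype (G ⧸ C) := Fintype.ofFinite _
  refine hC.ext le_top ?_
  intro S ε hε hS
  refine ⟨Finset.univ.image fun x : G ⧸ C => x.out, ?_, fun a _ => Subgroup.mem_top a, ?_, ?_⟩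
  · exact (Finset.univ_nonempty (α := G ⧸ C)).image _
  · intro a ha b hb hab
    obtain ⟨x, -, rfl⟩ := Finset.mem_image.1 ha
    obtain ⟨y, -, rfl⟩ := Finset.mem_image.1 hb
    have h1 : (QuotientGroup.mk x.out : G ⧸ C) = QuotientGroup.mk y.out :=
      QuotientGroup.eq.2 hab
    rw [QuotientGroup.out_eq', QuotientGroup.out_eq'] at h1
    rw [h1]
  · intro s hs
    have h1 : (Finset.univ.image fun x : G ⧸ C => x.out).filter
        (fun a => ∀ b ∈ Finset.univ.image fun x : G ⧸ C => x.out, b⁻¹ * (s * a) ∉ C) = ∅ := by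
      rw [Finset.filter_eq_empty_iff]
      intro a ha hcon
      refine hcon (QuotientGroup.mk (s * a) : G ⧸ C).out
        (Finset.mem_image_of_mem _ (Finset.mem_univ _)) ?_
      rw [← QuotientGroup.eq, QuotientGroup.out_eq']
    rw [h1, Finset.card_empty, Nat.cast_zero]
    positivity

end Pool.Agent.Helper81K9.PD
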