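import Pool.Agent.Helper81K9.PdB
import Pool.Agent.H919R4.AS.Final

/-!
Cohomology with coefficients in permutation modules: the effect of dividing a `G`-set by a free
action of the infinite cyclic group.
-/

set_option autoImplicit false

namespace Pool.Agent.Helper81K9.PD

open Pool.Agent.H919R4.AS (permZ ringZ cobdZ coboundariesZ cohomologyZ)
open Pool.Agent.H919R4.ZS (FinRes d_mul_d)

variable {G : Type} [Group G]

lemma ringZ_single (Z : Type) [MulAction G Z] (g : G) (r : ℤ) (v : Z →₀ ℤ) :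
    ringZ G Z (MonoidAlgebra.single g r) v = r • Finsupp.mapDomain (fun z => g • z) v := by
  have e4 : ringZ G Z (MonoidAlgebra.single g r) =
      ((r : ℤ) : AddMonoid.End (Z →₀ ℤ)) * permZ G Z g :=
    MonoidAlgebra.liftNCRingHom_single _ _ _ _ _
  rw [e4, ← zsmul_eq_mul]
  rfl

lemma ringZ_mapDomain {Z Z' : Type} [MulAction G Z] [MulAction G Z'] {f : Z → Z'}
    (hf : ∀ (g : G) (z : Z), f (g • z) = g • f z) (a : MonoidAlgebra ℤ G) (v : Z →₀ ℤ) :
    ringZ G Z' a (Finsupp.mapDomain f v) = Finsupp.mapDomain f (ringZ G Z a v) := by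
  refine MonoidAlgebra.induction_linear a ?_ ?_ ?_
  · rw [map_zero, map_zero]
    exact Finsupp.mapDomain_zero.symm
  · intro x y hx hy
    rw [map_add, map_add]
    change ringZ G Z' x _ + ringZ G Z' y _ = Finsupp.mapDomain f (ringZ G Z x v + ringZ G Z y v)
    rw [hx, hy, Finsupp.mapDomain_add]
  · intro g r
    rw [ringZ_single, ringZ_single, ← Finsupp.mapDomain_comp, Finsupp.mapDomain_smul,
      ← Finsupp.mapDomain_comp]
    congr 2
    funext z
    exact (hf g z).symm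

/-- push forward of cochains -/
noncomputable def psh {Z Z' : Type} (f : Z → Z') (k : ℕ) :
    (Fin k → (Z →₀ ℤ)) →+ (Fin k → (Z' →₀ ℤ)) where
  toFun y := fun j => Finsupp.mapDomain f (y j)
  map_zero' := by funext j; exact Finsupp.mapDomain_zero
  map_add' x y := by funext j; exact Finsupp.mapDomain_add

lemma psh_comp {Z Z' Z'' : Type} (f : Z → Z') (g : Z' → Z'') (k : ℕ) (y : Fin k → (Z →₀ ℤ)) :
    psh g k (psh f k y) = psh (g ∘ f) k y := by
  funext j
  exact Finsupp.mapDomain_comp.symm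

lemma psh_id {Z : Type} (k : ℕ) (y : Fin k → (Z →₀ ℤ)) : psh id k y = y := by
  funext j
  exact Finsupp.mapDomain_id

variable (X : FinRes G)

lemma cobdZ_psh {Z Z' : Type} [MulAction G Z] [MulAction G Z'] {f : Z → Z'}
    (hf : ∀ (g : G) (z : Z), f (g • z) = g • f z) (i : ℕ) (y : Fin (X.n i) → (Z →₀ ℤ)) :
    cobdZ X Z' i (psh f _ y) = psh f _ (cobdZ X Z i y) := by
  funext k
  change ∑ j, ringZ G Z' (X.d i k j) (Finsupp.mapDomain f (y j)) =
    Finsupp.mapDomain f (∑ j, ringZ G Z (X.d i k j) (y j))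
  rw [Finsupp.mapDomain_finsetSum]
  exact Finset.sum_congr rfl fun j _ => ringZ_mapDomain hf _ _

lemma cobdZ_cobdZ (Z : Type) [MulAction G Z] (i : ℕ) (y : Fin (X.n i) → (Z →₀ ℤ)) :
    cobdZ X Z (i + 1) (cobdZ X Z i y) = 0 := by
  funext k
  change ∑ l, ringZ G Z (X.d (i + 1) k l) (∑ j, ringZ G Z (X.d i l j) (y j)) = 0
  have h1 : ∀ l, ringZ G Z (X.d (i + 1) k l) (∑ j, ringZ G Z (X.d i l j) (y j)) =
      ∑ j, ringZ G Z (X.d (i + 1) k l * X.d i l j) (y j) := by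
    intro l
    rw [map_sum]
    refine Finset.sum_congr rfl fun j _ => ?_
    rw [map_mul]
    rfl
  rw [Finset.sum_congr rfl fun l _ => h1 l, Finset.sum_comm]
  refine Finset.sum_eq_zero fun j _ => ?_
  have h2 : ∑ l, X.d (i + 1) k l * X.d i l j = 0 := by
    have := congrFun (congrFun (d_mul_d X i) k) j
    rw [Matrix.mul_apply] at this
    exact this
  have h3 : ∑ l, ringZ G Z (X.d (i + 1) k l * X.d i l j) (y j) =
      (∑ l, ringZ G Z (X.d (i + 1) k l * X.d i l j)) (y j) :=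
    (AddMonoidHom.finsetSum_apply _ _ _).symm
  rw [h3, ← map_sum, h2, map_zero]
  rfl

lemma psh_cob {Z Z' : Type} [MulAction G Z] [MulAction G Z'] {f : Z → Z'}
    (hf : ∀ (g : G) (z : Z), f (g • z) = g • f z) (i : ℕ) {y : Fin (X.n i) → (Z →₀ ℤ)}
    (hy : y ∈ coboundariesZ X Z i) : psh f _ y ∈ coboundariesZ X Z' i := by
  cases i with
  | zero =>
    have h0 : y = 0 := hy
    rw [h0, map_zero]
    exact AddSubgroup.zero_mem _
  | succ i =>
    obtain ⟨u, rfl⟩ := hy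
    exact ⟨psh f _ u, cobdZ_psh X hf i u⟩

/-- `H^i(G; ℤ[Z]) = 0` for `i < m` -/
def Van (Z : Type) [MulAction G Z] (m : ℕ) : Prop :=
  ∀ i < m, ∀ y, cobdZ X Z i y = 0 → y ∈ coboundariesZ X Z i

/-- `H^m(G; ℤ[Z])` is infinite cyclic, generated by the class of `z` -/
structure Gen (Z : Type) [MulAction G Z] (m : ℕ) (z : Fin (X.n m) → (Z →₀ ℤ)) : Prop where
  cocyc : cobdZ X Z m z = 0
  free : ∀ a : ℤ, a • z ∈ coboundariesZ X Z m → a = 0
  gen : ∀ y, cobdZ X Z m y = 0 → ∃ a : ℤ, y - a • z ∈ coboundariesZ X Z m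

/-! ### the exact sequence `0 → ℤ[Z] → ℤ[Z] → ℤ[Z'] → 0` -/

section seq

variable {Z Z' : Type} (ρ : Equiv.Perm Z)

lemma rho_inj (hfree : ∀ (z : Z) (k : ℤ), (ρ ^ k) z = z → k = 0) (w : Z →₀ ℤ)
    (h : Finsupp.mapDomain ρ w = w) : w = 0 := by
  by_contra hw
  obtain ⟨z, hz⟩ := Finsupp.ne_iff.1 hw
  have h1 : ∀ x, w (ρ x) = w x := by
    intro x
    conv_lhs => rw [← h]
    exact Finsupp.mapDomain_apply ρ.injective w x
  have h2 : ∀ k : ℕ, w ((ρ ^ k) z) = w z := by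
    intro k
    induction k with
    | zero => rfl
    | succ k ih =>
      rw [pow_succ', Equiv.Perm.mul_apply, h1, ih]
  have h3 : Set.Infinite (w.support : Set Z) := by
    refine Set.infinite_of_injective_forall_mem (f := fun k : ℕ => (ρ ^ k) z) ?_ ?_
    · intro a b hab
      have h4 : (ρ ^ a) z = (ρ ^ b) z := hab
      have h5 : (ρ ^ ((a : ℤ) - b)) z = z := by
        rw [sub_eq_neg_add, zpow_add, Equiv.Perm.mul_apply, zpow_natCast, h4, zpow_neg,
          zpow_natCast]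
        exact (ρ ^ b : Equiv.Perm Z).symm_apply_apply z
      have := hfree z _ h5
      omega
    · intro k
      rw [Finset.mem_coe, Finsupp.mem_support_iff, h2]
      exact hz
  exact h3 w.support.finite_toSet

lemma pow_sub_mem (k : ℤ) (v : Z →₀ ℤ) :
    ∃ w : Z →₀ ℤ, Finsupp.mapDomain ρ w - w = Finsupp.mapDomain (ρ ^ k : Equiv.Perm Z) v - v := by
  induction k using Int.induction_on with
  | zero => exact ⟨0, by
      rw [Finsupp.mapDomain_zero, zpow_zero]
      change _ = Finsupp.mapDomain id v - v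
      rw [Finsupp.mapDomain_id, sub_self, sub_self]⟩
  | succ k ih =>
    obtain ⟨w, hw⟩ := ih
    refine ⟨w + Finsupp.mapDomain (ρ ^ (k : ℤ) : Equiv.Perm Z) v, ?_⟩
    have h1 : Finsupp.mapDomain (ρ ^ ((k : ℤ) + 1) : Equiv.Perm Z) v =
        Finsupp.mapDomain ρ (Finsupp.mapDomain (ρ ^ (k : ℤ) : Equiv.Perm Z) v) := by
      rw [← Finsupp.mapDomain_comp, add_comm, zpow_add, zpow_one]
      rfl
    rw [Finsupp.mapDomain_add, ← h1]
    have h2 : Finsupp.mapDomain ρ w = Finsupp.mapDomain (ρ ^ (k : ℤ) : Equiv.Perm Z) v - v + w := by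
      rw [← hw]; abel
    rw [h2]
    abel
  | pred k ih =>
    obtain ⟨w, hw⟩ := ih
    refine ⟨w - Finsupp.mapDomain (ρ ^ (-(k : ℤ) - 1) : Equiv.Perm Z) v, ?_⟩
    have h1 : Finsupp.mapDomain (ρ ^ (-(k : ℤ)) : Equiv.Perm Z) v =
        Finsupp.mapDomain ρ (Finsupp.mapDomain (ρ ^ (-(k : ℤ) - 1) : Equiv.Perm Z) v) := by
      rw [← Finsupp.mapDomain_comp]
      have h3 : (ρ ^ (-(k : ℤ)) : Equiv.Perm Z) = ρ * ρ ^ (-(k : ℤ) - 1) := by
        conv_rhs => rw [← zpow_one_add]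
        congr 1
        ring
      rw [h3]
      rfl
    have h4 : ∀ a b : Z →₀ ℤ, Finsupp.mapDomain ρ (a - b) =
        Finsupp.mapDomain ρ a - Finsupp.mapDomain ρ b := fun a b =>
      map_sub (Finsupp.mapDomain.addMonoidHom ρ) a b
    rw [h4, ← h1]
    have h2 : Finsupp.mapDomain ρ w = Finsupp.mapDomain (ρ ^ (-(k : ℤ)) : Equiv.Perm Z) v - v + w := by
      rw [← hw]; abel
    rw [h2]
    abel

lemma exact_mid {p : Z → Z'} (hp : Function.Surjective p)
    (hfib : ∀ z z', p z = p z' → ∃ k : ℤ, (ρ ^ k) z = z') (v : Z →₀ ℤ)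
    (h : Finsupp.mapDomain p v = 0) : ∃ w, Finsupp.mapDomain ρ w - w = v := by
  obtain ⟨s, hs⟩ := hp.hasRightInverse
  have key : ∀ v : Z →₀ ℤ, ∃ w, Finsupp.mapDomain ρ w - w =
      Finsupp.mapDomain (s ∘ p) v - v := by
    intro v
    induction v using Finsupp.induction_linear with
    | zero => exact ⟨0, by simp⟩
    | add x y hx hy =>
      obtain ⟨a, ha⟩ := hx
      obtain ⟨b, hb⟩ := hy
      refine ⟨a + b, ?_⟩
      rw [Finsupp.mapDomain_add, Finsupp.mapDomain_add]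
      rw [add_sub_add_comm, ha, hb]
      abel
    | single z r =>
      obtain ⟨k, hk⟩ := hfib z (s (p z)) (hs (p z)).symm
      obtain ⟨w, hw⟩ := pow_sub_mem ρ k (Finsupp.single z r)
      refine ⟨w, ?_⟩
      rw [hw, Finsupp.mapDomain_single, Finsupp.mapDomain_single, hk]
      rfl
  obtain ⟨w, hw⟩ := key v
  rw [Finsupp.mapDomain_comp, h, Finsupp.mapDomain_zero] at hw
  refine ⟨-w, ?_⟩
  have h4 : Finsupp.mapDomain ρ (-w) = - Finsupp.mapDomain ρ w :=
    map_neg (Finsupp.mapDomain.addMonoidHom ρ) w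
  rw [h4]
  have h5 : -Finsupp.mapDomain ρ w - -w = -(Finsupp.mapDomain ρ w - w) := by abel
  rw [h5, hw]
  abel

variable (k : ℕ)

lemma psh_inj (hfree : ∀ (z : Z) (k : ℤ), (ρ ^ k) z = z → k = 0) {w w' : Fin k → (Z →₀ ℤ)}
    (h : psh ρ k w - w = psh ρ k w' - w') : w = w' := by
  funext j
  rw [← sub_eq_zero]
  refine rho_inj ρ hfree _ ?_
  have h1 := congrFun h j
  change Finsupp.mapDomain ρ (w j) - w j = Finsupp.mapDomain ρ (w' j) - w' j at h1
  have h4 : Finsupp.mapDomain ρ (w j - w' j) =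
      Finsupp.mapDomain ρ (w j) - Finsupp.mapDomain ρ (w' j) :=
    map_sub (Finsupp.mapDomain.addMonoidHom ρ) (w j) (w' j)
  rw [h4]
  have h5 : Finsupp.mapDomain ρ (w j) = Finsupp.mapDomain ρ (w' j) - w' j + w j := by
    rw [← h1]; abel
  rw [h5]
  abel

lemma psh_exact {p : Z → Z'} (hp : Function.Surjective p)
    (hfib : ∀ z z', p z = p z' → ∃ k : ℤ, (ρ ^ k) z = z') (v : Fin k → (Z →₀ ℤ))
    (h : psh p k v = 0) : ∃ w, psh ρ k w - w = v := by
  choose w hw using fun j => exact_mid ρ hp hfib (v j) (congrFun h j)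
  exact ⟨w, funext hw⟩

lemma psh_surj {p : Z → Z'} (hp : Function.Surjective p) (v : Fin k → (Z' →₀ ℤ)) :
    ∃ w, psh p k w = v := by
  choose w hw using fun j => Finsupp.mapDomain_surjective hp (v j)
  exact ⟨w, funext hw⟩

lemma psh_rho {p : Z → Z'} (hpρ : ∀ z, p (ρ z) = p z) (w : Fin k → (Z →₀ ℤ)) :
    psh p k (psh ρ k w - w) = 0 := by
  rw [map_sub, psh_comp, sub_eq_zero]
  congr 2
  funext z
  exact hpρ z

end seq

/-- the descent step -/
theorem step {Z Z' : Type} [MulAction G Z] [MulAction G Z'] {ρ : Equiv.Perm Z} {p : Z → Z'}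
    (hρ : ∀ (g : G) (z : Z), ρ (g • z) = g • ρ z) (hpe : ∀ (g : G) (z : Z), p (g • z) = g • p z)
    (hp : Function.Surjective p) (hpρ : ∀ z, p (ρ z) = p z)
    (hfib : ∀ z z', p z = p z' → ∃ k : ℤ, (ρ ^ k) z = z')
    (hfree : ∀ (z : Z) (k : ℤ), (ρ ^ k) z = z → k = 0) {m : ℕ} (hV : Van X Z (m + 1))
    {z : Fin (X.n (m + 1)) → (Z →₀ ℤ)} (hz : Gen X Z (m + 1) z)
    (htriv : psh ρ _ z - z ∈ coboundariesZ X Z (m + 1)) :
    Van X Z' m ∧ ∃ z', Gen X Z' m z' := by
  have hc : ∀ (i : ℕ) (y : Fin (X.n i) → (Z →₀ ℤ)), cobdZ X Z i (psh ρ _ y - y) =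
      psh ρ _ (cobdZ X Z i y) - cobdZ X Z i y := by
    intro i y
    rw [map_sub, cobdZ_psh X hρ]
  have lift : ∀ (i : ℕ) (y' : Fin (X.n i) → (Z' →₀ ℤ)), cobdZ X Z' i y' = 0 →
      ∃ (y : Fin (X.n i) → (Z →₀ ℤ)) (w : Fin (X.n (i + 1)) → (Z →₀ ℤ)), psh p _ y = y' ∧
        cobdZ X Z i y = psh ρ _ w - w ∧ cobdZ X Z (i + 1) w = 0 := by
    intro i y' hy'
    obtain ⟨y, rfl⟩ := psh_surj (X.n i) hp y'
    rw [cobdZ_psh X hpe] at hy'
    obtain ⟨w, hw⟩ := psh_exact ρ _ hp hfib _ hy'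
    refine ⟨y, w, rfl, hw.symm, ?_⟩
    refine psh_inj ρ _ hfree ?_
    rw [← hc, hw, cobdZ_cobdZ, map_zero, sub_zero]
  refine ⟨?_, ?_⟩
  · intro i hi y' hy'
    obtain ⟨y, w, rfl, h1, h2⟩ := lift i y' hy'
    obtain ⟨u, rfl⟩ := hV (i + 1) (by omega) w h2
    have h3 : y - (psh ρ _ u - u) ∈ coboundariesZ X Z i := by
      refine hV i (by omega) _ ?_
      rw [map_sub, hc, h1, sub_self]
    have h4 := psh_cob X hpe i h3
    rw [map_sub, psh_rho ρ _ hpρ, sub_zero] at h4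
    exact h4
  · obtain ⟨w, hw⟩ := htriv
    refine ⟨psh p _ w, ?_, ?_, ?_⟩
    · rw [cobdZ_psh X hpe, hw, psh_rho ρ _ hpρ]
    · intro a ha
      refine hz.free a ?_
      rw [← map_zsmul] at ha
      have h5 : ∃ u, psh ρ _ u - u = a • w ∨ ∃ b, psh ρ _ u - u = a • w - b ∧
          cobdZ X Z m b = 0 := by
        cases m with
        | zero =>
          have h0 : psh p _ (a • w) = 0 := ha
          obtain ⟨u, hu⟩ := psh_exact ρ _ hp hfib _ h0
          exact ⟨u, Or.inl hu⟩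
        | succ m =>
          obtain ⟨b', hb'⟩ := ha
          obtain ⟨b, rfl⟩ := psh_surj (X.n m) hp b'
          rw [cobdZ_psh X hpe] at hb'
          obtain ⟨u, hu⟩ := psh_exact ρ _ hp hfib (a • w - cobdZ X Z m b) (by
            rw [map_sub, hb', sub_self])
          exact ⟨u, Or.inr ⟨_, hu, cobdZ_cobdZ X Z m b⟩⟩
      have h6 : ∃ u, cobdZ X Z m (psh ρ _ u - u) = a • cobdZ X Z m w := by
        obtain ⟨u, h | ⟨b, h, hb⟩⟩ := h5
        · exact ⟨u, by rw [h, map_zsmul]⟩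
        · exact ⟨u, by rw [h, map_sub, hb, sub_zero, map_zsmul]⟩
      obtain ⟨u, hu⟩ := h6
      refine ⟨u, ?_⟩
      refine psh_inj ρ _ hfree ?_
      rw [← hc, hu, hw, map_zsmul, ← smul_sub]
    · intro y' hy'
      obtain ⟨y, w', rfl, h1, h2⟩ := lift m y' hy'
      obtain ⟨a, u, hu⟩ := hz.gen w' h2
      refine ⟨a, ?_⟩
      have h3 : y - a • w - (psh ρ _ u - u) ∈ coboundariesZ X Z m := by
        refine hV m (by omega) _ ?_
        have h7 : w' = a • z + cobdZ X Z m u := by rw [hu]; abel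
        rw [map_sub, map_sub, hc, h1, map_zsmul, hw, h7, map_add, map_zsmul, smul_sub]
        abel
      have h4 := psh_cob X hpe m h3
      rw [map_sub, psh_rho ρ _ hpρ, sub_zero, map_sub, map_zsmul] at h4
      exact h4

/-- an automorphism of an infinite cyclic group has trivial square -/
theorem sq_triv {Z : Type} [MulAction G Z] {σ : Equiv.Perm Z}
    (hσ : ∀ (g : G) (z : Z), σ (g • z) = g • σ z) {m : ℕ} {z : Fin (X.n m) → (Z →₀ ℤ)}
    (hz : Gen X Z m z) : psh (σ ^ 2 : Equiv.Perm Z) _ z - z ∈ coboundariesZ X Z m := by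
  have hσ' : ∀ (g : G) (z : Z), σ.symm (g • z) = g • σ.symm z := by
    intro g z
    rw [Equiv.symm_apply_eq, hσ, Equiv.apply_symm_apply]
  obtain ⟨a, ha⟩ := hz.gen (psh σ _ z) (by rw [cobdZ_psh X hσ, hz.cocyc, map_zero])
  obtain ⟨b, hb⟩ := hz.gen (psh σ.symm _ z) (by rw [cobdZ_psh X hσ', hz.cocyc, map_zero])
  have h1 := psh_cob X hσ m hb
  rw [map_sub, psh_comp, map_zsmul] at h1
  have h2 : (σ : Z → Z) ∘ σ.symm = id := by
    funext x
    exact σ.apply_symm_apply x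
  rw [h2, psh_id] at h1
  have h3 : (1 - b * a) • z ∈ coboundariesZ X Z m := by
    have h4 := AddSubgroup.add_mem _ h1 (AddSubgroup.zsmul_mem _ ha b)
    have h5 : z - b • psh σ _ z + b • (psh σ _ z - a • z) = (1 - b * a) • z := by
      rw [sub_smul, one_smul, mul_smul, smul_sub]
      abel
    rw [h5] at h4
    exact h4
  have h6 := hz.free _ h3
  have h7 : a * a = 1 := by
    rcases Int.eq_one_or_neg_one_of_mul_eq_one (u := b) (v := a) (by linarith) with h | h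
    · rw [h] at h6
      have : a = 1 := by linarith
      rw [this]; norm_num
    · rw [h] at h6
      have : a = -1 := by linarith
      rw [this]; norm_num
  have h8 := psh_cob X hσ m ha
  rw [map_sub, psh_comp, map_zsmul] at h8
  have h9 := AddSubgroup.add_mem _ h8 (AddSubgroup.zsmul_mem _ ha a)
  have h10 : psh (⇑σ ∘ ⇑σ) (X.n m) z - a • psh σ _ z + a • (psh σ _ z - a • z) =
      psh (σ ^ 2 : Equiv.Perm Z) _ z - z := by
    rw [smul_sub, ← mul_smul, h7, one_smul, pow_two]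
    change psh (⇑σ ∘ ⇑σ) (X.n m) z - a • psh σ _ z + (a • psh σ _ z - z) =
      psh (⇑σ ∘ ⇑σ) (X.n m) z - z
    abel
  rw [h10] at h9
  exact h9

end Pool.Agent.Helper81K9.PD
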