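import Pool.Agent.Helper81K9.PdC

/-!
The descent along a poly-(infinite cyclic) subgroup.
-/

set_option autoImplicit false

namespace Pool.Agent.Helper81K9.PD

open Pool.Agent.H919R4.AS (permZ ringZ cobdZ coboundariesZ cohomologyZ)
open Pool.Agent.H919R4.ZS (FinRes d_mul_d)

variable {G : Type} [Group G] (X : FinRes G)

/-! ### `ℤ[G]` and `ℤ[G/1]` -/

/-- the isomorphism `ℤ[G] → ℤ[G/1]` -/
noncomputable def TT (b : MonoidAlgebra ℤ G) : (G ⧸ (⊥ : Subgroup G)) →₀ ℤ :=
  ringZ G (G ⧸ (⊥ : Subgroup G)) b (Finsupp.single (QuotientGroup.mk 1) 1)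

lemma TT_mul (a b : MonoidAlgebra ℤ G) :
    TT (a * b) = ringZ G (G ⧸ (⊥ : Subgroup G)) a (TT b) := by
  unfold TT
  rw [map_mul]
  rfl

lemma TT_add (a b : MonoidAlgebra ℤ G) : TT (a + b) = TT a + TT b := by
  unfold TT
  rw [map_add]
  rfl

lemma TT_zero : TT (0 : MonoidAlgebra ℤ G) = 0 := by
  unfold TT
  rw [map_zero]
  rfl

lemma TT_single (g : G) (r : ℤ) : TT (MonoidAlgebra.single g r) =
    Finsupp.single (QuotientGroup.mk g) r := by
  unfold TT
  rw [ringZ_single, Finsupp.mapDomain_single, Finsupp.smul_single, smul_eq_mul, mul_one]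
  congr 1
  change QuotientGroup.mk (g * 1) = _
  rw [mul_one]

lemma TT_eq (b : MonoidAlgebra ℤ G) :
    TT b = Finsupp.mapDomain (fun g : G => (QuotientGroup.mk g : G ⧸ (⊥ : Subgroup G))) b.coeff := by
  refine MonoidAlgebra.induction_linear b ?_ ?_ ?_
  · rw [TT_zero]
    exact Finsupp.mapDomain_zero.symm
  · intro x y hx hy
    rw [TT_add, hx, hy, MonoidAlgebra.coeff_add, Finsupp.mapDomain_add]
  · intro g r
    rw [TT_single]
    exact Finsupp.mapDomain_single.symm

lemma mk_bot_injective :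
    Function.Injective (fun g : G => (QuotientGroup.mk g : G ⧸ (⊥ : Subgroup G))) := by
  intro a b hab
  have h1 := QuotientGroup.eq.1 hab
  rw [Subgroup.mem_bot] at h1
  exact (inv_mul_eq_one.1 h1)

lemma TT_injective : Function.Injective (TT (G := G)) := by
  intro a b hab
  rw [TT_eq, TT_eq] at hab
  exact MonoidAlgebra.coeff_injective (Finsupp.mapDomain_injective mk_bot_injective hab)

lemma TT_surjective : Function.Surjective (TT (G := G)) := by
  intro v
  induction v using Finsupp.induction_linear with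
  | zero => exact ⟨0, TT_zero⟩
  | add x y hx hy =>
    obtain ⟨a, rfl⟩ := hx
    obtain ⟨b, rfl⟩ := hy
    exact ⟨a + b, TT_add a b⟩
  | single z r =>
    induction z using QuotientGroup.induction_on with
    | H g => exact ⟨MonoidAlgebra.single g r, TT_single g r⟩

/-- the isomorphism of cochain modules -/
noncomputable def TV (k : ℕ) :
    (Fin k → MonoidAlgebra ℤ G) ≃+ (Fin k → ((G ⧸ (⊥ : Subgroup G)) →₀ ℤ)) :=
  AddEquiv.ofBijective
    ({ toFun := fun y j => TT (y j)
       map_zero' := funext fun _ => TT_zero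
       map_add' := fun _ _ => funext fun _ => TT_add _ _ } :
      (Fin k → MonoidAlgebra ℤ G) →+ (Fin k → ((G ⧸ (⊥ : Subgroup G)) →₀ ℤ)))
    ⟨fun a b hab => funext fun j => TT_injective (congrFun hab j), fun v => by
      choose y hy using fun j => TT_surjective (v j)
      exact ⟨y, funext hy⟩⟩

lemma TV_apply (k : ℕ) (y : Fin k → MonoidAlgebra ℤ G) (j : Fin k) : TV k y j = TT (y j) := rfl

lemma TT_sum {ι : Type*} (s : Finset ι) (f : ι → MonoidAlgebra ℤ G) :
    TT (∑ i ∈ s, f i) = ∑ i ∈ s, TT (f i) := by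
  classical
  induction s using Finset.induction_on with
  | empty => rw [Finset.sum_empty, Finset.sum_empty, TT_zero]
  | insert a s ha ih => rw [Finset.sum_insert ha, Finset.sum_insert ha, TT_add, ih]

lemma cobdZ_TV (i : ℕ) (y : Fin (X.n i) → MonoidAlgebra ℤ G) :
    cobdZ X (G ⧸ (⊥ : Subgroup G)) i (TV _ y) = TV _ (X.cobd i y) := by
  funext k
  change ∑ j, ringZ G _ (X.d i k j) (TT (y j)) = TT (∑ j, X.d i k j * y j)
  rw [TT_sum]
  exact Finset.sum_congr rfl fun j _ => (TT_mul _ _).symm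

lemma cob_TV (i : ℕ) (y : Fin (X.n i) → MonoidAlgebra ℤ G) :
    TV _ y ∈ coboundariesZ X (G ⧸ (⊥ : Subgroup G)) i ↔ y ∈ X.coboundaries i := by
  cases i with
  | zero =>
    change TV _ y = 0 ↔ y = 0
    rw [map_eq_zero_iff _ (TV _).injective]
  | succ i =>
    constructor
    · rintro ⟨u, hu⟩
      refine ⟨(TV _).symm u, ?_⟩
      apply (TV _).injective
      rw [← cobdZ_TV, AddEquiv.apply_symm_apply, hu]
    · rintro ⟨u, rfl⟩
      exact ⟨TV _ u, cobdZ_TV X i u⟩

theorem van_bot {n : ℕ} (h : ∀ i < n, Subsingleton (X.cohomology i)) :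
    Van X (G ⧸ (⊥ : Subgroup G)) n := by
  intro i hi y hy
  obtain ⟨y, rfl⟩ := (TV _).surjective y
  rw [cobdZ_TV, map_eq_zero_iff _ (TV _).injective] at hy
  rw [cob_TV]
  have h1 := h i hi
  rw [QuotientAddGroup.subsingleton_iff, AddSubgroup.addSubgroupOf_eq_top] at h1
  exact h1 hy

theorem gen_bot {n : ℕ} (h : Nonempty (X.cohomology n ≃+ ℤ)) :
    ∃ z, Gen X (G ⧸ (⊥ : Subgroup G)) n z := by
  obtain ⟨e⟩ := h
  obtain ⟨⟨z0, hz0⟩, hz⟩ := QuotientAddGroup.mk_surjective (e.symm 1)
  have key : ∀ (y : Fin (X.n n) → MonoidAlgebra ℤ G) (hy : y ∈ (X.cobd n).ker),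
      y ∈ X.coboundaries n ↔ (QuotientAddGroup.mk (⟨y, hy⟩ : (X.cobd n).ker) : X.cohomology n) = 0 := by
    intro y hy
    rw [QuotientAddGroup.eq_zero_iff, AddSubgroup.mem_addSubgroupOf]
  have hsm : ∀ (a : ℤ), a • z0 ∈ (X.cobd n).ker := fun a => AddSubgroup.zsmul_mem _ hz0 a
  have hmk : ∀ a : ℤ, (QuotientAddGroup.mk (⟨a • z0, hsm a⟩ : (X.cobd n).ker) :
      X.cohomology n) = e.symm a := by
    intro a
    have h1 : (⟨a • z0, hsm a⟩ : (X.cobd n).ker) = a • (⟨z0, hz0⟩ : (X.cobd n).ker) := rfl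
    rw [h1, QuotientAddGroup.mk_zsmul, hz, ← map_zsmul]
    congr 1
    simp
  refine ⟨TV _ z0, ?_, ?_, ?_⟩
  · rw [cobdZ_TV]
    have : X.cobd n z0 = 0 := hz0
    rw [this, map_zero]
  · intro a ha
    rw [← map_zsmul, cob_TV, key _ (hsm a), hmk] at ha
    exact (map_eq_zero_iff _ e.symm.injective).1 ha
  · intro y hy
    obtain ⟨y, rfl⟩ := (TV _).surjective y
    rw [cobdZ_TV, map_eq_zero_iff _ (TV _).injective] at hy
    have hy' : y ∈ (X.cobd n).ker := hy
    refine ⟨e (QuotientAddGroup.mk (⟨y, hy'⟩ : (X.cobd n).ker)), ?_⟩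
    rw [← map_zsmul, ← map_sub, cob_TV, key _ (AddSubgroup.sub_mem _ hy' (hsm _))]
    have h2 : (⟨y - e (QuotientAddGroup.mk (⟨y, hy'⟩ : (X.cobd n).ker)) • z0,
        AddSubgroup.sub_mem _ hy' (hsm _)⟩ : (X.cobd n).ker) =
        (⟨y, hy'⟩ : (X.cobd n).ker) -
          ⟨e (QuotientAddGroup.mk (⟨y, hy'⟩ : (X.cobd n).ker)) • z0, hsm _⟩ := rfl
    rw [h2, QuotientAddGroup.mk_sub, hmk, AddEquiv.symm_apply_apply, sub_self]

/-! ### right multiplication on `G/C` by elements normalizing `C` -/

/-- `gC ↦ guC` -/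
def rt (C : Subgroup G) (u : G) (hu : Nor C u) : Equiv.Perm (G ⧸ C) where
  toFun := Quotient.map' (fun g => g * u) (by
    intro a b hab
    rw [QuotientGroup.leftRel_apply] at hab ⊢
    rw [hu]
    have : u * ((a * u)⁻¹ * (b * u)) * u⁻¹ = a⁻¹ * b := by group
    rw [this]
    exact hab)
  invFun := Quotient.map' (fun g => g * u⁻¹) (by
    intro a b hab
    rw [QuotientGroup.leftRel_apply] at hab ⊢
    have : (a * u⁻¹)⁻¹ * (b * u⁻¹) = u * (a⁻¹ * b) * u⁻¹ := by group
    rw [this, ← hu]
    exact hab)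
  left_inv := by
    intro x
    induction x using QuotientGroup.induction_on with
    | H g =>
      change (QuotientGroup.mk (g * u * u⁻¹) : G ⧸ C) = _
      rw [mul_inv_cancel_right]
  right_inv := by
    intro x
    induction x using QuotientGroup.induction_on with
    | H g =>
      change (QuotientGroup.mk (g * u⁻¹ * u) : G ⧸ C) = _
      rw [inv_mul_cancel_right]

variable {C : Subgroup G}

lemma rt_mk (u : G) (hu : Nor C u) (g : G) :
    rt C u hu (QuotientGroup.mk g) = QuotientGroup.mk (g * u) := rfl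

lemma rt_symm_mk (u : G) (hu : Nor C u) (g : G) :
    (rt C u hu).symm (QuotientGroup.mk g) = QuotientGroup.mk (g * u⁻¹) := rfl

lemma rt_zpow_mk (u : G) (hu : Nor C u) (k : ℤ) (g : G) :
    (rt C u hu ^ k) (QuotientGroup.mk g) = QuotientGroup.mk (g * u ^ k) := by
  induction k using Int.induction_on generalizing g with
  | zero => simp
  | succ k ih =>
    rw [zpow_add_one, Equiv.Perm.mul_apply, rt_mk, ih, mul_assoc, ← zpow_one_add, add_comm]
  | pred k ih =>
    rw [zpow_sub_one, Equiv.Perm.mul_apply]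
    have : (rt C u hu)⁻¹ (QuotientGroup.mk g) = QuotientGroup.mk (g * u⁻¹) := rfl
    rw [this, ih, mul_assoc, ← zpow_neg_one, ← zpow_add]
    congr 3
    ring

lemma rt_smul (u : G) (hu : Nor C u) (g : G) (z : G ⧸ C) :
    rt C u hu (g • z) = g • rt C u hu z := by
  induction z using QuotientGroup.induction_on with
  | H h =>
    change (QuotientGroup.mk (g * h * u) : G ⧸ C) = QuotientGroup.mk (g * (h * u))
    rw [mul_assoc]

/-- the descent along a poly-(infinite cyclic) subgroup -/
theorem chain {r : ℕ} : ∀ (n : ℕ), r ≤ n → ∀ (C : Subgroup G), PolyZ r C →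
    Van X (G ⧸ (⊥ : Subgroup G)) n → (∃ z, Gen X (G ⧸ (⊥ : Subgroup G)) n z) →
    ∃ C' : Subgroup G, C' ≤ C ∧ FI C' C ∧ Fol C' ∧ Van X (G ⧸ C') (n - r) ∧
      ∃ z, Gen X (G ⧸ C') (n - r) z := by
  induction r with
  | zero =>
    intro n _ C hC hV hz
    have h0 : C = ⊥ := hC
    subst h0
    refine ⟨⊥, le_rfl, ⟨{1}, ?_⟩, Fol.bot, hV, hz⟩
    intro g hg
    exact ⟨1, Finset.mem_singleton_self _, by simpa using hg⟩
  | succ r ih =>
    intro n hn C hC hV hz
    obtain ⟨B, t, hB, hnor, h0, hCe⟩ := hC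
    have hnor : Nor B t := hnor
    obtain ⟨B', hle, hfi, hfol, hV', z, hz'⟩ := ih n (by omega) B hB hV hz
    obtain ⟨k, hk, hkn⟩ := exists_pow_nor hB.fg hnor hle hfi
    have hn1 : n - r = (n - (r + 1)) + 1 := by omega
    rw [hn1] at hV'
    generalize hm : n - (r + 1) = m at hn1 hV' ⊢
    obtain ⟨z, hz'⟩ : ∃ z, Gen X (G ⧸ B') (m + 1) z := by
      rw [← hn1]
      exact ⟨z, hz'⟩
    have hk2 : Nor B' (t ^ (k * 2)) := by
      have := hkn.zpow 2
      rw [pow_mul]
      exact_mod_cast this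
    have hfree : ∀ j : ℤ, (t ^ (k * 2)) ^ j ∈ B → j = 0 := by
      intro j hj
      rw [← zpow_natCast, ← zpow_mul] at hj
      have h1 := h0 _ hj
      rcases mul_eq_zero.1 h1 with h | h
      · push_cast at h
        omega
      · exact h
    refine ⟨adj B' (t ^ (k * 2)) hk2, ?_, ?_, ?_, ?_⟩
    · rw [hCe, adj_eq]
      refine sup_le (hle.trans le_sup_left) ?_
      rw [Subgroup.zpowers_le]
      exact Subgroup.pow_mem _ (le_sup_right (a := B) (Subgroup.mem_zpowers t)) _
    · rw [hCe, ← adj_eq hnor]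
      exact hfi.adj (by omega) hnor hk2
    · exact hfol.adj hk2 fun j hj => hfree j (hle hj)
    · refine step X (ρ := rt B' (t ^ (k * 2)) hk2)
        (p := Subgroup.quotientMapOfLE (le_adj hk2)) (rt_smul _ _) ?_ ?_ ?_ ?_ ?_ hV' hz' ?_
      · intro g z
        induction z using QuotientGroup.induction_on with
        | H h => rfl
      · intro x
        induction x using QuotientGroup.induction_on with
        | H h => exact ⟨QuotientGroup.mk h, rfl⟩
      · intro z
        induction z using QuotientGroup.induction_on with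
        | H h =>
          rw [rt_mk, Subgroup.quotientMapOfLE_apply_mk, Subgroup.quotientMapOfLE_apply_mk,
            QuotientGroup.eq]
          have : (h * t ^ (k * 2))⁻¹ * h = (t ^ (k * 2))⁻¹ := by group
          rw [this]
          exact Subgroup.inv_mem _ (self_mem_adj hk2)
      · intro z z' hzz
        induction z using QuotientGroup.induction_on with
        | H g =>
          induction z' using QuotientGroup.induction_on with
          | H h =>
            rw [Subgroup.quotientMapOfLE_apply_mk, Subgroup.quotientMapOfLE_apply_mk,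
              QuotientGroup.eq, mem_adj] at hzz
            obtain ⟨i, hi⟩ := hzz
            refine ⟨-i, ?_⟩
            rw [rt_zpow_mk, QuotientGroup.eq]
            have : (g * (t ^ (k * 2)) ^ (-i))⁻¹ * h = (t ^ (k * 2)) ^ i * (g⁻¹ * h) := by
              rw [zpow_neg]; group
            rw [this]
            exact hi
      · intro z j hj
        induction z using QuotientGroup.induction_on with
        | H g =>
          rw [rt_zpow_mk, QuotientGroup.eq] at hj
          have : (g * (t ^ (k * 2)) ^ j)⁻¹ * g = (t ^ (k * 2)) ^ (-j) := by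
            rw [zpow_neg]; group
          rw [this] at hj
          have := hfree (-j) (hle hj)
          omega
      · have h1 : rt B' (t ^ (k * 2)) hk2 = (rt B' (t ^ k) hkn) ^ 2 := by
          ext x
          induction x using QuotientGroup.induction_on with
          | H g =>
            rw [rt_mk, pow_two, Equiv.Perm.mul_apply, rt_mk, rt_mk, mul_assoc, ← pow_two, ← pow_mul]
        rw [h1]
        exact sq_triv X (rt_smul _ _) hz'

end Pool.Agent.Helper81K9.PD
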