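import Pool.Agent.Helper81K9.PdD

/-!
A group with a finite free resolution is torsion free.
-/

set_option autoImplicit false

open scoped Matrix

namespace Pool.Agent.Helper81K9.PD

open Pool.Agent.H919R4.AS (permZ ringZ cobdZ coboundariesZ cohomologyZ)
open Pool.Agent.H919R4.ZS (FinRes d_mul_d eps eps_add eps_sub eps_smul augm augm_single)

section perm

variable {Z : Type} (ρ : Equiv.Perm Z) {m : ℕ}

lemma norm_zero (hm : 0 < m) (v : Z →₀ ℤ)
    (h : ∑ i ∈ Finset.range m, Finsupp.mapDomain (ρ ^ i : Equiv.Perm Z) v = 0) :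
    ∃ w, Finsupp.mapDomain ρ w - w = v := by
  let S := Equiv.Perm.SameCycle.setoid ρ
  let p : Z → Quotient S := Quotient.mk S
  refine exact_mid ρ (p := p) Quotient.mk_surjective (fun z z' hz => Quotient.exact hz) v ?_
  have h1 : Finsupp.mapDomain p (∑ i ∈ Finset.range m,
      Finsupp.mapDomain (ρ ^ i : Equiv.Perm Z) v) = m • Finsupp.mapDomain p v := by
    rw [Finsupp.mapDomain_finsetSum, Finset.sum_congr rfl (g := fun _ => Finsupp.mapDomain p v)]
    · rw [Finset.sum_const, Finset.card_range]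
    · intro i _
      rw [← Finsupp.mapDomain_comp]
      congr 1
      funext z
      refine Quotient.sound ?_
      refine ⟨-(i : ℤ), ?_⟩
      rw [zpow_neg, zpow_natCast]
      exact (ρ ^ i : Equiv.Perm Z).symm_apply_apply z
  rw [h, Finsupp.mapDomain_zero] at h1
  ext x
  have h2 := DFunLike.congr_fun h1 x
  rw [Finsupp.smul_apply, Finsupp.zero_apply, eq_comm, nsmul_eq_mul, mul_eq_zero] at h2
  rcases h2 with h2 | h2
  · exfalso
    have : m = 0 := by exact_mod_cast h2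
    omega
  · exact h2

lemma fix_norm (hm : 0 < m) (hord : ∀ (z : Z) (k : ℤ), (ρ ^ k) z = z ↔ (m : ℤ) ∣ k)
    (v : Z →₀ ℤ) (h : Finsupp.mapDomain ρ v = v) :
    ∃ w, ∑ i ∈ Finset.range m, Finsupp.mapDomain (ρ ^ i : Equiv.Perm Z) w = v := by
  classical
  let S := Equiv.Perm.SameCycle.setoid ρ
  let p : Z → Quotient S := Quotient.mk S
  obtain ⟨s, hs⟩ := (Quotient.mk_surjective (s := S)).hasRightInverse
  have hv1 : ∀ x, v (ρ.symm x) = v x := by
    intro x
    conv_rhs => rw [← h]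
    rw [Finsupp.mapDomain_equiv_apply]
  have hv2 : ∀ (i : ℕ) (x : Z), v ((ρ ^ i : Equiv.Perm Z).symm x) = v x := by
    intro i
    induction i with
    | zero => intro x; rfl
    | succ i ih =>
      intro x
      have : (ρ ^ (i + 1) : Equiv.Perm Z).symm x = (ρ ^ i : Equiv.Perm Z).symm (ρ.symm x) := by
        rw [Equiv.symm_apply_eq, pow_succ', Equiv.Perm.mul_apply, Equiv.apply_symm_apply,
          Equiv.apply_symm_apply]
      rw [this, ih, hv1]
  refine ⟨Finsupp.filter (fun x => x ∈ Set.range s) v, ?_⟩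
  ext z
  rw [Finsupp.finsetSum_apply]
  obtain ⟨k, hk⟩ : ∃ k : ℤ, (ρ ^ k) z = s (p z) := by
    have : p z = p (s (p z)) := (hs (p z)).symm
    exact Quotient.exact this
  have hm' : (0 : ℤ) < m := by exact_mod_cast hm
  have h0 : 0 ≤ (-k) % (m : ℤ) := Int.emod_nonneg _ hm'.ne'
  have h1 : (-k) % (m : ℤ) < m := Int.emod_lt_of_pos _ hm'
  have hval : ∀ i : ℕ, (Finsupp.mapDomain (ρ ^ i : Equiv.Perm Z)
      (Finsupp.filter (fun x => x ∈ Set.range s) v)) z =
      if (ρ ^ i : Equiv.Perm Z).symm z ∈ Set.range s then v z else 0 := by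
    intro i
    rw [Finsupp.mapDomain_equiv_apply, Finsupp.filter_apply]
    split_ifs
    · exact hv2 i z
    · rfl
  have hran : ∀ i : ℕ, (ρ ^ i : Equiv.Perm Z).symm z ∈ Set.range s ↔ (m : ℤ) ∣ (k + i) := by
    intro i
    have e1 : (ρ ^ i : Equiv.Perm Z).symm z = (ρ ^ (-(i : ℤ)) : Equiv.Perm Z) z := by
      rw [zpow_neg, zpow_natCast]
      rfl
    constructor
    · rintro ⟨y, hy⟩
      have h2 : p ((ρ ^ i : Equiv.Perm Z).symm z) = p z := by
        refine Quotient.sound ⟨(i : ℤ), ?_⟩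
        rw [zpow_natCast, Equiv.apply_symm_apply]
      have h3 : y = p z := by
        rw [← h2, ← hy]
        exact (hs y).symm
      rw [h3, ← hk, e1] at hy
      rw [← hord z]
      have h4 : (ρ ^ (k + i)) z = (ρ ^ (i : ℤ)) ((ρ ^ k) z) := by
        rw [add_comm, zpow_add]
        rfl
      rw [h4, hy, ← Equiv.Perm.mul_apply, ← zpow_add, add_neg_cancel]
      rfl
    · intro h2
      refine ⟨p z, ?_⟩
      rw [← hk, e1]
      rw [← hord z] at h2
      have h4 : (ρ ^ (-(i : ℤ)) : Equiv.Perm Z) ((ρ ^ (k + i)) z) = (ρ ^ k) z := by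
        rw [← Equiv.Perm.mul_apply, ← zpow_add]
        congr 2
        ring
      rw [← h4, h2]
  rw [Finset.sum_eq_single ((-k) % (m : ℤ)).toNat]
  · rw [hval, if_pos]
    rw [hran, Int.toNat_of_nonneg h0]
    have := Int.emod_add_mul_ediv (-k) m
    refine ⟨-((-k) / (m : ℤ)), ?_⟩
    linarith
  · intro i hi hne
    rw [hval, if_neg]
    rw [hran]
    rintro ⟨c, hc⟩
    apply hne
    rw [Finset.mem_range] at hi
    have h2 : (i : ℤ) = (-k) % (m : ℤ) := by
      have h3 : (i : ℤ) = -k + m * c := by linarith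
      have h4 : (i : ℤ) % m = i := Int.emod_eq_of_lt (by omega) (by omega)
      rw [← h4, h3, Int.add_mul_emod_self_left]
    omega
  · intro hi
    exfalso
    apply hi
    rw [Finset.mem_range]
    omega

end perm

variable {G : Type} [Group G] (X : FinRes G)

lemma TT_single_mul (g : G) (x : MonoidAlgebra ℤ G) : TT (MonoidAlgebra.single g 1 * x) =
    Finsupp.mapDomain (MulAction.toPerm g : Equiv.Perm (G ⧸ (⊥ : Subgroup G))) (TT x) := by
  rw [TT_mul, ringZ_single, one_smul]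
  rfl

lemma TT_sub (a b : MonoidAlgebra ℤ G) : TT (a - b) = TT a - TT b := by
  rw [eq_sub_iff_add_eq, ← TT_add, sub_add_cancel]

/-- `g - 1` -/
noncomputable def Tel (g : G) : MonoidAlgebra ℤ G := MonoidAlgebra.single g 1 - 1

/-- `1 + g + ⋯ + g^(m-1)` -/
noncomputable def Nel (g : G) (m : ℕ) : MonoidAlgebra ℤ G :=
  ∑ i ∈ Finset.range m, MonoidAlgebra.single (g ^ i) 1

lemma Tel_mul_Nel {g : G} {m : ℕ} (hg : g ^ m = 1) : Tel g * Nel g m = 0 := by
  unfold Tel Nel
  have h1 : ∑ i ∈ Finset.range m, (MonoidAlgebra.single (g ^ i) 1 : MonoidAlgebra ℤ G) =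
      ∑ i ∈ Finset.range m, (MonoidAlgebra.single g 1) ^ i := by
    refine Finset.sum_congr rfl fun i _ => ?_
    rw [MonoidAlgebra.single_pow, one_pow]
  rw [h1, mul_geom_sum, MonoidAlgebra.single_pow, hg, one_pow]
  exact sub_self _

lemma Nel_mul_Tel {g : G} {m : ℕ} (hg : g ^ m = 1) : Nel g m * Tel g = 0 := by
  unfold Tel Nel
  have h1 : ∑ i ∈ Finset.range m, (MonoidAlgebra.single (g ^ i) 1 : MonoidAlgebra ℤ G) =
      ∑ i ∈ Finset.range m, (MonoidAlgebra.single g 1) ^ i := by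
    refine Finset.sum_congr rfl fun i _ => ?_
    rw [MonoidAlgebra.single_pow, one_pow]
  rw [h1, geom_sum_mul, MonoidAlgebra.single_pow, hg, one_pow]
  exact sub_self _

lemma toPerm_pow (g : G) (i : ℕ) :
    (MulAction.toPerm (g ^ i) : Equiv.Perm (G ⧸ (⊥ : Subgroup G))) = (MulAction.toPerm g) ^ i :=
  map_pow (MulAction.toPermHom G (G ⧸ (⊥ : Subgroup G))) g i

lemma toPerm_zpow (g : G) (i : ℤ) :
    (MulAction.toPerm (g ^ i) : Equiv.Perm (G ⧸ (⊥ : Subgroup G))) = (MulAction.toPerm g) ^ i :=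
  map_zpow (MulAction.toPermHom G (G ⧸ (⊥ : Subgroup G))) g i

lemma ord_bot (g : G) (z : G ⧸ (⊥ : Subgroup G)) (k : ℤ) :
    ((MulAction.toPerm g : Equiv.Perm (G ⧸ (⊥ : Subgroup G))) ^ k) z = z ↔
      (orderOf g : ℤ) ∣ k := by
  rw [← toPerm_zpow, orderOf_dvd_iff_zpow_eq_one]
  induction z using QuotientGroup.induction_on with
  | H h =>
    change (QuotientGroup.mk (g ^ k * h) : G ⧸ (⊥ : Subgroup G)) = QuotientGroup.mk h ↔ _
    constructor
    · intro h1
      have := mk_bot_injective h1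
      simpa using this
    · intro h1
      rw [h1, one_mul]

/-- exactness for free modules -/
def FreeEx (A B : MonoidAlgebra ℤ G) : Prop :=
  ∀ (c : ℕ) (x : Fin c → MonoidAlgebra ℤ G), A • x = 0 → ∃ y : Fin c → MonoidAlgebra ℤ G, B • y = x

lemma freeEx_of {A B : MonoidAlgebra ℤ G}
    (h : ∀ x : MonoidAlgebra ℤ G, A * x = 0 → ∃ y, B * y = x) : FreeEx A B := by
  intro c x hx
  choose y hy using fun j => h (x j) (congrFun hx j)
  exact ⟨y, funext hy⟩

lemma freeEx_T {g : G} (hg : 0 < orderOf g) : FreeEx (Tel g) (Nel g (orderOf g)) := by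
  refine freeEx_of fun x hx => ?_
  have h1 : TT (Tel g * x) = 0 := by rw [hx, TT_zero]
  unfold Tel at h1
  rw [sub_mul, one_mul, TT_sub, TT_single_mul, sub_eq_zero] at h1
  obtain ⟨w, hw⟩ := fix_norm _ hg (ord_bot g) _ h1
  obtain ⟨y, rfl⟩ := TT_surjective w
  refine ⟨y, TT_injective ?_⟩
  unfold Nel
  rw [Finset.sum_mul, TT_sum, ← hw]
  refine Finset.sum_congr rfl fun i _ => ?_
  rw [TT_single_mul, toPerm_pow]

lemma freeEx_N {g : G} (hg : 0 < orderOf g) : FreeEx (Nel g (orderOf g)) (Tel g) := by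
  refine freeEx_of fun x hx => ?_
  have h1 : TT (Nel g (orderOf g) * x) = 0 := by rw [hx, TT_zero]
  unfold Nel at h1
  rw [Finset.sum_mul, TT_sum] at h1
  have h2 : ∑ i ∈ Finset.range (orderOf g), Finsupp.mapDomain
      ((MulAction.toPerm g : Equiv.Perm (G ⧸ (⊥ : Subgroup G))) ^ i : Equiv.Perm _) (TT x) = 0 := by
    rw [← h1]
    refine Finset.sum_congr rfl fun i _ => ?_
    rw [TT_single_mul, toPerm_pow]
  obtain ⟨w, hw⟩ := norm_zero _ hg _ h2
  obtain ⟨y, rfl⟩ := TT_surjective w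
  refine ⟨y, TT_injective ?_⟩
  unfold Tel
  rw [sub_mul, one_mul, TT_sub, TT_single_mul, hw]

/-- exactness for the image of the differential -/
def Cl (A B : MonoidAlgebra ℤ G) (i : ℕ) : Prop :=
  ∀ x : Fin (X.n (i + 1)) → MonoidAlgebra ℤ G, A • (x ᵥ* X.d i) = 0 →
    ∃ w : Fin (X.n (i + 1)) → MonoidAlgebra ℤ G, B • (w ᵥ* X.d i) = x ᵥ* X.d i

lemma Cl.step {A B : MonoidAlgebra ℤ G} (hF : FreeEx A B) (hBA : B * A = 0) {i : ℕ}
    (h : Cl X B A (i + 1)) : Cl X A B i := by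
  intro x hx
  rw [← Matrix.smul_vecMul] at hx
  obtain ⟨y, hy⟩ := (X.exact_succ i _).1 hx
  obtain ⟨w, hw⟩ := h y (by rw [hy, smul_smul, hBA, zero_smul])
  rw [hy, ← sub_eq_zero, ← smul_sub, ← neg_sub, smul_neg, neg_eq_zero] at hw
  obtain ⟨v, hv⟩ := hF _ _ hw
  refine ⟨v, ?_⟩
  rw [← Matrix.smul_vecMul, hv, Matrix.sub_vecMul, Matrix.vecMul_vecMul, d_mul_d,
    Matrix.vecMul_zero, sub_zero]

lemma cl_all {A B : MonoidAlgebra ℤ G} (hF : FreeEx A B) (hF' : FreeEx B A) (hBA : B * A = 0)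
    (hAB : A * B = 0) (k : ℕ) : ∀ i, X.len ≤ i + k → Cl X A B i ∧ Cl X B A i := by
  induction k with
  | zero =>
    intro i hi
    have h0 : X.n (i + 1) = 0 := X.n_eq_zero _ (by omega)
    have h1 : ∀ x : Fin (X.n (i + 1)) → MonoidAlgebra ℤ G, x ᵥ* X.d i = 0 := by
      intro x
      have : IsEmpty (Fin (X.n (i + 1))) := by rw [h0]; exact Fin.isEmpty
      funext j
      simp [Matrix.vecMul, dotProduct]
    exact ⟨fun x _ => ⟨0, by rw [h1, h1, smul_zero]⟩, fun x _ => ⟨0, by rw [h1, h1, smul_zero]⟩⟩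
  | succ k ih =>
    intro i hi
    have h1 := ih (i + 1) (by omega)
    exact ⟨Cl.step X hF hBA h1.2, Cl.step X hF' hAB h1.1⟩

include X in
theorem torsionFree (g : G) (hg : g ≠ 1) (k : ℤ) (hk : g ^ k = 1) : k = 0 := by
  by_contra hk0
  have h1 : 0 < orderOf g := by
    rw [orderOf_pos_iff, isOfFinOrder_iff_zpow_eq_one]
    exact ⟨k, hk0, hk⟩
  have h2 : orderOf g ≠ 1 := fun h => hg (orderOf_eq_one_iff.1 h)
  have h3 := (cl_all X (freeEx_N h1) (freeEx_T h1) (Tel_mul_Nel (pow_orderOf_eq_one g))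
    (Nel_mul_Tel (pow_orderOf_eq_one g)) X.len 0 (by omega)).1
  obtain ⟨x0, hx0⟩ := X.surj
  change eps X x0 = 1 at hx0
  have haT : augm G (Tel g) = 0 := by
    unfold Tel
    rw [map_sub, augm_single, map_one, sub_self]
  have haN : augm G (Nel g (orderOf g)) = orderOf g := by
    unfold Nel
    rw [map_sum, Finset.sum_congr rfl fun i _ => augm_single _ _]
    simp
  have h4 : eps X (Tel g • x0) = 0 := by rw [eps_smul, haT, zero_mul]
  obtain ⟨y, hy⟩ := (X.exact_zero _).1 h4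
  obtain ⟨w, hw⟩ := h3 y (by rw [hy, smul_smul, Nel_mul_Tel (pow_orderOf_eq_one g), zero_smul])
  rw [hy, ← sub_eq_zero, ← smul_sub, ← neg_sub, smul_neg, neg_eq_zero] at hw
  obtain ⟨v, hv⟩ := freeEx_T h1 _ _ hw
  have h5 : eps X (w ᵥ* X.d 0) = 0 := (X.exact_zero _).2 ⟨w, rfl⟩
  have h6 := congrArg (eps X) hv
  rw [eps_smul, eps_sub, hx0, h5, haN, sub_zero] at h6
  have h7 : (orderOf g : ℤ) ∣ 1 := ⟨_, h6.symm⟩
  have h8 : (orderOf g : ℤ) = 1 := Int.eq_one_of_dvd_one (by positivity) h7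
  exact h2 (by exact_mod_cast h8)

end Pool.Agent.Helper81K9.PD
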