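import Pool.Agent.Helper81K9.WallK
import Pool.Agent.H919R4.ZS.Final
import Pool.Agent.R807.ZK2
import Pool.Agent.R778.Refl

/-!
The inheritance theorem.
-/

set_option autoImplicit false
set_option linter.unusedSectionVars false

open scoped Matrix Pointwise

namespace Pool.Agent.Helper81K9.W

open Pool.Agent.H919R4.ZS
open Pool.Agent.R778.ZS (Cell Bas bmat inc dim deck)
open Pool.Agent.TH38.ZT (ExAt exAt_iff ex_indep euler)
open Pool.Agent.H496R3.ZS (IsAmenable)

section inherit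

variable {G : Type} [Group G] (X : FinRes G)

lemma dim_le_len (σ : Cell X) : (cellBC X).dim σ ≤ X.len := Nat.lt_succ_iff.1 σ.2.1.2

/-- the finite free resolution of a group acting on a subcomplex -/
theorem exists_res {k : ℕ} {V : Set (Cell X)} (hV : (cellBC X).Iter k V) {C : Type} [Group C]
    (T : FAct (cellBC X) V C) : ∃ Z : FinRes C, Z.len = X.len ∧ ∀ j,
      (cellBC X).Ex BC.P2 (fun _ => 0) V j → (cellBC Z).Ex BC.P2 (fun _ => 0) Set.univ j := by
  classical
  have : Finite T.Q := T.finite_Q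
  let _ : Fintype T.Q := Fintype.ofFinite _
  have hex : ∀ j, (cellBC X).Ex BC.P0 (cellBC X).eps V j := fun j =>
    (cellBC X).iter (cellBC X).adm_P0 _ hV j (fun i _ => ex_univ_int X i) j le_rfl
  have haug : (cellBC X).Aug1 V := (cellBC X).iter_aug hV (ex_univ_int X) (aug1_univ X)
    fun y hy _ => eps_bd X y hy
  exact ⟨T.res hV.isSub hex haug (eps_bd X) X.len (dim_le_len X), rfl, fun j h =>
    T.ex_res hV.isSub hex haug (eps_bd X) X.len (dim_le_len X) j h⟩

theorem inherit {k : ℕ} {V : Set (Cell X)} (hV : (cellBC X).Iter k V) {C : Type} [Group C]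
    (T : FAct (cellBC X) V C) (Z : FinRes C) (i : ℕ) (h : Nontrivial (Z.homology (toRed C) i)) :
    ∃ j ≤ i + k, Nontrivial (X.homology (toRed G) j) := by
  by_contra hcon
  push Not at hcon
  have h1 : ∀ j ≤ i + k, ExAt X (toRed G) j := fun j hj => (exAt_iff X _ j).2 (hcon j hj)
  have h2 := ex_univ_of_exAt X (i + k) h1
  have h3 := (cellBC X).iter ((cellBC X).adm_P2 (cellBC_bdd X)) (fun _ => 0) hV i h2
  obtain ⟨Z0, -, hZ0⟩ := exists_res X hV T
  have h4 := exAt_of_ex Z0 i fun j hj => hZ0 j (h3 j hj)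
  have h5 := ex_indep Z0 Z (toRed C) i (h4 i le_rfl)
  exact not_nontrivial_iff_subsingleton.2 ((exAt_iff Z _ i).1 h5) h

end inherit

section amenable

open Pool.Agent.R807.ZK (toQuot principle gmap)

lemma not_exAt_zero {C S : Type} [Group C] [Ring S] [Nontrivial S]
    (φ : MonoidAlgebra ℤ C →+* S) (hφ : ∀ a, φ a = ((augm C a : ℤ) : S)) (Z : FinRes C) :
    ¬ ExAt Z φ 0 := by
  intro hcon
  obtain ⟨x0, hx0⟩ := Z.surj
  obtain ⟨y, hy⟩ := hcon (fun j => φ (x0 j))
  have h1 : ∑ j, (y ᵥ* (Z.d 0).map φ) j * ((Z.aug j : ℤ) : S) = 1 := by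
    rw [hy]
    have h2 : ∀ j, φ (x0 j) * ((Z.aug j : ℤ) : S) =
        ((augm C (x0 j) * Z.aug j : ℤ) : S) := fun j => by
      rw [hφ, Int.cast_mul]
    rw [Finset.sum_congr rfl fun j _ => h2 j, ← Int.cast_sum, hx0, Int.cast_one]
  have h3 : ∑ j, (y ᵥ* (Z.d 0).map φ) j * ((Z.aug j : ℤ) : S) = 0 := by
    simp only [Matrix.vecMul, dotProduct, Matrix.map_apply, Finset.sum_mul]
    rw [Finset.sum_comm]
    refine Finset.sum_eq_zero fun k _ => ?_
    have h4 : ∀ j, y k * φ (Z.d 0 k j) * ((Z.aug j : ℤ) : S) =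
        y k * ((augm C (Z.d 0 k j) * Z.aug j : ℤ) : S) := fun j => by
      rw [hφ, Int.cast_mul, mul_assoc]
    rw [Finset.sum_congr rfl fun j _ => h4 j, ← Finset.mul_sum, ← Int.cast_sum]
    have h5 : ∑ j, augm C (Z.d 0 k j) * Z.aug j = 0 :=
      (Z.exact_zero (Z.d 0 k)).2 ⟨Pi.single k 1, by rw [Matrix.single_one_vecMul]; rfl⟩
    rw [h5, Int.cast_zero, mul_zero]
  rw [h1] at h3
  exact one_ne_zero h3

variable {C : Type} [Group C]

lemma amenable_top (hC : IsAmenable C) : IsAmenable (⊤ : Subgroup C) := by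
  classical
  intro S ε hε
  obtain ⟨F, hF, h⟩ := hC (S.image Subtype.val) ε hε
  let e : C ↪ (⊤ : Subgroup C) :=
    ⟨fun c => ⟨c, Subgroup.mem_top c⟩, fun a b hab => congrArg Subtype.val hab⟩
  refine ⟨F.map e, hF.map, fun s hs => ?_⟩
  have h1 := h s.1 (Finset.mem_image_of_mem _ hs)
  rw [Finset.card_map]
  have h2 : symmDiff (s • ((F.map e : Finset (⊤ : Subgroup C)) : Set (⊤ : Subgroup C)))
      ((F.map e : Finset (⊤ : Subgroup C)) : Set (⊤ : Subgroup C)) =
      e '' (symmDiff (s.1 • (F : Set C)) (F : Set C)) := by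
    rw [Finset.coe_map, Set.image_symmDiff e.injective]
    congr 1
    ext x
    constructor
    · rintro ⟨_, ⟨y, hy, rfl⟩, rfl⟩
      exact ⟨s.1 * y, ⟨y, hy, rfl⟩, rfl⟩
    · rintro ⟨_, ⟨y, hy, rfl⟩, rfl⟩
      exact ⟨e y, ⟨y, hy, rfl⟩, rfl⟩
  rw [h2, Set.ncard_image_of_injective _ e.injective]
  exact h1

lemma triv_aug {C Q S : Type} [Group C] [Group Q] [Subsingleton Q] [Ring S] (p : C →* Q)
    (ψ : MonoidAlgebra ℤ Q →+* S) (a : MonoidAlgebra ℤ C) :
    ψ (gmap p a) = ((augm C a : ℤ) : S) := by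
  have h : ψ.comp (gmap p) = (Int.castRingHom S).comp (augm C) := by
    refine MonoidAlgebra.ringHom_ext (fun r => ?_) (fun g => ?_)
    · rw [RingHom.comp_apply, RingHom.comp_apply, augm_single]
      have h1 : (MonoidAlgebra.single 1 r : MonoidAlgebra ℤ C) = (r : MonoidAlgebra ℤ C) := by
        rw [MonoidAlgebra.intCast_def, Int.cast_id]
      rw [h1, map_intCast, map_intCast]
      rfl
    · rw [RingHom.comp_apply, RingHom.comp_apply, augm_single, map_one]
      have h4 : p g = 1 := Subsingleton.elim _ _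
      have h3 : gmap p (MonoidAlgebra.single g 1) = 1 := by
        change MonoidAlgebra.mapDomainRingHom ℤ p (MonoidAlgebra.single g 1) = 1
        rw [MonoidAlgebra.mapDomainRingHom_apply, MonoidAlgebra.mapDomain_single, h4]
        rfl
      rw [h3, map_one]
  exact congrArg (fun f : MonoidAlgebra ℤ C →+* S => f a) h

lemma toQuot_top (a : MonoidAlgebra ℤ C) :
    toQuot (⊤ : Subgroup C) a = ((augm C a : ℤ) : RedC (C ⧸ (⊤ : Subgroup C))) := by
  have : Subsingleton (C ⧸ (⊤ : Subgroup C)) := QuotientGroup.subsingleton_quotient_top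
  exact triv_aug (QuotientGroup.mk' (⊤ : Subgroup C)) (toRed (C ⧸ (⊤ : Subgroup C))) a

theorem amenable_zero (hC : IsAmenable C) (Z : FinRes C) :
    Nontrivial (Z.homology (toRed C) 0) := by
  have h0 : Nontrivial (Z.homology (toQuot (⊤ : Subgroup C)) 0) := by
    by_contra hcon
    rw [not_nontrivial_iff_subsingleton, ← exAt_iff] at hcon
    have : Nontrivial (RedC (C ⧸ (⊤ : Subgroup C))) := by
      obtain ⟨τ, h6, -⟩ := Pool.Agent.TH38.ZT.exists_trace (C ⧸ (⊤ : Subgroup C))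
      refine ⟨⟨1, 0, fun h => ?_⟩⟩
      rw [h, map_zero] at h6
      exact zero_ne_one h6
    exact not_exAt_zero _ toQuot_top Z hcon
  obtain ⟨j, hj, h⟩ := principle (⊤ : Subgroup C) (amenable_top hC) Z 0 h0
  rw [Nat.le_zero.1 hj] at h
  exact h

end amenable

end Pool.Agent.Helper81K9.W
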