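import Pool.Agent.Helper81K9.PdE
import Pool.Agent.Helper81K9.WallL

/-!
Poincare duality groups.
-/

set_option autoImplicit false

open scoped Matrix

namespace Pool.Agent.Helper81K9.PD

open Pool.Agent.H919R4.AS (permZ ringZ cobdZ coboundariesZ cohomologyZ)
open Pool.Agent.H919R4.ZS (FinRes toRed RedC)
open Pool.Agent.H496R3.ZS (IsAmenable)
open Pool.Agent.R807.ZK (toQuot principle)
open Pool.Agent.TH38.ZT (exAt_iff)

variable {G : Type} [Group G] (X : FinRes G)

theorem amenable_zero_top (hC : IsAmenable (⊤ : Subgroup G)) :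
    Nontrivial (X.homology (toRed G) 0) := by
  have h0 : Nontrivial (X.homology (toQuot (⊤ : Subgroup G)) 0) := by
    by_contra hcon
    rw [not_nontrivial_iff_subsingleton, ← exAt_iff] at hcon
    have : Nontrivial (RedC (G ⧸ (⊤ : Subgroup G))) := by
      obtain ⟨τ, h6, -⟩ := Pool.Agent.TH38.ZT.exists_trace (G ⧸ (⊤ : Subgroup G))
      refine ⟨⟨1, 0, fun h => ?_⟩⟩
      rw [h, map_zero] at h6
      exact zero_ne_one h6
    exact W.not_exAt_zero _ W.toQuot_top X hcon
  obtain ⟨j, hj, h⟩ := principle (⊤ : Subgroup G) hC X 0 h0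
  rw [Nat.le_zero.1 hj] at h
  exact h

/-- Let `H^i(G; ℤ[G]) = 0` for `i < n` and `H^n(G; ℤ[G]) ≅ ℤ`. If `G` contains a
poly-(infinite cyclic) subgroup of length `n - 2`, then `H_i(G; C*_r(G)) ≠ 0` for some `i ≤ 2`. -/
theorem main_poly (n : ℕ) (h0 : ∀ i < n, Subsingleton (X.cohomology i))
    (hn : Nonempty (X.cohomology n ≃+ ℤ)) {C : Subgroup G} (hC : PolyZ (n - 2) C) :
    ∃ i ≤ 2, Nontrivial (X.homology (toRed G) i) := by
  obtain ⟨C', -, -, hfol, -, z, hz⟩ := chain X n (Nat.sub_le n 2) C hC (van_bot X h0) (gen_bot X hn)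
  rcases finite_or_infinite (G ⧸ C') with hfin | hinf
  · exact ⟨0, by norm_num, amenable_zero_top X (isAmenable_of_fol hfol.top)⟩
  · refine Pool.Agent.H919R4.AS.main X (isAmenable_of_fol hfol) hinf ⟨n - (n - 2), by omega, ?_⟩
    by_contra hcon
    rw [not_nontrivial_iff_subsingleton, QuotientAddGroup.subsingleton_iff,
      AddSubgroup.addSubgroupOf_eq_top] at hcon
    have h1 : z ∈ coboundariesZ X (G ⧸ C') (n - (n - 2)) := hcon hz.cocyc
    have h2 := hz.free 1 (by rw [one_smul]; exact h1)
    exact one_ne_zero h2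

theorem main (n : ℕ) (h0 : ∀ i < n, Subsingleton (X.cohomology i))
    (hn : Nonempty (X.cohomology n ≃+ ℤ)) (h : n ≤ 3 ∨ ∃ C : Subgroup G, PolyZ (n - 2) C) :
    ∃ i ≤ 2, Nontrivial (X.homology (toRed G) i) := by
  rcases h with h | ⟨C, hC⟩
  · rcases Nat.lt_or_ge n 3 with h3 | h3
    · refine main_poly X n h0 hn (C := ⊥) ?_
      have : n - 2 = 0 := by omega
      rw [this]
      rfl
    · have hn3 : n = 3 := le_antisymm h h3
      subst hn3
      rcases subsingleton_or_nontrivial G with hG | hG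
      · refine ⟨0, by norm_num, amenable_zero_top X (isAmenable_of_fol ?_)⟩
        have : (⊤ : Subgroup G) = ⊥ := Subsingleton.elim _ _
        rw [this]
        exact Fol.bot
      · obtain ⟨g, hg⟩ := exists_ne (1 : G)
        refine main_poly X 3 h0 hn (C := ⊥ ⊔ Subgroup.zpowers g) ?_
        refine ⟨⊥, g, rfl, ?_, ?_, rfl⟩
        · intro x
          rw [Subgroup.mem_bot, Subgroup.mem_bot]
          constructor
          · rintro rfl
            simp
          · intro hx
            simpa using hx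
        · intro k hk
          exact torsionFree X g hg k (Subgroup.mem_bot.1 hk)
  · exact main_poly X n h0 hn hC

end Pool.Agent.Helper81K9.PD
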