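import Mathlib

/-!
Based chain complexes, bounded retractions onto subcomplexes, and the Mayer-Vietoris step.
-/

set_option autoImplicit false
set_option linter.unusedSectionVars false

namespace Pool.Agent.Helper81K9.W

/-- A based chain complex of locally finite type: `dim` are the dimensions of the cells, `inc` the
incidence numbers (`inc σ ρ` is the coefficient of `ρ` in the boundary of `σ`), and `aug` are the
values of the augmentation on the cells of dimension `0`. -/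
structure BC (E : Type) where
  dim : E → ℕ
  inc : E → E → ℤ
  aug : E → ℤ
  cof : ∀ ρ, {σ | inc σ ρ ≠ 0}.Finite
  fac : ∀ σ, {ρ | inc σ ρ ≠ 0}.Finite
  dim_inc : ∀ σ ρ, inc σ ρ ≠ 0 → dim σ = dim ρ + 1
  sq : ∀ σ τ, ∑ᶠ ρ, inc σ ρ * inc ρ τ = 0

namespace BC

variable {E : Type} (K : BC E) {R : Type} [CommRing R]

/-- the cells in whose boundary `ρ` occurs -/
noncomputable def cofS (ρ : E) : Finset E := (K.cof ρ).toFinset

lemma mem_cofS {σ ρ : E} : σ ∈ K.cofS ρ ↔ K.inc σ ρ ≠ 0 := by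
  rw [cofS, Set.Finite.mem_toFinset]; rfl

/-- the boundary operator -/
noncomputable def bd (x : E → R) (ρ : E) : R := ∑ σ ∈ K.cofS ρ, (K.inc σ ρ : R) * x σ

lemma bd_eq (x : E → R) (ρ : E) (s : Finset E) (hs : ∀ σ, K.inc σ ρ ≠ 0 → x σ ≠ 0 → σ ∈ s) :
    K.bd x ρ = ∑ σ ∈ s, (K.inc σ ρ : R) * x σ := by
  classical
  rw [bd]
  have h1 : ∑ σ ∈ K.cofS ρ, (K.inc σ ρ : R) * x σ = ∑ σ ∈ K.cofS ρ ∪ s, (K.inc σ ρ : R) * x σ := by
    refine Finset.sum_subset Finset.subset_union_left fun σ _ h => ?_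
    rw [mem_cofS, not_not] at h
    rw [h]; simp
  have h2 : ∑ σ ∈ s, (K.inc σ ρ : R) * x σ = ∑ σ ∈ K.cofS ρ ∪ s, (K.inc σ ρ : R) * x σ := by
    refine Finset.sum_subset Finset.subset_union_right fun σ hσ h => ?_
    by_cases h3 : K.inc σ ρ = 0
    · rw [h3]; simp
    · by_cases h4 : x σ = 0
      · rw [h4, mul_zero]
      · exact absurd (hs σ h3 h4) h
  rw [h1, h2]

lemma bd_sub (x y : E → R) : K.bd (x - y) = K.bd x - K.bd y := by
  funext ρ
  simp only [bd, Pi.sub_apply, mul_sub, Finset.sum_sub_distrib]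

lemma bd_add (x y : E → R) : K.bd (x + y) = K.bd x + K.bd y := by
  funext ρ
  simp only [bd, Pi.add_apply, mul_add, Finset.sum_add_distrib]

lemma bd_zero : K.bd (0 : E → R) = 0 := by
  funext ρ
  simp [bd]

lemma bd_ne {x : E → R} {ρ : E} (h : K.bd x ρ ≠ 0) : ∃ σ, K.inc σ ρ ≠ 0 ∧ x σ ≠ 0 := by
  by_contra hcon
  push Not at hcon
  apply h
  rw [K.bd_eq x ρ ∅ (fun σ h1 h2 => absurd (hcon σ h1) h2)]
  simp

lemma bd_bd (x : E → R) : K.bd (K.bd x) = 0 := by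
  classical
  funext τ
  set s : Finset E := (K.cofS τ).biUnion K.cofS with hs
  have h1 : ∀ ρ ∈ K.cofS τ, K.bd x ρ = ∑ σ ∈ s, (K.inc σ ρ : R) * x σ := by
    intro ρ hρ
    refine K.bd_eq x ρ s fun σ h _ => ?_
    exact Finset.mem_biUnion.2 ⟨ρ, hρ, K.mem_cofS.2 h⟩
  have h2 : K.bd (K.bd x) τ = ∑ σ ∈ s, (∑ ρ ∈ K.cofS τ, (K.inc ρ τ : R) * (K.inc σ ρ : R)) * x σ := by
    rw [bd, Finset.sum_congr rfl fun ρ hρ => by rw [h1 ρ hρ, Finset.mul_sum], Finset.sum_comm]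
    refine Finset.sum_congr rfl fun σ _ => ?_
    rw [Finset.sum_mul]
    exact Finset.sum_congr rfl fun ρ _ => by ring
  rw [h2]
  refine Finset.sum_eq_zero fun σ _ => ?_
  have h3 := K.sq σ τ
  rw [finsum_eq_sum_of_support_subset (s := K.cofS τ)] at h3
  · have h4 : ∑ ρ ∈ K.cofS τ, (K.inc ρ τ : R) * (K.inc σ ρ : R) =
        ((∑ ρ ∈ K.cofS τ, K.inc σ ρ * K.inc ρ τ : ℤ) : R) := by
      push_cast
      exact Finset.sum_congr rfl fun ρ _ => by ring
    rw [h4, h3]; simp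
  · intro ρ hρ
    rw [Function.mem_support] at hρ
    exact Finset.mem_coe.2 (K.mem_cofS.2 fun h => hρ (by rw [h, mul_zero]))

/-- a set of cells which contains the boundaries of its elements -/
def IsSub (A : Set E) : Prop := ∀ σ ∈ A, ∀ ρ, K.inc σ ρ ≠ 0 → ρ ∈ A

/-- the chain `x` is a combination of cells of dimension `j` in `V` -/
def InV (V : Set E) (j : ℕ) (x : E → R) : Prop := ∀ σ, x σ ≠ 0 → σ ∈ V ∧ K.dim σ = j

lemma inV_bd {V : Set E} (hV : K.IsSub V) {j : ℕ} {x : E → R} (hx : K.InV V (j + 1) x) :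
    K.InV V j (K.bd x) := by
  intro ρ hρ
  obtain ⟨σ, h1, h2⟩ := K.bd_ne hρ
  obtain ⟨h3, h4⟩ := hx σ h2
  have h5 := K.dim_inc σ ρ h1
  exact ⟨hV σ h3 ρ h1, by omega⟩

lemma inV_sub {V : Set E} {j : ℕ} {x y : E → R} (hx : K.InV V j x) (hy : K.InV V j y) :
    K.InV V j (x - y) := by
  intro σ h
  by_cases h1 : x σ = 0
  · by_cases h2 : y σ = 0
    · exact absurd (by rw [Pi.sub_apply, h1, h2, sub_zero]) h
    · exact hy σ h2
  · exact hx σ h1

lemma inV_mono {V W : Set E} (h : V ⊆ W) {j : ℕ} {x : E → R} (hx : K.InV V j x) : K.InV W j x :=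
  fun σ hσ => ⟨h (hx σ hσ).1, (hx σ hσ).2⟩

/-- A bounded retraction of the subcomplex `V` onto the subcomplex `A`: a chain map, given by an
integral matrix (`mat σ τ` is the coefficient of the cell `τ` of `A` in the image of the cell `σ`
of `V`), which is the identity on `A`, is compatible with the augmentations, and whose rows and
columns have bounded `ℓ¹`-norms. -/
structure Retr (V A : Set E) where
  mat : E → E → ℤ
  mem : ∀ σ τ, mat σ τ ≠ 0 → σ ∈ V ∧ τ ∈ A ∧ K.dim τ = K.dim σ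
  id_self : ∀ σ ∈ A, mat σ σ = 1
  id_ne : ∀ σ ∈ A, ∀ τ, τ ≠ σ → mat σ τ = 0
  chain : ∀ σ ∈ V, ∀ τ, ∑ᶠ ρ, mat σ ρ * K.inc ρ τ = ∑ᶠ ρ, K.inc σ ρ * mat ρ τ
  aug_eq : ∀ σ ∈ V, K.dim σ = 0 → ∑ᶠ τ, mat σ τ * K.aug τ = K.aug σ
  bound : ℝ
  row_le : ∀ (σ : E) (F : Finset E), ∑ τ ∈ F, |(mat σ τ : ℝ)| ≤ bound
  col_le : ∀ (τ : E) (F : Finset E), ∑ σ ∈ F, |(mat σ τ : ℝ)| ≤ bound

lemma finite_of_bdd {f : E → ℤ} {b : ℝ} (h : ∀ F : Finset E, ∑ τ ∈ F, |(f τ : ℝ)| ≤ b) :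
    {τ | f τ ≠ 0}.Finite := by
  classical
  by_contra hinf
  have hinf' : {τ | f τ ≠ 0}.Infinite := hinf
  obtain ⟨t, ht, hcard⟩ := hinf'.exists_subset_card_eq (⌈b⌉₊ + 1)
  have h1 := h t
  have h2 : (t.card : ℝ) ≤ ∑ τ ∈ t, |(f τ : ℝ)| := by
    calc (t.card : ℝ) = ∑ τ ∈ t, (1 : ℝ) := by simp
      _ ≤ _ := Finset.sum_le_sum fun τ hτ => by
          have h3 : f τ ≠ 0 := ht (Finset.mem_coe.2 hτ)
          have h4 : (1 : ℤ) ≤ |f τ| := Int.one_le_abs h3
          exact_mod_cast h4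
  have h3 : b < (t.card : ℝ) := by
    rw [hcard]
    push_cast
    exact (Nat.le_ceil b).trans_lt (by linarith)
  linarith

namespace Retr

variable {K} {V A : Set E} (F : K.Retr V A)

lemma col_fin (τ : E) : {ρ | F.mat ρ τ ≠ 0}.Finite := finite_of_bdd (F.col_le τ)

lemma row_fin (σ : E) : {ρ | F.mat σ ρ ≠ 0}.Finite := finite_of_bdd (F.row_le σ)

/-- the cells whose image contains `τ` -/
noncomputable def fibS (τ : E) : Finset E := (F.col_fin τ).toFinset

lemma mem_fibS {ρ τ : E} : ρ ∈ F.fibS τ ↔ F.mat ρ τ ≠ 0 := by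
  rw [fibS, Set.Finite.mem_toFinset]; rfl

/-- the cells in the image of `σ` -/
noncomputable def imS (σ : E) : Finset E := (F.row_fin σ).toFinset

lemma mem_imS {ρ σ : E} : ρ ∈ F.imS σ ↔ F.mat σ ρ ≠ 0 := by
  rw [imS, Set.Finite.mem_toFinset]; rfl

/-- the chain map of a retraction -/
noncomputable def push (x : E → R) (τ : E) : R := ∑ ρ ∈ F.fibS τ, (F.mat ρ τ : R) * x ρ

lemma push_eq (x : E → R) (τ : E) (s : Finset E) (hs : ∀ ρ, F.mat ρ τ ≠ 0 → x ρ ≠ 0 → ρ ∈ s) :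
    F.push x τ = ∑ ρ ∈ s, (F.mat ρ τ : R) * x ρ := by
  classical
  rw [push]
  have h1 : ∑ σ ∈ F.fibS τ, (F.mat σ τ : R) * x σ = ∑ σ ∈ F.fibS τ ∪ s, (F.mat σ τ : R) * x σ := by
    refine Finset.sum_subset Finset.subset_union_left fun σ _ h => ?_
    rw [mem_fibS, not_not] at h
    rw [h]; simp
  have h2 : ∑ σ ∈ s, (F.mat σ τ : R) * x σ = ∑ σ ∈ F.fibS τ ∪ s, (F.mat σ τ : R) * x σ := by
    refine Finset.sum_subset Finset.subset_union_right fun σ hσ h => ?_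
    by_cases h3 : F.mat σ τ = 0
    · rw [h3]; simp
    · by_cases h4 : x σ = 0
      · rw [h4, mul_zero]
      · exact absurd (hs σ h3 h4) h
  rw [h1, h2]

lemma push_ne {x : E → R} {τ : E} (h : F.push x τ ≠ 0) : ∃ ρ, F.mat ρ τ ≠ 0 ∧ x ρ ≠ 0 := by
  by_contra hcon
  push Not at hcon
  apply h
  refine Finset.sum_eq_zero fun ρ hρ => ?_
  rw [hcon ρ (F.mem_fibS.1 hρ), mul_zero]

lemma inV_push {j : ℕ} {x : E → R} (hx : K.InV V j x) : K.InV A j (F.push x) := by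
  intro τ hτ
  obtain ⟨ρ, h1, h2⟩ := F.push_ne hτ
  obtain ⟨-, h5, h6⟩ := F.mem ρ τ h1
  exact ⟨h5, by rw [h6, (hx ρ h2).2]⟩

lemma push_id {j : ℕ} {x : E → R} (hx : K.InV A j x) : F.push x = x := by
  classical
  funext τ
  by_cases hτ : τ ∈ A
  · rw [F.push_eq x τ {τ}, Finset.sum_singleton, F.id_self τ hτ]
    · simp
    · intro ρ h1 h2
      rw [Finset.mem_singleton]
      by_contra hne
      exact h1 (F.id_ne ρ (hx ρ h2).1 τ (Ne.symm hne))
  · have h1 : x τ = 0 := by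
      by_contra h; exact hτ (hx τ h).1
    rw [h1]
    by_contra h
    obtain ⟨ρ, h1, -⟩ := F.push_ne h
    exact hτ (F.mem ρ τ h1).2.1

lemma push_bd {x : E → R} (hx : ∀ σ, x σ ≠ 0 → σ ∈ V) : K.bd (F.push x) = F.push (K.bd x) := by
  classical
  funext τ
  set U : Finset E := (K.cofS τ).biUnion F.fibS ∪ (F.fibS τ).biUnion K.cofS with hU
  -- left-hand side
  have h1 : ∀ ρ ∈ K.cofS τ, F.push x ρ = ∑ σ ∈ U, (F.mat σ ρ : R) * x σ := by
    intro ρ hρ
    refine F.push_eq x ρ U fun σ h _ => ?_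
    exact Finset.mem_union_left _ (Finset.mem_biUnion.2 ⟨ρ, hρ, F.mem_fibS.2 h⟩)
  have h2 : K.bd (F.push x) τ =
      ∑ σ ∈ U, ((∑ ρ ∈ K.cofS τ, F.mat σ ρ * K.inc ρ τ : ℤ) : R) * x σ := by
    rw [bd, Finset.sum_congr rfl fun ρ hρ => by rw [h1 ρ hρ, Finset.mul_sum], Finset.sum_comm]
    refine Finset.sum_congr rfl fun σ _ => ?_
    push_cast
    rw [Finset.sum_mul]
    exact Finset.sum_congr rfl fun ρ _ => by ring
  -- right-hand side
  have h3 : ∀ ρ ∈ F.fibS τ, K.bd x ρ = ∑ σ ∈ U, (K.inc σ ρ : R) * x σ := by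
    intro ρ hρ
    refine K.bd_eq x ρ U fun σ h _ => ?_
    exact Finset.mem_union_right _ (Finset.mem_biUnion.2 ⟨ρ, hρ, K.mem_cofS.2 h⟩)
  have h4 : F.push (K.bd x) τ =
      ∑ σ ∈ U, ((∑ ρ ∈ F.fibS τ, K.inc σ ρ * F.mat ρ τ : ℤ) : R) * x σ := by
    rw [push, Finset.sum_congr rfl fun ρ hρ => by rw [h3 ρ hρ, Finset.mul_sum], Finset.sum_comm]
    refine Finset.sum_congr rfl fun σ _ => ?_
    push_cast
    rw [Finset.sum_mul]
    exact Finset.sum_congr rfl fun ρ _ => by ring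
  rw [h2, h4]
  refine Finset.sum_congr rfl fun σ _ => ?_
  by_cases hσ : x σ = 0
  · rw [hσ, mul_zero, mul_zero]
  · have h5 := F.chain σ (hx σ hσ) τ
    rw [finsum_eq_sum_of_support_subset (s := K.cofS τ), finsum_eq_sum_of_support_subset
      (s := F.fibS τ)] at h5
    · rw [h5]
    · intro ρ hρ
      rw [Function.mem_support] at hρ
      exact Finset.mem_coe.2 (F.mem_fibS.2 fun h => hρ (by rw [h, mul_zero]))
    · intro ρ hρ
      rw [Function.mem_support] at hρ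
      exact Finset.mem_coe.2 (K.mem_cofS.2 fun h => hρ (by rw [h, mul_zero]))

end Retr

/-- `V` is the union of two subcomplexes with intersection `W`, and there are bounded retractions of
`V` onto both of them. -/
def Splits (V W : Set E) : Prop :=
  ∃ A B : Set E, K.IsSub A ∧ K.IsSub B ∧ A ∪ B = V ∧ A ∩ B = W ∧ Nonempty (K.Retr V A) ∧
    Nonempty (K.Retr V B)

/-- exactness in degree `j` of the complex of the chains in `V` with the property `P` -/
def Ex (P : (E → R) → Prop) (ε : (E → R) → R) (V : Set E) (j : ℕ) : Prop :=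
  ∀ x, P x → K.InV V j x → K.bd x = 0 → (j = 0 → ε x = 0) →
    ∃ y, P y ∧ K.InV V (j + 1) y ∧ K.bd y = x

/-- the class of chains `P` is closed under the operations which we need -/
structure Adm (P : (E → R) → Prop) : Prop where
  sub : ∀ x y, P x → P y → P (x - y)
  ind : ∀ (s : Set E) x, P x → P (s.indicator x)
  bd : ∀ x, P x → P (K.bd x)
  push : ∀ (V A : Set E) (F : K.Retr V A) x, P x → P (F.push x)

/-- the Mayer-Vietoris step -/
theorem step {P : (E → R) → Prop} (hP : K.Adm P) (ε : (E → R) → R) {V W : Set E}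
    (h : K.Splits V W) (j : ℕ) (h1 : K.Ex P ε V j) (h2 : K.Ex P ε V (j + 1)) : K.Ex P ε W j := by
  obtain ⟨A, B, hA, hB, hAB, hW, ⟨F⟩, ⟨G⟩⟩ := h
  have hAV : A ⊆ V := hAB ▸ Set.subset_union_left
  have hBV : B ⊆ V := hAB ▸ Set.subset_union_right
  have hWA : W ⊆ A := hW ▸ Set.inter_subset_left
  have hWB : W ⊆ B := hW ▸ Set.inter_subset_right
  intro z hz hzW hz0 hze
  obtain ⟨y, hy, hyV, hyz⟩ := h1 z hz (K.inV_mono (hWA.trans hAV) hzW) hz0 hze
  have hFy : K.bd (F.push y) = z := by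
    rw [F.push_bd fun σ hσ => (hyV σ hσ).1, hyz, F.push_id (K.inV_mono hWA hzW)]
  have hGy : K.bd (G.push y) = z := by
    rw [G.push_bd fun σ hσ => (hyV σ hσ).1, hyz, G.push_id (K.inV_mono hWB hzW)]
  obtain ⟨w, hw, hwV, hwz⟩ := h2 (F.push y - G.push y) (hP.sub _ _ (hP.push _ _ F _ hy)
    (hP.push _ _ G _ hy)) (K.inV_sub (K.inV_mono hAV (F.inV_push hyV))
    (K.inV_mono hBV (G.inV_push hyV))) (by rw [bd_sub, hFy, hGy, sub_self])
    (fun h => absurd h (Nat.succ_ne_zero j))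
  set wA : E → R := A.indicator w with hwA
  have hwA1 : K.InV A (j + 1 + 1) wA := by
    intro σ hσ
    rw [hwA] at hσ
    have h3 : σ ∈ A := by
      by_contra h3; exact hσ (Set.indicator_of_notMem h3 w)
    rw [Set.indicator_of_mem h3] at hσ
    exact ⟨h3, (hwV σ hσ).2⟩
  have hwB1 : K.InV B (j + 1 + 1) (w - wA) := by
    intro σ hσ
    have h3 : σ ∉ A := by
      intro h3
      apply hσ
      rw [Pi.sub_apply, hwA, Set.indicator_of_mem h3, sub_self]
    rw [Pi.sub_apply, hwA, Set.indicator_of_notMem h3, sub_zero] at hσ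
    obtain ⟨h4, h5⟩ := hwV σ hσ
    rw [← hAB] at h4
    exact ⟨h4.resolve_left h3, h5⟩
  refine ⟨F.push y - K.bd wA, hP.sub _ _ (hP.push _ _ F _ hy) (hP.bd _ (hP.ind _ _ hw)), ?_, ?_⟩
  · have e1 : K.InV A (j + 1) (F.push y - K.bd wA) :=
      K.inV_sub (F.inV_push hyV) (K.inV_bd hA hwA1)
    have e2 : F.push y - K.bd wA = G.push y + K.bd (w - wA) := by
      rw [bd_sub, hwz]; abel
    have e3 : K.InV B (j + 1) (F.push y - K.bd wA) := by
      rw [e2]
      have := K.inV_sub (G.inV_push hyV) (x := G.push y) (y := - K.bd (w - wA)) (fun σ hσ => by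
        rw [Pi.neg_apply, neg_ne_zero] at hσ
        exact K.inV_bd hB hwB1 σ hσ)
      rwa [sub_neg_eq_add] at this
    intro σ hσ
    rw [← hW]
    exact ⟨⟨(e1 σ hσ).1, (e3 σ hσ).1⟩, (e1 σ hσ).2⟩
  · rw [bd_sub, bd_bd, sub_zero, hFy]

/-- `V` is obtained from the whole complex by finitely many steps of the following two kinds: pass
to a subcomplex onto which there is a bounded retraction, or pass to the intersection of two
subcomplexes as in `Splits`; the number of the steps of the second kind is `k`. -/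
inductive Iter : ℕ → Set E → Prop
  | zero : Iter 0 Set.univ
  | retr (k : ℕ) (V A : Set E) : Iter k V → K.IsSub A → A ⊆ V → Nonempty (K.Retr V A) → Iter k A
  | succ (k : ℕ) (V W : Set E) : Iter k V → K.Splits V W → Iter (k + 1) W

theorem retr_step {P : (E → R) → Prop} (hP : K.Adm P) (ε : (E → R) → R) {V A : Set E}
    (hA : A ⊆ V) (F : K.Retr V A) (j : ℕ) (h1 : K.Ex P ε V j) : K.Ex P ε A j := by
  intro z hz hzA hz0 hze
  obtain ⟨y, hy, hyV, hyz⟩ := h1 z hz (K.inV_mono hA hzA) hz0 hze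
  refine ⟨F.push y, hP.push _ _ F _ hy, F.inV_push hyV, ?_⟩
  rw [F.push_bd fun σ hσ => (hyV σ hσ).1, hyz, F.push_id hzA]

theorem iter {P : (E → R) → Prop} (hP : K.Adm P) (ε : (E → R) → R) {k : ℕ} {V : Set E}
    (h : K.Iter k V) (m : ℕ) (h1 : ∀ j ≤ m + k, K.Ex P ε Set.univ j) :
    ∀ j ≤ m, K.Ex P ε V j := by
  induction h generalizing m with
  | zero => exact h1
  | retr k V A _ _ hA F ih =>
    obtain ⟨F⟩ := F
    exact fun j hj => K.retr_step hP ε hA F j (ih m h1 j hj)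
  | succ k V W _ hs ih =>
    intro j hj
    have h2 := ih (m + 1) (fun j hj => h1 j (by omega))
    exact K.step hP ε hs j (h2 j (by omega)) (h2 (j + 1) (by omega))

lemma Iter.isSub {k : ℕ} {V : Set E} (h : K.Iter k V) : K.IsSub V := by
  cases h with
  | zero => exact fun _ _ _ _ => Set.mem_univ _
  | retr k V A _ hA _ _ => exact hA
  | succ k V W _ hs =>
    obtain ⟨A, B, hA, hB, hAB, hW, -⟩ := hs
    rw [← hW]
    exact fun σ hσ ρ hρ => ⟨hA σ hσ.1 ρ hρ, hB σ hσ.2 ρ hρ⟩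

end BC

end Pool.Agent.Helper81K9.W
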