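import Pool.Agent.Helper81K9.WallA

/-!
Square summable chains and finitely supported chains of a based complex.
-/

set_option autoImplicit false
set_option linter.unusedSectionVars false

namespace Pool.Agent.Helper81K9.W

lemma schur {E : Type} (s : E → Finset E) (T : E → E → ℝ) (hT : ∀ σ ρ, 0 ≤ T σ ρ) (b : ℝ)
    (hb : 0 ≤ b) (h1 : ∀ ρ, ∑ σ ∈ s ρ, T σ ρ ≤ b)
    (h2 : ∀ σ (F : Finset E), (∀ ρ ∈ F, σ ∈ s ρ) → ∑ ρ ∈ F, T σ ρ ≤ b) (x y : E → ℂ)
    (hx : Summable fun σ => ‖x σ‖ ^ 2) (hy : ∀ ρ, ‖y ρ‖ ≤ ∑ σ ∈ s ρ, T σ ρ * ‖x σ‖) :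
    Summable fun σ => ‖y σ‖ ^ 2 := by
  classical
  refine summable_of_sum_le (fun _ => sq_nonneg _) (c := b ^ 2 * ∑' σ, ‖x σ‖ ^ 2) fun F => ?_
  have e1 : ∀ ρ, ‖y ρ‖ ^ 2 ≤ b * ∑ σ ∈ s ρ, T σ ρ * ‖x σ‖ ^ 2 := by
    intro ρ
    have e2 : (∑ σ ∈ s ρ, T σ ρ * ‖x σ‖) ^ 2 ≤
        (∑ σ ∈ s ρ, T σ ρ) * ∑ σ ∈ s ρ, T σ ρ * ‖x σ‖ ^ 2 := by
      refine Finset.sum_sq_le_sum_mul_sum_of_sq_le_mul _ (fun σ _ => hT σ ρ)
        (fun σ _ => mul_nonneg (hT σ ρ) (sq_nonneg _)) (fun σ _ => le_of_eq (by ring))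
    calc ‖y ρ‖ ^ 2 ≤ (∑ σ ∈ s ρ, T σ ρ * ‖x σ‖) ^ 2 :=
          pow_le_pow_left₀ (norm_nonneg _) (hy ρ) 2
      _ ≤ _ := e2
      _ ≤ _ := mul_le_mul_of_nonneg_right (h1 ρ)
          (Finset.sum_nonneg fun σ _ => mul_nonneg (hT σ ρ) (sq_nonneg _))
  set U : Finset E := F.biUnion s with hU
  have e3 : ∀ ρ ∈ F, ∑ σ ∈ s ρ, T σ ρ * ‖x σ‖ ^ 2 =
      ∑ σ ∈ U, if σ ∈ s ρ then T σ ρ * ‖x σ‖ ^ 2 else 0 := by
    intro ρ hρ
    rw [← Finset.sum_filter]
    refine Finset.sum_congr ?_ fun _ _ => rfl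
    ext σ
    rw [Finset.mem_filter]
    exact ⟨fun h => ⟨Finset.mem_biUnion.2 ⟨ρ, hρ, h⟩, h⟩, fun h => h.2⟩
  calc ∑ ρ ∈ F, ‖y ρ‖ ^ 2 ≤ ∑ ρ ∈ F, b * ∑ σ ∈ s ρ, T σ ρ * ‖x σ‖ ^ 2 :=
        Finset.sum_le_sum fun ρ _ => e1 ρ
    _ = b * ∑ σ ∈ U, ∑ ρ ∈ F, if σ ∈ s ρ then T σ ρ * ‖x σ‖ ^ 2 else 0 := by
        rw [← Finset.mul_sum, Finset.sum_congr rfl e3, Finset.sum_comm]
    _ = b * ∑ σ ∈ U, (∑ ρ ∈ F.filter fun ρ => σ ∈ s ρ, T σ ρ) * ‖x σ‖ ^ 2 := by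
        congr 1
        refine Finset.sum_congr rfl fun σ _ => ?_
        rw [Finset.sum_mul, Finset.sum_filter]
    _ ≤ b * ∑ σ ∈ U, b * ‖x σ‖ ^ 2 := by
        refine mul_le_mul_of_nonneg_left (Finset.sum_le_sum fun σ _ => ?_) hb
        refine mul_le_mul_of_nonneg_right (h2 σ _ fun ρ hρ => ?_) (sq_nonneg _)
        exact (Finset.mem_filter.1 hρ).2
    _ = b ^ 2 * ∑ σ ∈ U, ‖x σ‖ ^ 2 := by rw [← Finset.mul_sum]; ring
    _ ≤ b ^ 2 * ∑' σ, ‖x σ‖ ^ 2 := by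
        refine mul_le_mul_of_nonneg_left ?_ (sq_nonneg _)
        exact hx.sum_le_tsum _ fun _ _ => sq_nonneg _

namespace BC

variable {E : Type} (K : BC E)

/-- square summable chains -/
def P2 (x : E → ℂ) : Prop := Summable fun σ => ‖x σ‖ ^ 2

/-- the incidence numbers are bounded in the `ℓ¹`-sense -/
def Bdd : Prop := ∃ b : ℝ, (∀ (ρ : E) (F : Finset E), ∑ σ ∈ F, |(K.inc σ ρ : ℝ)| ≤ b) ∧
  ∀ (σ : E) (F : Finset E), ∑ ρ ∈ F, |(K.inc σ ρ : ℝ)| ≤ b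

lemma P2.sub {x y : E → ℂ} (hx : P2 x) (hy : P2 y) : P2 (x - y) := by
  refine Summable.of_nonneg_of_le (fun _ => sq_nonneg _) (fun σ => ?_)
    ((hx.mul_left 2).add (hy.mul_left 2))
  have h1 : ‖(x - y) σ‖ ≤ ‖x σ‖ + ‖y σ‖ := norm_sub_le _ _
  have h2 := pow_le_pow_left₀ (norm_nonneg _) h1 2
  nlinarith [sq_nonneg (‖x σ‖ - ‖y σ‖)]

lemma P2.ind {x : E → ℂ} (s : Set E) (hx : P2 x) : P2 (s.indicator x) := by
  refine Summable.of_nonneg_of_le (fun _ => sq_nonneg _) (fun σ => ?_) hx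
  exact pow_le_pow_left₀ (norm_nonneg _) (norm_indicator_le_norm_self _ _) 2

theorem adm_P2 (hK : K.Bdd) : K.Adm P2 := by
  classical
  obtain ⟨b, hb1, hb2⟩ := hK
  constructor
  · exact fun x y hx hy => hx.sub hy
  · exact fun s x hx => hx.ind s
  · intro x hx
    by_cases hE : Nonempty E
    · obtain ⟨e⟩ := hE
      have hb : 0 ≤ b := by simpa using hb1 e ∅
      refine schur K.cofS (fun σ ρ => |(K.inc σ ρ : ℝ)|) (fun _ _ => abs_nonneg _) b hb
        (fun ρ => hb1 ρ _) (fun σ F _ => hb2 σ F) x _ hx fun ρ => ?_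
      refine (norm_sum_le _ _).trans (Finset.sum_le_sum fun σ _ => ?_)
      rw [norm_mul, Complex.norm_intCast]
    · have : IsEmpty E := not_nonempty_iff.1 hE
      exact summable_empty
  · intro V A F x hx
    by_cases hE : Nonempty E
    · obtain ⟨e⟩ := hE
      have hb : 0 ≤ F.bound := by simpa using F.row_le e ∅
      refine schur F.fibS (fun σ ρ => |(F.mat σ ρ : ℝ)|) (fun _ _ => abs_nonneg _) F.bound hb
        (fun ρ => F.col_le ρ _) (fun σ G _ => F.row_le σ G) x _ hx fun ρ => ?_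
      refine (norm_sum_le _ _).trans (Finset.sum_le_sum fun σ _ => ?_)
      rw [norm_mul, Complex.norm_intCast]
    · have : IsEmpty E := not_nonempty_iff.1 hE
      exact summable_empty

/-- finitely supported integral chains -/
def P0 (x : E → ℤ) : Prop := (Function.support x).Finite

/-- the support -/
noncomputable def P0.supp {x : E → ℤ} (hx : P0 x) : Finset E :=
  Set.Finite.toFinset (s := Function.support x) hx

lemma P0.mem_supp {x : E → ℤ} (hx : P0 x) {σ : E} : σ ∈ hx.supp ↔ x σ ≠ 0 := by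
  have h : (Function.support x).Finite := hx
  exact (Set.Finite.mem_toFinset (s := Function.support x) (hs := h) (a := σ))

theorem adm_P0 : K.Adm (R := ℤ) P0 := by
  classical
  constructor
  · intro x y hx hy
    refine (hx.union hy).subset fun σ hσ => ?_
    by_contra hcon
    rw [Set.mem_union, Function.mem_support, Function.mem_support] at hcon
    push Not at hcon
    rw [Function.mem_support, Pi.sub_apply, hcon.1, hcon.2, sub_zero] at hσ
    exact hσ rfl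
  · intro s x hx
    exact hx.subset (Set.support_indicator.le.trans Set.inter_subset_right)
  · intro x hx
    refine (hx.biUnion fun σ _ => K.fac σ).subset fun ρ hρ => ?_
    obtain ⟨σ, h1, h2⟩ := K.bd_ne hρ
    exact Set.mem_biUnion h2 h1
  · intro V A F x hx
    refine (hx.biUnion fun σ _ => F.row_fin σ).subset fun ρ hρ => ?_
    obtain ⟨σ, h1, h2⟩ := F.push_ne hρ
    exact Set.mem_biUnion h2 h1

/-- the augmentation of a chain -/
noncomputable def eps (x : E → ℤ) : ℤ := ∑ᶠ σ, x σ * K.aug σ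

lemma eps_eq {x : E → ℤ} (s : Finset E) (hs : ∀ σ, x σ ≠ 0 → σ ∈ s) :
    K.eps x = ∑ σ ∈ s, x σ * K.aug σ := by
  rw [eps, finsum_eq_sum_of_support_subset]
  intro σ hσ
  rw [Function.mem_support] at hσ
  exact hs σ fun h => hσ (by rw [h, zero_mul])

lemma eps_sub {x y : E → ℤ} (hx : P0 x) (hy : P0 y) : K.eps (x - y) = K.eps x - K.eps y := by
  classical
  rw [K.eps_eq (x := x) (hx.supp ∪ hy.supp) fun σ h =>
      Finset.mem_union_left _ (hx.mem_supp.2 h),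
    K.eps_eq (x := y) (hx.supp ∪ hy.supp) fun σ h =>
      Finset.mem_union_right _ (hy.mem_supp.2 h),
    K.eps_eq (x := x - y) (hx.supp ∪ hy.supp), ← Finset.sum_sub_distrib]
  · exact Finset.sum_congr rfl fun σ _ => by rw [Pi.sub_apply]; ring
  · intro σ hσ
    rw [Finset.mem_union, hx.mem_supp, hy.mem_supp]
    by_contra hcon
    push Not at hcon
    rw [Pi.sub_apply, hcon.1, hcon.2, sub_zero] at hσ
    exact hσ rfl

lemma Retr.eps_push {K : BC E} {V A : Set E} (F : K.Retr V A) {x : E → ℤ} (hx : P0 x)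
    (hxV : K.InV V 0 x) : K.eps (F.push x) = K.eps x := by
  classical
  set S : Finset E := hx.supp with hS
  have hSm : ∀ σ, x σ ≠ 0 → σ ∈ S := fun σ h => hx.mem_supp.2 h
  rw [K.eps_eq S hSm, K.eps_eq (x := F.push x) (S.biUnion F.imS)]
  · have h1 : ∀ τ ∈ S.biUnion F.imS, F.push x τ * K.aug τ =
        ∑ σ ∈ S, F.mat σ τ * x σ * K.aug τ := by
      intro τ _
      rw [F.push_eq x τ S fun ρ _ h => hSm ρ h, Finset.sum_mul]
      rfl
    rw [Finset.sum_congr rfl h1, Finset.sum_comm]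
    refine Finset.sum_congr rfl fun σ hσ => ?_
    have h6 : x σ ≠ 0 := hx.mem_supp.1 hσ
    obtain ⟨h7, h8⟩ := hxV σ h6
    rw [← F.aug_eq σ h7 h8, finsum_eq_sum_of_support_subset (s := S.biUnion F.imS), Finset.mul_sum]
    · exact Finset.sum_congr rfl fun τ _ => by ring
    · intro τ hτ
      rw [Function.mem_support] at hτ
      exact Finset.mem_coe.2 (Finset.mem_biUnion.2 ⟨σ, hσ, F.mem_imS.2 fun h => hτ (by
        rw [h, zero_mul])⟩)
  · intro τ hτ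
    obtain ⟨ρ, h3, h4⟩ := F.push_ne hτ
    exact Finset.mem_biUnion.2 ⟨ρ, hSm ρ h4, F.mem_imS.2 h3⟩

/-- there is a chain of degree `0` in `V` with augmentation `1` -/
def Aug1 (V : Set E) : Prop := ∃ x : E → ℤ, P0 x ∧ K.InV V 0 x ∧ K.eps x = 1

theorem step_aug {V W : Set E} (h : K.Splits V W) (h1 : K.Ex P0 K.eps V 0) (h2 : K.Aug1 V)
    (hbe : ∀ y : E → ℤ, P0 y → K.InV Set.univ 1 y → K.eps (K.bd y) = 0) : K.Aug1 W := by
  obtain ⟨A, B, hA, hB, hAB, hW, ⟨F⟩, ⟨G⟩⟩ := h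
  have hAV : A ⊆ V := hAB ▸ Set.subset_union_left
  have hBV : B ⊆ V := hAB ▸ Set.subset_union_right
  obtain ⟨v, hv, hvV, hv1⟩ := h2
  have hadm := K.adm_P0
  have hF := hadm.push _ _ F _ hv
  have hG := hadm.push _ _ G _ hv
  obtain ⟨w, hw, hwV, hwz⟩ := h1 (F.push v - G.push v) (hadm.sub _ _ hF hG)
    (K.inV_sub (K.inV_mono hAV (F.inV_push hvV)) (K.inV_mono hBV (G.inV_push hvV)))
    (by
      funext ρ
      by_contra hne
      obtain ⟨σ, h3, h4⟩ := K.bd_ne hne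
      have h5 := K.inV_sub (K.inV_mono hAV (F.inV_push hvV)) (K.inV_mono hBV (G.inV_push hvV)) σ h4
      have h6 := K.dim_inc σ ρ h3
      omega)
    (fun _ => by rw [K.eps_sub hF hG, F.eps_push hv hvV, G.eps_push hv hvV, sub_self])
  set wA : E → ℤ := A.indicator w with hwA
  have hwA1 : K.InV A (0 + 1) wA := by
    intro σ hσ
    rw [hwA] at hσ
    have h3 : σ ∈ A := by
      by_contra h3; exact hσ (Set.indicator_of_notMem h3 w)
    rw [Set.indicator_of_mem h3] at hσ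
    exact ⟨h3, (hwV σ hσ).2⟩
  have hwB1 : K.InV B (0 + 1) (w - wA) := by
    intro σ hσ
    have h3 : σ ∉ A := by
      intro h3
      apply hσ
      rw [Pi.sub_apply, hwA, Set.indicator_of_mem h3, sub_self]
    rw [Pi.sub_apply, hwA, Set.indicator_of_notMem h3, sub_zero] at hσ
    obtain ⟨h4, h5⟩ := hwV σ hσ
    rw [← hAB] at h4
    exact ⟨h4.resolve_left h3, h5⟩
  have hwAP : P0 wA := hadm.ind _ _ hw
  refine ⟨F.push v - K.bd wA, hadm.sub _ _ hF (hadm.bd _ hwAP), ?_, ?_⟩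
  · have e1 : K.InV A 0 (F.push v - K.bd wA) :=
      K.inV_sub (F.inV_push hvV) (K.inV_bd hA hwA1)
    have e2 : F.push v - K.bd wA = G.push v + K.bd (w - wA) := by
      rw [bd_sub, hwz]; abel
    have e3 : K.InV B 0 (F.push v - K.bd wA) := by
      rw [e2]
      have := K.inV_sub (G.inV_push hvV) (x := G.push v) (y := - K.bd (w - wA)) (fun σ hσ => by
        rw [Pi.neg_apply, neg_ne_zero] at hσ
        exact K.inV_bd hB hwB1 σ hσ)
      rwa [sub_neg_eq_add] at this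
    intro σ hσ
    rw [← hW]
    exact ⟨⟨(e1 σ hσ).1, (e3 σ hσ).1⟩, (e1 σ hσ).2⟩
  · rw [K.eps_sub hF (hadm.bd _ hwAP), F.eps_push hv hvV, hv1,
      hbe wA hwAP (K.inV_mono (Set.subset_univ _) hwA1), sub_zero]

theorem retr_aug {V A : Set E} (F : K.Retr V A) (h2 : K.Aug1 V) : K.Aug1 A := by
  obtain ⟨v, hv, hvV, hv1⟩ := h2
  exact ⟨F.push v, K.adm_P0.push _ _ F _ hv, F.inV_push hvV, by rw [F.eps_push hv hvV, hv1]⟩

theorem iter_aug {k : ℕ} {V : Set E} (h : K.Iter k V) (h1 : ∀ j, K.Ex P0 K.eps Set.univ j)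
    (h2 : K.Aug1 Set.univ)
    (hbe : ∀ y : E → ℤ, P0 y → K.InV Set.univ 1 y → K.eps (K.bd y) = 0) : K.Aug1 V := by
  induction h with
  | zero => exact h2
  | retr k V A _ _ _ F ih =>
    obtain ⟨F⟩ := F
    exact K.retr_aug F ih
  | succ k V W hV hs ih =>
    exact K.step_aug hs (K.iter K.adm_P0 K.eps hV 0 (fun j _ => h1 j) 0 le_rfl) ih hbe

end BC

end Pool.Agent.Helper81K9.W
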