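import Pool.Agent.Helper81K9.WallB
import Pool.Agent.R778.ZSFinal
import Pool.Agent.TH38.ZT.Gen

/-!
The based complex of the cells of the universal cover, and the exactness of the complexes of
finitely supported and of square summable chains.
-/

set_option autoImplicit false
set_option linter.unusedSectionVars false

open scoped Matrix ENNReal

namespace Pool.Agent.Helper81K9.W

open Pool.Agent.H919R4.ZS
open Pool.Agent.R778.ZS (Cell Bas bmat inc dim symB finite_nb bnorm row_bound dim_of_inc col_sum comp vecMul_bmat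
  bmat_mul_bmat)
open Pool.Agent.TH38.ZT (ExAt)

variable {G : Type} [Group G]

lemma coeff_mul' (a b : MonoidAlgebra ℤ G) (h : G) :
    (a * b).coeff h = ∑ g ∈ a.coeff.support, a.coeff g * b.coeff (g⁻¹ * h) := by
  conv_lhs => rw [← MonoidAlgebra.sum_coeff_single a]
  rw [Finsupp.sum, Finset.sum_mul, MonoidAlgebra.coeff_sum, Finsupp.finsetSum_apply]
  exact Finset.sum_congr rfl fun g _ => by rw [MonoidAlgebra.coeff_single_mul_apply]

lemma coeff_mul'' (a b : MonoidAlgebra ℤ G) (h : G) :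
    (a * b).coeff h = ∑ g ∈ b.coeff.support, a.coeff (h * g⁻¹) * b.coeff g := by
  conv_lhs => rw [← MonoidAlgebra.sum_coeff_single b]
  rw [Finsupp.sum, Finset.mul_sum, MonoidAlgebra.coeff_sum, Finsupp.finsetSum_apply]
  exact Finset.sum_congr rfl fun g _ => by rw [MonoidAlgebra.coeff_mul_single_apply]

variable (X : FinRes G)

/-- the values of the augmentation on the cells of dimension `0` of the universal cover -/
noncomputable def augC (σ : Cell X) : ℤ :=
  if h : (σ.2.1 : ℕ) = 0 then X.aug (Fin.cast (congrArg X.n h) σ.2.2) else 0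

lemma inc_le_symB (σ ρ : Cell X) : |(inc X σ ρ : ℝ)| ≤ |symB X σ ρ| := by
  by_cases h : inc X σ ρ = 0
  · rw [h]; simp
  · have h2 : inc X ρ σ = 0 := by
      by_contra h2
      have e1 := dim_of_inc h
      have e2 := dim_of_inc h2
      omega
    rw [symB, h2]; simp

lemma symB_symm (σ ρ : Cell X) : symB X σ ρ = symB X ρ σ := add_comm _ _

lemma cof_finite (ρ : Cell X) : {σ | inc X σ ρ ≠ 0}.Finite := by
  refine (finite_nb X ρ).subset fun σ hσ h => hσ ?_
  have h1 := inc_le_symB X σ ρ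
  have h2 : symB X σ ρ = 0 := h
  rw [h2, abs_zero] at h1
  have h3 := abs_nonpos_iff.1 h1
  exact_mod_cast h3

lemma fac_finite (σ : Cell X) : {ρ | inc X σ ρ ≠ 0}.Finite := by
  refine (finite_nb X σ).subset fun ρ hρ h => hρ ?_
  have h1 := inc_le_symB X σ ρ
  have h2 : symB X ρ σ = 0 := h
  rw [symB_symm, h2, abs_zero] at h1
  have h3 := abs_nonpos_iff.1 h1
  exact_mod_cast h3

/-- the boundary of a chain in terms of the boundary matrix, before the based complex is defined -/
lemma bd_explicit {R : Type} [CommRing R] (x : Cell X → R) (a : G) (μ : Bas X) :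
    ∑ σ ∈ (cof_finite X (a, μ)).toFinset, (inc X σ (a, μ) : R) * x σ =
      ∑ κ, ∑ g ∈ (bmat X κ μ).coeff.support, ((bmat X κ μ).coeff g : R) * x (a * g⁻¹, κ) := by
  classical
  set A := (cof_finite X (a, μ)).toFinset with hA
  have hmem : ∀ σ, σ ∈ A ↔ inc X σ (a, μ) ≠ 0 := fun σ => by
    rw [hA, Set.Finite.mem_toFinset]; rfl
  have h := col_sum (bmat X) A (fun z : ℤ => (z : R)) (by simp)
    (fun σ => if σ ∈ A then x σ else 0) (fun σ h => if_neg h) a μ
  have e1 : ∑ σ ∈ A, (inc X σ (a, μ) : R) * x σ =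
      ∑ σ ∈ A, (((bmat X σ.2 μ).coeff (σ.1⁻¹ * a) : ℤ) : R) * (if σ ∈ A then x σ else 0) :=
    Finset.sum_congr rfl fun σ hσ => by rw [if_pos hσ]; rfl
  rw [e1, h]
  refine Finset.sum_congr rfl fun κ _ => Finset.sum_congr rfl fun g hg => ?_
  rw [if_pos]
  rw [hmem]
  change (bmat X κ μ).coeff ((a * g⁻¹)⁻¹ * a) ≠ 0
  have : (a * g⁻¹)⁻¹ * a = g := by group
  rw [this]
  exact Finsupp.mem_support_iff.1 hg

lemma inc_sq (σ τ : Cell X) : ∑ᶠ ρ, inc X σ ρ * inc X ρ τ = 0 := by
  classical
  have h1 := bd_explicit X (fun ρ => inc X σ ρ) τ.1 τ.2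
  rw [finsum_eq_sum_of_support_subset (s := (cof_finite X τ).toFinset)]
  · have h2 : ∑ ρ ∈ (cof_finite X τ).toFinset, inc X σ ρ * inc X ρ τ =
        ∑ ρ ∈ (cof_finite X (τ.1, τ.2)).toFinset, ((inc X ρ (τ.1, τ.2) : ℤ) : ℤ) * inc X σ ρ :=
      Finset.sum_congr rfl fun ρ _ => mul_comm _ _
    simp only [Int.cast_id] at h1
    rw [h2, h1]
    have h3 := congrFun (congrFun (bmat_mul_bmat X) σ.2) τ.2
    rw [Matrix.mul_apply] at h3
    have h4 := congrArg (fun z : MonoidAlgebra ℤ G => z.coeff (σ.1⁻¹ * τ.1)) h3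
    change (∑ κ, bmat X σ.2 κ * bmat X κ τ.2).coeff (σ.1⁻¹ * τ.1) = 0 at h4
    rw [MonoidAlgebra.coeff_sum, Finsupp.finsetSum_apply] at h4
    rw [← h4]
    refine Finset.sum_congr rfl fun κ _ => ?_
    rw [coeff_mul'']
    refine Finset.sum_congr rfl fun g _ => ?_
    rw [mul_comm]
    congr 1
    change (bmat X σ.2 κ).coeff (σ.1⁻¹ * (τ.1 * g⁻¹)) = _
    rw [mul_assoc]
  · intro ρ hρ
    rw [Function.mem_support] at hρ
    rw [Set.Finite.coe_toFinset]
    intro h
    exact hρ (by rw [h, mul_zero])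

/-- the based complex of the cells of the universal cover -/
noncomputable def cellBC : BC (Cell X) where
  dim := dim
  inc := inc X
  aug := augC X
  cof := cof_finite X
  fac := fac_finite X
  dim_inc := fun _ _ h => dim_of_inc h
  sq := inc_sq X

lemma cellBC_bd {R : Type} [CommRing R] (x : Cell X → R) (a : G) (μ : Bas X) :
    (cellBC X).bd x (a, μ) =
      ∑ κ, ∑ g ∈ (bmat X κ μ).coeff.support, ((bmat X κ μ).coeff g : R) * x (a * g⁻¹, κ) :=
  bd_explicit X x a μ

lemma cellBC_bdd : (cellBC X).Bdd := by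
  refine ⟨2 * bnorm X, fun ρ F => ?_, fun σ F => ?_⟩
  · calc ∑ σ ∈ F, |((cellBC X).inc σ ρ : ℝ)| ≤ ∑ σ ∈ F, |symB X ρ σ| :=
          Finset.sum_le_sum fun σ _ => by
            rw [symB_symm]; exact inc_le_symB X σ ρ
      _ ≤ _ := row_bound X ρ F
  · calc ∑ ρ ∈ F, |((cellBC X).inc σ ρ : ℝ)| ≤ ∑ ρ ∈ F, |symB X σ ρ| :=
          Finset.sum_le_sum fun ρ _ => inc_le_symB X σ ρ
      _ ≤ _ := row_bound X σ F

section total

variable {S : Type} [Ring S] (φ : MonoidAlgebra ℤ G →+* S)

/-- the total boundary matrix -/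
noncomputable abbrev DD : Matrix (Bas X) (Bas X) S := (Matrix.of (bmat X)).map φ

/-- homogeneous vectors -/
def Hom (n : ℕ) (a : Bas X → S) : Prop := ∀ κ, a κ ≠ 0 → (κ.1 : ℕ) = n

lemma lift_comp (n : ℕ) (a : Bas X → S) (ha : Hom X n a) (y : Fin (X.n (n + 1)) → S)
    (hy : y ᵥ* (X.d n).map φ = comp X a n) (hn : n ≤ X.len) :
    ∃ b : Bas X → S, Hom X (n + 1) b ∧ b ᵥ* DD X φ = a := by
  let b : Bas X → S := fun κ => if h : (κ.1 : ℕ) = n + 1 then y (Fin.cast (congrArg X.n h) κ.2) else 0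
  refine ⟨b, fun κ hκ => ?_, ?_⟩
  · by_contra h
    exact hκ (dif_neg h)
  · funext ⟨i, l⟩
    rw [vecMul_bmat]
    by_cases hi : (i : ℕ) = n
    · subst hi
      have e : comp X b (i + 1) = y := by
        funext j
        by_cases h3 : (i : ℕ) + 1 < X.len + 1
        · rw [comp, dif_pos h3]
          change (if h : (i : ℕ) + 1 = i + 1 then y (Fin.cast (congrArg X.n h) j) else 0) = y j
          rw [dif_pos rfl]
          rfl
        · have hn : X.n (i + 1) = 0 := X.n_eq_zero _ (by omega)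
          exact absurd j.2 (by omega)
      rw [e, hy, comp, dif_pos i.2]
    · have e : comp X b (i + 1) = 0 := by
        funext j
        rw [comp]
        split_ifs with h3
        · change (if h : (i : ℕ) + 1 = n + 1 then y (Fin.cast (congrArg X.n h) j) else 0) = 0
          rw [dif_neg (by omega)]
        · rfl
      rw [e, Matrix.zero_vecMul]
      by_contra hne
      exact hi (ha ⟨i, l⟩ fun h => hne (by rw [h]; rfl))

lemma comp_cyc (i : ℕ) (a : Bas X → S) (h : a ᵥ* DD X φ = 0) (hi : i < X.len + 1) :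
    comp X a (i + 1) ᵥ* (X.d i).map φ = 0 := by
  funext l
  have := vecMul_bmat X φ a ⟨i, hi⟩ l
  rw [h] at this
  exact this.symm

/-- homogeneous exactness of the total complex -/
def HEx (n : ℕ) : Prop := ∀ a : Bas X → S, Hom X n a → a ᵥ* DD X φ = 0 →
  ∃ b : Bas X → S, Hom X (n + 1) b ∧ b ᵥ* DD X φ = a

lemma hex_of_exAt (n : ℕ) (h : ExAt X φ n) : HEx X φ n := by
  intro a ha h0
  by_cases hn : n ≤ X.len
  · cases n with
    | zero =>
      obtain ⟨y, hy⟩ := h (comp X a 0)
      exact lift_comp X φ 0 a ha y hy hn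
    | succ i =>
      obtain ⟨y, hy⟩ := h (comp X a (i + 1)) (comp_cyc X φ i a h0 (by omega))
      exact lift_comp X φ (i + 1) a ha y hy hn
  · refine ⟨0, fun κ h => absurd rfl h, ?_⟩
    rw [Matrix.zero_vecMul]
    funext κ
    by_contra hne
    have := ha κ fun h => hne (by rw [h]; rfl)
    have := κ.1.2
    omega

lemma dd_hom (κ μ : Bas X) (h : DD X φ κ μ ≠ 0) : (κ.1 : ℕ) = μ.1 + 1 := by
  by_contra hne
  apply h
  rw [DD, Matrix.map_apply, Matrix.of_apply, bmat, dif_neg hne, map_zero]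

lemma dd_dd : DD X φ * DD X φ = 0 := Pool.Agent.R778.ZS.map_bmat_mul X φ

theorem partial_contraction (m : ℕ) (hex : ∀ n ≤ m, HEx X φ n) :
    ∃ s : Matrix (Bas X) (Bas X) S, (∀ κ, Hom X (κ.1 + 1) (s κ)) ∧
      ∀ κ : Bas X, (κ.1 : ℕ) ≤ m → (DD X φ * s + s * DD X φ) κ = (1 : Matrix (Bas X) (Bas X) S) κ := by
  classical
  have key : ∀ n ≤ m + 1, ∃ s : Matrix (Bas X) (Bas X) S, (∀ κ, Hom X (κ.1 + 1) (s κ)) ∧
      ∀ κ : Bas X, (κ.1 : ℕ) < n →
        (DD X φ * s + s * DD X φ) κ = (1 : Matrix (Bas X) (Bas X) S) κ := by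
    intro n
    induction n with
    | zero =>
      exact fun _ => ⟨0, fun κ μ h => absurd rfl h, fun κ h => absurd h (Nat.not_lt_zero _)⟩
    | succ n ih =>
      intro hn
      obtain ⟨s, hsh, hs⟩ := ih (by omega)
      have hDD := dd_dd X φ
      have hcyc : ∀ κ : Bas X, (κ.1 : ℕ) = n →
          ((1 : Matrix (Bas X) (Bas X) S) κ - (DD X φ * s) κ) ᵥ* DD X φ = 0 := by
        intro κ hκ
        have e1 : (DD X φ * (s * DD X φ)) κ = DD X φ κ := by
          have e2 : (DD X φ * (s * DD X φ)) κ = (DD X φ * (1 - DD X φ * s)) κ := by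
            funext ν
            rw [Matrix.mul_apply, Matrix.mul_apply]
            refine Finset.sum_congr rfl fun μ _ => ?_
            by_cases h : DD X φ κ μ = 0
            · rw [h, zero_mul, zero_mul]
            · have h1 := dd_hom X φ κ μ h
              have h2 := hs μ (by omega)
              have h3 := congrFun h2 ν
              rw [Matrix.add_apply] at h3
              rw [Matrix.sub_apply, ← h3, add_sub_cancel_left]
          rw [e2, Matrix.mul_sub, Matrix.mul_one, ← Matrix.mul_assoc, hDD, Matrix.zero_mul,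
            sub_zero]
        rw [Matrix.sub_vecMul, ← Matrix.mul_apply_eq_vecMul, ← Matrix.mul_apply_eq_vecMul,
          Matrix.one_mul, Matrix.mul_assoc, e1, sub_self]
      have hhom : ∀ κ : Bas X, (κ.1 : ℕ) = n →
          Hom X n ((1 : Matrix (Bas X) (Bas X) S) κ - (DD X φ * s) κ) := by
        intro κ hκ μ hμ
        by_contra hne
        apply hμ
        rw [Pi.sub_apply, Matrix.one_apply_ne (fun h => hne (by rw [← h, hκ])), zero_sub,
          neg_eq_zero, Matrix.mul_apply]
        refine Finset.sum_eq_zero fun ν _ => ?_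
        by_cases h : DD X φ κ ν = 0
        · rw [h, zero_mul]
        · have h1 := dd_hom X φ κ ν h
          by_cases h2 : s ν μ = 0
          · rw [h2, mul_zero]
          · exact absurd (hsh ν μ h2) (by omega)
      choose y hyh hy using fun κ (h : (κ.1 : ℕ) = n) =>
        hex n (by omega) _ (hhom κ h) (hcyc κ h)
      set s' : Matrix (Bas X) (Bas X) S := fun κ => if h : (κ.1 : ℕ) = n then y κ h else s κ with hs'
      have hlt : ∀ κ : Bas X, (κ.1 : ℕ) < n → s' κ = s κ := fun κ h => dif_neg h.ne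
      have hDs : ∀ κ : Bas X, (κ.1 : ℕ) ≤ n → (DD X φ * s') κ = (DD X φ * s) κ := by
        intro κ hκ
        funext ν
        rw [Matrix.mul_apply, Matrix.mul_apply]
        refine Finset.sum_congr rfl fun μ _ => ?_
        by_cases h : DD X φ κ μ = 0
        · rw [h, zero_mul, zero_mul]
        · have h1 := dd_hom X φ κ μ h
          rw [hlt μ (by omega)]
      refine ⟨s', fun κ => ?_, fun κ hκ => ?_⟩
      · by_cases h : (κ.1 : ℕ) = n
        · have : s' κ = y κ h := dif_pos h
          rw [this, h]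
          exact hyh κ h
        · have : s' κ = s κ := dif_neg h
          rw [this]
          exact hsh κ
      · have e0 : (DD X φ * s' + s' * DD X φ) κ = (DD X φ * s') κ + s' κ ᵥ* DD X φ := by
          rw [← Matrix.mul_apply_eq_vecMul]; rfl
        rw [e0, hDs κ (Nat.lt_succ_iff.1 hκ)]
        rcases Nat.lt_succ_iff_lt_or_eq.1 hκ with h | h
        · rw [hlt κ h, ← hs κ h, ← Matrix.mul_apply_eq_vecMul]; rfl
        · have : s' κ = y κ h := dif_pos h
          rw [this, hy κ h]
          exact add_sub_cancel _ _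
  obtain ⟨s, h1, h2⟩ := key (m + 1) le_rfl
  exact ⟨s, h1, fun κ hκ => h2 κ (Nat.lt_succ_iff.2 hκ)⟩

end total

end Pool.Agent.Helper81K9.W
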