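import Pool.Agent.Helper81K9.WallC
import Pool.Agent.R778.Par2

/-!
The exactness of the complexes of square summable and of finitely supported chains of the universal
cover.
-/

set_option autoImplicit false
set_option linter.unusedSectionVars false

open scoped Matrix ENNReal

namespace Pool.Agent.Helper81K9.W

open Pool.Agent.H919R4.ZS
open Pool.Agent.R778.ZS (Cell Bas bmat inc dim symB finite_nb bnorm row_bound dim_of_inc col_sum comp vecMul_bmat
  bmat_mul_bmat)
open Pool.Agent.TH38.ZT (ExAt)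

variable {G : Type} [Group G] (X : FinRes G)

lemma memlp_iff_summable {ι : Type} (f : ι → ℂ) : Memℓp f 2 ↔ Summable fun i => ‖f i‖ ^ 2 := by
  have h4 : (2 : ENNReal).toReal = ((2 : ℕ) : ℝ) := by norm_num
  rw [memℓp_gen_iff (by norm_num)]
  simp only [h4, Real.rpow_natCast]

lemma P2_iff (x : Cell X → ℂ) : BC.P2 x ↔ ∀ κ : Bas X, Memℓp (fun h : G => x (h⁻¹, κ)) 2 := by
  constructor
  · intro h κ
    rw [memlp_iff_summable]
    exact h.comp_injective (i := fun h : G => ((h⁻¹, κ) : Cell X)) fun a b hab =>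
      inv_injective (congrArg Prod.fst hab)
  · intro h
    have h1 : ∀ κ : Bas X, Summable fun g : G => ‖x (g, κ)‖ ^ 2 := by
      intro κ
      have h2 := (memlp_iff_summable _).1 (h κ)
      have h3 := h2.comp_injective (i := fun g : G => g⁻¹) inv_injective
      refine h3.congr fun g => ?_
      change ‖x (g⁻¹⁻¹, κ)‖ ^ 2 = _
      rw [inv_inv]
    have h2 : Summable ((fun σ => ‖x σ‖ ^ 2) ∘ (Equiv.prodComm (Bas X) G)) := by
      rw [summable_prod_of_nonneg]
      · exact ⟨h1, (hasSum_fintype _).summable⟩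
      · intro σ
        exact sq_nonneg _
    exact (Equiv.prodComm (Bas X) G).summable_iff.1 h2

/-- the transposed action of a matrix of operators on tuples -/
noncomputable def ca (M : Matrix (Bas X) (Bas X) (L2 G →L[ℂ] L2 G)) (v : Bas X → L2 G) :
    Bas X → L2 G := fun μ => ∑ κ, ContinuousLinearMap.adjoint (M κ μ) (v κ)

lemma ca_mul (M N : Matrix (Bas X) (Bas X) (L2 G →L[ℂ] L2 G)) (v : Bas X → L2 G) :
    ca X (M * N) v = ca X N (ca X M v) := by
  funext μ
  simp only [ca, Matrix.mul_apply, map_sum, sum_apply]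
  rw [Finset.sum_comm]
  refine Finset.sum_congr rfl fun κ _ => Finset.sum_congr rfl fun ν _ => ?_
  change ContinuousLinearMap.adjoint ((M ν κ).comp (N κ μ)) (v ν) = _
  rw [ContinuousLinearMap.adjoint_comp]
  rfl

lemma ca_add (M N : Matrix (Bas X) (Bas X) (L2 G →L[ℂ] L2 G)) (v : Bas X → L2 G) :
    ca X (M + N) v = ca X M v + ca X N v := by
  funext μ
  simp only [ca, Matrix.add_apply, map_add, add_apply, Pi.add_apply, Finset.sum_add_distrib]

/-- square summable chains as tuples of square summable functions -/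
noncomputable def tup (x : Cell X → ℂ) (hx : BC.P2 x) (κ : Bas X) : L2 G :=
  ⟨fun h => x (h⁻¹, κ), (P2_iff X x).1 hx κ⟩

lemma tup_apply (x : Cell X → ℂ) (hx : BC.P2 x) (κ : Bas X) (h : G) :
    tup X x hx κ h = x (h⁻¹, κ) := rfl

/-- tuples of square summable functions as chains -/
noncomputable def unt (v : Bas X → L2 G) (σ : Cell X) : ℂ := v σ.2 σ.1⁻¹

lemma unt_P2 (v : Bas X → L2 G) : BC.P2 (unt X v) := by
  rw [P2_iff]
  intro κ
  have h : (fun h : G => unt X v (h⁻¹, κ)) = fun h => v κ h := by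
    funext h
    change v κ h⁻¹⁻¹ = _
    rw [inv_inv]
  rw [h]
  exact lp.memℓp (v κ)

lemma unt_tup (x : Cell X → ℂ) (hx : BC.P2 x) : unt X (tup X x hx) = x := by
  funext σ
  change x (σ.1⁻¹⁻¹, σ.2) = x σ
  rw [inv_inv]

lemma ca_DD (v : Bas X → L2 G) (a : G) (μ : Bas X) :
    ca X (DD X L) v μ a⁻¹ = (cellBC X).bd (unt X v) (a, μ) := by
  rw [cellBC_bd, ca, lp.coeFn_sum, Finset.sum_apply]
  refine Finset.sum_congr rfl fun κ _ => ?_
  rw [DD, Matrix.map_apply, Matrix.of_apply, Pool.Agent.R778.ZS.adjoint_L_apply]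
  refine Finset.sum_congr rfl fun g _ => ?_
  rw [unt, mul_inv_rev, inv_inv]

theorem ex_univ_of_exAt (m : ℕ) (h : ∀ j ≤ m, ExAt X (toRed G) j) :
    ∀ j ≤ m, (cellBC X).Ex BC.P2 (fun _ => 0) Set.univ j := by
  classical
  intro j hj x hx hxj hx0 _
  obtain ⟨s, -, hs⟩ := partial_contraction X (toRed G) m fun n hn => hex_of_exAt X _ n (h n hn)
  set s' : Matrix (Bas X) (Bas X) (L2 G →L[ℂ] L2 G) := s.map (valR (G := G)) with hs'
  have hD : DD X (L (G := G)) = (DD X (toRed G)).map (valR (G := G)) := by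
    refine funext fun κ => funext fun μ => ?_
    exact (coe_toRed (bmat X κ μ)).symm
  have hrow : ∀ κ μ : Bas X, (κ.1 : ℕ) ≤ m → (DD X L * s' + s' * DD X L) κ μ =
      (1 : Matrix (Bas X) (Bas X) (L2 G →L[ℂ] L2 G)) κ μ := by
    intro κ μ hκ
    rw [hD, hs', ← Matrix.map_mul, ← Matrix.map_mul, ← Matrix.map_add _ (map_add _),
      Matrix.map_apply]
    have h9 : (DD X (toRed G) * s + s * DD X (toRed G)) κ μ =
        (1 : Matrix (Bas X) (Bas X) (RedC G)) κ μ := congrFun (hs κ hκ) μ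
    refine (congrArg (valR (G := G)) h9).trans ?_
    by_cases hkm : κ = μ
    · subst hkm; simp
    · rw [Matrix.one_apply_ne hkm, Matrix.one_apply_ne hkm, map_zero]
  set v := tup X x hx with hv
  have hv0 : ∀ κ : Bas X, (κ.1 : ℕ) ≠ j → v κ = 0 := by
    intro κ hκ
    refine lp.ext (funext fun a => ?_)
    rw [hv, tup_apply]
    by_contra hne
    exact hκ (hxj _ hne).2
  have h1 : ca X (DD X L * s' + s' * DD X L) v = v := by
    funext μ
    rw [ca, Finset.sum_eq_single μ]
    · by_cases hμ : (μ.1 : ℕ) = j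
      · rw [hrow μ μ (by omega), Matrix.one_apply_eq]
        change ContinuousLinearMap.adjoint (ContinuousLinearMap.id ℂ (L2 G)) (v μ) = v μ
        rw [ContinuousLinearMap.adjoint_id]
        rfl
      · rw [hv0 μ hμ, map_zero]
    · intro κ _ hne
      by_cases hκ : (κ.1 : ℕ) = j
      · rw [hrow κ μ (by omega), Matrix.one_apply_ne hne, map_zero]
        rfl
      · rw [hv0 κ hκ, map_zero]
    · intro h2; exact absurd (Finset.mem_univ _) h2
  have hbd0 : ca X (DD X L) v = 0 := by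
    funext μ
    refine lp.ext (funext fun a => ?_)
    have h2 := ca_DD X v a⁻¹ μ
    rw [inv_inv] at h2
    rw [h2, hv, unt_tup, hx0]
    rfl
  rw [ca_add, ca_mul, ca_mul, hbd0] at h1
  have h2 : ca X s' (0 : Bas X → L2 G) = 0 := by
    funext μ
    simp [ca]
  rw [h2, zero_add] at h1
  set w := ca X s' v with hw
  have h3 : (cellBC X).bd (unt X w) = x := by
    funext ⟨a, μ⟩
    rw [← ca_DD, h1, hv, tup_apply, inv_inv]
  refine ⟨({σ | dim σ = j + 1} : Set (Cell X)).indicator (unt X w), (unt_P2 X w).ind _, ?_, ?_⟩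
  · intro σ hσ
    refine ⟨Set.mem_univ _, ?_⟩
    by_contra h4
    have h5 : σ ∉ ({σ | dim σ = j + 1} : Set (Cell X)) := h4
    exact hσ (Set.indicator_of_notMem h5 _)
  · funext ρ
    by_cases hρ : dim ρ = j
    · rw [← h3]
      refine Finset.sum_congr rfl fun σ hσ => ?_
      rw [BC.mem_cofS] at hσ
      have h4 : dim σ = dim ρ + 1 := dim_of_inc hσ
      rw [Set.indicator_of_mem (show σ ∈ {σ | dim σ = j + 1} from by rw [← hρ]; exact h4)]
    · have h4 : x ρ = 0 := by
        by_contra h4; exact hρ (hxj _ h4).2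
      rw [h4]
      refine Finset.sum_eq_zero fun σ hσ => ?_
      rw [BC.mem_cofS] at hσ
      have h5 : dim σ = dim ρ + 1 := dim_of_inc hσ
      rw [Set.indicator_of_notMem, mul_zero]
      intro h6
      have h7 : dim σ = j + 1 := h6
      omega

/-! ### integral chains -/

/-- the chain of a vector over the group ring -/
noncomputable def chn (a : Bas X → MonoidAlgebra ℤ G) (σ : Cell X) : ℤ := (a σ.2).coeff σ.1

/-- the vector over the group ring of a finitely supported chain -/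
noncomputable def vec (x : Cell X → ℤ) (hx : BC.P0 x) (κ : Bas X) : MonoidAlgebra ℤ G :=
  .ofCoeff (Finsupp.ofSupportFinite (fun g => x (g, κ))
    (Set.Finite.preimage (f := fun g => ((g, κ) : Cell X))
      (Function.Injective.injOn fun _ _ h => congrArg Prod.fst h) hx))

lemma chn_vec (x : Cell X → ℤ) (hx : BC.P0 x) : chn X (vec X x hx) = x := rfl

lemma chn_P0 (a : Bas X → MonoidAlgebra ℤ G) : BC.P0 (chn X a) := by
  classical
  have h : Function.support (chn X a) ⊆
      ⋃ κ : Bas X, (fun g => ((g, κ) : Cell X)) '' ((a κ).coeff.support : Set G) := by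
    rintro ⟨g, κ⟩ hσ
    refine Set.mem_iUnion.2 ⟨κ, g, ?_, rfl⟩
    exact Finset.mem_coe.2 (Finsupp.mem_support_iff.2 hσ)
  exact Set.Finite.subset (Set.finite_iUnion fun κ => Set.Finite.image _ (Finset.finite_toSet _)) h

lemma chn_bd (a : Bas X → MonoidAlgebra ℤ G) :
    (cellBC X).bd (chn X a) = chn X (a ᵥ* DD X (RingHom.id (MonoidAlgebra ℤ G))) := by
  funext ⟨h, μ⟩
  rw [cellBC_bd]
  change _ = (∑ κ, a κ * bmat X κ μ).coeff h
  rw [MonoidAlgebra.coeff_sum, Finsupp.finsetSum_apply]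
  refine Finset.sum_congr rfl fun κ _ => ?_
  rw [coeff_mul'']
  exact Finset.sum_congr rfl fun g _ => mul_comm _ _

lemma chn_inj {a b : Bas X → MonoidAlgebra ℤ G} (h : chn X a = chn X b) : a = b := by
  funext κ
  exact MonoidAlgebra.coeff_injective (Finsupp.ext fun g => congrFun h (g, κ))

lemma chn_hom {n : ℕ} {a : Bas X → MonoidAlgebra ℤ G} (h : Hom X n a) :
    (cellBC X).InV Set.univ n (chn X a) := by
  rintro ⟨g, κ⟩ hσ
  refine ⟨Set.mem_univ _, h κ fun h2 => hσ ?_⟩
  change (a κ).coeff g = 0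
  rw [h2]; rfl

lemma hom_of_chn {n : ℕ} {a : Bas X → MonoidAlgebra ℤ G}
    (h : (cellBC X).InV Set.univ n (chn X a)) : Hom X n a := by
  intro κ hκ
  obtain ⟨g, hg⟩ : ∃ g, (a κ).coeff g ≠ 0 := by
    by_contra hcon
    push Not at hcon
    exact hκ (MonoidAlgebra.coeff_injective (Finsupp.ext fun g => hcon g))
  exact (h (g, κ) hg).2

lemma eps_chn (a : Bas X → MonoidAlgebra ℤ G) :
    (cellBC X).eps (chn X a) = ∑ j, augm G (comp X a 0 j) * X.aug j := by
  classical
  set T : Finset G := Finset.univ.biUnion (fun κ => (a κ).coeff.support) with hT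
  have hsub : ∀ σ, chn X a σ ≠ 0 → σ ∈ T ×ˢ (Finset.univ : Finset (Bas X)) := by
    rintro ⟨g, κ⟩ hσ
    exact Finset.mem_product.2 ⟨Finset.mem_biUnion.2 ⟨κ, Finset.mem_univ _,
      Finsupp.mem_support_iff.2 hσ⟩, Finset.mem_univ _⟩
  rw [(cellBC X).eps_eq _ hsub, Finset.sum_product_right, Fintype.sum_sigma,
    Finset.sum_eq_single (⟨0, Nat.succ_pos _⟩ : Fin (X.len + 1))]
  · refine Finset.sum_congr rfl fun j _ => ?_
    rw [Pool.Agent.R778.ZS.augm_eq]
    have h2 : ∑ g ∈ (comp X a 0 j).coeff.support, (comp X a 0 j).coeff g =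
        ∑ g ∈ T, (comp X a 0 j).coeff g := by
      refine Finset.sum_subset ?_ ?_
      · intro g hg
        exact Finset.mem_biUnion.2 ⟨_, Finset.mem_univ _, hg⟩
      · intro g _ hg
        exact Finsupp.notMem_support_iff.1 hg
    rw [h2, Finset.sum_mul]
    refine Finset.sum_congr rfl fun g _ => ?_
    rfl
  · intro b _ hb
    refine Finset.sum_eq_zero fun j _ => Finset.sum_eq_zero fun g _ => ?_
    have h3 : (cellBC X).aug (g, ⟨b, j⟩) = 0 := by
      change augC X (g, ⟨b, j⟩) = 0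
      rw [augC, dif_neg]
      intro h
      exact hb (Fin.ext h)
    rw [h3, mul_zero]
  · intro h; exact absurd (Finset.mem_univ _) h

lemma comp_cyc_id (i : ℕ) (a : Bas X → MonoidAlgebra ℤ G)
    (h : a ᵥ* DD X (RingHom.id (MonoidAlgebra ℤ G)) = 0) (hi : i < X.len + 1) :
    comp X a (i + 1) ᵥ* X.d i = 0 := by
  have h1 := comp_cyc X (RingHom.id _) i a h hi
  rwa [show (X.d i).map (RingHom.id (MonoidAlgebra ℤ G)) = X.d i from by ext; rfl] at h1

theorem ex_univ_int (j : ℕ) : (cellBC X).Ex BC.P0 (cellBC X).eps Set.univ j := by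
  intro x hx hxj hx0 hxe
  set a := vec X x hx with ha
  have hax : chn X a = x := chn_vec X x hx
  have haH : Hom X j a := hom_of_chn X (by rw [hax]; exact hxj)
  have ha0 : a ᵥ* DD X (RingHom.id (MonoidAlgebra ℤ G)) = 0 := by
    refine chn_inj X ?_
    rw [← chn_bd, hax, hx0]
    rfl
  have hmap : ∀ i, (X.d i).map (RingHom.id (MonoidAlgebra ℤ G)) = X.d i := fun i => by ext; rfl
  by_cases hj : j ≤ X.len
  · obtain ⟨b, hb, hba⟩ : ∃ b : Bas X → MonoidAlgebra ℤ G, Hom X (j + 1) b ∧
        b ᵥ* DD X (RingHom.id (MonoidAlgebra ℤ G)) = a := by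
      cases j with
      | zero =>
        obtain ⟨y, hy⟩ := (X.exact_zero (comp X a 0)).1 (by
          rw [← eps_chn, hax]; exact hxe rfl)
        exact lift_comp X (RingHom.id _) 0 a haH y (by rw [hmap]; exact hy) hj
      | succ i =>
        obtain ⟨y, hy⟩ := (X.exact_succ i (comp X a (i + 1))).1
          (comp_cyc_id X i a ha0 (by omega))
        exact lift_comp X (RingHom.id _) (i + 1) a haH y (by rw [hmap]; exact hy) hj
    refine ⟨chn X b, chn_P0 X b, chn_hom X hb, ?_⟩
    rw [chn_bd, hba, hax]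
  · refine ⟨0, ?_, fun σ h => absurd rfl h, ?_⟩
    · change (Function.support (0 : Cell X → ℤ)).Finite
      rw [Function.support_zero]
      exact Set.finite_empty
    · rw [BC.bd_zero]
      funext σ
      by_contra hne
      have h1 := (hxj σ (Ne.symm hne)).2
      have h2 : dim σ ≤ X.len := Nat.lt_succ_iff.1 σ.2.1.2
      have h3 : dim σ = j := h1
      omega

theorem aug1_univ : (cellBC X).Aug1 Set.univ := by
  obtain ⟨x, hx⟩ := X.surj
  set a : Bas X → MonoidAlgebra ℤ G :=
    fun κ => if h : (κ.1 : ℕ) = 0 then x (Fin.cast (congrArg X.n h) κ.2) else 0 with ha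
  have haH : Hom X 0 a := by
    intro κ hκ
    by_contra h
    exact hκ (dif_neg h)
  refine ⟨chn X a, chn_P0 X a, chn_hom X haH, ?_⟩
  rw [eps_chn, ← hx]
  refine Finset.sum_congr rfl fun j _ => ?_
  have : comp X a 0 j = x j := by
    rw [comp, dif_pos (Nat.succ_pos _)]
    rfl
  rw [this]

theorem eps_bd (y : Cell X → ℤ) (hy : BC.P0 y) :
    (cellBC X).eps ((cellBC X).bd y) = 0 := by
  rw [← chn_vec X y hy, chn_bd, eps_chn]
  refine (X.exact_zero _).2 ⟨comp X (vec X y hy) 1, ?_⟩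
  funext l
  have h1 := vecMul_bmat X (RingHom.id (MonoidAlgebra ℤ G)) (vec X y hy)
    (⟨0, Nat.succ_pos _⟩ : Fin (X.len + 1)) l
  rw [show (X.d 0).map (RingHom.id (MonoidAlgebra ℤ G)) = X.d 0 from by ext; rfl] at h1
  rw [comp, dif_pos (Nat.succ_pos _)]
  exact h1.symm

end Pool.Agent.Helper81K9.W
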