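import Pool.Agent.Helper81K9.WallD

/-!
The finite free resolution of a group which acts freely and with finitely many orbits on an acyclic
subcomplex.
-/

set_option autoImplicit false
set_option linter.unusedSectionVars false

open scoped Matrix

namespace Pool.Agent.Helper81K9.W

open Pool.Agent.H919R4.ZS
open Pool.Agent.R778.ZS (Cell Bas bmat inc dim)

/-- A free cellular action of the group `C` on the subcomplex `V` with finitely many orbits of
cells. -/
structure FAct {E : Type} (K : BC E) (V : Set E) (C : Type) [Group C] where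
  act : C → E → E
  sign : C → E → ℤˣ
  mem : ∀ c, ∀ σ ∈ V, act c σ ∈ V
  act_one : ∀ σ ∈ V, act 1 σ = σ
  act_mul : ∀ c c', ∀ σ ∈ V, act (c * c') σ = act c (act c' σ)
  sign_mul : ∀ c c', ∀ σ ∈ V, sign (c * c') σ = sign c (act c' σ) * sign c' σ
  dim_eq : ∀ c, ∀ σ ∈ V, K.dim (act c σ) = K.dim σ
  inc_eq : ∀ c, ∀ σ ∈ V, ∀ ρ ∈ V, K.inc (act c σ) (act c ρ) = sign c σ * sign c ρ * K.inc σ ρ
  aug_eq : ∀ c, ∀ σ ∈ V, K.dim σ = 0 → sign c σ * K.aug (act c σ) = K.aug σ
  free : ∀ c, ∀ σ ∈ V, act c σ = σ → c = 1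
  fin : ∃ F : Finset E, ∀ σ ∈ V, ∃ c, act c σ ∈ F

namespace FAct

variable {E : Type} {K : BC E} {V : Set E} {C : Type} [Group C] (T : FAct K V C)

/-- the orbit relation -/
def setoid : Setoid V where
  r σ τ := ∃ c, T.act c σ = τ
  iseqv := by
    refine ⟨fun σ => ⟨1, T.act_one _ σ.2⟩, ?_, ?_⟩
    · rintro σ τ ⟨c, hc⟩
      refine ⟨c⁻¹, ?_⟩
      rw [← hc, ← T.act_mul _ _ _ σ.2, inv_mul_cancel, T.act_one _ σ.2]
    · rintro σ τ υ ⟨c, hc⟩ ⟨c', hc'⟩
      exact ⟨c' * c, by rw [T.act_mul _ _ _ σ.2, hc, hc']⟩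

/-- the set of orbits -/
def Q : Type := Quotient T.setoid

/-- the orbit of a cell -/
def q (σ : V) : T.Q := Quotient.mk T.setoid σ

/-- a representative of an orbit -/
noncomputable def rep (o : T.Q) : V := Quotient.out (s := T.setoid) o

lemma q_rep (o : T.Q) : T.q (T.rep o) = o := Quotient.out_eq (s := T.setoid) o

lemma q_eq {σ τ : V} (h : ∃ c, T.act c σ = τ) : T.q σ = T.q τ := Quotient.sound (s := T.setoid) h

lemma exists_act (σ : V) : ∃ c, T.act c (T.rep (T.q σ)) = σ :=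
  Quotient.exact (s := T.setoid) (T.q_rep (T.q σ))

/-- the element of the group which maps the representative to the cell -/
noncomputable def g (σ : V) : C := (T.exists_act σ).choose

lemma act_g (σ : V) : T.act (T.g σ) (T.rep (T.q σ)) = σ := (T.exists_act σ).choose_spec

lemma act_inj {σ : E} (hσ : σ ∈ V) {c c' : C} (h : T.act c σ = T.act c' σ) : c = c' := by
  have h1 : T.act (c'⁻¹ * c) σ = σ := by
    rw [T.act_mul _ _ _ hσ, h, ← T.act_mul _ _ _ hσ, inv_mul_cancel, T.act_one _ hσ]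
  have h2 := T.free _ σ hσ h1
  rw [inv_mul_eq_one] at h2
  exact h2.symm

/-- the cell obtained from a representative -/
noncomputable def cell (c : C) (o : T.Q) : V := ⟨T.act c (T.rep o), T.mem c _ (T.rep o).2⟩

lemma q_cell (c : C) (o : T.Q) : T.q (T.cell c o) = o := by
  have h : T.q (T.rep o) = T.q (T.cell c o) := T.q_eq ⟨c, rfl⟩
  rw [← h, q_rep]

lemma g_cell (c : C) (o : T.Q) : T.g (T.cell c o) = c := by
  have h := T.act_g (T.cell c o)
  rw [T.q_cell] at h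
  exact T.act_inj (T.rep o).2 h

lemma cell_g (σ : V) : T.cell (T.g σ) (T.q σ) = σ := Subtype.ext (T.act_g σ)

/-- the cells of `V` are the pairs of an element of the group and an orbit -/
noncomputable def eqv : C × T.Q ≃ V where
  toFun p := T.cell p.1 p.2
  invFun σ := (T.g σ, T.q σ)
  left_inv _ := Prod.ext (T.g_cell _ _) (T.q_cell _ _)
  right_inv σ := T.cell_g σ

lemma finite_Q : Finite T.Q := by
  classical
  obtain ⟨F, hF⟩ := T.fin
  have h : Function.Surjective (fun σ : {σ : V // (σ : E) ∈ F} => T.q σ.1) := by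
    intro o
    obtain ⟨c, hc⟩ := hF (T.rep o) (T.rep o).2
    exact ⟨⟨T.cell c o, hc⟩, T.q_cell c o⟩
  have h2 : Finite {σ : V // (σ : E) ∈ F} := by
    refine Finite.of_injective (fun σ : {σ : V // (σ : E) ∈ F} => (⟨σ.1, σ.2⟩ : F)) ?_
    intro σ τ h
    exact Subtype.ext (Subtype.ext (congrArg (fun z : F => (z : E)) h))
  exact Finite.of_surjective _ h

/-- the dimension of an orbit -/
noncomputable def dimQ (o : T.Q) : ℕ := K.dim (T.rep o)

lemma dim_cell (c : C) (o : T.Q) : K.dim (T.cell c o) = T.dimQ o := T.dim_eq c _ (T.rep o).2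

/-- the coefficients of the boundary matrix -/
noncomputable def bc (o o' : T.Q) (c : C) : ℤ :=
  T.sign c (T.rep o') * K.inc (T.rep o) (T.act c (T.rep o'))

lemma bc_fin (o o' : T.Q) : (Function.support (T.bc o o')).Finite := by
  refine ((K.fac (T.rep o)).preimage (f := fun c => T.act c (T.rep o')) ?_).subset ?_
  · intro c _ c' _ h
    exact T.act_inj (T.rep o').2 h
  · intro c hc
    rw [Function.mem_support] at hc
    exact fun h => hc (by rw [bc, h, mul_zero])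

/-- the boundary matrix -/
noncomputable def B (o o' : T.Q) : MonoidAlgebra ℤ C :=
  .ofCoeff (Finsupp.ofSupportFinite (T.bc o o') (T.bc_fin o o'))

lemma B_coeff (o o' : T.Q) (c : C) : (T.B o o').coeff c = T.bc o o' c := rfl

/-- the sign of a cell -/
noncomputable def sg (σ : V) : ℤˣ := T.sign (T.g σ) (T.rep (T.q σ))

lemma sg_cell (c : C) (o : T.Q) : T.sg (T.cell c o) = T.sign c (T.rep o) := by
  rw [sg, T.g_cell, T.q_cell]

lemma inc_cell (a b : C) (o o' : T.Q) :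
    (T.B o o').coeff (a⁻¹ * b) =
      T.sg (T.cell a o) * T.sg (T.cell b o') * K.inc (T.cell a o) (T.cell b o') := by
  have hb : T.act b (T.rep o') = T.act a (T.act (a⁻¹ * b) (T.rep o')) := by
    rw [← T.act_mul _ _ _ (T.rep o').2, mul_inv_cancel_left]
  have h1 : K.inc (T.cell a o) (T.cell b o') =
      T.sign a (T.rep o) * T.sign a (T.act (a⁻¹ * b) (T.rep o')) *
        K.inc (T.rep o) (T.act (a⁻¹ * b) (T.rep o')) := by
    change K.inc (T.act a (T.rep o)) (T.act b (T.rep o')) = _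
    rw [hb, T.inc_eq a _ (T.rep o).2 _ (T.mem _ _ (T.rep o').2)]
  have h2 : T.sign b (T.rep o') =
      T.sign a (T.act (a⁻¹ * b) (T.rep o')) * T.sign (a⁻¹ * b) (T.rep o') := by
    rw [← T.sign_mul _ _ _ (T.rep o').2, mul_inv_cancel_left]
  rw [B_coeff, bc, h1, T.sg_cell, T.sg_cell, h2]
  have h3 : ∀ u : ℤˣ, (u : ℤ) * (u : ℤ) = 1 := fun u => by
    rw [← Units.val_mul, Int.units_mul_self]; rfl
  push_cast
  have e1 := h3 (T.sign a (T.rep o))
  have e2 := h3 (T.sign a (T.act (a⁻¹ * b) (T.rep o')))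
  linear_combination (-(T.sign (a⁻¹ * b) (T.rep o') : ℤ) *
    K.inc (T.rep o) (T.act (a⁻¹ * b) (T.rep o')) *
    (T.sign a (T.act (a⁻¹ * b) (T.rep o')) : ℤ) * (T.sign a (T.act (a⁻¹ * b) (T.rep o')) : ℤ)) * e1 -
    ((T.sign (a⁻¹ * b) (T.rep o') : ℤ) * K.inc (T.rep o) (T.act (a⁻¹ * b) (T.rep o'))) * e2

/-! ### chains -/

/-- the chain of a vector over the group ring -/
noncomputable def ch (a : T.Q → MonoidAlgebra ℤ C) (σ : E) : ℤ := by
  classical
  exact if h : σ ∈ V then T.sg ⟨σ, h⟩ * (a (T.q ⟨σ, h⟩)).coeff (T.g ⟨σ, h⟩) else 0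

lemma ch_of_mem (a : T.Q → MonoidAlgebra ℤ C) (σ : V) :
    T.ch a σ = T.sg σ * (a (T.q σ)).coeff (T.g σ) := dif_pos σ.2

lemma ch_of_notMem (a : T.Q → MonoidAlgebra ℤ C) (σ : E) (h : σ ∉ V) : T.ch a σ = 0 := dif_neg h

lemma ch_cell (a : T.Q → MonoidAlgebra ℤ C) (c : C) (o : T.Q) :
    T.ch a (T.cell c o) = T.sign c (T.rep o) * (a o).coeff c := by
  rw [ch_of_mem, sg_cell, q_cell, g_cell]

lemma ch_zero : T.ch 0 = 0 := by
  classical
  funext σ
  by_cases h : σ ∈ V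
  · have := T.ch_of_mem 0 ⟨σ, h⟩
    rw [this]
    change _ * (0 : MonoidAlgebra ℤ C).coeff _ = 0
    simp
  · exact T.ch_of_notMem 0 σ h

lemma units_cancel (u : ℤˣ) {a b : ℤ} (h : (u : ℤ) * a = u * b) : a = b :=
  mul_left_cancel₀ (Units.ne_zero u) h

lemma ch_inj {a b : T.Q → MonoidAlgebra ℤ C} (h : T.ch a = T.ch b) : a = b := by
  funext o
  refine MonoidAlgebra.coeff_injective (Finsupp.ext fun c => ?_)
  have h1 := congrFun h (T.cell c o)
  rw [ch_cell, ch_cell] at h1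
  exact units_cancel _ h1

section

variable [DecidableEq E] [Fintype T.Q]

/-- the finite set of cells in which a chain is supported -/
noncomputable def cs (a : T.Q → MonoidAlgebra ℤ C) : Finset E :=
  ((Finset.univ : Finset T.Q).sigma fun o => (a o).coeff.support).image
    fun p => (T.cell p.2 p.1 : E)

lemma mem_cs {a : T.Q → MonoidAlgebra ℤ C} {σ : E} (h : T.ch a σ ≠ 0) : σ ∈ T.cs a := by
  by_cases hσ : σ ∈ V
  · have h1 := T.ch_of_mem a ⟨σ, hσ⟩
    refine Finset.mem_image.2 ⟨⟨T.q ⟨σ, hσ⟩, T.g ⟨σ, hσ⟩⟩, ?_, ?_⟩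
    · rw [Finset.mem_sigma]
      refine ⟨Finset.mem_univ _, Finsupp.mem_support_iff.2 fun h2 => h ?_⟩
      rw [h1, h2, mul_zero]
    · exact congrArg Subtype.val (T.cell_g ⟨σ, hσ⟩)
  · exact absurd (T.ch_of_notMem a σ hσ) h

lemma sum_cs {R : Type} [AddCommMonoid R] (a : T.Q → MonoidAlgebra ℤ C) (f : E → R) :
    ∑ σ ∈ T.cs a, f σ = ∑ o, ∑ c ∈ (a o).coeff.support, f (T.cell c o) := by
  rw [cs, Finset.sum_image, Finset.sum_sigma]
  rintro ⟨o, c⟩ _ ⟨o', c'⟩ _ h
  have h1 : T.cell c o = T.cell c' o' := Subtype.ext h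
  have h2 : o = o' := by rw [← T.q_cell c o, h1, T.q_cell]
  subst h2
  have h3 : c = c' := by rw [← T.g_cell c o, h1, T.g_cell]
  subst h3
  rfl

lemma ch_P0 (a : T.Q → MonoidAlgebra ℤ C) : BC.P0 (T.ch a) :=
  (T.cs a).finite_toSet.subset fun _ h => T.mem_cs h

lemma ch_bd (hV : K.IsSub V) (a : T.Q → MonoidAlgebra ℤ C) :
    K.bd (T.ch a) = T.ch (a ᵥ* (Matrix.of T.B)) := by
  funext τ
  by_cases hτ : τ ∈ V
  · obtain ⟨b, o', hb⟩ : ∃ b o', τ = T.cell b o' :=
      ⟨T.g ⟨τ, hτ⟩, T.q ⟨τ, hτ⟩, (congrArg Subtype.val (T.cell_g ⟨τ, hτ⟩)).symm⟩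
    rw [hb, K.bd_eq _ _ (T.cs a) (fun σ _ h => T.mem_cs h), T.sum_cs, ch_cell]
    have h1 : (a ᵥ* (Matrix.of T.B)) o' = ∑ o, a o * T.B o o' := rfl
    rw [h1, MonoidAlgebra.coeff_sum, Finsupp.finsetSum_apply, Finset.mul_sum]
    refine Finset.sum_congr rfl fun o _ => ?_
    rw [coeff_mul', Finset.mul_sum]
    refine Finset.sum_congr rfl fun c _ => ?_
    rw [ch_cell, inc_cell, sg_cell, sg_cell, Int.cast_id]
    have h3 : ∀ u : ℤˣ, (u : ℤ) * (u : ℤ) = 1 := fun u => by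
      rw [← Units.val_mul, Int.units_mul_self]; rfl
    have e1 := h3 (T.sign b (T.rep o'))
    linear_combination (-(T.sign c (T.rep o) : ℤ) * (a o).coeff c *
      K.inc (T.cell c o) (T.cell b o')) * e1
  · rw [T.ch_of_notMem _ τ hτ]
    by_contra h
    obtain ⟨σ, h1, h2⟩ := K.bd_ne h
    have h3 : σ ∈ V := by
      by_contra h3; exact h2 (T.ch_of_notMem a σ h3)
    exact hτ (hV σ h3 τ h1)

lemma exists_ch {w : E → ℤ} (hw : BC.P0 w) (hwV : ∀ σ, w σ ≠ 0 → σ ∈ V) :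
    ∃ a : T.Q → MonoidAlgebra ℤ C, T.ch a = w := by
  have hfin : ∀ o, (Function.support fun c => (T.sign c (T.rep o) : ℤ) * w (T.cell c o)).Finite := by
    intro o
    refine (Set.Finite.preimage (f := fun c => (T.cell c o : E)) ?_ hw).subset ?_
    · intro c _ c' _ h
      exact T.act_inj (T.rep o).2 h
    · intro c hc
      rw [Function.mem_support] at hc
      exact fun h => hc (by rw [h, mul_zero])
  refine ⟨fun o => .ofCoeff (Finsupp.ofSupportFinite _ (hfin o)), ?_⟩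
  funext τ
  by_cases hτ : τ ∈ V
  · obtain ⟨b, o', hb⟩ : ∃ b o', τ = T.cell b o' :=
      ⟨T.g ⟨τ, hτ⟩, T.q ⟨τ, hτ⟩, (congrArg Subtype.val (T.cell_g ⟨τ, hτ⟩)).symm⟩
    rw [hb, ch_cell]
    change (T.sign b (T.rep o') : ℤ) * ((T.sign b (T.rep o') : ℤ) * w (T.cell b o')) = _
    rw [← mul_assoc, ← Units.val_mul, Int.units_mul_self, Units.val_one, one_mul]
  · rw [T.ch_of_notMem _ τ hτ]
    by_contra h
    exact hτ (hwV τ (Ne.symm h))

/-- the number of orbits of cells of dimension `i` -/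
noncomputable def cnt (i : ℕ) : ℕ := Fintype.card {o : T.Q // T.dimQ o = i}

/-- enumeration of the orbits of cells of dimension `i` -/
noncomputable def enum (i : ℕ) : Fin (T.cnt i) ≃ {o : T.Q // T.dimQ o = i} :=
  (Fintype.equivFin _).symm

/-- a vector in one dimension as a vector in all dimensions -/
noncomputable def ext {S : Type} [Zero S] (i : ℕ) (x : Fin (T.cnt i) → S) (o : T.Q) : S :=
  if h : T.dimQ o = i then x ((T.enum i).symm ⟨o, h⟩) else 0

lemma ext_enum {S : Type} [Zero S] (i : ℕ) (x : Fin (T.cnt i) → S) (k : Fin (T.cnt i)) :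
    T.ext i x (T.enum i k).1 = x k := by
  rw [ext, dif_pos (T.enum i k).2]
  congr 1
  exact (T.enum i).symm_apply_apply k

lemma ext_ne {S : Type} [Zero S] (i : ℕ) (x : Fin (T.cnt i) → S) (o : T.Q) (h : T.dimQ o ≠ i) :
    T.ext i x o = 0 := dif_neg h

lemma ext_inj {S : Type} [Zero S] (i : ℕ) {x y : Fin (T.cnt i) → S} (h : T.ext i x = T.ext i y) :
    x = y := by
  funext k
  rw [← T.ext_enum i x k, h, T.ext_enum]

lemma ext_zero {S : Type} [Zero S] (i : ℕ) : T.ext i (0 : Fin (T.cnt i) → S) = 0 := by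
  funext o
  rw [ext]
  split_ifs <;> rfl

lemma exists_ext {S : Type} [Zero S] (i : ℕ) (a : T.Q → S) (h : ∀ o, a o ≠ 0 → T.dimQ o = i) :
    ∃ x, T.ext i x = a := by
  refine ⟨fun k => a (T.enum i k).1, ?_⟩
  funext o
  rw [ext]
  split_ifs with h1
  · rw [Equiv.apply_symm_apply]
  · by_contra h2
    exact h1 (h o (Ne.symm h2))

lemma sum_ext {R : Type} [AddCommMonoid R] (i : ℕ) (f : T.Q → R) (h : ∀ o, f o ≠ 0 → T.dimQ o = i) :
    ∑ o, f o = ∑ k, f (T.enum i k).1 := by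
  classical
  rw [Equiv.sum_comp (T.enum i) (fun o => f o.1)]
  have h1 : ∑ o, f o = ∑ o ∈ Finset.univ.filter (fun o => T.dimQ o = i), f o := by
    symm
    refine Finset.sum_filter_of_ne fun o _ ho => h o ho
  rw [h1]
  exact Finset.sum_subtype _ (by simp) f

lemma B_dim {o o' : T.Q} (h : T.B o o' ≠ 0) : T.dimQ o = T.dimQ o' + 1 := by
  obtain ⟨c, hc⟩ : ∃ c, T.bc o o' c ≠ 0 := by
    by_contra hcon
    push Not at hcon
    exact h (MonoidAlgebra.coeff_injective (Finsupp.ext fun c => hcon c))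
  have h1 : K.inc (T.rep o) (T.act c (T.rep o')) ≠ 0 := fun h1 => hc (by rw [bc, h1, mul_zero])
  have h2 := K.dim_inc _ _ h1
  rw [T.dim_eq c _ (T.rep o').2] at h2
  exact h2

/-- the matrices of the differentials -/
noncomputable def dm (i : ℕ) : Matrix (Fin (T.cnt (i + 1))) (Fin (T.cnt i)) (MonoidAlgebra ℤ C) :=
  Matrix.of fun a b => T.B (T.enum (i + 1) a).1 (T.enum i b).1

lemma ext_vecMul (i : ℕ) (x : Fin (T.cnt (i + 1)) → MonoidAlgebra ℤ C) :
    T.ext (i + 1) x ᵥ* (Matrix.of T.B) = T.ext i (x ᵥ* T.dm i) := by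
  funext o'
  change ∑ o, T.ext (i + 1) x o * T.B o o' = _
  by_cases h : T.dimQ o' = i
  · rw [ext, dif_pos h, T.sum_ext (i + 1)]
    · change _ = ∑ k, x k * T.B (T.enum (i + 1) k).1 (T.enum i ((T.enum i).symm ⟨o', h⟩)).1
      rw [Equiv.apply_symm_apply]
      exact Finset.sum_congr rfl fun k _ => by rw [ext_enum]
    · intro o ho
      by_contra h1
      exact ho (by rw [T.ext_ne _ _ _ h1, zero_mul])
  · rw [T.ext_ne _ _ _ h]
    refine Finset.sum_eq_zero fun o _ => ?_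
    by_cases h1 : T.B o o' = 0
    · rw [h1, mul_zero]
    · have h2 := T.B_dim h1
      rw [T.ext_ne _ _ _ (by omega), zero_mul]

lemma inV_ext (i : ℕ) (x : Fin (T.cnt i) → MonoidAlgebra ℤ C) : K.InV V i (T.ch (T.ext i x)) := by
  intro σ hσ
  by_cases h : σ ∈ V
  · refine ⟨h, ?_⟩
    by_contra h1
    refine hσ ?_
    have h2 := T.ch_of_mem (T.ext i x) ⟨σ, h⟩
    rw [h2, T.ext_ne, MonoidAlgebra.coeff_zero, Finsupp.coe_zero, Pi.zero_apply, mul_zero]
    rw [← T.dim_cell (T.g ⟨σ, h⟩), T.cell_g]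
    exact h1
  · exact absurd (T.ch_of_notMem _ σ h) hσ

lemma exists_vec (i : ℕ) {w : E → ℤ} (hw : BC.P0 w) (hwV : K.InV V i w) :
    ∃ x : Fin (T.cnt i) → MonoidAlgebra ℤ C, T.ch (T.ext i x) = w := by
  obtain ⟨a, ha⟩ := T.exists_ch hw fun σ h => (hwV σ h).1
  obtain ⟨x, hx⟩ := T.exists_ext i a fun o ho => by
    obtain ⟨c, hc⟩ : ∃ c, (a o).coeff c ≠ 0 := by
      by_contra hcon
      push Not at hcon
      exact ho (MonoidAlgebra.coeff_injective (Finsupp.ext fun c => hcon c))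
    have h1 : w (T.cell c o) ≠ 0 := by
      rw [← ha, ch_cell]
      exact mul_ne_zero (Units.ne_zero _) hc
    rw [← T.dim_cell c o]
    exact (hwV _ h1).2
  exact ⟨x, by rw [hx, ha]⟩

lemma eps_ext (x : Fin (T.cnt 0) → MonoidAlgebra ℤ C) :
    K.eps (T.ch (T.ext 0 x)) = ∑ j, augm C (x j) * K.aug (T.rep (T.enum 0 j).1) := by
  rw [K.eps_eq _ (fun σ h => T.mem_cs h), T.sum_cs, T.sum_ext 0]
  · refine Finset.sum_congr rfl fun j _ => ?_
    rw [ext_enum, Pool.Agent.R778.ZS.augm_eq, Finset.sum_mul]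
    refine Finset.sum_congr rfl fun c _ => ?_
    rw [ch_cell, ext_enum]
    have h1 := T.aug_eq c (T.rep (T.enum 0 j).1) (T.rep (T.enum 0 j).1).2 (T.enum 0 j).2
    rw [← h1]
    change _ * K.aug (T.act c (T.rep (T.enum 0 j).1)) = _
    ring
  · intro o ho
    by_contra h1
    refine ho (Finset.sum_eq_zero fun c _ => ?_)
    rw [ch_cell, T.ext_ne _ _ _ h1, MonoidAlgebra.coeff_zero, Finsupp.coe_zero, Pi.zero_apply,
      mul_zero, zero_mul]

end

/-- the finite free resolution of the group -/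
noncomputable def res [DecidableEq E] [Fintype T.Q] (hV : K.IsSub V)
    (hex : ∀ j, K.Ex BC.P0 K.eps V j) (haug : K.Aug1 V)
    (hbe : ∀ y : E → ℤ, BC.P0 y → K.eps (K.bd y) = 0) (l : ℕ) (hl : ∀ σ, K.dim σ ≤ l) :
    FinRes C where
  len := l
  n := T.cnt
  d := T.dm
  aug := fun j => K.aug (T.rep (T.enum 0 j).1)
  n_eq_zero := by
    intro i hi
    rw [cnt, Fintype.card_eq_zero_iff]
    refine ⟨fun o => ?_⟩
    have h1 := hl (T.rep o.1)
    have h2 : K.dim (T.rep o.1) = i := o.2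
    omega
  surj := by
    obtain ⟨w, hw, hwV, hw1⟩ := haug
    obtain ⟨x, hx⟩ := T.exists_vec 0 hw hwV
    exact ⟨x, by rw [← T.eps_ext, hx, hw1]⟩
  exact_zero := by
    intro x
    rw [← T.eps_ext]
    constructor
    · intro h
      obtain ⟨w, hw, hwV, hw1⟩ := hex 0 (T.ch (T.ext 0 x)) (T.ch_P0 _) (T.inV_ext 0 x) (by
        funext ρ
        by_contra hne
        obtain ⟨σ, h3, h4⟩ := K.bd_ne hne
        have h5 := (T.inV_ext 0 x σ h4).2
        have h6 := K.dim_inc σ ρ h3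
        omega) (fun _ => h)
      obtain ⟨y, hy⟩ := T.exists_vec 1 hw hwV
      refine ⟨y, T.ext_inj 0 (T.ch_inj ?_)⟩
      rw [← T.ext_vecMul, ← T.ch_bd hV, hy, hw1]
    · rintro ⟨y, rfl⟩
      rw [← T.ext_vecMul, ← T.ch_bd hV, hbe _ (T.ch_P0 _)]
  exact_succ := by
    intro i x
    constructor
    · intro h
      obtain ⟨w, hw, hwV, hw1⟩ := hex (i + 1) (T.ch (T.ext (i + 1) x)) (T.ch_P0 _)
        (T.inV_ext (i + 1) x) (by
          rw [T.ch_bd hV, T.ext_vecMul, h, T.ext_zero, T.ch_zero])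
        (fun h => absurd h (Nat.succ_ne_zero i))
      obtain ⟨y, hy⟩ := T.exists_vec (i + 1 + 1) hw hwV
      refine ⟨y, T.ext_inj (i + 1) (T.ch_inj ?_)⟩
      rw [← T.ext_vecMul, ← T.ch_bd hV, hy, hw1]
    · rintro ⟨y, rfl⟩
      refine T.ext_inj i (T.ch_inj ?_)
      rw [← T.ext_vecMul, ← T.ch_bd hV, ← T.ext_vecMul, ← T.ch_bd hV, K.bd_bd, T.ext_zero,
        T.ch_zero]

end FAct

end Pool.Agent.Helper81K9.W
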