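import Pool.Agent.Helper81K9.WallE

/-!
Transport of exactness to the cells of the finite free resolution of a group acting on a
subcomplex.
-/

set_option autoImplicit false
set_option linter.unusedSectionVars false

open scoped Matrix

namespace Pool.Agent.Helper81K9.W

open Pool.Agent.H919R4.ZS
open Pool.Agent.R778.ZS (Cell Bas bmat inc dim)

section transport

variable {E E' : Type} (K : BC E) (K' : BC E') (V : Set E) (e : E' → E)
  (he : Function.Injective e) (heV : Set.range e = V) (s : E' → ℤˣ)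
  (hdim : ∀ σ, K'.dim σ = K.dim (e σ))
  (hinc : ∀ σ ρ, K'.inc σ ρ = s σ * s ρ * K.inc (e σ) (e ρ))

/-- the chain `x` transported by `e` -/
noncomputable def tr (x : E' → ℂ) (τ : E) : ℂ := by
  classical
  exact if h : ∃ σ, e σ = τ then (s h.choose : ℤ) * x h.choose else 0

include he in
lemma tr_apply (x : E' → ℂ) (σ : E') : tr e s x (e σ) = (s σ : ℤ) * x σ := by
  have h : ∃ σ', e σ' = e σ := ⟨σ, rfl⟩
  have h1 : h.choose = σ := he h.choose_spec
  rw [tr, dif_pos h, h1]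

lemma tr_of_not (x : E' → ℂ) (τ : E) (h : τ ∉ Set.range e) : tr e s x τ = 0 := dif_neg h

lemma norm_unit (u : ℤˣ) : ‖((u : ℤ) : ℂ)‖ = 1 := by
  rcases Int.units_eq_one_or u with h | h <;> rw [h] <;> simp

lemma unit_sq (u : ℤˣ) : ((u : ℤ) : ℂ) * ((u : ℤ) : ℂ) = 1 := by
  rcases Int.units_eq_one_or u with h | h <;> rw [h] <;> simp

include he heV hinc in
lemma bd_tr (hV : K.IsSub V) (x : E' → ℂ) : K.bd (tr e s x) = tr e s (K'.bd x) := by
  classical
  funext τ
  by_cases hτ : τ ∈ Set.range e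
  · obtain ⟨ρ, rfl⟩ := hτ
    rw [tr_apply e he, K.bd_eq _ _ ((K'.cofS ρ).image e), Finset.sum_image fun _ _ _ _ h => he h,
      BC.bd, Finset.mul_sum]
    · refine Finset.sum_congr rfl fun σ _ => ?_
      rw [tr_apply e he, hinc]
      push_cast
      have h1 := unit_sq (s ρ)
      linear_combination (-((K.inc (e σ) (e ρ) : ℂ) * ((s σ : ℤ) : ℂ) * x σ)) * h1
    · intro σ h1 h2
      by_cases h3 : σ ∈ Set.range e
      · obtain ⟨σ', rfl⟩ := h3
        refine Finset.mem_image_of_mem e (K'.mem_cofS.2 ?_)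
        rw [hinc]
        exact mul_ne_zero (mul_ne_zero (Units.ne_zero _) (Units.ne_zero _)) h1
      · exact absurd (tr_of_not e s x σ h3) h2
  · rw [tr_of_not e s _ τ hτ]
    by_contra h
    obtain ⟨σ, h1, h2⟩ := K.bd_ne h
    have h3 : σ ∈ Set.range e := by
      by_contra h3; exact h2 (tr_of_not e s x σ h3)
    rw [heV] at h3 hτ
    exact hτ (hV σ h3 τ h1)

include he in
lemma tr_P2 {x : E' → ℂ} (hx : BC.P2 x) : BC.P2 (tr e s x) := by
  have h1 : Summable ((fun τ => ‖tr e s x τ‖ ^ 2) ∘ e) := by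
    refine hx.congr fun σ => ?_
    rw [Function.comp_apply, tr_apply e he, norm_mul, norm_unit, one_mul]
  refine (Function.Injective.summable_iff he ?_).1 h1
  intro τ hτ
  rw [tr_of_not e s x τ hτ]
  simp

include he heV hdim hinc in
theorem transport (hV : K.IsSub V) (j : ℕ) (h : K.Ex BC.P2 (fun _ => 0) V j) :
    K'.Ex BC.P2 (fun _ => 0) Set.univ j := by
  intro x hx hxj hx0 _
  have hmem : ∀ σ, e σ ∈ V := fun σ => heV ▸ Set.mem_range_self σ
  obtain ⟨y, hy, hyV, hyx⟩ := h (tr e s x) (tr_P2 e he s hx) (by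
    intro τ hτ
    by_cases h1 : τ ∈ Set.range e
    · obtain ⟨σ, rfl⟩ := h1
      rw [tr_apply e he] at hτ
      have h2 : x σ ≠ 0 := fun h2 => hτ (by rw [h2, mul_zero])
      exact ⟨hmem σ, by rw [← hdim]; exact (hxj σ h2).2⟩
    · exact absurd (tr_of_not e s x τ h1) hτ) (by
    rw [bd_tr K K' V e he heV s hinc hV, hx0]
    funext τ
    by_cases h1 : τ ∈ Set.range e
    · obtain ⟨σ, rfl⟩ := h1
      rw [tr_apply e he]
      exact mul_zero _
    · exact tr_of_not e s _ τ h1) (fun _ => rfl)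
  have hyt : y = tr e s (fun σ => (s σ : ℤ) * y (e σ)) := by
    funext τ
    by_cases h1 : τ ∈ Set.range e
    · obtain ⟨σ, rfl⟩ := h1
      rw [tr_apply e he, ← mul_assoc, unit_sq, one_mul]
    · rw [tr_of_not e s _ τ h1]
      by_contra h2
      exact h1 (heV ▸ (hyV τ h2).1)
  refine ⟨fun σ => (s σ : ℤ) * y (e σ), ?_, ?_, ?_⟩
  · have h1 : Summable ((fun τ => ‖y τ‖ ^ 2) ∘ e) := hy.comp_injective he
    refine h1.congr fun σ => ?_
    rw [Function.comp_apply, norm_mul, norm_unit, one_mul]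
  · intro σ hσ
    have h2 : y (e σ) ≠ 0 := fun h2 => hσ (by
      change _ * y (e σ) = 0
      rw [h2, mul_zero])
    exact ⟨Set.mem_univ _, by rw [hdim]; exact (hyV _ h2).2⟩
  · have h1 := bd_tr K K' V e he heV s hinc hV (fun σ => (s σ : ℤ) * y (e σ))
    rw [← hyt, hyx] at h1
    funext σ
    have h2 := congrFun h1 (e σ)
    rw [tr_apply e he, tr_apply e he] at h2
    have h3 : ((s σ : ℤ) : ℂ) ≠ 0 := by
      intro h3
      have := norm_unit (s σ)
      rw [h3] at this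
      simp at this
    exact (mul_left_cancel₀ h3 h2).symm

end transport

namespace FAct

variable {E : Type} {K : BC E} {V : Set E} {C : Type} [Group C] (T : FAct K V C)
variable [DecidableEq E] [Fintype T.Q] (hV : K.IsSub V)
    (hex : ∀ j, K.Ex BC.P0 K.eps V j) (haug : K.Aug1 V)
    (hbe : ∀ y : E → ℤ, BC.P0 y → K.eps (K.bd y) = 0) (l : ℕ) (hl : ∀ σ, K.dim σ ≤ l)

/-- the orbit of a basis element -/
noncomputable def qq (κ : Bas (T.res hV hex haug hbe l hl)) : T.Q := (T.enum κ.1 κ.2).1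

lemma enum_cast {i j : ℕ} (h : i = j) (k : Fin (T.cnt i)) :
    (T.enum j (Fin.cast (congrArg T.cnt h) k)).1 = (T.enum i k).1 := by
  subst h; rfl

lemma bmat_res (κ μ : Bas (T.res hV hex haug hbe l hl)) :
    bmat (T.res hV hex haug hbe l hl) κ μ = T.B (T.qq hV hex haug hbe l hl κ)
      (T.qq hV hex haug hbe l hl μ) := by
  rw [bmat]
  split_ifs with h
  · change T.B (T.enum (μ.1 + 1) (Fin.cast _ κ.2)).1 (T.enum μ.1 μ.2).1 = _
    exact congrArg (fun o => T.B o (T.enum μ.1 μ.2).1) (T.enum_cast h κ.2)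
  · by_contra h1
    have h2 := T.B_dim (Ne.symm h1)
    have h3 : T.dimQ (T.qq hV hex haug hbe l hl κ) = κ.1 := (T.enum κ.1 κ.2).2
    have h4 : T.dimQ (T.qq hV hex haug hbe l hl μ) = μ.1 := (T.enum μ.1 μ.2).2
    omega

/-- the cell of the subcomplex of a cell of the resolution -/
noncomputable def ce (σ : Cell (T.res hV hex haug hbe l hl)) : E :=
  T.cell σ.1 (T.qq hV hex haug hbe l hl σ.2)

lemma qq_inj : Function.Injective (T.qq hV hex haug hbe l hl) := by
  intro κ μ h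
  have h3 : T.dimQ (T.qq hV hex haug hbe l hl κ) = κ.1 := (T.enum κ.1 κ.2).2
  have h4 : T.dimQ (T.qq hV hex haug hbe l hl μ) = μ.1 := (T.enum μ.1 μ.2).2
  obtain ⟨⟨i, hi⟩, k⟩ := κ
  obtain ⟨⟨j, hj⟩, k'⟩ := μ
  have h5 : i = j := by rw [h] at h3; exact h3.symm.trans h4
  subst h5
  have h6 : (T.enum i k).1 = (T.enum i k').1 := h
  have h7 : k = k' := (T.enum i).injective (Subtype.ext h6)
  subst h7
  rfl

lemma ce_inj : Function.Injective (T.ce hV hex haug hbe l hl) := by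
  rintro ⟨c, κ⟩ ⟨c', κ'⟩ h
  have h1 : T.cell c (T.qq hV hex haug hbe l hl κ) = T.cell c' (T.qq hV hex haug hbe l hl κ') :=
    Subtype.ext h
  have h2 : T.qq hV hex haug hbe l hl κ = T.qq hV hex haug hbe l hl κ' :=
    (T.q_cell c _).symm.trans ((congrArg T.q h1).trans (T.q_cell c' _))
  have h3 := T.qq_inj hV hex haug hbe l hl h2
  subst h3
  have h4 : c = c' := (T.g_cell c _).symm.trans ((congrArg T.g h1).trans (T.g_cell c' _))
  subst h4
  rfl

lemma ce_range : Set.range (T.ce hV hex haug hbe l hl) = V := by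
  ext σ
  constructor
  · rintro ⟨ρ, rfl⟩
    exact (T.cell _ _).2
  · intro hσ
    have h1 : T.dimQ (T.q ⟨σ, hσ⟩) < l + 1 := Nat.lt_succ_iff.2 (hl _)
    refine ⟨(T.g ⟨σ, hσ⟩, ⟨⟨T.dimQ (T.q ⟨σ, hσ⟩), h1⟩,
      (T.enum _).symm ⟨T.q ⟨σ, hσ⟩, rfl⟩⟩), ?_⟩
    change (T.cell (T.g ⟨σ, hσ⟩) (T.enum _ ((T.enum _).symm ⟨T.q ⟨σ, hσ⟩, rfl⟩)).1 : E) = σ
    rw [Equiv.apply_symm_apply, T.cell_g]

lemma ce_dim (σ : Cell (T.res hV hex haug hbe l hl)) :
    (cellBC (T.res hV hex haug hbe l hl)).dim σ = K.dim (T.ce hV hex haug hbe l hl σ) := by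
  rw [ce, T.dim_cell]
  exact (T.enum σ.2.1 σ.2.2).2.symm

lemma ce_inc (σ ρ : Cell (T.res hV hex haug hbe l hl)) :
    (cellBC (T.res hV hex haug hbe l hl)).inc σ ρ =
      T.sign σ.1 (T.rep (T.qq hV hex haug hbe l hl σ.2)) *
      T.sign ρ.1 (T.rep (T.qq hV hex haug hbe l hl ρ.2)) *
      K.inc (T.ce hV hex haug hbe l hl σ) (T.ce hV hex haug hbe l hl ρ) := by
  change (bmat (T.res hV hex haug hbe l hl) σ.2 ρ.2).coeff (σ.1⁻¹ * ρ.1) = _
  rw [bmat_res, T.inc_cell, sg_cell, sg_cell]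
  rfl

theorem ex_res (j : ℕ) (h : K.Ex BC.P2 (fun _ => 0) V j) :
    (cellBC (T.res hV hex haug hbe l hl)).Ex BC.P2 (fun _ => 0) Set.univ j :=
  transport K _ V (T.ce hV hex haug hbe l hl) (T.ce_inj hV hex haug hbe l hl)
    (T.ce_range hV hex haug hbe l hl)
    (fun σ => T.sign σ.1 (T.rep (T.qq hV hex haug hbe l hl σ.2)))
    (T.ce_dim hV hex haug hbe l hl) (T.ce_inc hV hex haug hbe l hl) hV j h

end FAct

end Pool.Agent.Helper81K9.W
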