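import Pool.Agent.Helper81K9.WallF

/-!
Square summable exactness implies the vanishing of the homology with coefficients in the reduced
group `C*`-algebra.
-/

set_option autoImplicit false
set_option linter.unusedSectionVars false

open scoped Matrix ENNReal InnerProductSpace

namespace Pool.Agent.Helper81K9.W

section hodge

variable {A B D : Type} [NormedAddCommGroup A] [InnerProductSpace ℂ A] [CompleteSpace A]
  [NormedAddCommGroup B] [InnerProductSpace ℂ B] [CompleteSpace B]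
  [NormedAddCommGroup D] [InnerProductSpace ℂ D] [CompleteSpace D]

lemma re_inner_le (x y : B) : (⟪x, y⟫_ℂ).re ≤ ‖x‖ * ‖y‖ :=
  (Complex.re_le_norm _).trans (norm_inner_le_norm _ _)

lemma re_inner_self (x : B) : (⟪x, x⟫_ℂ).re = ‖x‖ ^ 2 := inner_self_eq_norm_sq (𝕜 := ℂ) x

theorem hodge (p : B →L[ℂ] A) (q : D →L[ℂ] B) (hpq : ∀ d, p (q d) = 0)
    (hex : ∀ b, p b = 0 → ∃ d, q d = b) (hcl : IsClosed (Set.range p)) :
    IsUnit ((ContinuousLinearMap.adjoint p).comp p + q.comp (ContinuousLinearMap.adjoint q)) := by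
  set N : Submodule ℂ B := LinearMap.ker p.toLinearMap with hN
  have hmem : ∀ b, b ∈ N ↔ p b = 0 := fun b => LinearMap.mem_ker
  have hNcl : IsClosed (N : Set B) := by
    have : (N : Set B) = p ⁻¹' {0} := by ext b; exact hmem b
    rw [this]
    exact isClosed_singleton.preimage p.continuous
  have : CompleteSpace N := hNcl.completeSpace_coe
  obtain ⟨M1, hM1, h1⟩ : ∃ M : ℝ, 0 < M ∧ ∀ b ∈ Nᗮ, ‖b‖ ≤ M * ‖p b‖ := by
    let R : Submodule ℂ A := LinearMap.range p.toLinearMap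
    have hR : IsClosed (R : Set A) := hcl
    have : CompleteSpace R := hR.completeSpace_coe
    let pr : B →L[ℂ] R := p.codRestrict R (fun b => ⟨b, rfl⟩)
    have hs : Function.Surjective pr := by
      rintro ⟨a, b, rfl⟩
      exact ⟨b, rfl⟩
    obtain ⟨M, hM, h⟩ := ContinuousLinearMap.exists_preimage_norm_le pr hs
    refine ⟨M, hM, fun b hb => ?_⟩
    obtain ⟨x, hx, hxn⟩ := h (pr b)
    have hx1 : p x = p b := congrArg Subtype.val hx
    have hx2 : b - x ∈ N := (hmem _).2 (by rw [map_sub, hx1, sub_self])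
    have h3 : ⟪b, b - x⟫_ℂ = 0 := Submodule.inner_left_of_mem_orthogonal hx2 hb
    have h4 : ‖b‖ ^ 2 ≤ ‖b‖ * ‖x‖ := by
      rw [inner_sub_right, sub_eq_zero] at h3
      rw [← re_inner_self b, h3]
      exact re_inner_le b x
    have h5 : ‖b‖ ≤ ‖x‖ := by
      rcases (norm_nonneg b).eq_or_lt with h | h
      · rw [← h]; exact norm_nonneg x
      · rw [pow_two] at h4
        exact le_of_mul_le_mul_left h4 h
    exact h5.trans hxn
  obtain ⟨M2, hM2, h2⟩ : ∃ M : ℝ, 0 < M ∧ ∀ a ∈ N, ‖a‖ ≤ M * ‖ContinuousLinearMap.adjoint q a‖ := by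
    let qr : D →L[ℂ] N := q.codRestrict N (fun d => (hmem _).2 (hpq d))
    have hs : Function.Surjective qr := by
      rintro ⟨a, ha⟩
      obtain ⟨d, rfl⟩ := hex a ((hmem a).1 ha)
      exact ⟨d, rfl⟩
    obtain ⟨M, hM, h⟩ := ContinuousLinearMap.exists_preimage_norm_le qr hs
    refine ⟨M, hM, fun a ha => ?_⟩
    obtain ⟨d, hd, hdn⟩ := h ⟨a, ha⟩
    have hd1 : q d = a := congrArg Subtype.val hd
    have hdn' : ‖d‖ ≤ M * ‖a‖ := hdn
    have h4 : ‖a‖ ^ 2 ≤ ‖ContinuousLinearMap.adjoint q a‖ * (M * ‖a‖) := by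
      rw [← re_inner_self a]
      nth_rewrite 2 [← hd1]
      rw [← ContinuousLinearMap.adjoint_inner_left]
      exact (re_inner_le _ _).trans (mul_le_mul_of_nonneg_left hdn' (norm_nonneg _))
    rcases (norm_nonneg a).eq_or_lt with h | h
    · rw [← h]; positivity
    · have h6 : ‖a‖ * ‖a‖ ≤ (M * ‖ContinuousLinearMap.adjoint q a‖) * ‖a‖ := by
        rw [← pow_two]; linarith
      exact le_of_mul_le_mul_right h6 h
  set M : ℝ := M1 + M2 with hM
  have hM0 : 0 < M := by positivity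
  let c : NNReal := ⟨1 / M ^ 2, by positivity⟩
  have hc : 0 < c := by
    have h : (0 : ℝ) < (c : ℝ) := by
      change (0 : ℝ) < 1 / M ^ 2
      positivity
    exact_mod_cast h
  refine ContinuousLinearMap.isUnit_of_forall_le_norm_inner_map _ hc fun x => ?_
  change ‖x‖ ^ 2 * (1 / M ^ 2) ≤ _
  obtain ⟨a, ha, b, hb, rfl⟩ : ∃ a ∈ N, ∃ b ∈ Nᗮ, x = a + b :=
    N.exists_add_mem_mem_orthogonal x
  have hpa : p a = 0 := (hmem a).1 ha
  have hqb : ContinuousLinearMap.adjoint q b = 0 := by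
    have h3 : ⟪ContinuousLinearMap.adjoint q b, ContinuousLinearMap.adjoint q b⟫_ℂ = 0 := by
      rw [ContinuousLinearMap.adjoint_inner_left]
      exact Submodule.inner_left_of_mem_orthogonal ((hmem _).2 (hpq _)) hb
    exact inner_self_eq_zero.1 h3
  have e1 : p (a + b) = p b := by rw [map_add, hpa, zero_add]
  have e2 : ContinuousLinearMap.adjoint q (a + b) = ContinuousLinearMap.adjoint q a := by
    rw [map_add, hqb, add_zero]
  have e3 : (⟪((ContinuousLinearMap.adjoint p).comp p + q.comp (ContinuousLinearMap.adjoint q))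
      (a + b), a + b⟫_ℂ).re = ‖p b‖ ^ 2 + ‖ContinuousLinearMap.adjoint q a‖ ^ 2 := by
    rw [add_apply, inner_add_left, Complex.add_re]
    change (⟪ContinuousLinearMap.adjoint p (p (a + b)), a + b⟫_ℂ).re +
      (⟪q (ContinuousLinearMap.adjoint q (a + b)), a + b⟫_ℂ).re = _
    have i1 : ⟪ContinuousLinearMap.adjoint p (p (a + b)), a + b⟫_ℂ = ⟪p b, p b⟫_ℂ := by
      rw [ContinuousLinearMap.adjoint_inner_left, e1]
    have i2 : ⟪q (ContinuousLinearMap.adjoint q (a + b)), a + b⟫_ℂ =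
        ⟪ContinuousLinearMap.adjoint q a, ContinuousLinearMap.adjoint q a⟫_ℂ := by
      rw [← ContinuousLinearMap.adjoint_inner_right, e2]
    rw [i1, i2, re_inner_self, re_inner_self]
  have e4 : ‖a + b‖ ^ 2 = ‖a‖ ^ 2 + ‖b‖ ^ 2 := by
    have h3 : ⟪a, b⟫_ℂ = 0 := Submodule.inner_right_of_mem_orthogonal ha hb
    have h4 := norm_add_sq (𝕜 := ℂ) a b
    rw [h3] at h4
    simpa using h4
  have h3 := h1 b hb
  have h4 := h2 a ha
  have h5 : ‖b‖ ^ 2 ≤ M ^ 2 * ‖p b‖ ^ 2 := by
    rw [← mul_pow]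
    refine pow_le_pow_left₀ (norm_nonneg _) (h3.trans ?_) 2
    exact mul_le_mul_of_nonneg_right (by linarith) (norm_nonneg _)
  have h6 : ‖a‖ ^ 2 ≤ M ^ 2 * ‖ContinuousLinearMap.adjoint q a‖ ^ 2 := by
    rw [← mul_pow]
    refine pow_le_pow_left₀ (norm_nonneg _) (h4.trans ?_) 2
    exact mul_le_mul_of_nonneg_right (by linarith) (norm_nonneg _)
  refine le_trans ?_ (Complex.re_le_norm _)
  rw [e3, e4, mul_one_div, div_le_iff₀ (by positivity)]
  linarith

end hodge

end Pool.Agent.Helper81K9.W
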