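import Pool.Agent.Helper81K9.WallG

/-!
The reduced group `C*`-algebra as a closed set of operators which is closed under adjoints, and
matrices over it.
-/

set_option autoImplicit false
set_option linter.unusedSectionVars false

open scoped Matrix ENNReal InnerProductSpace

namespace Pool.Agent.Helper81K9.W

open Pool.Agent.H919R4.ZS

section red

variable (C : Type) [Group C]

/-- the reduced group `C*`-algebra as a set of bounded operators -/
def RS : Set (L2 C →L[ℂ] L2 C) := (redCstar C : Set (Op C))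

variable {C}

lemma RS_mul {S T : L2 C →L[ℂ] L2 C} (hS : S ∈ RS C) (hT : T ∈ RS C) : S * T ∈ RS C :=
  (redCstar C).mul_mem hS hT

lemma RS_add {S T : L2 C →L[ℂ] L2 C} (hS : S ∈ RS C) (hT : T ∈ RS C) : S + T ∈ RS C :=
  (redCstar C).add_mem hS hT

lemma RS_zero : (0 : L2 C →L[ℂ] L2 C) ∈ RS C := (redCstar C).zero_mem

lemma RS_one : (1 : L2 C →L[ℂ] L2 C) ∈ RS C := (redCstar C).one_mem

lemma RS_sum {ι : Type} (s : Finset ι) (f : ι → L2 C →L[ℂ] L2 C) (h : ∀ i ∈ s, f i ∈ RS C) :
    ∑ i ∈ s, f i ∈ RS C := by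
  classical
  induction s using Finset.induction_on with
  | empty => rw [Finset.sum_empty]; exact RS_zero
  | insert a s ha ih =>
    rw [Finset.sum_insert ha]
    exact RS_add (h a (Finset.mem_insert_self _ _))
      (ih fun i hi => h i (Finset.mem_insert_of_mem hi))

lemma RS_closed : IsClosed (RS C) := isClosed_closure (s := (groupRing C : Set (Op C)))

lemma RS_valR (x : RedC C) : valR x ∈ RS C := x.2

lemma exists_valR {T : L2 C →L[ℂ] L2 C} (h : T ∈ RS C) : ∃ x : RedC C, valR x = T := ⟨⟨T, h⟩, rfl⟩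

lemma valR_inj : Function.Injective (valR (G := C)) := fun _ _ h => Subtype.ext h

lemma gen_adjoint (c : ℂ) (g : C) :
    ContinuousLinearMap.adjoint (c • lregL g : L2 C →L[ℂ] L2 C) = (starRingEnd ℂ c) • lregL g⁻¹ := by
  rw [LinearIsometryEquiv.map_smulₛₗ, Pool.Agent.R778.ZS.lregL_adjoint]

/-- the group ring as a set of bounded operators -/
def GS (C : Type) [Group C] : Set (L2 C →L[ℂ] L2 C) := (groupRing C : Set (Op C))

/-- identification of types -/
def toL (T : Op C) : L2 C →L[ℂ] L2 C := T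

lemma toL_zero : toL (0 : Op C) = 0 := rfl

lemma toL_one : toL (1 : Op C) = 1 := rfl

lemma toL_add (S T : Op C) : toL (S + T) = toL S + toL T := rfl

lemma toL_neg (S : Op C) : toL (-S) = -toL S := rfl

lemma toL_mul (S T : Op C) : toL (S * T) = (toL S).comp (toL T) := rfl

lemma GS_adjoint {T : L2 C →L[ℂ] L2 C} (hT : T ∈ GS C) : ContinuousLinearMap.adjoint T ∈ GS C := by
  refine Subring.closure_induction (p := fun (T : Op C) _ =>
    ContinuousLinearMap.adjoint (toL T) ∈ GS C) ?_ ?_ ?_ ?_ ?_ ?_ hT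
  · rintro T ⟨c, g, rfl⟩
    refine Subring.subset_closure ⟨starRingEnd ℂ c, g⁻¹, ?_⟩
    exact gen_adjoint c g
  · rw [toL_zero, map_zero]
    exact (groupRing C).zero_mem
  · have h : ContinuousLinearMap.adjoint (1 : L2 C →L[ℂ] L2 C) = 1 :=
      ContinuousLinearMap.adjoint_id
    rw [toL_one, h]
    exact (groupRing C).one_mem
  · intro S T _ _ hS hT
    rw [toL_add, map_add]
    exact (groupRing C).add_mem hS hT
  · intro S _ hS
    rw [toL_neg, map_neg]
    exact (groupRing C).neg_mem hS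
  · intro S T _ _ hS hT
    rw [toL_mul, ContinuousLinearMap.adjoint_comp]
    exact (groupRing C).mul_mem hT hS

lemma RS_eq_closure : RS C = closure (GS C) := rfl

lemma RS_adjoint {T : L2 C →L[ℂ] L2 C} (hT : T ∈ RS C) :
    ContinuousLinearMap.adjoint T ∈ RS C := by
  have h : Set.MapsTo (fun T : L2 C →L[ℂ] L2 C => ContinuousLinearMap.adjoint T)
      (GS C) (GS C) := fun T hT => GS_adjoint hT
  have hc : Continuous (fun T : L2 C →L[ℂ] L2 C => ContinuousLinearMap.adjoint T) :=
    LinearIsometryEquiv.continuous _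
  exact map_mem_closure (s := GS C) (t := GS C) hc hT h

lemma RS_smul (c : ℂ) : c • (1 : L2 C →L[ℂ] L2 C) ∈ RS C := by
  have h0 : c • (1 : L2 C →L[ℂ] L2 C) ∈ GS C → c • (1 : L2 C →L[ℂ] L2 C) ∈ RS C :=
    fun h => subset_closure (s := GS C) h
  refine h0 (Subring.subset_closure ⟨c, 1, ?_⟩)
  have h : (lregL (1 : C) : L2 C →L[ℂ] L2 C) = 1 := by
    refine ContinuousLinearMap.ext fun f => lp.ext (funext fun h => ?_)
    rw [lregL_apply, inv_one, one_mul]
    rfl
  change c • (1 : L2 C →L[ℂ] L2 C) = c • lregL 1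
  rw [h]

lemma RS_L (a : MonoidAlgebra ℤ C) : L a ∈ RS C := toOp_mem C a

end red

end Pool.Agent.Helper81K9.W
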