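import Pool.Agent.Helper81K9.WallH

/-!
Matrices of operators, and the contraction over the reduced group `C*`-algebra.
-/

set_option autoImplicit false
set_option linter.unusedSectionVars false

open scoped Matrix ENNReal InnerProductSpace

namespace Pool.Agent.Helper81K9.W

open Pool.Agent.H919R4.ZS
open Pool.Agent.R778.ZS (Cell Bas bmat inc dim)
open Pool.Agent.TH38.ZT (ExAt)

variable {C : Type} [Group C]

/-- tuples of square summable functions as a Hilbert space -/
abbrev HS (C : Type) [Group C] (n : ℕ) : Type := PiLp 2 (fun _ : Fin n => L2 C)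

/-- the components -/
noncomputable def prj {n : ℕ} (i : Fin n) : HS C n →L[ℂ] L2 C := PiLp.proj 2 (fun _ => L2 C) i

lemma prj_apply {n : ℕ} (i : Fin n) (v : HS C n) : prj i v = v i := rfl

/-- the inclusions -/
noncomputable def inj {n : ℕ} (i : Fin n) : L2 C →L[ℂ] HS C n := ContinuousLinearMap.adjoint (prj i)

lemma inj_apply {n : ℕ} (i : Fin n) (u : L2 C) : (inj i u : HS C n) = PiLp.single 2 i u := by
  refine ext_inner_right ℂ fun v => ?_
  rw [inj, ContinuousLinearMap.adjoint_inner_left, PiLp.inner_apply, Finset.sum_eq_single i]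
  · rw [PiLp.single_eq_same, prj_apply]
  · intro k _ hk
    rw [PiLp.single_eq_of_ne 2 hk, inner_zero_left]
  · intro h; exact absurd (Finset.mem_univ _) h

lemma prj_inj_same {n : ℕ} (i : Fin n) (u : L2 C) : prj i (inj i u) = u := by
  rw [inj_apply, prj_apply, PiLp.single_eq_same]

lemma prj_inj_ne {n : ℕ} {i j : Fin n} (h : i ≠ j) (u : L2 C) : prj i (inj j u) = 0 := by
  rw [inj_apply, prj_apply, PiLp.single_eq_of_ne 2 h]

lemma sum_inj_prj {n : ℕ} (v : HS C n) : ∑ i, inj i (prj i v) = v := by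
  refine PiLp.ext fun k => ?_
  change prj k (∑ i, inj i (prj i v)) = prj k v
  rw [map_sum, Finset.sum_eq_single k]
  · rw [prj_inj_same]
  · intro i _ hi
    exact prj_inj_ne (Ne.symm hi) _
  · intro h; exact absurd (Finset.mem_univ _) h

lemma hs_ext {n : ℕ} {v w : HS C n} (h : ∀ i, prj i v = prj i w) : v = w := PiLp.ext h

/-- the operator of a matrix -/
noncomputable def mp {a b : ℕ} (M : Matrix (Fin a) (Fin b) (L2 C →L[ℂ] L2 C)) :
    HS C b →L[ℂ] HS C a := ∑ i, ∑ j, (inj i).comp ((M i j).comp (prj j))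

lemma mp_apply {a b : ℕ} (M : Matrix (Fin a) (Fin b) (L2 C →L[ℂ] L2 C)) (v : HS C b) (i : Fin a) :
    prj i (mp M v) = ∑ j, M i j (prj j v) := by
  rw [mp, sum_apply, map_sum, Finset.sum_eq_single i]
  · rw [sum_apply, map_sum]
    exact Finset.sum_congr rfl fun j _ => prj_inj_same i _
  · intro k _ hk
    rw [sum_apply, map_sum]
    exact Finset.sum_eq_zero fun j _ => prj_inj_ne (Ne.symm hk) _
  · intro h; exact absurd (Finset.mem_univ _) h

lemma adjoint_mp {a b : ℕ} (M : Matrix (Fin a) (Fin b) (L2 C →L[ℂ] L2 C)) :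
    ContinuousLinearMap.adjoint (mp M) =
      mp (Matrix.of fun j i => ContinuousLinearMap.adjoint (M i j)) := by
  rw [mp, mp, map_sum, Finset.sum_comm]
  refine Finset.sum_congr rfl fun i _ => ?_
  rw [map_sum]
  refine Finset.sum_congr rfl fun j _ => ?_
  rw [ContinuousLinearMap.adjoint_comp, ContinuousLinearMap.adjoint_comp, inj,
    ContinuousLinearMap.adjoint_adjoint]
  rfl

/-- the entries of an operator -/
noncomputable def ent {a b : ℕ} (T : HS C b →L[ℂ] HS C a) (i : Fin a) (j : Fin b) :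
    L2 C →L[ℂ] L2 C := (prj i).comp (T.comp (inj j))

lemma ent_mp {a b : ℕ} (M : Matrix (Fin a) (Fin b) (L2 C →L[ℂ] L2 C)) (i : Fin a) (j : Fin b) :
    ent (mp M) i j = M i j := by
  refine ContinuousLinearMap.ext fun u => ?_
  change prj i (mp M (inj j u)) = _
  rw [mp_apply, Finset.sum_eq_single j]
  · rw [prj_inj_same]
  · intro k _ hk
    rw [prj_inj_ne hk, map_zero]
  · intro h; exact absurd (Finset.mem_univ _) h

lemma ent_comp {a b c : ℕ} (S : HS C b →L[ℂ] HS C a) (T : HS C c →L[ℂ] HS C b) (i : Fin a)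
    (j : Fin c) : ent (S.comp T) i j = ∑ k, ent S i k * ent T k j := by
  refine ContinuousLinearMap.ext fun u => ?_
  rw [sum_apply]
  change prj i (S (T (inj j u))) = ∑ k, prj i (S (inj k (prj k (T (inj j u)))))
  conv_lhs => rw [← sum_inj_prj (T (inj j u))]
  rw [map_sum, map_sum]

lemma ent_adjoint {a b : ℕ} (T : HS C b →L[ℂ] HS C a) (i : Fin b) (j : Fin a) :
    ent (ContinuousLinearMap.adjoint T) i j = ContinuousLinearMap.adjoint (ent T j i) := by
  rw [ent, ent, ContinuousLinearMap.adjoint_comp, ContinuousLinearMap.adjoint_comp, inj, inj,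
    ContinuousLinearMap.adjoint_adjoint]
  rfl

lemma ent_add {a b : ℕ} (S T : HS C b →L[ℂ] HS C a) (i : Fin a) (j : Fin b) :
    ent (S + T) i j = ent S i j + ent T i j := by
  refine ContinuousLinearMap.ext fun u => ?_
  change prj i (S (inj j u) + T (inj j u)) = prj i (S (inj j u)) + prj i (T (inj j u))
  rw [map_add]

lemma ent_smul_one {n : ℕ} (c : ℂ) (i j : Fin n) :
    ent (c • (1 : HS C n →L[ℂ] HS C n)) i j = if i = j then c • (1 : L2 C →L[ℂ] L2 C) else 0 := by
  refine ContinuousLinearMap.ext fun u => ?_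
  change prj i (c • inj j u) = _
  rw [map_smul]
  split_ifs with h
  · subst h
    rw [prj_inj_same]
    rfl
  · rw [prj_inj_ne h, smul_zero]
    rfl

lemma ent_continuous {a b : ℕ} (i : Fin a) (j : Fin b) :
    Continuous fun T : HS C b →L[ℂ] HS C a => ent T i j := by
  unfold ent
  fun_prop

/-- the operators with entries in the reduced group `C*`-algebra -/
noncomputable def RSA (C : Type) [Group C] (n : ℕ) : StarSubalgebra ℂ (HS C n →L[ℂ] HS C n) where
  carrier := {T | ∀ i j, ent T i j ∈ RS C}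
  mul_mem' := by
    intro S T hS hT i j
    have h := ent_comp S T i j
    change ent (S.comp T) i j ∈ RS C
    rw [h]
    exact RS_sum _ _ fun k _ => RS_mul (hS i k) (hT k j)
  add_mem' := by
    intro S T hS hT i j
    rw [ent_add]
    exact RS_add (hS i j) (hT i j)
  algebraMap_mem' := by
    intro c i j
    rw [Algebra.algebraMap_eq_smul_one, ent_smul_one]
    split_ifs
    · exact RS_smul c
    · exact RS_zero
  star_mem' := by
    intro T hT i j
    rw [ContinuousLinearMap.star_eq_adjoint, ent_adjoint]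
    exact RS_adjoint (hT j i)

lemma mem_RSA {n : ℕ} {T : HS C n →L[ℂ] HS C n} : T ∈ RSA C n ↔ ∀ i j, ent T i j ∈ RS C := Iff.rfl

lemma RSA_closed (n : ℕ) : IsClosed (RSA C n : Set (HS C n →L[ℂ] HS C n)) := by
  have h : (RSA C n : Set (HS C n →L[ℂ] HS C n)) =
      ⋂ i, ⋂ j, (fun T => ent T i j) ⁻¹' (RS C) := by
    ext T
    simp only [Set.mem_iInter, Set.mem_preimage]
    exact mem_RSA
  rw [h]
  exact isClosed_iInter fun i => isClosed_iInter fun j => RS_closed.preimage (ent_continuous i j)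

theorem exists_inv {n : ℕ} {T : HS C n →L[ℂ] HS C n} (hT : T ∈ RSA C n) (hu : IsUnit T) :
    ∃ U ∈ RSA C n, T.comp U = 1 ∧ U.comp T = 1 := by
  have : IsClosed (RSA C n : Set (HS C n →L[ℂ] HS C n)) := RSA_closed n
  have h1 : IsUnit (⟨T, hT⟩ : RSA C n) :=
    (StarSubalgebra.coe_isUnit (S := RSA C n) (a := ⟨T, hT⟩)).1 hu
  obtain ⟨u, hu⟩ := h1
  refine ⟨(u⁻¹ : (RSA C n)ˣ).1, (u⁻¹ : (RSA C n)ˣ).1.2, ?_, ?_⟩
  · have h2 := congrArg (fun z : RSA C n => (z : HS C n →L[ℂ] HS C n)) u.mul_inv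
    rw [hu] at h2
    exact h2
  · have h2 := congrArg (fun z : RSA C n => (z : HS C n →L[ℂ] HS C n)) u.inv_mul
    rw [hu] at h2
    exact h2

end Pool.Agent.Helper81K9.W
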