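import Pool.Agent.Helper81K9.WallI

/-!
The contraction over the reduced group `C*`-algebra from exactness of square summable chains.
-/

set_option autoImplicit false
set_option linter.unusedSectionVars false

open scoped Matrix ENNReal InnerProductSpace

namespace Pool.Agent.Helper81K9.W

open Pool.Agent.H919R4.ZS
open Pool.Agent.R778.ZS (Cell Bas bmat inc dim)
open Pool.Agent.TH38.ZT (ExAt)

variable {C : Type} [Group C]

/-- the row operator of a vector -/
noncomputable def row {n : ℕ} (x : Fin n → L2 C →L[ℂ] L2 C) : HS C n →L[ℂ] L2 C :=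
  ∑ k, (x k).comp (prj k)

lemma row_apply {n : ℕ} (x : Fin n → L2 C →L[ℂ] L2 C) (v : HS C n) :
    row x v = ∑ k, x k (prj k v) := by
  rw [row, sum_apply]; rfl

lemma row_inj {n : ℕ} (x : Fin n → L2 C →L[ℂ] L2 C) (k : Fin n) : (row x).comp (inj k) = x k := by
  refine ContinuousLinearMap.ext fun u => ?_
  change row x (inj k u) = _
  rw [row_apply, Finset.sum_eq_single k]
  · rw [prj_inj_same]
  · intro j _ hj
    rw [prj_inj_ne hj, map_zero]
  · intro h; exact absurd (Finset.mem_univ _) h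

lemma row_comp_inj {n m : ℕ} (x : Fin n → L2 C →L[ℂ] L2 C) (T : HS C m →L[ℂ] HS C n) (k : Fin m) :
    ((row x).comp T).comp (inj k) = ∑ j, x j * ent T j k := by
  refine ContinuousLinearMap.ext fun u => ?_
  change row x (T (inj k u)) = _
  rw [row_apply, sum_apply]
  rfl

lemma comp_inj_ext {n : ℕ} {S T : HS C n →L[ℂ] L2 C} (h : ∀ k, S.comp (inj k) = T.comp (inj k)) :
    S = T := by
  refine ContinuousLinearMap.ext fun v => ?_
  rw [← sum_inj_prj v, map_sum, map_sum]
  refine Finset.sum_congr rfl fun k _ => ?_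
  exact congrArg (fun R : L2 C →L[ℂ] L2 C => R (prj k v)) (h k)

lemma comp_adjoint_zero {n : ℕ} (Z : HS C n →L[ℂ] L2 C)
    (h : Z.comp (ContinuousLinearMap.adjoint Z) = 0) : Z = 0 := by
  have h1 : ContinuousLinearMap.adjoint Z = 0 := by
    refine ContinuousLinearMap.ext fun u => ?_
    have h2 : ⟪ContinuousLinearMap.adjoint Z u, ContinuousLinearMap.adjoint Z u⟫_ℂ = 0 := by
      rw [ContinuousLinearMap.adjoint_inner_left]
      have h3 : Z (ContinuousLinearMap.adjoint Z u) = 0 :=
        congrArg (fun R : L2 C →L[ℂ] L2 C => R u) h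
      rw [h3, inner_zero_right]
    exact inner_self_eq_zero.1 h2
  rw [← ContinuousLinearMap.adjoint_adjoint Z, h1, map_zero]

lemma key_mat (a : MonoidAlgebra ℤ C) : valR (toRed C a) = L a := coe_toRed a

lemma vm_gen {S : Type} [Ring S] (φ : MonoidAlgebra ℤ C →+* S) {n m : ℕ} (x : Fin n → S)
    (M : Matrix (Fin n) (Fin m) (MonoidAlgebra ℤ C)) (k : Fin m) :
    (x ᵥ* M.map φ) k = ∑ j, x j * φ (M j k) := rfl

lemma vm_valR {n m : ℕ} (x : Fin n → RedC C) (M : Matrix (Fin n) (Fin m) (MonoidAlgebra ℤ C))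
    (k : Fin m) : valR ((x ᵥ* M.map (toRed C)) k) = ∑ j, valR (x j) * L (M j k) := by
  rw [vm_gen, map_sum]
  refine Finset.sum_congr rfl fun j _ => ?_
  rw [map_mul, key_mat]

lemma mp_comp_zero {a n b : ℕ} (dl : Matrix (Fin n) (Fin a) (MonoidAlgebra ℤ C))
    (du : Matrix (Fin b) (Fin n) (MonoidAlgebra ℤ C)) (hdd : du * dl = 0) :
    (mp (du.map (L (G := C)))).comp (mp (dl.map L)) = 0 := by
  refine ContinuousLinearMap.ext fun v => hs_ext fun i => ?_
  rw [ContinuousLinearMap.comp_apply, mp_apply, zero_apply, map_zero]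
  have h1 : ∀ j, prj j (mp (dl.map L) v) = ∑ k, L (dl j k) (prj k v) := fun j => by
    rw [mp_apply]
    exact Finset.sum_congr rfl fun k _ => by rw [Matrix.map_apply]
  have h2 : ∑ j, (du.map L) i j (prj j (mp (dl.map L) v)) = ∑ k, L ((du * dl) i k) (prj k v) := by
    simp only [h1, map_sum, Matrix.map_apply]
    rw [Finset.sum_comm]
    refine Finset.sum_congr rfl fun k _ => ?_
    rw [Matrix.mul_apply, map_sum, sum_apply]
    refine Finset.sum_congr rfl fun j _ => ?_
    rw [map_mul, mul_apply_eq_comp]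
  rw [h2, hdd]
  refine Finset.sum_eq_zero fun k _ => ?_
  rw [Matrix.zero_apply, map_zero, zero_apply]

section alg

variable {A B D E' : Type} [NormedAddCommGroup A] [InnerProductSpace ℂ A] [CompleteSpace A]
  [NormedAddCommGroup B] [InnerProductSpace ℂ B] [CompleteSpace B]
  [NormedAddCommGroup D] [InnerProductSpace ℂ D] [CompleteSpace D]
  [NormedAddCommGroup E'] [InnerProductSpace ℂ E'] [CompleteSpace E']

lemma comp_adjoint_zero' (Z : B →L[ℂ] E') (h : Z.comp (ContinuousLinearMap.adjoint Z) = 0) :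
    Z = 0 := by
  have h1 : ContinuousLinearMap.adjoint Z = 0 := by
    refine ContinuousLinearMap.ext fun u => ?_
    have h2 : ⟪ContinuousLinearMap.adjoint Z u, ContinuousLinearMap.adjoint Z u⟫_ℂ = 0 := by
      rw [ContinuousLinearMap.adjoint_inner_left]
      have h3 : Z (ContinuousLinearMap.adjoint Z u) = 0 :=
        congrArg (fun R : E' →L[ℂ] E' => R u) h
      rw [h3, inner_zero_right]
    exact inner_self_eq_zero.1 h2
  rw [← ContinuousLinearMap.adjoint_adjoint Z, h1, map_zero]

/-- the operator theoretic part -/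
theorem op_part (P : A →L[ℂ] B) (Q : B →L[ℂ] D) (hQP : Q.comp P = 0) (U : B →L[ℂ] B)
    (hU2 : U.comp (P.comp (ContinuousLinearMap.adjoint P) + (ContinuousLinearMap.adjoint Q).comp Q) =
      ContinuousLinearMap.id ℂ B) (X : B →L[ℂ] E') (hXP : X.comp P = 0) :
    (X.comp (U.comp (ContinuousLinearMap.adjoint Q))).comp Q = X := by
  set Pa := ContinuousLinearMap.adjoint P with hPa
  set Qa := ContinuousLinearMap.adjoint Q with hQa
  set Δ : B →L[ℂ] B := P.comp Pa + Qa.comp Q with hΔ
  set Y1 : B →L[ℂ] E' := X.comp U with hY1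
  have hXY : Y1.comp Δ = X := by
    rw [hY1, ContinuousLinearMap.comp_assoc, hU2, ContinuousLinearMap.comp_id]
  have hΔP : Δ.comp P = P.comp (Pa.comp P) := by
    rw [hΔ, ContinuousLinearMap.add_comp, ContinuousLinearMap.comp_assoc,
      ContinuousLinearMap.comp_assoc, hQP, ContinuousLinearMap.comp_zero, add_zero]
  have h1 : (Y1.comp P).comp (Pa.comp P) = 0 := by
    rw [ContinuousLinearMap.comp_assoc, ← hΔP, ← ContinuousLinearMap.comp_assoc, hXY, hXP]
  have h2 : Y1.comp (P.comp Pa) = 0 := by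
    refine comp_adjoint_zero' _ ?_
    have h3 : ContinuousLinearMap.adjoint (Y1.comp (P.comp Pa)) =
        P.comp (Pa.comp (ContinuousLinearMap.adjoint Y1)) := by
      rw [ContinuousLinearMap.adjoint_comp, ContinuousLinearMap.adjoint_comp, hPa,
        ContinuousLinearMap.adjoint_adjoint, ContinuousLinearMap.comp_assoc]
    rw [h3]
    have h4 : (Y1.comp (P.comp Pa)).comp (P.comp (Pa.comp (ContinuousLinearMap.adjoint Y1))) =
        ((Y1.comp P).comp (Pa.comp P)).comp (Pa.comp (ContinuousLinearMap.adjoint Y1)) := by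
      simp only [ContinuousLinearMap.comp_assoc]
    rw [h4, h1, ContinuousLinearMap.zero_comp]
  have h4 : Y1.comp Δ = Y1.comp (P.comp Pa) + Y1.comp (Qa.comp Q) := by
    rw [hΔ, ContinuousLinearMap.comp_add]
  rw [hXY, h2, zero_add] at h4
  have h5 : (X.comp (U.comp Qa)).comp Q = Y1.comp (Qa.comp Q) := by
    rw [hY1]
    simp only [ContinuousLinearMap.comp_assoc]
  rw [h5, ← h4]

end alg

theorem core1 {a n b : ℕ} (P : HS C a →L[ℂ] HS C n) (Q : HS C n →L[ℂ] HS C b)
    (hQP : Q.comp P = 0) (hPm : ∀ i j, ent P i j ∈ RS C) (hQm : ∀ i j, ent Q i j ∈ RS C)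
    (hex : ∀ v : HS C n, ContinuousLinearMap.adjoint P v = 0 →
      ∃ w, ContinuousLinearMap.adjoint Q w = v)
    (hcl : IsClosed (Set.range (ContinuousLinearMap.adjoint P))) :
    ∃ U ∈ RSA C n, U.comp (P.comp (ContinuousLinearMap.adjoint P) +
      (ContinuousLinearMap.adjoint Q).comp Q) = ContinuousLinearMap.id ℂ (HS C n) := by
  have hPQ : ∀ d, ContinuousLinearMap.adjoint P (ContinuousLinearMap.adjoint Q d) = 0 := by
    intro d
    have h1 : (ContinuousLinearMap.adjoint P).comp (ContinuousLinearMap.adjoint Q) = 0 := by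
      rw [← ContinuousLinearMap.adjoint_comp, hQP, map_zero]
    rw [← ContinuousLinearMap.comp_apply, h1, zero_apply]
  have hunit := hodge _ _ hPQ hex hcl
  rw [ContinuousLinearMap.adjoint_adjoint, ContinuousLinearMap.adjoint_adjoint] at hunit
  have hPam : ∀ i j, ent (ContinuousLinearMap.adjoint P) i j ∈ RS C := fun i j => by
    rw [ent_adjoint]; exact RS_adjoint (hPm j i)
  have hQam : ∀ i j, ent (ContinuousLinearMap.adjoint Q) i j ∈ RS C := fun i j => by
    rw [ent_adjoint]; exact RS_adjoint (hQm j i)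
  obtain ⟨U, hUm, -, hU2⟩ := exists_inv (mem_RSA.2 fun i j => by
    rw [ent_add, ent_comp, ent_comp]
    exact RS_add (RS_sum _ _ fun k _ => RS_mul (hPm i k) (hPam k j))
      (RS_sum _ _ fun k _ => RS_mul (hQam i k) (hQm k j))) hunit
  exact ⟨U, hUm, hU2⟩

theorem core {a n b : ℕ} (dl : Matrix (Fin n) (Fin a) (MonoidAlgebra ℤ C))
    (du : Matrix (Fin b) (Fin n) (MonoidAlgebra ℤ C)) (hdd : du * dl = 0)
    (hex : ∀ v : HS C n, ContinuousLinearMap.adjoint (mp (dl.map L)) v = 0 →
      ∃ w, ContinuousLinearMap.adjoint (mp (du.map L)) w = v)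
    (hcl : IsClosed (Set.range (ContinuousLinearMap.adjoint (mp (dl.map (L (G := C)))))))
    (x : Fin n → RedC C) (hx : x ᵥ* dl.map (toRed C) = 0) :
    ∃ y : Fin b → RedC C, y ᵥ* du.map (toRed C) = x := by
  have hQP := mp_comp_zero dl du hdd
  have hPm : ∀ i j, ent (mp (dl.map (L (G := C)))) i j ∈ RS C := fun i j => by
    rw [ent_mp]; exact RS_L _
  have hQm : ∀ i j, ent (mp (du.map (L (G := C)))) i j ∈ RS C := fun i j => by
    rw [ent_mp]; exact RS_L _
  obtain ⟨U, hUm, hU2⟩ := core1 _ _ hQP hPm hQm hex hcl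
  have hXP : (row fun k => valR (x k)).comp (mp (dl.map (L (G := C)))) = 0 := by
    refine comp_inj_ext fun k => ?_
    rw [row_comp_inj, ContinuousLinearMap.zero_comp]
    have h1 := vm_valR x dl k
    rw [hx, Pi.zero_apply, map_zero] at h1
    rw [h1]
    exact Finset.sum_congr rfl fun j _ => by rw [ent_mp, Matrix.map_apply]
  have h3 := op_part _ _ hQP U hU2 _ hXP
  have hym : ∀ k, ((row fun k => valR (x k)).comp
      (U.comp (ContinuousLinearMap.adjoint (mp (du.map (L (G := C))))))).comp (inj k) ∈ RS C := by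
    intro k
    rw [row_comp_inj]
    refine RS_sum _ _ fun j _ => RS_mul (RS_valR _) ?_
    rw [ent_comp]
    refine RS_sum _ _ fun l _ => RS_mul (mem_RSA.1 hUm j l) ?_
    rw [ent_adjoint]
    exact RS_adjoint (hQm k l)
  choose y hy using fun k => exists_valR (hym k)
  refine ⟨y, ?_⟩
  funext l
  refine valR_inj ?_
  have h5 : (row fun k => valR (y k)) = (row fun k => valR (x k)).comp
      (U.comp (ContinuousLinearMap.adjoint (mp (du.map (L (G := C)))))) := by
    refine comp_inj_ext fun k => ?_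
    rw [row_inj, hy]
  have h6 : ((row fun k => valR (y k)).comp (mp (du.map (L (G := C))))).comp (inj l) =
      valR (x l) := by
    rw [h5, h3, row_inj]
  rw [row_comp_inj] at h6
  rw [← h6, vm_valR]
  exact Finset.sum_congr rfl fun k _ => by rw [ent_mp, Matrix.map_apply]

end Pool.Agent.Helper81K9.W
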