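import Pool.Agent.Helper81K9.WallJ
import Pool.Agent.TH38.ZT.Trace

/-!
Exactness of the complex of square summable chains and exactness over the reduced group
`C*`-algebra, and the inheritance theorem.
-/

set_option autoImplicit false
set_option linter.unusedSectionVars false

open scoped Matrix ENNReal InnerProductSpace

namespace Pool.Agent.Helper81K9.W

open Pool.Agent.H919R4.ZS
open Pool.Agent.R778.ZS (Cell Bas bmat inc dim)
open Pool.Agent.TH38.ZT (ExAt)

variable {C : Type} [Group C] (Z : FinRes C)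

/-- a tuple in one degree as a tuple in all degrees -/
noncomputable def toT (j : ℕ) (v : Fin (Z.n j) → L2 C) : Bas Z → L2 C := fun κ =>
  if h : (κ.1 : ℕ) = j then v (Fin.cast (congrArg Z.n h) κ.2) else 0

lemma toT_same (j : ℕ) (hj : j < Z.len + 1) (v : Fin (Z.n j) → L2 C) (k : Fin (Z.n j)) :
    toT Z j v ⟨⟨j, hj⟩, k⟩ = v k := dif_pos rfl

lemma toT_ne (j : ℕ) (v : Fin (Z.n j) → L2 C) (κ : Bas Z) (h : (κ.1 : ℕ) ≠ j) :
    toT Z j v κ = 0 := dif_neg h

lemma ca_toT (i : ℕ) (hi : i < Z.len + 1) (v : Fin (Z.n (i + 1)) → L2 C) (l : Fin (Z.n i)) :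
    ca Z (DD Z L) (toT Z (i + 1) v) ⟨⟨i, hi⟩, l⟩ =
      ∑ k, ContinuousLinearMap.adjoint (L (Z.d i k l)) (v k) := by
  rw [ca, Fintype.sum_sigma]
  by_cases h : i + 1 < Z.len + 1
  · rw [Finset.sum_eq_single (⟨i + 1, h⟩ : Fin (Z.len + 1))]
    · refine Finset.sum_congr rfl fun k _ => ?_
      rw [toT_same, DD, Matrix.map_apply, Matrix.of_apply, bmat, dif_pos rfl]
      rfl
    · intro b _ hb
      refine Finset.sum_eq_zero fun k _ => ?_
      rw [toT_ne Z _ _ _ (fun h2 => hb (Fin.ext h2)), map_zero]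
    · intro h2; exact absurd (Finset.mem_univ _) h2
  · have hn : Z.n (i + 1) = 0 := Z.n_eq_zero _ (by omega)
    have : IsEmpty (Fin (Z.n (i + 1))) := by rw [hn]; infer_instance
    rw [Finset.univ_eq_empty (α := Fin (Z.n (i + 1))), Finset.sum_empty]
    refine Finset.sum_eq_zero fun b _ => Finset.sum_eq_zero fun k _ => ?_
    rw [toT_ne, map_zero]
    intro h2
    have h3 := b.2
    have h4 : (b : ℕ) = i + 1 := h2
    omega

lemma ca_toT_ne (j : ℕ) (v : Fin (Z.n j) → L2 C) (μ : Bas Z) (h : (μ.1 : ℕ) + 1 ≠ j) :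
    ca Z (DD Z L) (toT Z j v) μ = 0 := by
  rw [ca]
  refine Finset.sum_eq_zero fun κ _ => ?_
  by_cases h1 : (κ.1 : ℕ) = j
  · rw [DD, Matrix.map_apply, Matrix.of_apply, bmat, dif_neg (by omega), map_zero, map_zero,
      zero_apply]
  · rw [toT_ne Z _ _ _ h1, map_zero]

lemma prj_adjoint (i : ℕ) (w : HS C (Z.n (i + 1))) (l : Fin (Z.n i)) :
    prj l (ContinuousLinearMap.adjoint (mp ((Z.d i).map L)) w) =
      ∑ k, ContinuousLinearMap.adjoint (L (Z.d i k l)) (prj k w) := by
  rw [adjoint_mp, mp_apply]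
  refine Finset.sum_congr rfl fun k _ => ?_
  rw [Matrix.of_apply, Matrix.map_apply]

/-- the tuple with given components -/
noncomputable def mkHS {n : ℕ} (w : Fin n → L2 C) : HS C n := WithLp.toLp 2 w

lemma prj_mkHS {n : ℕ} (w : Fin n → L2 C) (k : Fin n) : prj k (mkHS w) = w k := rfl

theorem l2ex (j : ℕ) (hj : j < Z.len + 1)
    (hE : (cellBC Z).Ex BC.P2 (fun _ => 0) Set.univ j) (v : HS C (Z.n j))
    (hv : ca Z (DD Z L) (toT Z j (fun k => prj k v)) = 0) :
    ∃ w : HS C (Z.n (j + 1)), ContinuousLinearMap.adjoint (mp ((Z.d j).map L)) w = v := by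
  set t := toT Z j (fun k => prj k v) with ht
  obtain ⟨y, hy, hyV, hyx⟩ := hE (unt Z t) (unt_P2 Z t) (by
    intro σ hσ
    refine ⟨Set.mem_univ _, ?_⟩
    by_contra h
    refine hσ ?_
    change t σ.2 σ.1⁻¹ = 0
    rw [ht, toT_ne Z j _ σ.2 h]
    rfl) (by
    funext ⟨a, μ⟩
    rw [← ca_DD, hv]
    rfl) (fun _ => rfl)
  set s := tup Z y hy with hs
  have hs0 : ∀ κ : Bas Z, (κ.1 : ℕ) ≠ j + 1 → s κ = 0 := by
    intro κ hκ
    refine lp.ext (funext fun a => ?_)
    rw [hs, tup_apply]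
    by_contra hne
    exact hκ (hyV _ hne).2
  let w : Fin (Z.n (j + 1)) → L2 C := fun k => if h : j + 1 < Z.len + 1 then s ⟨⟨j + 1, h⟩, k⟩ else 0
  have hsw : s = toT Z (j + 1) w := by
    funext ⟨⟨i, hi⟩, k⟩
    by_cases h : i = j + 1
    · subst h
      rw [toT_same]
      change _ = (if h : j + 1 < Z.len + 1 then s ⟨⟨j + 1, h⟩, k⟩ else 0)
      rw [dif_pos hi]
    · rw [toT_ne Z _ _ _ h, hs0 _ h]
  refine ⟨mkHS w, hs_ext fun l => ?_⟩
  rw [prj_adjoint]
  simp only [prj_mkHS]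
  rw [← ca_toT Z j hj w l, ← hsw]
  refine lp.ext (funext fun a => ?_)
  have h1 := ca_DD Z s a⁻¹ ⟨⟨j, hj⟩, l⟩
  rw [inv_inv] at h1
  rw [h1, hs, unt_tup, hyx]
  change t ⟨⟨j, hj⟩, l⟩ a⁻¹⁻¹ = _
  rw [ht, toT_same, inv_inv]

lemma ca_zero_of (i : ℕ) (v : HS C (Z.n (i + 1)))
    (h : ContinuousLinearMap.adjoint (mp ((Z.d i).map L)) v = 0) :
    ca Z (DD Z L) (toT Z (i + 1) (fun k => prj k v)) = 0 := by
  funext ⟨⟨m, hm⟩, l⟩
  by_cases h1 : m = i
  · subst h1
    rw [ca_toT, ← prj_adjoint, h, map_zero]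
    rfl
  · rw [ca_toT_ne]
    · rfl
    · intro h2
      have h3 : m + 1 = i + 1 := h2
      omega

lemma range_closed (i : ℕ) (hi : i < Z.len + 1)
    (hE : (cellBC Z).Ex BC.P2 (fun _ => 0) Set.univ i) :
    IsClosed (Set.range (ContinuousLinearMap.adjoint (mp ((Z.d i).map (L (G := C)))))) := by
  cases i with
  | zero =>
    have h : Set.range (ContinuousLinearMap.adjoint (mp ((Z.d 0).map (L (G := C))))) = Set.univ := by
      refine Set.eq_univ_of_forall fun v => ?_
      obtain ⟨w, hw⟩ := l2ex Z 0 hi hE v (by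
        funext μ
        exact ca_toT_ne Z 0 _ μ (Nat.succ_ne_zero _))
      exact ⟨w, hw⟩
    rw [h]
    exact isClosed_univ
  | succ k =>
    have h : Set.range (ContinuousLinearMap.adjoint (mp ((Z.d (k + 1)).map (L (G := C))))) =
        (ContinuousLinearMap.adjoint (mp ((Z.d k).map (L (G := C))))) ⁻¹' {0} := by
      ext v
      constructor
      · rintro ⟨w, rfl⟩
        have h1 : (ContinuousLinearMap.adjoint (mp ((Z.d k).map (L (G := C))))).comp
            (ContinuousLinearMap.adjoint (mp ((Z.d (k + 1)).map (L (G := C))))) = 0 := by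
          rw [← ContinuousLinearMap.adjoint_comp, mp_comp_zero _ _ (d_mul_d Z k), map_zero]
        rw [Set.mem_preimage, ← ContinuousLinearMap.comp_apply, h1]
        rfl
      · intro hv
        obtain ⟨w, hw⟩ := l2ex Z (k + 1) hi hE v (ca_zero_of Z k v hv)
        exact ⟨w, hw⟩
    rw [h]
    exact isClosed_singleton.preimage (ContinuousLinearMap.continuous _)

theorem exAt_of_ex (i : ℕ) (h : ∀ j ≤ i, (cellBC Z).Ex BC.P2 (fun _ => 0) Set.univ j) :
    ∀ j ≤ i, ExAt Z (toRed C) j := by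
  intro j hj
  by_cases hjl : j < Z.len + 1
  · cases j with
    | zero =>
      intro x
      refine core (0 : Matrix (Fin (Z.n 0)) (Fin 0) (MonoidAlgebra ℤ C)) (Z.d 0)
        (by ext _ l; exact l.elim0) (fun v _ => ?_) ?_ x (by ext l; exact l.elim0)
      · exact l2ex Z 0 hjl (h 0 hj) v (by
          funext μ
          exact ca_toT_ne Z 0 _ μ (Nat.succ_ne_zero _))
      · have h0 : ∀ u : HS C 0, u = 0 := fun u => hs_ext fun l => l.elim0
        have h1 : Set.range (ContinuousLinearMap.adjoint (mp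
            ((0 : Matrix (Fin (Z.n 0)) (Fin 0) (MonoidAlgebra ℤ C)).map (L (G := C))))) =
            Set.univ := by
          refine Set.eq_univ_of_forall fun v => ⟨0, ?_⟩
          rw [h0 v, map_zero]
        rw [h1]
        exact isClosed_univ
    | succ k =>
      intro x hx
      exact core (Z.d k) (Z.d (k + 1)) (d_mul_d Z k)
        (fun v hv => l2ex Z (k + 1) hjl (h _ hj) v (ca_zero_of Z k v hv))
        (range_closed Z k (by omega) (h k (by omega))) x hx
  · cases j with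
    | zero => omega
    | succ k =>
      intro x _
      have hn : Z.n (k + 1) = 0 := Z.n_eq_zero _ (by omega)
      refine ⟨0, ?_⟩
      funext l
      exact absurd l.2 (by omega)

end Pool.Agent.Helper81K9.W
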