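import Pool.Agent.Helper81K9.WallL

/-!
Reflections give bounded retractions, and deck transformations give free actions.
-/

set_option autoImplicit false
set_option linter.unusedSectionVars false

namespace Pool.Agent.Helper81K9.W

open Pool.Agent.H919R4.ZS
open Pool.Agent.R778.ZS (Cell Bas bmat inc dim deck)

/-- A reflection of the subcomplex `V`: a cellular involution (with signs), which exchanges the two
sides (`side σ = 1` and `side σ = -1`) of the wall (`side σ = 0`) and is the identity on the wall;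
the cells in the boundary of a cell lie in the wall or on the same side as the cell. -/
structure Refl {E : Type} (K : BC E) (V : Set E) where
  map : E → E
  sign : E → ℤˣ
  side : E → SignType
  mem : ∀ σ ∈ V, map σ ∈ V
  invol : ∀ σ ∈ V, map (map σ) = σ
  dim_eq : ∀ σ ∈ V, K.dim (map σ) = K.dim σ
  inc_eq : ∀ σ ∈ V, ∀ ρ ∈ V, K.inc (map σ) (map ρ) = sign σ * sign ρ * K.inc σ ρ
  aug_eq : ∀ σ ∈ V, K.dim σ = 0 → sign σ * K.aug (map σ) = K.aug σ
  side_map : ∀ σ ∈ V, side (map σ) = -side σ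
  side_inc : ∀ σ ∈ V, ∀ ρ, K.inc σ ρ ≠ 0 → side ρ = 0 ∨ side ρ = side σ
  fix : ∀ σ ∈ V, side σ = 0 → map σ = σ ∧ sign σ = 1

lemma sum_le_two {E : Type} (f : E → ℝ) (h0 : ∀ τ, 0 ≤ f τ) (h1 : ∀ τ, f τ ≤ 1) (a b : E)
    (h : ∀ τ, f τ ≠ 0 → τ = a ∨ τ = b) (F : Finset E) : ∑ τ ∈ F, f τ ≤ 2 := by
  classical
  have e1 : ∑ τ ∈ F, f τ = ∑ τ ∈ F.filter (fun τ => f τ ≠ 0), f τ :=
    (Finset.sum_filter_ne_zero F).symm
  have e2 : F.filter (fun τ => f τ ≠ 0) ⊆ {a, b} := by
    intro τ hτ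
    rcases h τ (Finset.mem_filter.1 hτ).2 with h3 | h3
    · exact Finset.mem_insert.2 (Or.inl h3)
    · exact Finset.mem_insert.2 (Or.inr (Finset.mem_singleton.2 h3))
  rw [e1]
  refine (Finset.sum_le_sum_of_subset_of_nonneg e2 fun τ _ _ => h0 τ).trans ?_
  refine (Finset.sum_le_card_nsmul _ _ 1 fun τ _ => h1 τ).trans ?_
  rw [nsmul_eq_mul, mul_one]
  exact_mod_cast Finset.card_le_two

namespace Refl

variable {E : Type} {K : BC E} {V : Set E} (r : Refl K V)

/-- the wall of the reflection -/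
def wall : Set E := {σ | σ ∈ V ∧ r.side σ = 0}

/-- the same reflection with the sides exchanged -/
def neg : Refl K V where
  map := r.map
  sign := r.sign
  side := fun σ => -r.side σ
  mem := r.mem
  invol := r.invol
  dim_eq := r.dim_eq
  inc_eq := r.inc_eq
  aug_eq := r.aug_eq
  side_map := fun σ hσ => by rw [r.side_map σ hσ]
  side_inc := fun σ hσ ρ h => by
    rcases r.side_inc σ hσ ρ h with h | h
    · left; rw [h]; rfl
    · right; rw [h]
  fix := fun σ hσ h => r.fix σ hσ (by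
    have : ∀ s : SignType, -s = 0 → s = 0 := by decide
    exact this _ h)

/-- the half space -/
def half : Set E := {σ | σ ∈ V ∧ r.side σ ≠ -1}

lemma isSub_half (hV : K.IsSub V) : K.IsSub r.half := by
  intro σ hσ ρ h
  refine ⟨hV σ hσ.1 ρ h, ?_⟩
  rcases r.side_inc σ hσ.1 ρ h with h1 | h1
  · rw [h1]; decide
  · rw [h1]; exact hσ.2

lemma side_map_ne {σ : E} (hσ : σ ∈ V) (h : r.side σ = -1) : r.side (r.map σ) ≠ -1 := by
  rw [r.side_map σ hσ, h]; decide

open Classical in
/-- the retraction onto the half space -/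
noncomputable def mat (σ τ : E) : ℤ :=
  if σ ∈ V then
    if r.side σ = -1 then (if r.map σ = τ then (r.sign σ : ℤ) else 0)
    else (if σ = τ then 1 else 0)
  else 0

lemma mat_of_neg {σ : E} (hσ : σ ∈ V) (h : r.side σ = -1) (τ : E) [Decidable (r.map σ = τ)] :
    r.mat σ τ = if r.map σ = τ then (r.sign σ : ℤ) else 0 := by
  rw [mat, if_pos hσ, if_pos h]
  congr

lemma mat_of_half {σ : E} (hσ : σ ∈ V) (h : r.side σ ≠ -1) (τ : E) [Decidable (σ = τ)] :
    r.mat σ τ = if σ = τ then 1 else 0 := by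
  rw [mat, if_pos hσ, if_neg h]
  congr

lemma abs_mat_le (σ τ : E) : |(r.mat σ τ : ℝ)| ≤ 1 := by
  rw [mat]
  split_ifs
  · rcases Int.units_eq_one_or (r.sign σ) with h | h <;> rw [h] <;> simp
  · simp
  · simp
  · simp
  · simp

lemma mat_ne {σ τ : E} (h : r.mat σ τ ≠ 0) : σ ∈ V ∧ (σ = τ ∨ r.map σ = τ) := by
  rw [mat] at h
  split_ifs at h with h1 h2 h3 h4
  · exact ⟨h1, Or.inr h3⟩
  · exact absurd rfl h
  · exact ⟨h1, Or.inl h4⟩
  · exact absurd rfl h
  · exact absurd rfl h

/-- the folding map -/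
noncomputable def retr (hV : K.IsSub V) : K.Retr V r.half where
  mat := r.mat
  mem := by
    classical
    intro σ τ h
    have hσ := (r.mat_ne h).1
    refine ⟨hσ, ?_⟩
    by_cases h1 : r.side σ = -1
    · rw [r.mat_of_neg hσ h1] at h
      have h2 : r.map σ = τ := by
        by_contra h2; exact h (if_neg h2)
      rw [← h2]
      exact ⟨⟨r.mem σ hσ, r.side_map_ne hσ h1⟩, r.dim_eq σ hσ⟩
    · rw [r.mat_of_half hσ h1] at h
      have h2 : σ = τ := by
        by_contra h2; exact h (if_neg h2)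
      rw [← h2]
      exact ⟨⟨hσ, h1⟩, rfl⟩
  id_self := by
    classical
    intro σ hσ
    rw [r.mat_of_half hσ.1 hσ.2, if_pos rfl]
  id_ne := by
    classical
    intro σ hσ τ h
    rw [r.mat_of_half hσ.1 hσ.2, if_neg (Ne.symm h)]
  chain := by
    classical
    intro σ hσ τ
    have h2 : ∀ u : ℤˣ, (u : ℤ) * (u : ℤ) = 1 := fun u => by
      rw [← Units.val_mul, Int.units_mul_self]; rfl
    by_cases h1 : r.side σ = -1
    · have e1 : ∑ᶠ ρ, r.mat σ ρ * K.inc ρ τ = r.sign σ * K.inc (r.map σ) τ := by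
        rw [finsum_eq_single _ (r.map σ)]
        · rw [r.mat_of_neg hσ h1, if_pos rfl]
        · intro ρ hρ
          rw [r.mat_of_neg hσ h1, if_neg (Ne.symm hρ), zero_mul]
      have e2 : ∀ ρ, K.inc σ ρ ≠ 0 → r.mat ρ τ = if r.map ρ = τ then (r.sign ρ : ℤ) else 0 := by
        intro ρ hρ
        have hρV := hV σ hσ ρ hρ
        rcases r.side_inc σ hσ ρ hρ with h | h
        · obtain ⟨h3, h4⟩ := r.fix ρ hρV h
          rw [r.mat_of_half hρV (by rw [h]; decide), h3, h4]
          rfl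
        · rw [r.mat_of_neg hρV (by rw [h, h1])]
      rw [e1]
      by_cases hτ : τ ∈ V
      · have e3 : ∑ᶠ ρ, K.inc σ ρ * r.mat ρ τ = K.inc σ (r.map τ) * r.sign (r.map τ) := by
          rw [finsum_eq_single _ (r.map τ)]
          · by_cases h3 : K.inc σ (r.map τ) = 0
            · rw [h3, zero_mul, zero_mul]
            · rw [e2 _ h3, if_pos (r.invol τ hτ)]
          · intro ρ hρ
            by_cases h3 : K.inc σ ρ = 0
            · rw [h3, zero_mul]
            · rw [e2 _ h3, if_neg, mul_zero]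
              intro h4
              exact hρ (by rw [← h4, r.invol ρ (hV σ hσ ρ h3)])
        rw [e3]
        have e4 := r.inc_eq σ hσ (r.map τ) (r.mem τ hτ)
        rw [r.invol τ hτ] at e4
        rw [e4]
        linear_combination (K.inc σ (r.map τ) * r.sign (r.map τ)) * h2 (r.sign σ)
      · have e3 : ∑ᶠ ρ, K.inc σ ρ * r.mat ρ τ = 0 := by
          rw [finsum_eq_zero_of_forall_eq_zero]
          intro ρ
          by_cases h3 : K.inc σ ρ = 0
          · rw [h3, zero_mul]
          · rw [e2 _ h3, if_neg, mul_zero]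
            intro h4
            exact hτ (h4 ▸ r.mem ρ (hV σ hσ ρ h3))
        have e4 : K.inc (r.map σ) τ = 0 := by
          by_contra h3
          exact hτ (hV _ (r.mem σ hσ) τ h3)
        rw [e3, e4, mul_zero]
    · rw [finsum_eq_single _ σ, finsum_eq_single _ τ, r.mat_of_half hσ h1, if_pos rfl, one_mul]
      · by_cases h3 : K.inc σ τ = 0
        · rw [h3, zero_mul]
        · have h4 := r.isSub_half hV σ ⟨hσ, h1⟩ τ h3
          rw [r.mat_of_half h4.1 h4.2, if_pos rfl, mul_one]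
      · intro ρ hρ
        by_cases h3 : K.inc σ ρ = 0
        · rw [h3, zero_mul]
        · have h4 := r.isSub_half hV σ ⟨hσ, h1⟩ ρ h3
          rw [r.mat_of_half h4.1 h4.2, if_neg hρ, mul_zero]
      · intro ρ hρ
        rw [r.mat_of_half hσ h1, if_neg (Ne.symm hρ), zero_mul]
  aug_eq := by
    classical
    intro σ hσ h0
    by_cases h1 : r.side σ = -1
    · rw [finsum_eq_single _ (r.map σ), r.mat_of_neg hσ h1, if_pos rfl]
      · exact r.aug_eq σ hσ h0
      · intro τ hτ
        rw [r.mat_of_neg hσ h1, if_neg (Ne.symm hτ), zero_mul]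
    · rw [finsum_eq_single _ σ, r.mat_of_half hσ h1, if_pos rfl, one_mul]
      intro τ hτ
      rw [r.mat_of_half hσ h1, if_neg (Ne.symm hτ), zero_mul]
  bound := 2
  row_le := by
    intro σ F
    refine sum_le_two (fun τ => |(r.mat σ τ : ℝ)|) (fun _ => abs_nonneg _) (r.abs_mat_le σ) σ
      (r.map σ) (fun τ h => ?_) F
    have h2 : r.mat σ τ ≠ 0 := fun h2 => h (by simp [h2])
    exact (r.mat_ne h2).2.imp Eq.symm Eq.symm
  col_le := by
    intro τ F
    refine sum_le_two (fun σ => |(r.mat σ τ : ℝ)|) (fun _ => abs_nonneg _)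
      (fun σ => r.abs_mat_le σ τ) τ (r.map τ) (fun σ h => ?_) F
    have h2 : r.mat σ τ ≠ 0 := fun h2 => h (by simp [h2])
    obtain ⟨h4, h3 | h3⟩ := r.mat_ne h2
    · exact Or.inl h3
    · exact Or.inr (by rw [← h3, r.invol σ h4])

theorem splits (hV : K.IsSub V) : K.Splits V r.wall := by
  refine ⟨r.half, r.neg.half, r.isSub_half hV, r.neg.isSub_half hV, ?_, ?_, ⟨r.retr hV⟩,
    ⟨r.neg.retr hV⟩⟩
  · ext σ
    constructor
    · rintro (h | h)
      · exact h.1
      · exact h.1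
    · intro h
      by_cases h1 : r.side σ = -1
      · refine Or.inr ⟨h, ?_⟩
        change -r.side σ ≠ -1
        rw [h1]; decide
      · exact Or.inl ⟨h, h1⟩
  · ext σ
    have key : ∀ s : SignType, s ≠ -1 → -s ≠ -1 → s = 0 := by decide
    constructor
    · rintro ⟨h1, h2⟩
      exact ⟨h1.1, key _ h1.2 h2.2⟩
    · rintro ⟨h1, h2⟩
      refine ⟨⟨h1, by rw [h2]; decide⟩, ⟨h1, ?_⟩⟩
      change -r.side σ ≠ -1
      rw [h2]; decide

theorem iter {k : ℕ} (h : K.Iter k V) : K.Iter (k + 1) r.wall :=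
  BC.Iter.succ k V _ h (r.splits h.isSub)

end Refl

section deck

variable {G : Type} [Group G] (X : FinRes G)

/-- the action of a subgroup of the group of deck transformations -/
def deckAct (V : Set (Cell X)) (C : Subgroup G) (h : ∀ g ∈ C, ∀ σ ∈ V, deck g σ ∈ V)
    (hfin : ∃ F : Finset (Cell X), ∀ σ ∈ V, ∃ g ∈ C, deck g σ ∈ F) :
    FAct (cellBC X) V C where
  act c σ := deck (c : G) σ
  sign _ _ := 1
  mem c σ hσ := h c c.2 σ hσ
  act_one σ _ := Prod.ext (one_mul _) rfl
  act_mul c c' σ _ := Prod.ext (mul_assoc _ _ _) rfl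
  sign_mul _ _ _ _ := (one_mul _).symm
  dim_eq _ _ _ := rfl
  inc_eq c σ _ ρ _ := by
    change (bmat X σ.2 ρ.2).coeff (((c : G) * σ.1)⁻¹ * ((c : G) * ρ.1)) = _
    have : ((c : G) * σ.1)⁻¹ * ((c : G) * ρ.1) = σ.1⁻¹ * ρ.1 := by group
    rw [this]
    simp only [Units.val_one, one_mul]
    rfl
  aug_eq c σ _ _ := by
    simp only [Units.val_one, one_mul]
    rfl
  free c σ _ hc := by
    have h1 : (c : G) * σ.1 = σ.1 := congrArg Prod.fst hc
    exact Subtype.ext (mul_eq_right.1 h1)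
  fin := by
    obtain ⟨F, hF⟩ := hfin
    exact ⟨F, fun σ hσ => by
      obtain ⟨g, hg, h2⟩ := hF σ hσ
      exact ⟨⟨g, hg⟩, h2⟩⟩

end deck

end Pool.Agent.Helper81K9.W
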