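import Pool.Agent.Helper81K9.WallM

/-!
The spectral gap of a subcomplex.
-/

set_option autoImplicit false
set_option linter.unusedSectionVars false

open scoped ENNReal InnerProductSpace

namespace Pool.Agent.Helper81K9.W

section lpop

variable {E : Type}

/-- square summable functions on a set -/
abbrev LV (V : Set E) : Type := lp (fun _ : V => ℂ) 2

lemma memlp_iff_summable' {ι : Type} (f : ι → ℂ) : Memℓp f 2 ↔ Summable fun i => ‖f i‖ ^ 2 := by
  have h4 : (2 : ENNReal).toReal = ((2 : ℕ) : ℝ) := by norm_num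
  rw [memℓp_gen_iff (by norm_num)]
  simp only [h4, Real.rpow_natCast]

open Classical in
/-- extension by zero -/
noncomputable def extV {V : Set E} (x : V → ℂ) (σ : E) : ℂ := if h : σ ∈ V then x ⟨σ, h⟩ else 0

lemma extV_mem {V : Set E} (x : V → ℂ) (σ : V) : extV x σ = x σ := dif_pos σ.2

lemma extV_not {V : Set E} (x : V → ℂ) (σ : E) (h : σ ∉ V) : extV x σ = 0 := dif_neg h

lemma extV_P2 {V : Set E} (x : LV V) : BC.P2 (extV (V := V) x) := by
  have h1 : Summable ((fun σ => ‖extV (V := V) x σ‖ ^ 2) ∘ (Subtype.val : V → E)) := by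
    refine ((memlp_iff_summable' _).1 (lp.memℓp x)).congr fun σ => ?_
    rw [Function.comp_apply, extV_mem]
  refine (Function.Injective.summable_iff Subtype.val_injective ?_).1 h1
  intro σ hσ
  rw [extV_not _ σ (fun h => hσ ⟨⟨σ, h⟩, rfl⟩)]
  simp

/-- restriction of a square summable chain -/
noncomputable def resV (V : Set E) (x : E → ℂ) (hx : BC.P2 x) : LV V :=
  ⟨fun σ => x σ, (memlp_iff_summable' _).2 (hx.comp_injective Subtype.val_injective)⟩

lemma resV_apply (V : Set E) (x : E → ℂ) (hx : BC.P2 x) (σ : V) : resV V x hx σ = x σ := rfl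

lemma extV_resV (V : Set E) (x : E → ℂ) (hx : BC.P2 x) (h : ∀ σ, x σ ≠ 0 → σ ∈ V) :
    extV (V := V) (resV V x hx) = x := by
  funext σ
  by_cases hσ : σ ∈ V
  · exact extV_mem _ ⟨σ, hσ⟩
  · rw [extV_not _ σ hσ]
    by_contra h2
    exact hσ (h σ (Ne.symm h2))

lemma extV_add {V : Set E} (x y : V → ℂ) : extV (x + y) = extV x + extV y := by
  funext σ
  by_cases hσ : σ ∈ V
  · rw [extV, dif_pos hσ, Pi.add_apply, Pi.add_apply, extV, dif_pos hσ, extV, dif_pos hσ]
  · rw [Pi.add_apply, extV_not _ σ hσ, extV_not _ σ hσ, extV_not _ σ hσ, add_zero]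

lemma extV_smul {V : Set E} (c : ℂ) (x : V → ℂ) : extV (c • x) = c • extV x := by
  funext σ
  by_cases hσ : σ ∈ V
  · rw [extV, dif_pos hσ, Pi.smul_apply, Pi.smul_apply, extV, dif_pos hσ]
  · rw [Pi.smul_apply, extV_not _ σ hσ, extV_not _ σ hσ, smul_zero]

variable (K : BC E) (hK : K.Bdd) (V : Set E)

lemma bd_smul (c : ℂ) (x : E → ℂ) : K.bd (c • x) = c • K.bd x := by
  funext ρ
  simp only [BC.bd, Pi.smul_apply, smul_eq_mul, Finset.mul_sum]
  exact Finset.sum_congr rfl fun σ _ => by ring

/-- the boundary operator of `V` on square summable chains, cut down to a set of sources and a set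
of targets -/
noncomputable def TL (S S' : Set E) : LV V →ₗ[ℂ] LV V where
  toFun x := resV V (S'.indicator (K.bd (S.indicator (extV (V := V) x))))
    ((BC.adm_P2 K hK).ind _ _ ((BC.adm_P2 K hK).bd _ ((BC.adm_P2 K hK).ind _ _ (extV_P2 x))))
  map_add' x y := by
    refine lp.ext (funext fun σ => ?_)
    change S'.indicator (K.bd (S.indicator (extV (V := V) ((x : V → ℂ) + (y : V → ℂ))))) σ =
      S'.indicator (K.bd (S.indicator (extV (V := V) x))) σ +
      S'.indicator (K.bd (S.indicator (extV (V := V) y))) σ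
    rw [extV_add, Set.indicator_add', BC.bd_add, Set.indicator_add', Pi.add_apply]
  map_smul' c x := by
    refine lp.ext (funext fun σ => ?_)
    change S'.indicator (K.bd (S.indicator (extV (V := V) (c • (x : V → ℂ))))) σ =
      c • S'.indicator (K.bd (S.indicator (extV (V := V) x))) σ
    have e : ∀ (U : Set E) (f : E → ℂ), U.indicator (c • f) = c • U.indicator f := by
      intro U f
      funext τ
      by_cases h : τ ∈ U
      · rw [Set.indicator_of_mem h, Pi.smul_apply, Pi.smul_apply, Set.indicator_of_mem h]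
      · rw [Set.indicator_of_notMem h, Pi.smul_apply, Set.indicator_of_notMem h, smul_zero]
    rw [extV_smul, e, bd_smul, e, Pi.smul_apply]

lemma TL_apply (S S' : Set E) (x : LV V) (σ : V) :
    TL K hK V S S' x σ = S'.indicator (K.bd (S.indicator (extV (V := V) x))) σ := rfl

lemma cont_coord {V : Set E} (σ : V) : Continuous fun x : LV V => x σ :=
  (continuous_apply σ).comp (lp.uniformContinuous_coe (E := fun _ : V => ℂ) (p := 2)).continuous

lemma cont_extV {V : Set E} (σ : E) : Continuous fun x : LV V => extV (V := V) x σ := by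
  by_cases h : σ ∈ V
  · have e : (fun x : LV V => extV (V := V) x σ) = fun x => x ⟨σ, h⟩ := by
      funext x
      exact extV_mem _ ⟨σ, h⟩
    rw [e]
    exact cont_coord _
  · have e : (fun x : LV V => extV (V := V) x σ) = fun _ => 0 := by
      funext x
      exact extV_not _ σ h
    rw [e]
    exact continuous_const

lemma cont_ind {V : Set E} (S : Set E) (σ : E) :
    Continuous fun x : LV V => S.indicator (extV (V := V) x) σ := by
  by_cases h : σ ∈ S
  · simp only [Set.indicator_of_mem h]
    exact cont_extV σ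
  · simp only [Set.indicator_of_notMem h]
    exact continuous_const

lemma cont_TL (S S' : Set E) (σ : V) : Continuous fun x : LV V => TL K hK V S S' x σ := by
  simp only [TL_apply]
  by_cases h : (σ : E) ∈ S'
  · simp only [Set.indicator_of_mem h, BC.bd]
    exact continuous_finsetSum _ fun τ _ => continuous_const.mul (cont_ind S τ)
  · simp only [Set.indicator_of_notMem h]
    exact continuous_const

/-- the boundary operator as a bounded operator -/
noncomputable def TC (S S' : Set E) : LV V →L[ℂ] LV V :=
  ContinuousLinearMap.ofSeqClosedGraph (g := TL K hK V S S') (by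
    intro u x y hu hy
    refine lp.ext (funext fun σ => ?_)
    have h1 := ((cont_coord σ).tendsto y).comp hy
    have h2 := ((cont_TL K hK V S S' σ).tendsto x).comp hu
    exact tendsto_nhds_unique h1 h2)

lemma TC_apply (S S' : Set E) (x : LV V) (σ : V) :
    TC K hK V S S' x σ = S'.indicator (K.bd (S.indicator (extV (V := V) x))) σ := rfl

section coords

variable [DecidableEq E]

lemma TC_single (S S' : Set E) (σ ρ : V) :
    TC K hK V S S' (lp.single 2 σ (1 : ℂ)) ρ =
      S'.indicator (fun ρ => S.indicator (fun σ => (K.inc σ ρ : ℂ)) (σ : E)) (ρ : E) := by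
  classical
  rw [TC_apply]
  by_cases h : (ρ : E) ∈ S'
  · rw [Set.indicator_of_mem h, Set.indicator_of_mem h]
    have e1 : ∀ τ : E, S.indicator (extV (V := V) (lp.single 2 σ (1 : ℂ) : LV V)) τ =
        if τ = σ then S.indicator (fun _ => (1 : ℂ)) (σ : E) else 0 := by
      intro τ
      by_cases h1 : τ = σ
      · rw [if_pos h1, h1]
        by_cases h2 : (σ : E) ∈ S
        · rw [Set.indicator_of_mem h2, Set.indicator_of_mem h2, extV_mem, lp.single_apply_self]
        · rw [Set.indicator_of_notMem h2, Set.indicator_of_notMem h2]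
      · rw [if_neg h1]
        by_cases h2 : τ ∈ S
        · rw [Set.indicator_of_mem h2]
          by_cases h3 : τ ∈ V
          · have h4 := extV_mem (V := V) (lp.single 2 σ (1 : ℂ) : LV V) ⟨τ, h3⟩
            rw [h4, lp.single_apply_ne]
            intro h5
            exact h1 (congrArg Subtype.val h5)
          · exact extV_not _ τ h3
        · exact Set.indicator_of_notMem h2 _
    rw [K.bd_eq _ _ {(σ : E)}, Finset.sum_singleton, e1, if_pos rfl]
    · by_cases h2 : (σ : E) ∈ S
      · rw [Set.indicator_of_mem h2, Set.indicator_of_mem h2, mul_one]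
      · rw [Set.indicator_of_notMem h2, Set.indicator_of_notMem h2, mul_zero]
    · intro τ _ h2
      rw [e1] at h2
      rw [Finset.mem_singleton]
      by_contra h3
      exact h2 (if_neg h3)
  · rw [Set.indicator_of_notMem h, Set.indicator_of_notMem h]

lemma adj_apply (S S' : Set E) (x : LV V) (A : Finset V) (hA : ∀ ρ, ρ ∉ A → x ρ = 0) (σ : V) :
    ContinuousLinearMap.adjoint (TC K hK V S S') x σ = S.indicator (fun σ => ∑ ρ ∈ A,
      (K.inc σ ρ : ℂ) * S'.indicator (fun _ => x ρ) (ρ : E)) (σ : E) := by
  have h1 : ContinuousLinearMap.adjoint (TC K hK V S S') x σ =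
      ⟪(lp.single 2 σ (1 : ℂ) : LV V), ContinuousLinearMap.adjoint (TC K hK V S S') x⟫_ℂ := by
    rw [lp.inner_single_left]
    simp
  rw [h1, ContinuousLinearMap.adjoint_inner_right, lp.inner_eq_tsum, tsum_eq_sum (s := A)]
  · by_cases h2 : (σ : E) ∈ S
    · rw [Set.indicator_of_mem h2]
      refine Finset.sum_congr rfl fun ρ _ => ?_
      rw [TC_single]
      by_cases h3 : (ρ : E) ∈ S'
      · rw [Set.indicator_of_mem h3, Set.indicator_of_mem h2, Set.indicator_of_mem h3]
        simp [mul_comm]
      · rw [Set.indicator_of_notMem h3, Set.indicator_of_notMem h3]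
        simp
    · rw [Set.indicator_of_notMem h2]
      refine Finset.sum_eq_zero fun ρ _ => ?_
      rw [TC_single]
      by_cases h3 : (ρ : E) ∈ S'
      · rw [Set.indicator_of_mem h3, Set.indicator_of_notMem h2]
        simp
      · rw [Set.indicator_of_notMem h3]
        simp
  · intro ρ hρ
    rw [hA ρ hρ, inner_zero_right]

lemma TC_fin (S S' : Set E) (x : LV V) (A : Finset V) (hA : ∀ ρ, ρ ∉ A → x ρ = 0) (σ : V) :
    TC K hK V S S' x σ = S'.indicator (fun σ => ∑ ρ ∈ A,
      (K.inc ρ σ : ℂ) * S.indicator (fun _ => x ρ) (ρ : E)) (σ : E) := by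
  classical
  rw [TC_apply]
  by_cases h : (σ : E) ∈ S'
  · rw [Set.indicator_of_mem h, Set.indicator_of_mem h, K.bd_eq _ _ (A.map ⟨_, Subtype.val_injective⟩),
      Finset.sum_map]
    · refine Finset.sum_congr rfl fun ρ _ => ?_
      change (K.inc ρ σ : ℂ) * S.indicator (extV (V := V) x) (ρ : E) = _
      by_cases h2 : (ρ : E) ∈ S
      · rw [Set.indicator_of_mem h2, Set.indicator_of_mem h2, extV_mem]
      · rw [Set.indicator_of_notMem h2, Set.indicator_of_notMem h2]
    · intro τ _ h2
      by_cases h3 : τ ∈ V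
      · rw [Finset.mem_map]
        refine ⟨⟨τ, h3⟩, ?_, rfl⟩
        by_contra h4
        refine h2 ?_
        by_cases h5 : τ ∈ S
        · rw [Set.indicator_of_mem h5]
          exact (extV_mem (V := V) x ⟨τ, h3⟩).trans (hA _ h4)
        · exact Set.indicator_of_notMem h5 _
      · refine absurd ?_ h2
        by_cases h5 : τ ∈ S
        · rw [Set.indicator_of_mem h5]
          exact extV_not _ τ h3
        · exact Set.indicator_of_notMem h5 _
  · rw [Set.indicator_of_notMem h, Set.indicator_of_notMem h]

end coords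

end lpop

end Pool.Agent.Helper81K9.W
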