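import Pool.Agent.Helper81K9.WallN

/-!
Spectral gaps of subcomplexes.
-/

set_option autoImplicit false
set_option linter.unusedSectionVars false

open scoped ENNReal InnerProductSpace

namespace Pool.Agent.Helper81K9.W

section abs

variable {H : Type} [NormedAddCommGroup H] [InnerProductSpace ℂ H] [CompleteSpace H]

lemma norm_le_of_isUnit (S : H →L[ℂ] H) (hS : IsUnit S) : ∃ m : ℝ, 0 < m ∧ ∀ x, ‖x‖ ≤ m * ‖S x‖ := by
  obtain ⟨u, rfl⟩ := hS
  refine ⟨‖(u⁻¹ : (H →L[ℂ] H)ˣ).1‖ + 1, by positivity, fun x => ?_⟩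
  have h1 : (u⁻¹ : (H →L[ℂ] H)ˣ).1 (u.1 x) = x := by
    have h2 : (u⁻¹ : (H →L[ℂ] H)ˣ).1 * u.1 = 1 := u.inv_mul
    exact congrArg (fun T : H →L[ℂ] H => T x) h2
  calc ‖x‖ = ‖(u⁻¹ : (H →L[ℂ] H)ˣ).1 (u.1 x)‖ := by rw [h1]
    _ ≤ ‖(u⁻¹ : (H →L[ℂ] H)ˣ).1‖ * ‖u.1 x‖ := ContinuousLinearMap.le_opNorm _ _
    _ ≤ _ := mul_le_mul_of_nonneg_right (by linarith) (norm_nonneg _)

theorem gap_of_hodge (T : H →L[ℂ] H) (hTT : ∀ x, T (T x) = 0)
    (hu : IsUnit ((ContinuousLinearMap.adjoint T).comp T + T.comp (ContinuousLinearMap.adjoint T))) :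
    ∃ c : ℝ, 0 < c ∧ ∀ x, c * ‖x‖ ^ 2 ≤ ‖T x + ContinuousLinearMap.adjoint T x‖ ^ 2 := by
  set Ta := ContinuousLinearMap.adjoint T with hTa
  have hTTa : ∀ x, Ta (Ta x) = 0 := by
    intro x
    have h1 : T.comp T = 0 := ContinuousLinearMap.ext hTT
    have h2 : Ta.comp Ta = 0 := by
      rw [hTa, ← ContinuousLinearMap.adjoint_comp, h1, map_zero]
    exact congrArg (fun R : H →L[ℂ] H => R x) h2
  obtain ⟨m, hm, h⟩ := norm_le_of_isUnit _ hu
  set D : H →L[ℂ] H := T + Ta with hD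
  have hDD : ∀ x, (Ta.comp T + T.comp Ta) x = D (D x) := by
    intro x
    change Ta (T x) + T (Ta x) = T (T x + Ta x) + Ta (T x + Ta x)
    rw [map_add, map_add, hTT, hTTa, zero_add, add_zero, add_comm]
  set n : ℝ := m * (‖D‖ + 1) with hn
  have hn0 : 0 < n := by positivity
  refine ⟨1 / n ^ 2, by positivity, fun x => ?_⟩
  have h1 : ‖x‖ ≤ n * ‖D x‖ := by
    refine (h x).trans ?_
    rw [hDD, hn, mul_assoc]
    refine mul_le_mul_of_nonneg_left ?_ hm.le
    exact (ContinuousLinearMap.le_opNorm _ _).trans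
      (mul_le_mul_of_nonneg_right (by linarith) (norm_nonneg _))
  have h2 : ‖x‖ ^ 2 ≤ n ^ 2 * ‖D x‖ ^ 2 := by
    rw [← mul_pow]
    exact pow_le_pow_left₀ (norm_nonneg _) h1 2
  change 1 / n ^ 2 * ‖x‖ ^ 2 ≤ ‖D x‖ ^ 2
  rw [one_div, inv_mul_le_iff₀ (by positivity)]
  exact h2

end abs

section gap

variable {E : Type} (K : BC E) (hK : K.Bdd) (V : Set E)

lemma P2_add {x y : E → ℂ} (hx : BC.P2 x) (hy : BC.P2 y) : BC.P2 (x + y) := by
  have h1 : BC.P2 (-y) := by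
    have h2 : BC.P2 (0 : E → ℂ) := by
      change Summable fun σ : E => ‖(0 : E → ℂ) σ‖ ^ 2
      simp only [Pi.zero_apply, norm_zero]
      exact summable_zero.congr fun _ => by ring
    have h3 := h2.sub hy
    rwa [zero_sub] at h3
  have h4 := hx.sub h1
  rwa [sub_neg_eq_add] at h4

lemma P2_sum {ι : Type} (s : Finset ι) (f : ι → E → ℂ) (h : ∀ i ∈ s, BC.P2 (f i)) :
    BC.P2 (∑ i ∈ s, f i) := by
  classical
  induction s using Finset.induction_on with
  | empty =>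
    rw [Finset.sum_empty]
    change Summable fun σ : E => ‖(0 : E → ℂ) σ‖ ^ 2
    simp only [Pi.zero_apply, norm_zero]
    exact summable_zero.congr fun _ => by ring
  | insert a s ha ih =>
    rw [Finset.sum_insert ha]
    exact P2_add (h a (Finset.mem_insert_self _ _))
      (ih fun i hi => h i (Finset.mem_insert_of_mem hi))

lemma bd_sum {ι : Type} (s : Finset ι) (f : ι → E → ℂ) :
    K.bd (∑ i ∈ s, f i) = ∑ i ∈ s, K.bd (f i) := by
  classical
  induction s using Finset.induction_on with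
  | empty => rw [Finset.sum_empty, Finset.sum_empty, K.bd_zero]
  | insert a s ha ih => rw [Finset.sum_insert ha, Finset.sum_insert ha, K.bd_add, ih]

/-- the boundary operator of `V` -/
noncomputable def bdV : LV V →L[ℂ] LV V := TC K hK V Set.univ Set.univ

lemma bdV_apply (x : LV V) (σ : V) : bdV K hK V x σ = K.bd (extV (V := V) x) σ := by
  rw [bdV, TC_apply, Set.indicator_univ, Set.indicator_univ]

variable {V}

lemma extV_bdV (hV : K.IsSub V) (x : LV V) :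
    extV (V := V) (bdV K hK V x) = K.bd (extV (V := V) x) := by
  funext σ
  by_cases h : σ ∈ V
  · exact (extV_mem (V := V) _ ⟨σ, h⟩).trans (bdV_apply K hK V x ⟨σ, h⟩)
  · rw [extV_not _ σ h]
    symm
    by_contra h1
    obtain ⟨τ, h2, h3⟩ := K.bd_ne h1
    have h4 : τ ∈ V := by
      by_contra h4; exact h3 (extV_not _ τ h4)
    exact h (hV τ h4 σ h2)

lemma bdV_bdV (hV : K.IsSub V) (x : LV V) : bdV K hK V (bdV K hK V x) = 0 := by
  refine lp.ext (funext fun σ => ?_)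
  rw [bdV_apply, extV_bdV K hK hV, K.bd_bd]
  rfl

theorem bdV_exact (hV : K.IsSub V) (N : ℕ) (hN : ∀ σ ∈ V, K.dim σ ≤ N)
    (hex : ∀ j ≤ N, K.Ex BC.P2 (fun _ => 0) V j) (x : LV V) (hx : bdV K hK V x = 0) :
    ∃ y, bdV K hK V y = x := by
  set X : E → ℂ := extV (V := V) x with hX
  have hbX : K.bd X = 0 := by
    rw [hX, ← extV_bdV K hK hV, hx]
    funext σ
    by_cases h : σ ∈ V
    · exact extV_mem (V := V) _ ⟨σ, h⟩
    · exact extV_not _ σ h
  have hXV : ∀ σ, X σ ≠ 0 → σ ∈ V := by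
    intro σ h
    by_contra h1; exact h (extV_not _ σ h1)
  set Y : ℕ → E → ℂ := fun j => ({σ | K.dim σ = j} : Set E).indicator X with hY
  have hYj : ∀ j, K.InV V j (Y j) := by
    intro j σ h
    have h1 : σ ∈ ({σ | K.dim σ = j} : Set E) := by
      by_contra h1; exact h (Set.indicator_of_notMem h1 _)
    refine ⟨hXV σ fun h2 => h ?_, h1⟩
    rw [hY]
    change ({σ | K.dim σ = j} : Set E).indicator X σ = 0
    rw [Set.indicator_of_mem h1, h2]
  have hYb : ∀ j, K.bd (Y j) = 0 := by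
    intro j
    funext ρ
    by_cases h : K.dim ρ + 1 = j
    · have h2 : K.bd (Y j) ρ = K.bd X ρ := by
        refine Finset.sum_congr rfl fun σ hσ => ?_
        rw [BC.mem_cofS] at hσ
        have h1 := K.dim_inc σ ρ hσ
        rw [hY]
        change _ * ({σ | K.dim σ = j} : Set E).indicator X σ = _
        rw [Set.indicator_of_mem (show σ ∈ {σ | K.dim σ = j} from h1.trans h)]
      rw [h2, hbX]
    · by_contra hne
      obtain ⟨σ, h1, h2⟩ := K.bd_ne hne
      have h3 := (hYj j σ h2).2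
      have h4 := K.dim_inc σ ρ h1
      exact h (by omega)
  have hYs : ∑ j ∈ Finset.range (N + 1), Y j = X := by
    funext σ
    rw [Finset.sum_apply]
    by_cases h : X σ = 0
    · rw [h]
      refine Finset.sum_eq_zero fun j _ => ?_
      by_contra h1
      have h2 : Y j σ = X σ := Set.indicator_of_mem (s := {τ | K.dim τ = j}) (hYj j σ h1).2 X
      exact h1 (h2.trans h)
    · rw [Finset.sum_eq_single (K.dim σ)]
      · exact Set.indicator_of_mem (s := {τ | K.dim τ = K.dim σ}) rfl _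
      · intro j _ hj
        exact Set.indicator_of_notMem (s := {τ | K.dim τ = j}) (Ne.symm hj) _
      · intro h1
        exact absurd (Finset.mem_range.2 (Nat.lt_succ_iff.2 (hN σ (hXV σ h)))) h1
  have hYP : ∀ j, BC.P2 (Y j) := fun j => (extV_P2 x).ind _
  choose y hy1 hy2 hy3 using fun j (hj : j ≤ N) => hex j hj (Y j) (hYP j) (hYj j) (hYb j)
    (fun _ => rfl)
  let z : ℕ → E → ℂ := fun j => if h : j ≤ N then y j h else 0
  have hz : ∀ j (h : j ≤ N), z j = y j h := fun j h => dif_pos h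
  have hlt : ∀ j ∈ Finset.range (N + 1), j ≤ N := fun j hj => Nat.lt_succ_iff.1 (Finset.mem_range.1 hj)
  have hZP : BC.P2 (∑ j ∈ Finset.range (N + 1), z j) := P2_sum _ _ fun j hj => by
    rw [hz j (hlt j hj)]; exact hy1 j _
  have hZV : ∀ σ, (∑ j ∈ Finset.range (N + 1), z j) σ ≠ 0 → σ ∈ V := by
    intro σ h
    rw [Finset.sum_apply] at h
    obtain ⟨j, hj, h1⟩ := Finset.exists_ne_zero_of_sum_ne_zero h
    rw [hz j (hlt j hj)] at h1
    exact (hy2 j _ σ h1).1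
  refine ⟨resV V _ hZP, lp.ext (funext fun σ => ?_)⟩
  rw [bdV_apply, extV_resV V _ hZP hZV, bd_sum]
  have h1 : ∑ j ∈ Finset.range (N + 1), K.bd (z j) = ∑ j ∈ Finset.range (N + 1), Y j :=
    Finset.sum_congr rfl fun j hj => by rw [hz j (hlt j hj), hy3]
  rw [h1, hYs, hX, extV_mem]

theorem bdV_gap (hV : K.IsSub V) (N : ℕ) (hN : ∀ σ ∈ V, K.dim σ ≤ N)
    (hex : ∀ j ≤ N, K.Ex BC.P2 (fun _ => 0) V j) :
    ∃ c : ℝ, 0 < c ∧ ∀ x : LV V,
      c * ‖x‖ ^ 2 ≤ ‖bdV K hK V x + ContinuousLinearMap.adjoint (bdV K hK V) x‖ ^ 2 := by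
  refine gap_of_hodge _ (bdV_bdV K hK hV) ?_
  refine hodge _ _ (bdV_bdV K hK hV) (bdV_exact K hK hV N hN hex) ?_
  have h : Set.range (bdV K hK V) = (bdV K hK V) ⁻¹' {0} := by
    ext x
    constructor
    · rintro ⟨y, rfl⟩
      exact bdV_bdV K hK hV y
    · intro hx
      exact bdV_exact K hK hV N hN hex x hx
  rw [h]
  exact isClosed_singleton.preimage (ContinuousLinearMap.continuous _)

/-- the symmetric matrix of incidence numbers -/
noncomputable def sB (σ ρ : V) : ℝ := (K.inc σ ρ : ℝ) + (K.inc ρ σ : ℝ)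

include hK in
theorem gapV (hV : K.IsSub V) (N : ℕ) (hN : ∀ σ ∈ V, K.dim σ ≤ N)
    (hex : ∀ j ≤ N, K.Ex BC.P2 (fun _ => 0) V j) :
    ∃ c : ℝ, 0 < c ∧ ∀ (A A' : Finset V), (∀ ρ ∈ A, ∀ σ, sB K σ ρ ≠ 0 → σ ∈ A') →
      ∀ x : V → ℂ, (∀ σ, σ ∉ A → x σ = 0) →
      c * ∑ σ ∈ A, ‖x σ‖ ^ 2 ≤ ∑ σ ∈ A', ‖∑ ρ ∈ A, (sB K σ ρ : ℂ) * x ρ‖ ^ 2 := by
  classical
  obtain ⟨c, hc, h⟩ := bdV_gap K hK hV N hN hex
  refine ⟨c, hc, fun A A' hA x hx => ?_⟩
  have hmem : Memℓp (E := fun _ : V => ℂ) x 2 := by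
    rw [memlp_iff_summable']
    refine summable_of_ne_finset_zero (s := A) fun σ hσ => ?_
    rw [hx σ hσ]; simp
  set v : LV V := ⟨x, hmem⟩ with hv
  have hvx : ∀ σ, v σ = x σ := fun _ => rfl
  have h1 := h v
  have hnorm : ∀ (w : LV V) (B : Finset V), (∀ σ, σ ∉ B → w σ = 0) →
      ‖w‖ ^ 2 = ∑ σ ∈ B, ‖w σ‖ ^ 2 := by
    intro w B hB
    have h2 := lp.hasSum_norm (p := 2) (by norm_num) w
    have h4 : (2 : ENNReal).toReal = ((2 : ℕ) : ℝ) := by norm_num
    simp only [h4, Real.rpow_natCast] at h2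
    rw [← h2.tsum_eq]
    exact tsum_eq_sum fun σ hσ => by rw [hB σ hσ]; simp
  have hw : ∀ σ : V, (bdV K hK V v + ContinuousLinearMap.adjoint (bdV K hK V) v) σ =
      ∑ ρ ∈ A, (sB K σ ρ : ℂ) * x ρ := by
    intro σ
    have e1 := TC_fin K hK V Set.univ Set.univ v A hx σ
    have e2 := adj_apply K hK V Set.univ Set.univ v A hx σ
    rw [Set.indicator_univ] at e1 e2
    have e3 : (bdV K hK V v + ContinuousLinearMap.adjoint (bdV K hK V) v) σ =
        bdV K hK V v σ + ContinuousLinearMap.adjoint (bdV K hK V) v σ := rfl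
    rw [e3]
    change TC K hK V Set.univ Set.univ v σ +
      ContinuousLinearMap.adjoint (TC K hK V Set.univ Set.univ) v σ = _
    rw [e1, e2, ← Finset.sum_add_distrib]
    refine Finset.sum_congr rfl fun ρ _ => ?_
    rw [Set.indicator_univ, hvx, sB]
    push_cast
    ring
  rw [hnorm v A hx, hnorm _ A' (fun σ hσ => by
    rw [hw]
    refine Finset.sum_eq_zero fun ρ hρ => ?_
    have h2 : sB K σ ρ = 0 := by
      by_contra h2; exact hσ (hA ρ hρ σ h2)
    rw [h2]; simp)] at h1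
  refine h1.trans (le_of_eq ?_)
  exact Finset.sum_congr rfl fun σ _ => by rw [hw]

end gap

end Pool.Agent.Helper81K9.W
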