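import Pool.Agent.Helper81K9.WallO

/-!
Amenable subcomplexes.
-/

set_option autoImplicit false
set_option linter.unusedSectionVars false

open scoped ENNReal InnerProductSpace

namespace Pool.Agent.Helper81K9.W

open Pool.Agent.H919R4.ZS
open Pool.Agent.R778.ZS (Cell Bas bmat inc dim)
open Pool.Agent.TH38.ZT (ExAt exAt_iff)

section two

variable {E : Type} (K : BC E) (hK : K.Bdd) (S S' : Set E)

/-- the boundary operator from the chains in `S` to the chains in `S'` -/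
noncomputable def UL : LV S →ₗ[ℂ] LV S' where
  toFun x := resV S' (K.bd (extV (V := S) x)) ((BC.adm_P2 K hK).bd _ (extV_P2 x))
  map_add' x y := by
    refine lp.ext (funext fun σ => ?_)
    change K.bd (extV (V := S) ((x : S → ℂ) + (y : S → ℂ))) σ =
      K.bd (extV (V := S) x) σ + K.bd (extV (V := S) y) σ
    rw [extV_add, BC.bd_add, Pi.add_apply]
  map_smul' c x := by
    refine lp.ext (funext fun σ => ?_)
    change K.bd (extV (V := S) (c • (x : S → ℂ))) σ = c • K.bd (extV (V := S) x) σ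
    rw [extV_smul, bd_smul, Pi.smul_apply]

lemma UL_apply (x : LV S) (σ : S') : UL K hK S S' x σ = K.bd (extV (V := S) x) σ := rfl

/-- the boundary operator as a bounded operator -/
noncomputable def UC : LV S →L[ℂ] LV S' :=
  ContinuousLinearMap.ofSeqClosedGraph (g := UL K hK S S') (by
    intro u x y hu hy
    refine lp.ext (funext fun σ => ?_)
    have h1 := ((cont_coord σ).tendsto y).comp hy
    have h3 : Continuous fun x : LV S => UL K hK S S' x σ := by
      simp only [UL_apply, BC.bd]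
      exact continuous_finsetSum _ fun τ _ => continuous_const.mul (cont_extV τ)
    have h2 := (h3.tendsto x).comp hu
    exact tendsto_nhds_unique h1 h2)

lemma UC_apply (x : LV S) (σ : S') : UC K hK S S' x σ = K.bd (extV (V := S) x) σ := rfl

lemma UC_single [DecidableEq E] (σ : S) (ρ : S') :
    UC K hK S S' (lp.single 2 σ (1 : ℂ)) ρ = (K.inc σ ρ : ℂ) := by
  classical
  rw [UC_apply]
  have e1 : ∀ τ : E, extV (V := S) (lp.single 2 σ (1 : ℂ) : LV S) τ = if τ = σ then 1 else 0 := by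
    intro τ
    by_cases h1 : τ = σ
    · rw [if_pos h1, h1]
      rw [extV_mem, lp.single_apply_self]
    · rw [if_neg h1]
      by_cases h3 : τ ∈ S
      · have h4 := extV_mem (V := S) (lp.single 2 σ (1 : ℂ) : LV S) ⟨τ, h3⟩
        rw [h4, lp.single_apply_ne]
        intro h5
        exact h1 (congrArg Subtype.val h5)
      · exact extV_not _ τ h3
  rw [K.bd_eq _ _ {(σ : E)}, Finset.sum_singleton, e1, if_pos rfl, mul_one]
  intro τ _ h2
  rw [e1] at h2
  rw [Finset.mem_singleton]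
  by_contra h3
  exact h2 (if_neg h3)

lemma adj_UC [DecidableEq E] (x : LV S') (A : Finset S') (hA : ∀ ρ, ρ ∉ A → x ρ = 0) (σ : S) :
    ContinuousLinearMap.adjoint (UC K hK S S') x σ = ∑ ρ ∈ A, (K.inc σ ρ : ℂ) * x ρ := by
  have h1 : ContinuousLinearMap.adjoint (UC K hK S S') x σ =
      ⟪(lp.single 2 σ (1 : ℂ) : LV S), ContinuousLinearMap.adjoint (UC K hK S S') x⟫_ℂ := by
    rw [lp.inner_single_left]
    simp
  rw [h1, ContinuousLinearMap.adjoint_inner_right, lp.inner_eq_tsum, tsum_eq_sum (s := A)]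
  · refine Finset.sum_congr rfl fun ρ _ => ?_
    rw [UC_single]
    simp [mul_comm]
  · intro ρ hρ
    rw [hA ρ hρ, inner_zero_right]

end two

section gap0

variable {E : Type} (K : BC E) (hK : K.Bdd) (V : Set E)

/-- the cells of dimension `j` in `V` -/
def lay (K : BC E) (V : Set E) (j : ℕ) : Set E := {σ | σ ∈ V ∧ K.dim σ = j}

theorem gap0 (hex : K.Ex BC.P2 (fun _ => 0) V 0) :
    ∃ c : ℝ, 0 < c ∧ ∀ x : LV (lay K V 0),
      c * ‖x‖ ^ 2 ≤ ‖ContinuousLinearMap.adjoint (UC K hK (lay K V 1) (lay K V 0)) x‖ ^ 2 := by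
  set T := UC K hK (lay K V 1) (lay K V 0) with hT
  have hsurj : ∀ x : LV (lay K V 0), (0 : LV (lay K V 0) →L[ℂ] LV (lay K V 0)) x = 0 →
      ∃ y, T y = x := by
    intro x _
    obtain ⟨y, hy, hyV, hyx⟩ := hex (extV (V := lay K V 0) x) (extV_P2 x) (by
      intro σ hσ
      by_contra h
      exact hσ (extV_not _ σ h)) (by
      funext ρ
      by_contra hne
      obtain ⟨σ, h1, h2⟩ := K.bd_ne hne
      have h3 : σ ∈ lay K V 0 := by
        by_contra h3; exact h2 (extV_not _ σ h3)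
      have h4 := K.dim_inc σ ρ h1
      have h5 := h3.2
      omega) (fun _ => rfl)
    refine ⟨resV _ y hy, lp.ext (funext fun σ => ?_)⟩
    have h9 : ∀ σ, y σ ≠ 0 → σ ∈ lay K V 1 := fun σ h => hyV σ h
    rw [hT, UC_apply, extV_resV (lay K V 1) y hy h9, hyx]
    exact extV_mem (V := lay K V 0) _ σ
  have hcl : IsClosed (Set.range (0 : LV (lay K V 0) →L[ℂ] LV (lay K V 0))) := by
    have h : Set.range (0 : LV (lay K V 0) →L[ℂ] LV (lay K V 0)) = {0} := by
      ext x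
      constructor
      · rintro ⟨y, rfl⟩; rfl
      · rintro rfl
        exact ⟨0, rfl⟩
    rw [h]
    exact isClosed_singleton
  have hu := hodge (0 : LV (lay K V 0) →L[ℂ] LV (lay K V 0)) T (fun _ => rfl) hsurj hcl
  rw [map_zero, ContinuousLinearMap.zero_comp, zero_add] at hu
  obtain ⟨m, hm, h⟩ := norm_le_of_isUnit _ hu
  set n : ℝ := m * (‖T‖ + 1) with hn
  have hn0 : 0 < n := by positivity
  refine ⟨1 / n ^ 2, by positivity, fun x => ?_⟩
  have h1 : ‖x‖ ≤ n * ‖ContinuousLinearMap.adjoint T x‖ := by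
    refine (h x).trans ?_
    rw [hn, mul_assoc]
    refine mul_le_mul_of_nonneg_left ?_ hm.le
    exact (ContinuousLinearMap.le_opNorm T _).trans
      (mul_le_mul_of_nonneg_right (by linarith) (norm_nonneg _))
  have h2 : ‖x‖ ^ 2 ≤ n ^ 2 * ‖ContinuousLinearMap.adjoint T x‖ ^ 2 := by
    rw [← mul_pow]
    exact pow_le_pow_left₀ (norm_nonneg _) h1 2
  rw [one_div, inv_mul_le_iff₀ (by positivity)]
  exact h2

lemma lv_norm_sq {S : Set E} (w : LV S) (B : Finset S) (hB : ∀ σ, σ ∉ B → w σ = 0) :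
    ‖w‖ ^ 2 = ∑ σ ∈ B, ‖w σ‖ ^ 2 := by
  have h2 := lp.hasSum_norm (p := 2) (by norm_num) w
  have h4 : (2 : ENNReal).toReal = ((2 : ℕ) : ℝ) := by norm_num
  simp only [h4, Real.rpow_natCast] at h2
  rw [← h2.tsum_eq]
  exact tsum_eq_sum fun σ hσ => by rw [hB σ hσ]; simp

/-- the cells of dimension one in `V` with one end in `F` and another end not in `F` -/
def edgeBd (K : BC E) (V : Set E) (F : Finset E) : Set E :=
  {σ | σ ∈ V ∧ K.dim σ = 1 ∧ (∃ ρ ∈ F, K.inc σ ρ ≠ 0) ∧ ∃ τ ∉ F, K.inc σ τ ≠ 0}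

lemma edgeBd_finite (F : Finset E) : (edgeBd K V F).Finite := by
  refine (Set.Finite.biUnion F.finite_toSet fun ρ _ => K.cof ρ).subset ?_
  rintro σ ⟨-, -, ⟨ρ, h1, h2⟩, -⟩
  exact Set.mem_biUnion (Finset.mem_coe.2 h1) h2

/-- The Foelner condition for a subcomplex: for every `ε > 0` there is a nonempty finite set `F` of
cells of dimension `0` in `V` such that the number of the cells of dimension `1` in `V` with an end
in `F` and an end outside `F` is at most `ε` times the number of elements of `F`. -/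
def Foelner (K : BC E) (V : Set E) : Prop :=
  ∀ ε : ℝ, 0 < ε → ∃ F : Finset E, F.Nonempty ∧ (∀ ρ ∈ F, ρ ∈ V ∧ K.dim ρ = 0 ∧ K.aug ρ ≠ 0) ∧
    ((edgeBd K V F).ncard : ℝ) ≤ ε * F.card

include hK in
theorem not_foelner (a : ℝ) (ha : ∀ ρ, |(K.aug ρ : ℝ)| ≤ a)
    (hbe : ∀ y : E → ℤ, BC.P0 y → K.eps (K.bd y) = 0)
    (hex : K.Ex BC.P2 (fun _ => 0) V 0) : ¬ Foelner K V := by
  classical
  intro hF
  obtain ⟨c, hc, h⟩ := gap0 K hK V hex
  obtain ⟨b, hb1, hb2⟩ := hK
  have hK : K.Bdd := ⟨b, hb1, hb2⟩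
  obtain ⟨F, hFne, hFV, hFε⟩ := hF (c / (2 * ((a * b) ^ 2 + 1))) (by positivity)
  -- the test function
  set S := lay K V 0 with hS
  let i : F ↪ S := ⟨fun ρ => ⟨ρ, (hFV ρ ρ.2).1, (hFV ρ ρ.2).2.1⟩, fun ρ τ h => by
    exact Subtype.ext (congrArg (fun z : S => (z : E)) h)⟩
  set A : Finset S := F.attach.map i with hA
  have hAmem : ∀ ρ : S, ρ ∈ A ↔ (ρ : E) ∈ F := by
    intro ρ
    rw [hA, Finset.mem_map]
    constructor
    · rintro ⟨τ, -, rfl⟩
      exact τ.2
    · intro h1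
      exact ⟨⟨ρ, h1⟩, Finset.mem_attach _ _, rfl⟩
  let x : S → ℂ := fun ρ => if ρ ∈ A then (K.aug ρ : ℂ) else 0
  have hx0 : ∀ ρ, ρ ∉ A → x ρ = 0 := fun ρ h1 => if_neg h1
  have hmem : Memℓp (E := fun _ : S => ℂ) x 2 := by
    rw [memlp_iff_summable']
    refine summable_of_ne_finset_zero (s := A) fun σ hσ => ?_
    rw [hx0 σ hσ]; simp
  set v : LV S := ⟨x, hmem⟩ with hv
  have hvx : ∀ σ, v σ = x σ := fun _ => rfl
  have h1 := h v
  have hcard : A.card = F.card := by rw [hA, Finset.card_map, Finset.card_attach]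
  have hn1 : (F.card : ℝ) ≤ ‖v‖ ^ 2 := by
    rw [lv_norm_sq v A hx0, ← hcard]
    have h2 : (A.card : ℝ) = ∑ σ ∈ A, (1 : ℝ) := by simp
    rw [h2]
    refine Finset.sum_le_sum fun σ hσ => ?_
    rw [hvx]
    change 1 ≤ ‖(if σ ∈ A then (K.aug σ : ℂ) else 0)‖ ^ 2
    rw [if_pos hσ, Complex.norm_intCast]
    have h3 : K.aug σ ≠ 0 := (hFV σ ((hAmem σ).1 hσ)).2.2
    have h4 : (1 : ℤ) ≤ |K.aug σ| := Int.one_le_abs h3
    have h5 : (1 : ℝ) ≤ |(K.aug σ : ℝ)| := by exact_mod_cast h4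
    nlinarith
  set S1 := lay K V 1 with hS1
  have hval : ∀ σ : S1, ContinuousLinearMap.adjoint (UC K hK S1 S) v σ =
      ((∑ ρ ∈ F, K.inc σ ρ * K.aug ρ : ℤ) : ℂ) := by
    intro σ
    rw [adj_UC K hK S1 S v A hx0 σ, hA, Finset.sum_map]
    push_cast
    rw [← Finset.sum_attach F]
    refine Finset.sum_congr rfl fun ρ _ => ?_
    have h2 : i ρ ∈ A := (hAmem _).2 ρ.2
    change (K.inc σ ρ : ℂ) * (if i ρ ∈ A then (K.aug ρ : ℂ) else 0) = _
    rw [if_pos h2]
  -- the values vanish away from the boundary of `F`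
  have hzero : ∀ σ : S1, (σ : E) ∉ edgeBd K V F → ∑ ρ ∈ F, K.inc σ ρ * K.aug ρ = 0 := by
    intro σ hσ
    by_cases h2 : ∃ ρ ∈ F, K.inc σ ρ ≠ 0
    · have h3 : ∀ τ ∉ F, K.inc σ τ = 0 := by
        intro τ hτ
        by_contra h3
        exact hσ ⟨σ.2.1, σ.2.2, h2, τ, hτ, h3⟩
      have h4 : BC.P0 (fun τ => if τ = (σ : E) then (1 : ℤ) else 0) := by
        refine (Set.finite_singleton (σ : E)).subset fun τ hτ => ?_
        by_contra h5
        exact hτ (if_neg h5)
      have h5 := hbe _ h4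
      have h6 : ∀ ρ, K.bd (fun τ => if τ = (σ : E) then (1 : ℤ) else 0) ρ = K.inc σ ρ := by
        intro ρ
        rw [K.bd_eq _ _ {(σ : E)}, Finset.sum_singleton, if_pos rfl, mul_one, Int.cast_id]
        intro τ _ h7
        rw [Finset.mem_singleton]
        by_contra h8
        exact h7 (if_neg h8)
      rw [K.eps_eq F (fun ρ hρ => by
        by_contra h7
        exact hρ ((h6 ρ).trans (h3 ρ h7)))] at h5
      rw [← h5]
      exact Finset.sum_congr rfl fun ρ _ => by rw [h6]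
    · push Not at h2
      exact Finset.sum_eq_zero fun ρ hρ => by rw [h2 ρ hρ, zero_mul]
  -- the finite set of cells at the boundary
  set D : Finset E := (edgeBd_finite K V F).toFinset with hD
  have hDmem : ∀ σ, σ ∈ D ↔ σ ∈ edgeBd K V F := fun σ => by rw [hD, Set.Finite.mem_toFinset]
  let i' : D ↪ S1 := ⟨fun σ => ⟨σ, ((hDmem σ).1 σ.2).1, ((hDmem σ).1 σ.2).2.1⟩, fun ρ τ h => by
    exact Subtype.ext (congrArg (fun z : S1 => (z : E)) h)⟩
  set D' : Finset S1 := D.attach.map i' with hD'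
  have hD'mem : ∀ σ : S1, (σ : E) ∈ edgeBd K V F → σ ∈ D' := by
    intro σ hσ
    rw [hD', Finset.mem_map]
    exact ⟨⟨σ, (hDmem _).2 hσ⟩, Finset.mem_attach _ _, rfl⟩
  have ha0 : 0 ≤ a := by
    obtain ⟨ρ, hρ⟩ := hFne
    exact (abs_nonneg _).trans (ha ρ)
  have hb0 : 0 ≤ b := by
    obtain ⟨ρ, hρ⟩ := hFne
    simpa using hb1 ρ ∅
  have hn2 : ‖ContinuousLinearMap.adjoint (UC K hK S1 S) v‖ ^ 2 ≤ (a * b) ^ 2 * D.card := by
    rw [lv_norm_sq _ D' (fun σ hσ => by
      rw [hval, hzero σ fun h2 => hσ (hD'mem σ h2)]; simp)]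
    have h2 : (D.card : ℝ) = D'.card := by rw [hD', Finset.card_map, Finset.card_attach]
    rw [h2]
    calc ∑ σ ∈ D', ‖ContinuousLinearMap.adjoint (UC K hK S1 S) v σ‖ ^ 2
        ≤ ∑ σ ∈ D', (a * b) ^ 2 := by
          refine Finset.sum_le_sum fun σ _ => ?_
          refine pow_le_pow_left₀ (norm_nonneg _) ?_ 2
          rw [hval, Complex.norm_intCast]
          push_cast
          calc |∑ ρ ∈ F, (K.inc σ ρ : ℝ) * (K.aug ρ : ℝ)|
              ≤ ∑ ρ ∈ F, |(K.inc σ ρ : ℝ) * (K.aug ρ : ℝ)| := Finset.abs_sum_le_sum_abs _ _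
            _ ≤ ∑ ρ ∈ F, a * |(K.inc σ ρ : ℝ)| := by
                refine Finset.sum_le_sum fun ρ _ => ?_
                rw [abs_mul, mul_comm]
                exact mul_le_mul_of_nonneg_right (ha ρ) (abs_nonneg _)
            _ = a * ∑ ρ ∈ F, |(K.inc σ ρ : ℝ)| := by rw [Finset.mul_sum]
            _ ≤ a * b := mul_le_mul_of_nonneg_left (hb2 σ F) ha0
      _ = (a * b) ^ 2 * D'.card := by rw [Finset.sum_const, nsmul_eq_mul, mul_comm]
  have hDc : (D.card : ℝ) ≤ c / (2 * ((a * b) ^ 2 + 1)) * F.card := by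
    have h2 : (edgeBd K V F).ncard = D.card := Set.ncard_eq_toFinset_card _ _
    rw [← h2]
    exact hFε
  have hFc : (0 : ℝ) < F.card := by exact_mod_cast hFne.card_pos
  have h2 : c * F.card ≤ c * ‖v‖ ^ 2 := mul_le_mul_of_nonneg_left hn1 hc.le
  have h3 : (a * b) ^ 2 * D.card ≤ (a * b) ^ 2 * (c / (2 * ((a * b) ^ 2 + 1)) * F.card) :=
    mul_le_mul_of_nonneg_left hDc (sq_nonneg _)
  have h4 : (a * b) ^ 2 * (c / (2 * ((a * b) ^ 2 + 1)) * F.card) < c * F.card := by
    have h5 : (a * b) ^ 2 * (c / (2 * ((a * b) ^ 2 + 1))) < c := by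
      rw [mul_div_assoc', div_lt_iff₀ (by positivity)]
      nlinarith [sq_nonneg (a * b)]
    nlinarith
  linarith

end gap0

section main

variable {G : Type} [Group G] (X : FinRes G)

lemma augC_bdd : ∃ a : ℝ, ∀ ρ, |((cellBC X).aug ρ : ℝ)| ≤ a := by
  refine ⟨∑ j, |(X.aug j : ℝ)|, fun ρ => ?_⟩
  change |((augC X ρ : ℤ) : ℝ)| ≤ _
  rw [augC]
  split_ifs with h
  · exact Finset.single_le_sum (f := fun j => |(X.aug j : ℝ)|) (fun _ _ => abs_nonneg _)
      (Finset.mem_univ _)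
  · simp only [Int.cast_zero, abs_zero]
    exact Finset.sum_nonneg fun _ _ => abs_nonneg _

theorem amenable_walls {k : ℕ} {V : Set (Cell X)} (hV : (cellBC X).Iter k V)
    (hF : Foelner (cellBC X) V) : ∃ j ≤ k, Nontrivial (X.homology (toRed G) j) := by
  by_contra hcon
  push Not at hcon
  have h1 : ∀ j ≤ k, ExAt X (toRed G) j := fun j hj => (exAt_iff X _ j).2 (hcon j hj)
  have h2 := ex_univ_of_exAt X k h1
  have h3 := (cellBC X).iter ((cellBC X).adm_P2 (cellBC_bdd X)) (fun _ => 0) hV 0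
    (fun j hj => h2 j (by omega)) 0 le_rfl
  obtain ⟨a, ha⟩ := augC_bdd X
  exact not_foelner (cellBC X) (cellBC_bdd X) V a ha (eps_bd X) h3 hF

end main

end Pool.Agent.Helper81K9.W
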